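import Pool.Agent.HPX.Iface
import Pool.Agent.HPP.EGl

/-!
# HPX/AsmX: `AssemblyX`, choice of the parameters

As `HPP/AFin` with `F = ∅`: `V₀` is a bump equal to `1` on `[1/8, 3/8]`; `f := f₀ - δ`, `J` with
`2^(-J) ≤ ε/8`, `w := ⌊f (k-1)/(2^(J+1)+1)⌋`, `m = 2^J w`, `(f₀/2 - ε) k < m ≤ f k/2`; `MainX`, `ErrX`
(with `c₀/2`), `CountProp` with `F = ∅`.
-/

namespace Pool.Agent.HPX

open Filter Pool.Agent.HPP

theorem exists_BpX : ∃ V₀ η : ℝ → ℝ, Bp V₀ η ∧ ∀ y, 1 / 8 ≤ y → y ≤ 3 / 8 → V₀ y = 1 := by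
  let g₁ : ContDiffBump (1 / 4 : ℝ) := ⟨1 / 8, 3 / 16, by norm_num, by norm_num⟩
  let g₂ : ContDiffBump (1 / 4 : ℝ) := ⟨1 / 16, 1 / 8, by norm_num, by norm_num⟩
  refine ⟨g₁, g₂, ?_, ?_⟩
  · constructor
    · intro n; exact g₁.contDiff
    · rw [g₁.tsupport_eq, Real.closedBall_eq_Icc]
      intro x hx
      have h1 : g₁.rOut = 3 / 16 := rfl
      rw [h1] at hx
      constructor <;> [have := hx.1; have := hx.2] <;> linarith
    · intro y; exact ⟨g₁.nonneg, g₁.le_one⟩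
    · refine ⟨1 / 4, ?_⟩
      rw [g₁.one_of_mem_closedBall (Metric.mem_closedBall_self g₁.rIn_pos.le)]
      exact one_ne_zero
    · intro n; exact g₂.contDiff
    · rw [g₂.tsupport_eq, Real.closedBall_eq_Icc]
      intro x hx
      have h1 : g₂.rOut = 1 / 8 := rfl
      rw [h1] at hx
      constructor <;> [have := hx.1; have := hx.2] <;> linarith
    · intro y; exact ⟨g₂.nonneg, g₂.le_one⟩
    · refine ⟨1 / 4, ?_⟩
      rw [g₂.one_of_mem_closedBall (Metric.mem_closedBall_self g₂.rIn_pos.le)]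
      exact one_ne_zero
  · intro y h1 h2
    refine g₁.one_of_mem_closedBall ?_
    rw [Real.closedBall_eq_Icc]
    have h3 : g₁.rIn = 1 / 8 := rfl
    rw [h3]
    constructor <;> linarith

private theorem AsmX_bas (b : ℕ) (hb : 3 ≤ b) : ∃ p, Bas b p := by
  obtain ⟨p, hp, h1, h2⟩ := Nat.exists_prime_lt_and_le_two_mul (b / 2) (by omega)
  refine ⟨p, hb, hp, ?_, by omega⟩
  have h3 : p ≤ b := by omega
  rcases h3.lt_or_eq with h | h
  · exact h
  · exfalso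
    have h4 : p = 2 * (b / 2) := by omega
    have h5 : 2 ∣ p := ⟨b / 2, h4⟩
    have h6 := (Nat.prime_dvd_prime_iff_eq Nat.prime_two hp).mp h5
    omega

private theorem AsmX_N0 {b p m k : ℕ} {F : Finset ℕ} (hb : 3 ≤ b) (hm : 1 ≤ m) (hmk : 2 * m ≤ k)
    (hF : F ⊆ Finset.Ico 1 m) :
    (b : ℝ) ^ ((k : ℝ) - m - 2) / 3 ^ k ≤
      (RR b p m F).card * (b : ℝ) ^ (k - 1) / ((b : ℝ) ^ m * (b ^ m).totient) := by
  have hB : (0 : ℝ) < b := by positivity
  have hB3 : (3 : ℝ) ≤ b := by exact_mod_cast hb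
  have hFc : F.card ≤ m - 1 := by
    have := Finset.card_le_card hF
    rwa [Nat.card_Ico] at this
  have hcard : ((b : ℝ) / 3) ^ (m - 1) ≤ ((RR b p m F).card : ℝ) := by
    rw [card_RR hm hF]
    push_cast
    have h1 : ((b : ℝ) / 3) ≤ ((b / 2 : ℕ) : ℝ) := by
      have : b ≤ 3 * (b / 2) := by omega
      have : (b : ℝ) ≤ 3 * ((b / 2 : ℕ) : ℝ) := by exact_mod_cast this
      linarith
    have h2 : (b : ℝ) / 3 ≤ (b : ℝ) ^ 2 := by nlinarith
    have h3 : (0 : ℝ) ≤ (b : ℝ) / 3 := by positivity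
    calc ((b : ℝ) / 3) ^ (m - 1) = ((b : ℝ) / 3) ^ F.card * ((b : ℝ) / 3) ^ (m - 1 - F.card) := by
          rw [← pow_add]; congr 1; omega
      _ ≤ ((b : ℝ) ^ 2) ^ F.card * ((b / 2 : ℕ) : ℝ) ^ (m - 1 - F.card) := by
          gcongr
  have htot : ((b ^ m).totient : ℝ) ≤ (b : ℝ) ^ m := by
    have := Nat.totient_le (b ^ m)
    exact_mod_cast this
  have htot0 : (0 : ℝ) < ((b ^ m).totient : ℝ) := by
    have : 0 < (b ^ m).totient := Nat.totient_pos.mpr (by positivity)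
    exact_mod_cast this
  have e1 : (b : ℝ) ^ ((k : ℝ) - m - 2) = (b : ℝ) ^ k / ((b : ℝ) ^ m * (b : ℝ) ^ 2) := by
    rw [Real.rpow_sub hB, Real.rpow_sub hB, Real.rpow_natCast, Real.rpow_natCast]
    have : (b : ℝ) ^ (2 : ℝ) = (b : ℝ) ^ 2 := by
      rw [← Real.rpow_natCast]; norm_num
    rw [this, div_div]
  have e2 : (b : ℝ) ^ k = (b : ℝ) * (b : ℝ) ^ (k - 1) := by
    rw [← pow_succ']; congr 1; omega
  have e3 : (b : ℝ) ^ m = (b : ℝ) * (b : ℝ) ^ (m - 1) := by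
    rw [← pow_succ']; congr 1; omega
  have h3k : (3 : ℝ) ^ (m - 1) ≤ 3 ^ k := pow_le_pow_right₀ (by norm_num) (by omega)
  calc (b : ℝ) ^ ((k : ℝ) - m - 2) / 3 ^ k
      ≤ (b : ℝ) ^ ((k : ℝ) - m - 2) / 3 ^ (m - 1) := by
        gcongr
    _ = ((b : ℝ) / 3) ^ (m - 1) * (b : ℝ) ^ (k - 1) / ((b : ℝ) ^ m * (b : ℝ) ^ m) := by
        rw [e1, div_pow, e2, e3]
        field_simp
    _ ≤ ((RR b p m F).card : ℝ) * (b : ℝ) ^ (k - 1) / ((b : ℝ) ^ m * (b ^ m).totient) := by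
        gcongr

private theorem AsmX_growth (L a C : ℝ) (hL : 0 < L) (ha : 0 < a) (hC : 0 < C) :
    ∀ᶠ k : ℕ in atTop, (k : ℝ) * L * (1 + 2 * k * L) ≤ C * Real.exp (a * k) := by
  have h := isLittleO_pow_exp_pos_mul_atTop 2 ha
  have h1 := h.bound (show 0 < C / (L + 2 * L ^ 2) by positivity)
  have h2 := (tendsto_natCast_atTop_atTop (R := ℝ)).eventually h1
  filter_upwards [h2, eventually_ge_atTop 1] with k hk hk1
  have hk1' : (1 : ℝ) ≤ k := by exact_mod_cast hk1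
  rw [Real.norm_of_nonneg (by positivity), Real.norm_of_nonneg (Real.exp_pos _).le] at hk
  have hD : 0 < L + 2 * L ^ 2 := by positivity
  have h3 : (L + 2 * L ^ 2) * (k : ℝ) ^ 2 ≤ C * Real.exp (a * k) := by
    have := mul_le_mul_of_nonneg_left hk hD.le
    calc (L + 2 * L ^ 2) * (k : ℝ) ^ 2 ≤ (L + 2 * L ^ 2) * (C / (L + 2 * L ^ 2) *
          Real.exp (a * k)) := this
      _ = C * Real.exp (a * k) := by field_simp
  have h4 : (k : ℝ) * L ≤ k ^ 2 * L :=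
    mul_le_mul_of_nonneg_right (by nlinarith only [hk1']) hL.le
  calc (k : ℝ) * L * (1 + 2 * k * L) = k * L + 2 * L ^ 2 * (k : ℝ) ^ 2 := by ring
    _ ≤ k ^ 2 * L + 2 * L ^ 2 * (k : ℝ) ^ 2 := by linarith only [h4]
    _ = (L + 2 * L ^ 2) * (k : ℝ) ^ 2 := by ring
    _ ≤ C * Real.exp (a * k) := h3

private theorem AsmX_J (ε : ℝ) (hε : 0 < ε) (J₀ : ℕ) : ∃ J : ℕ, J₀ ≤ J ∧ 5 ≤ J ∧
    (1 / 2 : ℝ) ^ J ≤ ε / 8 := by
  have h1 : Tendsto (fun n : ℕ => (1 / 2 : ℝ) ^ n) atTop (nhds 0) :=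
    tendsto_pow_atTop_nhds_zero_of_lt_one (by norm_num) (by norm_num)
  have e1 := h1.eventually (gt_mem_nhds (show (0 : ℝ) < ε / 8 by positivity))
  obtain ⟨J, ⟨a1, a3⟩, a4⟩ :=
    ((e1.and (eventually_ge_atTop J₀)).and (eventually_ge_atTop 5)).exists
  exact ⟨J, a3, a4, a1.le⟩

theorem assemblyX : AssemblyX := by
  intro f₀ h₀ h₀' hM hC hE ε hε
  obtain ⟨V₀, η, hB, hV⟩ := exists_BpX
  set δ : ℝ := min (ε / 4) ((f₀ - 5 / 12) / 2) with hδ
  have hδ0 : 0 < δ := lt_min (by positivity) (by linarith)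
  have hδ1 : δ ≤ ε / 4 := min_le_left _ _
  have hδ2 : δ ≤ (f₀ - 5 / 12) / 2 := min_le_right _ _
  set f : ℝ := f₀ - δ with hf
  have hf1 : 5 / 12 < f := by rw [hf]; linarith
  have hf2 : f < f₀ := by rw [hf]; linarith
  obtain ⟨J₀, hJ₀⟩ := hE V₀ η hB f hf1 hf2
  obtain ⟨J, hJ1, hJ5, hJa⟩ := AsmX_J ε hε J₀
  obtain ⟨b₁, hb₁⟩ := hJ₀ J hJ1
  refine ⟨max 16 (max b₁ ⌈(3 : ℝ) ^ (4 / δ)⌉₊), fun b hb hbp => ?_⟩
  have hb16 : 16 ≤ b := (le_max_left _ _).trans hb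
  have hb3 : 3 ≤ b := by omega
  have hbb₁ : b₁ ≤ b := ((le_max_left _ _).trans (le_max_right _ _)).trans hb
  have hbδ : (3 : ℝ) ^ (4 / δ) ≤ b :=
    Nat.ceil_le.mp (((le_max_right _ _).trans (le_max_right _ _)).trans hb)
  have hBpos : (0 : ℝ) < b := by positivity
  have hB1 : (1 : ℝ) < b := by
    have : (3 : ℝ) ≤ b := by exact_mod_cast hb3
    linarith
  have hBδ : (3 : ℝ) ≤ (b : ℝ) ^ (δ / 4) := by
    have h := Real.rpow_le_rpow (by positivity) hbδ (show (0 : ℝ) ≤ δ / 4 by positivity)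
    rw [← Real.rpow_mul (by norm_num)] at h
    have e : 4 / δ * (δ / 4) = 1 := by field_simp
    rw [e, Real.rpow_one] at h
    exact h
  obtain ⟨p, hp⟩ := AsmX_bas b hb3
  obtain ⟨c₀, hc₀, w₁, hw₁⟩ := hM V₀ η hB hV b p J hp hb16
  -- the slope of `w`
  set c : ℝ := f / (2 ^ (J + 1) + 1) with hc
  have hc0 : 0 < c := by rw [hc]; positivity
  obtain ⟨w₂, hw₂⟩ := hb₁ b p hbb₁ hbp hp (2 / c) (by positivity) (c₀ / 2) (by positivity)
  -- `w → ∞`
  have hwt : Tendsto (fun k : ℕ => ⌊c * ((k : ℝ) - 1)⌋₊) atTop atTop := by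
    refine tendsto_nat_floor_atTop.comp ?_
    refine Tendsto.const_mul_atTop hc0 ?_
    exact tendsto_atTop_add_const_right _ _ tendsto_natCast_atTop_atTop
  have hL : 0 < Real.log b := Real.log_pos hB1
  have ev2 := hwt.eventually_ge_atTop (max 1 (max w₁ w₂))
  have ev3 := (tendsto_natCast_atTop_atTop (R := ℝ)).eventually_ge_atTop
    (max (2 + 2 / c) ((2 + 2 ^ J) / (5 * ε / 8)))
  have ev4 := AsmX_growth (Real.log b) (δ / 4 * Real.log b) (c₀ / 2 * (b : ℝ) ^ (-2 : ℝ)) hL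
    (by positivity) (by positivity)
  obtain ⟨k₀, hk₀⟩ := eventually_atTop.mp ((ev2.and ev3).and (ev4.and
    (eventually_ge_atTop 1)))
  refine ⟨k₀, fun k hk => ?_⟩
  obtain ⟨⟨e2, e3⟩, e4, e5⟩ := hk₀ k hk
  set w : ℕ := ⌊c * ((k : ℝ) - 1)⌋₊ with hw
  have hw1 : 1 ≤ w := (le_max_left _ _).trans e2
  have hww₁ : w₁ ≤ w := ((le_max_left _ _).trans (le_max_right _ _)).trans e2
  have hww₂ : w₂ ≤ w := ((le_max_right _ _).trans (le_max_right _ _)).trans e2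
  have hk2c : 2 + 2 / c ≤ (k : ℝ) := (le_max_left _ _).trans e3
  have hkJ : (2 + 2 ^ J) / (5 * ε / 8) ≤ (k : ℝ) := (le_max_right _ _).trans e3
  have hkJ' : 2 + (2 : ℝ) ^ J ≤ 5 * ε / 8 * k := by
    rw [div_le_iff₀ (by positivity)] at hkJ
    linarith
  have hk1 : (1 : ℝ) ≤ k := by exact_mod_cast e5
  have hwle : (w : ℝ) ≤ c * ((k : ℝ) - 1) := Nat.floor_le (by
    apply mul_nonneg hc0.le; linarith)
  have hwge : c * ((k : ℝ) - 1) < (w : ℝ) + 1 := Nat.lt_floor_add_one _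
  have hP : (0 : ℝ) < 2 ^ J := by positivity
  have hP1 : (1 : ℝ) ≤ 2 ^ J := one_le_pow₀ (by norm_num)
  have hcP : c * (2 * 2 ^ J + 1) = f := by
    rw [hc, pow_succ]
    field_simp
  have hw0 : (0 : ℝ) ≤ w := Nat.cast_nonneg w
  have hf9 : f < 5 / 9 := lt_of_lt_of_le hf2 h₀'
  have hwf : (2 * 2 ^ J + 1) * (w : ℝ) ≤ f * ((k : ℝ) - 1) := by
    calc (2 * 2 ^ J + 1) * (w : ℝ) ≤ (2 * 2 ^ J + 1) * (c * ((k : ℝ) - 1)) :=
          mul_le_mul_of_nonneg_left hwle (by positivity)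
      _ = c * (2 * 2 ^ J + 1) * ((k : ℝ) - 1) := by ring
      _ = f * ((k : ℝ) - 1) := by rw [hcP]
  have hfw : f * (w : ℝ) ≤ w := by nlinarith only [hf9, hw0]
  have hcond1 : (2 : ℝ) * (2 ^ J * w) ≤ f * (k - 1 - w) := by
    have e : f * ((k : ℝ) - 1 - w) = f * ((k : ℝ) - 1) - f * w := by ring
    rw [e]
    linarith only [hfw, hwf]
  have hcond2 : (k : ℝ) ≤ 2 / c * w := by
    have h1 : (k : ℝ) - 1 < (w + 1) / c := by
      rw [lt_div_iff₀ hc0]; linarith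
    have h2 : 2 / c * w = 2 * ((w + 1) / c) - 2 / c := by field_simp; ring
    rw [h2]
    linarith
  set m : ℕ := 2 ^ J * w with hm
  have hmr : (m : ℝ) = 2 ^ J * w := by rw [hm]; push_cast; ring
  have hm1 : 1 ≤ m := by
    rw [hm]
    exact Nat.one_le_iff_ne_zero.mpr (Nat.mul_ne_zero (by positivity) (by omega))
  have hf0 : 0 < f := by linarith only [hf1]
  have h2m : (2 : ℝ) * m ≤ f * k := by
    rw [hmr]; linarith only [hwf, hw0, hf0]
  have h2mk : 2 * m ≤ k := by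
    have : (2 : ℝ) * m ≤ k := by nlinarith only [h2m, hf9, hk1]
    exact_mod_cast this
  have hMain := hw₁ w hww₁ k h2mk
  have hErr := hw₂ w hww₂ k hcond1 hcond2
  have hCount := hC V₀ η hB b p m k ∅ hp (Finset.empty_subset _) hm1 h2mk
  have hN := AsmX_N0 (p := p) hb3 hm1 h2mk (Finset.empty_subset (Finset.Ico 1 m))
  rw [← hm] at hMain hErr
  -- `(f₀/2 - ε) k < m`
  have hmlow : (f₀ / 2 - ε) * (k : ℝ) < m := by
    set u : ℝ := (1 / 2 : ℝ) ^ J with hu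
    have hu0 : 0 < u := by positivity
    have huP : u * 2 ^ J = 1 := by
      rw [hu, ← mul_pow]; norm_num
    have hcu : c ≤ u := by
      have h5 : c * (2 ^ J) ≤ 1 := by linarith only [hcP, hf9, hc0]
      nlinarith only [h5, huP, hu0, hP]
    have h6 : (f / 2 - u) ≤ 2 ^ J * c := by
      have : 2 * (2 ^ J * c) + c = f := by linarith
      linarith
    have h7 : 2 ^ J * c ≤ 1 := by linarith only [hcP, hf9, hc0]
    have h8 : (f / 2 - u) * k - 1 - 2 ^ J ≤ (m : ℝ) := by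
      rw [hmr]
      have h9 : 2 ^ J * (c * ((k : ℝ) - 1)) ≤ 2 ^ J * ((w : ℝ) + 1) :=
        mul_le_mul_of_nonneg_left hwge.le hP.le
      have h10 : (f / 2 - u) * k ≤ 2 ^ J * c * k :=
        mul_le_mul_of_nonneg_right h6 (by linarith only [hk1])
      linarith only [h7, h9, h10]
    have h11 : u * k ≤ ε / 8 * k := mul_le_mul_of_nonneg_right hJa (by linarith)
    have h12 : δ * k ≤ ε / 4 * k := mul_le_mul_of_nonneg_right hδ1 (by linarith)
    have h13 : (f / 2 - u) * (k : ℝ) = f₀ / 2 * k - δ * k / 2 - u * k := by rw [hf]; ring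
    have h14 : (f₀ / 2 - ε) * (k : ℝ) = f₀ / 2 * k - ε * k := by ring
    rw [h13] at h8
    rw [h14]
    have h15 : 5 * ε / 8 * (k : ℝ) = 5 / 8 * (ε * k) := by ring
    have h16 : ε / 8 * (k : ℝ) = 1 / 8 * (ε * k) := by ring
    have h17 : ε / 4 * (k : ℝ) = 1 / 4 * (ε * k) := by ring
    have h18 : 0 < ε * (k : ℝ) := by positivity
    rw [h15] at hkJ'
    rw [h16] at h11
    rw [h17] at h12
    linarith only [h8, h11, h12, hkJ', h18]
  set G : ℝ := (((Finset.range (b ^ k)).filter fun n => n.Prime ∧ b ^ (k - 1) ≤ n ∧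
    ∀ i < m, i ∉ (∅ : Finset ℕ) →
      (Nat.digits b n).getD i 0 = (Nat.digits b n).getD (k - 1 - i) 0).card : ℝ) with hG
  have hGX : (b : ℝ) ^ ((1 - f₀ / 2) * k : ℝ) ≤ G := by
    set N₀ : ℝ := ((RR b p m ∅).card * (b : ℝ) ^ (k - 1) /
      ((b : ℝ) ^ m * (b ^ m).totient)) with hN₀
    set X : ℝ := (b : ℝ) ^ ((1 - f₀ / 2) * k : ℝ) with hX
    have hX0 : 0 < X := Real.rpow_pos_of_pos hBpos _
    have htot0 : (0 : ℝ) < ((b ^ m).totient : ℝ) := by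
      have : 0 < (b ^ m).totient := Nat.totient_pos.mpr (by positivity)
      exact_mod_cast this
    have hN₀0 : 0 ≤ N₀ := by rw [hN₀]; positivity
    have hE2 : E2 b p J w k (fun y => V₀ (y - p)) / ((b : ℝ) ^ m * (b ^ m).totient) ≤
        c₀ / 2 * N₀ := by
      calc E2 b p J w k (fun y => V₀ (y - p)) / ((b : ℝ) ^ m * (b ^ m).totient)
          ≤ (c₀ / 2 * (RR b p m ∅).card * (b : ℝ) ^ (k - 1)) /
            ((b : ℝ) ^ m * (b ^ m).totient) := by gcongr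
        _ = c₀ / 2 * N₀ := by rw [hN₀]; ring
    have hS : c₀ / 2 * N₀ ≤ k * Real.log b * (G + 2 * k * Real.log b * (b : ℝ) ^ ((k : ℝ) / 2)) := by
      refine le_trans ?_ hCount
      linarith
    have hNX : X * ((b : ℝ) ^ (-2 : ℝ) * Real.exp (δ / 4 * Real.log b * k)) ≤ N₀ := by
      refine le_trans ?_ hN
      have h1 : (3 : ℝ) ^ k ≤ (b : ℝ) ^ (δ / 4 * k) := by
        rw [Real.rpow_mul hBpos.le, Real.rpow_natCast]
        exact pow_le_pow_left₀ (by norm_num) hBδ k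
      have h2 : (b : ℝ) ^ ((1 - f / 2) * k - 2) ≤ (b : ℝ) ^ ((k : ℝ) - m - 2) :=
        Real.rpow_le_rpow_of_exponent_le hB1.le (by linarith only [h2m])
      have h3 : Real.exp (δ / 4 * Real.log b * k) = (b : ℝ) ^ (δ / 4 * k) := by
        rw [Real.rpow_def_of_pos hBpos]; congr 1; ring
      rw [le_div_iff₀ (by positivity)]
      calc X * ((b : ℝ) ^ (-2 : ℝ) * Real.exp (δ / 4 * Real.log b * k)) * 3 ^ k
          ≤ X * ((b : ℝ) ^ (-2 : ℝ) * Real.exp (δ / 4 * Real.log b * k)) *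
            (b : ℝ) ^ (δ / 4 * k) := by gcongr
        _ = (b : ℝ) ^ ((1 - f / 2) * k - 2) := by
            rw [h3, hX, ← Real.rpow_add hBpos, ← Real.rpow_add hBpos, ← Real.rpow_add hBpos]
            congr 1
            rw [hf]; ring
        _ ≤ (b : ℝ) ^ ((k : ℝ) - m - 2) := h2
    have hhalf : (b : ℝ) ^ ((k : ℝ) / 2) ≤ X :=
      Real.rpow_le_rpow_of_exponent_le hB1.le (by nlinarith only [h₀', hk1])
    have hkL : 0 < (k : ℝ) * Real.log b := by positivity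
    have h5 : X * ((k : ℝ) * Real.log b * (1 + 2 * k * Real.log b)) ≤
        k * Real.log b * (G + 2 * k * Real.log b * X) := by
      calc X * ((k : ℝ) * Real.log b * (1 + 2 * k * Real.log b))
          ≤ X * (c₀ / 2 * (b : ℝ) ^ (-2 : ℝ) * Real.exp (δ / 4 * Real.log b * k)) := by gcongr
        _ = c₀ / 2 * (X * ((b : ℝ) ^ (-2 : ℝ) * Real.exp (δ / 4 * Real.log b * k))) := by ring
        _ ≤ c₀ / 2 * N₀ := by gcongr
        _ ≤ k * Real.log b * (G + 2 * k * Real.log b * (b : ℝ) ^ ((k : ℝ) / 2)) := hS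
        _ ≤ k * Real.log b * (G + 2 * k * Real.log b * X) := by gcongr
    have h6 : k * Real.log b * (X * (1 + 2 * k * Real.log b)) ≤
        k * Real.log b * (G + 2 * k * Real.log b * X) := by
      refine le_trans (le_of_eq ?_) h5
      ring
    have h7 := le_of_mul_le_mul_left h6 hkL
    linarith
  refine hGX.trans ?_
  rw [hG]
  norm_cast
  refine Finset.card_le_card ?_
  intro n hn
  simp only [Finset.mem_filter] at hn ⊢
  refine ⟨hn.1, hn.2.1, hn.2.2.1, fun i hi => hn.2.2.2 i ?_ (Finset.notMem_empty i)⟩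
  have : (i : ℝ) < m := lt_of_le_of_lt hi hmlow
  exact_mod_cast this

end Pool.Agent.HPX
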