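import Pool.Agent.HPP.ADefs
import Pool.Agent.HPP.APnt

/-!
# HPX/Iface: second phase of HPP (prime bases, no exceptional positions)

Target `FinalX (5 / 9)`: for every `ε > 0`, all large prime bases `b` and all large `k` there are at
least `b ^ (13 k / 18)` primes with exactly `k` digits whose first `(5 / 18 - ε) k` digits are the last
ones in reverse order. All positions `1 ≤ i < m` are matched: `F = ∅` in `Sd, RR, cc, nw, SSum`.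
Notes: see the table notes, MP_e8d2ce_nt, HPX.
-/

namespace Pool.Agent.HPX

open Complex MeasureTheory Pool.Agent.HPP

/-- (S) pointwise bound: `χ` of exact level `m' ≥ 2` (or any `χ` mod `b` for `m' = 1`),
`b ^ J ≤ max (b ^ m', |t|) ≤ b ^ (J + 1)`, `J ≥ 2` -/
def SupAll : Prop := ∃ C : ℝ, 1 ≤ C ∧ ∀ (b p m m' J : ℕ) (V : ℝ → ℝ) (K : ℝ), b.Prime → Bas b p →
  (∀ y, 0 ≤ V y ∧ V y ≤ 1) → 0 ≤ K → (∀ y z, |V y - V z| ≤ K * |y - z|) → 1 ≤ m' → m' ≤ m →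
  ∀ χ : DirichletCharacter ℂ (b ^ m), χ.FactorsThrough (b ^ m') →
  (2 ≤ m' → ¬ χ.FactorsThrough (b ^ (m' - 1))) → ∀ t : ℝ, |t| ≤ (b : ℝ) ^ (m + m / 8) →
  (b : ℝ) ^ J ≤ max ((b : ℝ) ^ m') |t| → max ((b : ℝ) ^ m') |t| ≤ (b : ℝ) ^ (J + 1) → 2 ≤ J →
  ‖cc b p ∅ V χ t‖ ≤
    C ^ J * (1 + K) * (b : ℝ) ^ (4 - (J : ℝ) / 600) * ((RR b p m ∅).card : ℝ)

/-- (Q) `L^1` norm of the prime polynomial for a small family, with a loss `(log x)^B₀ b^(εJ)` only -/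
def LowProp : Prop := ∃ B₀ : ℝ, 0 ≤ B₀ ∧ ∀ b : ℕ, 2 ≤ b → ∀ ε : ℝ, 0 < ε → ∃ C : ℝ, 0 < C ∧
  ∃ x₀ : ℝ, ∀ x : ℝ, x₀ ≤ x → ∀ J : ℕ, 1 ≤ J → (b : ℝ) ^ J ≤ x ^ (1 / 100 : ℝ) →
  ∑ χ : DirichletCharacter ℂ (b ^ J), ∫ t in Gt χ (Real.log x) ((b : ℝ) ^ J), ‖PP χ t x‖ ≤
    C * (b : ℝ) ^ (ε * J) * x * (Real.log x) ^ B₀

/-- (W) Siegel-Walfisz with the Gaussian weight, moduli `b ^ J ≤ (log x)^A`, odd prime `b` -/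
def SWProp : Prop := ∀ b : ℕ, b.Prime → 3 ≤ b → ∀ A : ℝ, 1 ≤ A → ∃ x₀ : ℝ, ∀ x : ℝ, x₀ ≤ x →
  ∀ J : ℕ, 1 ≤ J → (b : ℝ) ^ J ≤ (Real.log x) ^ A → ∀ χ : DirichletCharacter ℂ (b ^ J), χ ≠ 1 →
  ∀ t : ℝ, |t| ≤ (Real.log x) ^ A → ‖PP χ t x‖ ≤ x * Real.exp (-Real.sqrt (Real.log x))

/-- (W) the principal character -/
def PNTProp : Prop := ∀ b : ℕ, 2 ≤ b → ∀ A : ℝ, 1 ≤ A → ∃ x₀ : ℝ, ∀ x : ℝ, x₀ ≤ x →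
  ∀ J : ℕ, 1 ≤ J → ∀ t : ℝ, |t| ≤ (Real.log x) ^ A →
  ‖PP (1 : DirichletCharacter ℂ (b ^ J)) t x - (x : ℂ) * (x : ℂ) ^ (t * I) * GG t‖ ≤
    x * Real.exp (-Real.sqrt (Real.log x))

/-- all terms but the principal character with `|t| ≤ log x` -/
noncomputable def E2 (b p J w k : ℕ) (V : ℝ → ℝ) : ℝ :=
  ∑ χ : DirichletCharacter ℂ (b ^ (2 ^ J * w)),
    ∫ t in Gt χ (Real.log ((b : ℝ) ^ (k - 1))) ((b : ℝ) ^ (2 ^ J * w + w / 4)),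
      ‖cc b p ∅ V χ t‖ * ‖PP χ t ((b : ℝ) ^ (k - 1))‖

/-- (M) main term -/
def MainX : Prop := ∀ V₀ η : ℝ → ℝ, Bp V₀ η → (∀ y, 1 / 8 ≤ y → y ≤ 3 / 8 → V₀ y = 1) →
  ∀ b p J : ℕ, Bas b p → 16 ≤ b → ∃ c₀ : ℝ, 0 < c₀ ∧ ∃ w₀ : ℕ, ∀ w : ℕ, w₀ ≤ w → ∀ k : ℕ,
  2 * (2 ^ J * w) ≤ k →
  c₀ * ((RR b p (2 ^ J * w) ∅).card * (b : ℝ) ^ (k - 1) /
      ((b : ℝ) ^ (2 ^ J * w) * (b ^ (2 ^ J * w)).totient)) ≤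
    SSum b p (2 ^ J * w) k ∅ (fun y => V₀ (y - p)) η +
    E2 b p J w k (fun y => V₀ (y - p)) / ((b : ℝ) ^ (2 ^ J * w) * (b ^ (2 ^ J * w)).totient)

/-- (R) all error terms -/
def ErrX (f₀ : ℝ) : Prop := ∀ V₀ η : ℝ → ℝ, Bp V₀ η → ∀ f : ℝ, 5 / 12 < f → f < f₀ →
  ∃ J₀ : ℕ, ∀ J : ℕ, J₀ ≤ J → ∃ b₀ : ℕ, ∀ b p : ℕ, b₀ ≤ b → b.Prime → Bas b p →
  ∀ A : ℝ, 0 < A → ∀ ε : ℝ, 0 < ε → ∃ w₀ : ℕ, ∀ w : ℕ, w₀ ≤ w → ∀ k : ℕ,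
  (2 : ℝ) * (2 ^ J * w) ≤ f * (k - 1 - w) → (k : ℝ) ≤ A * w →
  E2 b p J w k (fun y => V₀ (y - p)) ≤
    ε * (RR b p (2 ^ J * w) ∅).card * (b : ℝ) ^ (k - 1)

open Classical in
/-- the final statement -/
def FinalX (f₀ : ℝ) : Prop := ∀ ε : ℝ, 0 < ε → ∃ b₀ : ℕ, ∀ b : ℕ, b₀ ≤ b → b.Prime →
  ∃ k₀ : ℕ, ∀ k : ℕ, k₀ ≤ k →
  (b : ℝ) ^ ((1 - f₀ / 2) * k : ℝ) ≤ (((Finset.range (b ^ k)).filter fun n => n.Prime ∧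
    b ^ (k - 1) ≤ n ∧ ∀ i : ℕ, (i : ℝ) ≤ (f₀ / 2 - ε) * k →
      (Nat.digits b n).getD i 0 = (Nat.digits b n).getD (k - 1 - i) 0).card : ℝ)

/-- assembly: `c₀` of `MainX`, `CountProp` with `F = ∅`, `ErrX` -/
def AssemblyX : Prop := ∀ f₀ : ℝ, 5 / 12 < f₀ → f₀ ≤ 5 / 9 → MainX → CountProp → ErrX f₀ → FinalX f₀

/-- the error terms from the parts -/
def ErrAssembly : Prop := ∀ f₀ : ℝ, 5 / 12 < f₀ → f₀ ≤ 5 / 9 → SupAll → EnergyProp → LowProp →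
  SWProp → PNTProp → SmallProp → (∀ f, 5 / 12 < f → f < f₀ → ∃ p₁, 1 ≤ p₁ ∧ p₁ < 4 / 3 ∧ BigAt f p₁) →
  ErrX f₀

end Pool.Agent.HPX
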