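import Pool.Agent.HPP.VMean
import Pool.Agent.HPP.VPow

/-!
# HPX/QMv: second moment of one factor (helper16)
-/

namespace Pool.Agent.HPX

open Complex MeasureTheory Pool.Agent.HPP

theorem q_mv : ∃ C : ℝ, 1 ≤ C ∧ ∀ (Q : ℕ), 1 ≤ Q → ∀ F : ArithmeticFunction ℝ, Sm F →
    ∀ (v : ℕ) (t₀ T : ℝ), 1 ≤ T →
    ∑ χ : DirichletCharacter ℂ Q, ∫ t in (t₀ - T)..(t₀ + T), nt F v χ t ^ 2 ≤
      C * ((v : ℝ) + 2) ^ 2 * (1 + Q * T * Real.exp (-v)) := by
  obtain ⟨C₁, hC₁, h1⟩ := mv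
  refine ⟨C₁ * Real.exp 2, one_le_mul_of_one_le_of_one_le hC₁ (Real.one_le_exp (by norm_num)), ?_⟩
  intro Q hQ F hF v t₀ T hT
  set s : Finset ℕ := Finset.Icc 1 ⌊Real.exp ((v : ℝ) + 1)⌋₊ with hs
  set c : ℕ → ℂ := fun n => ((pc F v n : ℝ) : ℂ) with hc
  have hsupp : ∀ n, pc F v n ≠ 0 → n ∈ s := by
    intro n hn
    obtain ⟨a1, a2⟩ := pc_supp hn
    rw [hs, Finset.mem_Icc]
    refine ⟨?_, Nat.le_floor a2.le⟩
    have : (0 : ℝ) < n := lt_trans (Real.exp_pos _) a1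
    exact_mod_cast this
  have hs1 : ∀ n ∈ s, 1 ≤ n := fun n hn => (Finset.mem_Icc.1 hn).1
  have hfe : ∀ (χ : DirichletCharacter ℂ Q) (t : ℝ), nt F v χ t ^ 2 = Real.exp (-(2 * v)) *
      ‖∑ n ∈ s, c n * χ (n : ZMod Q) * (n : ℂ) ^ (t * I)‖ ^ 2 := by
    intro χ t
    rw [← dp_eq_sum s hsupp]
    unfold nt
    rw [mul_pow, ← Real.exp_nat_mul]
    congr 2
    push_cast
    ring
  have hmv := h1 Q hQ s c t₀ T hT hs1
  have hcard : (s.card : ℝ) ≤ Real.exp ((v : ℝ) + 1) := by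
    rw [hs, Nat.card_Icc, Nat.add_sub_cancel]
    exact Nat.floor_le (Real.exp_pos _).le
  have hTQ : (0 : ℝ) ≤ Q * T := by positivity
  have hsum : ∑ n ∈ s, ‖c n‖ ^ 2 * (Q * T + n) ≤
      Real.exp ((v : ℝ) + 1) * (((v : ℝ) + 2) ^ 2 * (Q * T + Real.exp ((v : ℝ) + 1))) := by
    have h3 : ∀ n ∈ s, ‖c n‖ ^ 2 * (Q * T + n) ≤
        ((v : ℝ) + 2) ^ 2 * (Q * T + Real.exp ((v : ℝ) + 1)) := by
      intro n hn
      have e1 : ‖c n‖ ≤ (v : ℝ) + 2 := by
        rw [hc]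
        simp only [Complex.norm_real, Real.norm_eq_abs]
        exact vp_pc_abs hF v n
      have e2 : (n : ℝ) ≤ Real.exp ((v : ℝ) + 1) := by
        have := (Finset.mem_Icc.1 hn).2
        exact le_trans (by exact_mod_cast this) (Nat.floor_le (Real.exp_pos _).le)
      have e3 := pow_le_pow_left₀ (norm_nonneg _) e1 2
      exact mul_le_mul e3 (by linarith) (by positivity) (by positivity)
    have h4 := Finset.sum_le_card_nsmul s _ _ h3
    rw [nsmul_eq_mul] at h4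
    exact h4.trans (mul_le_mul_of_nonneg_right hcard (by positivity))
  calc ∑ χ : DirichletCharacter ℂ Q, ∫ t in (t₀ - T)..(t₀ + T), nt F v χ t ^ 2
      = Real.exp (-(2 * v)) * ∑ χ : DirichletCharacter ℂ Q, ∫ t in (t₀ - T)..(t₀ + T),
          ‖∑ n ∈ s, c n * χ (n : ZMod Q) * (n : ℂ) ^ (t * I)‖ ^ 2 := by
        rw [Finset.mul_sum]
        refine Finset.sum_congr rfl fun χ _ => ?_
        rw [← intervalIntegral.integral_const_mul]
        exact intervalIntegral.integral_congr fun t _ => hfe χ t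
    _ ≤ Real.exp (-(2 * v)) * (C₁ * (Real.exp ((v : ℝ) + 1) *
          (((v : ℝ) + 2) ^ 2 * (Q * T + Real.exp ((v : ℝ) + 1))))) := by
        refine mul_le_mul_of_nonneg_left (hmv.trans ?_) (Real.exp_pos _).le
        exact mul_le_mul_of_nonneg_left hsum (by linarith)
    _ = C₁ * ((v : ℝ) + 2) ^ 2 * (Q * T * (Real.exp (-v) * Real.exp 1) + Real.exp 2) := by
        have a1 : Real.exp (-(2 * v)) * Real.exp ((v : ℝ) + 1) = Real.exp (-v) * Real.exp 1 := by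
          rw [← Real.exp_add, ← Real.exp_add]
          congr 1
          ring
        have a2 : Real.exp (-v) * Real.exp 1 * Real.exp ((v : ℝ) + 1) = Real.exp 2 := by
          rw [← Real.exp_add, ← Real.exp_add]
          congr 1
          ring
        calc _ = C₁ * ((v : ℝ) + 2) ^ 2 * (Q * T * (Real.exp (-(2 * v)) * Real.exp ((v : ℝ) + 1)) +
              Real.exp (-(2 * v)) * Real.exp ((v : ℝ) + 1) * Real.exp ((v : ℝ) + 1)) := by ring
          _ = _ := by rw [a1, a2]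
    _ ≤ C₁ * ((v : ℝ) + 2) ^ 2 * (Q * T * (Real.exp (-v) * Real.exp 2) + Real.exp 2) := by
        have : Real.exp (1 : ℝ) ≤ Real.exp 2 := Real.exp_le_exp.2 (by norm_num)
        gcongr
    _ = _ := by ring

end Pool.Agent.HPX
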