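import Pool.Agent.HPX.Iface
import Pool.Agent.HPP.VPt
import Pool.Agent.HPX.QMv
import Pool.Agent.HPP.VMain
import Pool.Agent.HPP.VHB

/-!
# HPX/QVec: one vector of lengths (part Q)

Long factor: `(b ^ J) ^ 5 ≤ exp (v i)`. Either a long factor is smooth (`q_sm`, from `nt_pt`), or two long factors are of
type `mu` (`q_mv`), since the total length is at least `(9 / 10) log x`, short factors have length at most
`(1 / 20) log x` and `mu`-factors at most `(1 / 2) log x + 1`.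
-/

namespace Pool.Agent.HPX

open Complex MeasureTheory Pool.Agent.HPP

/-- long smooth factor -/
theorem q_sm (hPV : PVProp) {b : ℕ} (hb : 2 ≤ b) : ∃ C : ℝ, 1 ≤ C ∧
    ∀ (m' : ℕ) (k : Fin 3) (Z : ℝ), k ≠ 2 → ∀ (v : ℕ), ((b : ℝ) ^ m') ^ 5 ≤ Real.exp v → ∀ ξ : ℝ,
    ∑ χ : DirichletCharacter ℂ (b ^ m'), ∫ t in (-((b : ℝ) ^ m'))..((b : ℝ) ^ m'),
      nt (tyf Z k) v χ (t + ξ) ≤ C * (1 + v) * (1 + |ξ|) ^ 2 := by
  classical
  obtain ⟨C, hC, hpt⟩ := nt_pt hPV hb 2
  refine ⟨C * 16, by linarith, fun m' k Z hk v hv ξ => ?_⟩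
  set T : ℝ := (b : ℝ) ^ m' with hT
  have hT1 : 1 ≤ T := one_le_pow₀ (by exact_mod_cast (by omega : 1 ≤ b))
  have hT0 : 0 < T := by linarith
  set X : ℝ := 1 + |ξ| with hX
  have hX1 : 1 ≤ X := by
    have := abs_nonneg ξ
    linarith
  have hev : Real.exp (-(v : ℝ)) ≤ (T ^ 5)⁻¹ := by
    rw [Real.exp_neg]
    exact inv_anti₀ (by positivity) hv
  have hB : ∀ t ∈ Set.Icc (-T) T, Real.sqrt (T * (1 + |t + ξ|)) *
      Real.log (T * (2 + |t + ξ|)) * Real.exp (-v) ≤ 6 * X ^ 2 / T ^ 2 := by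
    intro t ht
    have ht' : |t| ≤ T := abs_le.2 ht
    have h1 : |t + ξ| ≤ T + |ξ| := (abs_add_le t ξ).trans (by linarith)
    have h0 : 0 ≤ |t + ξ| := abs_nonneg _
    have hxi : |ξ| = X - 1 := by rw [hX]; ring
    have h2 : Real.sqrt (T * (1 + |t + ξ|)) ≤ 2 * T * X := by
      rw [Real.sqrt_le_left (by positivity)]
      have : 1 + |t + ξ| ≤ 2 * T * X := by nlinarith
      have h3 : T * (1 + |t + ξ|) ≤ T * (2 * T * X) := mul_le_mul_of_nonneg_left this hT0.le
      nlinarith [mul_pos hT0 hT0]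
    have h3 : Real.log (T * (2 + |t + ξ|)) ≤ 3 * T ^ 2 * X := by
      have h4 := Real.log_le_sub_one_of_pos (show 0 < T * (2 + |t + ξ|) by positivity)
      have : 2 + |t + ξ| ≤ 3 * T * X := by nlinarith
      have h5 : T * (2 + |t + ξ|) ≤ T * (3 * T * X) := mul_le_mul_of_nonneg_left this hT0.le
      nlinarith
    have h4 : 0 ≤ Real.log (T * (2 + |t + ξ|)) := Real.log_nonneg (by nlinarith)
    calc Real.sqrt (T * (1 + |t + ξ|)) * Real.log (T * (2 + |t + ξ|)) * Real.exp (-v)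
        ≤ (2 * T * X) * (3 * T ^ 2 * X) * (T ^ 5)⁻¹ := by gcongr
      _ = 6 * X ^ 2 / T ^ 2 := by field_simp; ring
  have hcont : ∀ χ : DirichletCharacter ℂ (b ^ m'), Continuous fun t : ℝ => nt (tyf Z k) v χ (t + ξ) :=
    fun χ => (nt_continuous (tyf Z k) v χ).comp (continuous_id.add continuous_const)
  have hone : ∀ χ : DirichletCharacter ℂ (b ^ m'), ∫ t in (-T)..T, nt (tyf Z k) v χ (t + ξ) ≤
      C * (1 + v) * (12 * X ^ 2 / T + if χ = 1 then 4 else 0) := by
    intro χ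
    have h1 : ∫ t in (-T)..T, nt (tyf Z k) v χ (t + ξ) ≤ ∫ t in (-T)..T,
        C * (1 + v) * (6 * X ^ 2 / T ^ 2 + if χ = 1 then (1 + (t + ξ) ^ 2)⁻¹ else 0) := by
      apply intervalIntegral.integral_mono_on (by linarith) ((hcont χ).intervalIntegrable _ _)
      · apply Continuous.intervalIntegrable
        split_ifs
        · refine continuous_const.mul (continuous_const.add (Continuous.inv₀ (by fun_prop) ?_))
          intro t
          positivity
        · fun_prop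
      · intro t ht
        refine (hpt m' k Z hk χ (t + ξ) v).trans ?_
        have hCv : 0 ≤ C * (1 + (v : ℝ)) := by positivity
        refine mul_le_mul_of_nonneg_left (add_le_add (hB t ht) ?_) hCv
        split_ifs
        · apply inv_anti₀ (by positivity)
          have := abs_nonneg (t + ξ)
          nlinarith [sq_abs (t + ξ)]
        · exact le_rfl
    refine h1.trans ?_
    rw [intervalIntegral.integral_const_mul]
    have hCv : 0 ≤ C * (1 + (v : ℝ)) := by positivity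
    refine mul_le_mul_of_nonneg_left ?_ hCv
    split_ifs with hχ
    · rw [intervalIntegral.integral_add (by simp) (by
        apply Continuous.intervalIntegrable
        exact Continuous.inv₀ (by fun_prop) (fun t => by positivity))]
      have h2 : ∫ t in (-T)..T, (1 + (t + ξ) ^ 2)⁻¹ ≤ 4 := by
        rw [intervalIntegral.integral_comp_add_right (fun t : ℝ => (1 + t ^ 2)⁻¹) ξ,
          integral_inv_one_add_sq]
        have h3 := Real.arctan_lt_pi_div_two (T + ξ)
        have h4 := Real.neg_pi_div_two_lt_arctan (-T + ξ)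
        have h5 := Real.pi_lt_four
        linarith
      have h3 : ∫ _t in (-T)..T, 6 * X ^ 2 / T ^ 2 = 12 * X ^ 2 / T := by
        rw [intervalIntegral.integral_const, smul_eq_mul]
        field_simp
        ring
      linarith
    · simp only [add_zero]
      rw [intervalIntegral.integral_const, smul_eq_mul]
      apply le_of_eq
      field_simp
      ring
  have hcard := card_char_le (Q := b ^ m') (Nat.one_le_pow _ _ (by omega))
  push_cast at hcard
  rw [← hT] at hcard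
  calc ∑ χ : DirichletCharacter ℂ (b ^ m'), ∫ t in (-T)..T, nt (tyf Z k) v χ (t + ξ)
      ≤ ∑ χ : DirichletCharacter ℂ (b ^ m'), C * (1 + v) * (12 * X ^ 2 / T + if χ = 1 then 4 else 0) :=
        Finset.sum_le_sum fun χ _ => hone χ
    _ = C * (1 + v) * (Fintype.card (DirichletCharacter ℂ (b ^ m')) * (12 * X ^ 2 / T) + 4) := by
        rw [← Finset.mul_sum, Finset.sum_add_distrib, Finset.sum_const, Finset.card_univ,
          nsmul_eq_mul, Finset.sum_ite_eq' Finset.univ (1 : DirichletCharacter ℂ (b ^ m'))]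
        simp
    _ ≤ C * (1 + v) * (16 * X ^ 2) := by
        have hCv : 0 ≤ C * (1 + (v : ℝ)) := by positivity
        refine mul_le_mul_of_nonneg_left ?_ hCv
        have h6 : (Fintype.card (DirichletCharacter ℂ (b ^ m')) : ℝ) * (12 * X ^ 2 / T) ≤
            T * (12 * X ^ 2 / T) := mul_le_mul_of_nonneg_right hcard (by positivity)
        have h7 : T * (12 * X ^ 2 / T) = 12 * X ^ 2 := by field_simp
        nlinarith
    _ = C * 16 * (1 + v) * X ^ 2 := by ring

theorem q_swap {G : Set ℝ} {T : ℝ} (hT : 0 ≤ T) (_hG : MeasurableSet G) (hGT : G ⊆ Set.Icc (-T) T)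
    {h : ℝ → ℝ} (hc : Continuous h) (h0 : ∀ t, 0 ≤ h t) {M : ℝ} (hM : ∀ t, h t ≤ M) :
    (∫ t in G, ∫ ξ, gk ξ * h (t + ξ)) ≤ ∫ ξ, gk ξ * ∫ t in (-T)..T, h (t + ξ) ∧
    Integrable (fun ξ => gk ξ * ∫ t in (-T)..T, h (t + ξ)) := by
  have hgc : Continuous gk := by
    unfold gk
    fun_prop
  have h1 : Integrable (fun p : ℝ × ℝ => gk p.2 * h (p.1 + p.2))
      ((volume.restrict (Set.Icc (-T) T)).prod volume) := by
    have h2 : Integrable (fun p : ℝ × ℝ => M * gk p.2)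
        ((volume.restrict (Set.Icc (-T) T)).prod volume) := by
      have h3 : Integrable (fun _ : ℝ => M) (volume.restrict (Set.Icc (-T) T)) := by
        apply integrable_const_iff.2
        right
        exact ⟨by simp⟩
      exact h3.mul_prod hb_gk_integrable
    refine h2.mono' (by fun_prop : Continuous fun p : ℝ × ℝ => gk p.2 * h (p.1 + p.2)).aestronglyMeasurable
      (Filter.Eventually.of_forall fun p => ?_)
    rw [Real.norm_eq_abs, abs_of_nonneg (mul_nonneg (gk_nonneg _) (h0 _)), mul_comm]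
    exact mul_le_mul_of_nonneg_right (hM _) (gk_nonneg _)
  have h4 : ∀ ξ, ∫ t in Set.Icc (-T) T, gk ξ * h (t + ξ) = gk ξ * ∫ t in (-T)..T, h (t + ξ) := by
    intro ξ
    rw [integral_const_mul, intervalIntegral.integral_of_le (by linarith),
      integral_Icc_eq_integral_Ioc]
  have h5 := integral_integral_swap (f := fun t ξ => gk ξ * h (t + ξ)) h1
  simp only [h4] at h5
  have h6 : Integrable (fun t => ∫ ξ, gk ξ * h (t + ξ)) (volume.restrict (Set.Icc (-T) T)) :=
    h1.integral_prod_left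
  have h7 := h1.integral_prod_right
  simp only [h4] at h7
  refine ⟨?_, h7⟩
  rw [← h5]
  refine setIntegral_mono_set h6 (Filter.Eventually.of_forall fun t => ?_)
    (Filter.Eventually.of_forall hGT)
  exact integral_nonneg fun ξ => mul_nonneg (gk_nonneg _) (h0 _)

theorem q_gk2 : Integrable fun ξ : ℝ => gk ξ * (1 + |ξ|) ^ 2 := by
  have h := (integrable_exp_neg_mul_sq (show (0 : ℝ) < 1 / 8 by norm_num)).const_mul
    (16 / (2 * Real.sqrt Real.pi))
  refine h.mono' (by unfold gk; fun_prop : Continuous fun ξ : ℝ => gk ξ * (1 + |ξ|) ^ 2).aestronglyMeasurable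
    (Filter.Eventually.of_forall fun ξ => ?_)
  have hg := gk_nonneg ξ
  rw [Real.norm_eq_abs, abs_of_nonneg (by positivity)]
  unfold gk
  have h1 : (1 + |ξ|) ^ 2 ≤ 16 * Real.exp (ξ ^ 2 / 8) := by
    have h2 := Real.add_one_le_exp (ξ ^ 2 / 8)
    have h3 := sq_abs ξ
    nlinarith [sq_nonneg (|ξ| - 1), abs_nonneg ξ]
  have h4 : Real.exp (-ξ ^ 2 / 4) * Real.exp (ξ ^ 2 / 8) = Real.exp (-(1 / 8) * ξ ^ 2) := by
    rw [← Real.exp_add]
    congr 1
    ring
  have hs : 0 < Real.sqrt Real.pi := Real.sqrt_pos.2 Real.pi_pos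
  calc Real.exp (-ξ ^ 2 / 4) / (2 * Real.sqrt Real.pi) * (1 + |ξ|) ^ 2
      ≤ Real.exp (-ξ ^ 2 / 4) / (2 * Real.sqrt Real.pi) * (16 * Real.exp (ξ ^ 2 / 8)) :=
        mul_le_mul_of_nonneg_left h1 (by positivity)
    _ = 16 / (2 * Real.sqrt Real.pi) * (Real.exp (-ξ ^ 2 / 4) * Real.exp (ξ ^ 2 / 8)) := by ring
    _ = _ := by rw [h4]

/-- sum over the characters after the swap -/
theorem q_sum {Q : ℕ} (G : DirichletCharacter ℂ Q → Set ℝ) {T : ℝ} (hT : 0 ≤ T)
    (hG : ∀ χ, MeasurableSet (G χ)) (hGT : ∀ χ, G χ ⊆ Set.Icc (-T) T)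
    {h : DirichletCharacter ℂ Q → ℝ → ℝ} (hc : ∀ χ, Continuous (h χ)) (h0 : ∀ χ t, 0 ≤ h χ t)
    {M : ℝ} (hM : ∀ χ t, h χ t ≤ M) {K : ℝ}
    (hK : ∀ ξ, ∑ χ : DirichletCharacter ℂ Q, ∫ t in (-T)..T, h χ (t + ξ) ≤ K * (1 + |ξ|) ^ 2) :
    ∑ χ : DirichletCharacter ℂ Q, ∫ t in G χ, ∫ ξ, gk ξ * h χ (t + ξ) ≤
      K * ∫ ξ, gk ξ * (1 + |ξ|) ^ 2 := by
  have h1 : ∀ χ, _ := fun χ => q_swap hT (hG χ) (hGT χ) (hc χ) (h0 χ) (hM χ)
  refine (Finset.sum_le_sum fun χ _ => (h1 χ).1).trans ?_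
  rw [← integral_finsetSum _ fun χ _ => (h1 χ).2, ← integral_const_mul]
  refine integral_mono (integrable_finsetSum _ fun χ _ => (h1 χ).2) (q_gk2.const_mul K) fun ξ => ?_
  simp only
  rw [← Finset.mul_sum]
  calc gk ξ * ∑ χ : DirichletCharacter ℂ Q, ∫ t in (-T)..T, h χ (t + ξ) ≤
      gk ξ * (K * (1 + |ξ|) ^ 2) := mul_le_mul_of_nonneg_left (hK ξ) (gk_nonneg ξ)
    _ = K * (gk ξ * (1 + |ξ|) ^ 2) := by ring

theorem q_prod1 {ι : Type*} [Fintype ι] [DecidableEq ι] (a : ι → ℝ) {M : ℝ} (hM : 1 ≤ M)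
    (h0 : ∀ i, 0 ≤ a i) (h1 : ∀ i, a i ≤ M) (hN : Fintype.card ι ≤ 8) (i : ι) :
    ∏ i, a i ≤ M ^ 7 * a i := by
  rw [← Finset.mul_prod_erase Finset.univ a (Finset.mem_univ i), mul_comm]
  refine mul_le_mul_of_nonneg_right ?_ (h0 i)
  calc ∏ k ∈ Finset.univ.erase i, a k ≤ ∏ _k ∈ Finset.univ.erase i, M :=
        Finset.prod_le_prod (fun k _ => h0 k) (fun k _ => h1 k)
    _ = M ^ (Fintype.card ι - 1) := by
        rw [Finset.prod_const, Finset.card_erase_of_mem (Finset.mem_univ i), Finset.card_univ]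
    _ ≤ M ^ 7 := pow_le_pow_right₀ hM (by omega)

theorem q_prod2 {ι : Type*} [Fintype ι] [DecidableEq ι] (a : ι → ℝ) {M : ℝ} (hM : 1 ≤ M)
    (h0 : ∀ i, 0 ≤ a i) (h1 : ∀ i, a i ≤ M) (hN : Fintype.card ι ≤ 8) {i k : ι} (hik : k ≠ i) :
    ∏ i, a i ≤ M ^ 6 * (a i ^ 2 + a k ^ 2) := by
  rw [← Finset.mul_prod_erase Finset.univ a (Finset.mem_univ i),
    ← Finset.mul_prod_erase (Finset.univ.erase i) a (Finset.mem_erase.2 ⟨hik, Finset.mem_univ k⟩)]
  have h2 : ∏ l ∈ (Finset.univ.erase i).erase k, a l ≤ M ^ 6 := by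
    calc ∏ l ∈ (Finset.univ.erase i).erase k, a l ≤ ∏ _l ∈ (Finset.univ.erase i).erase k, M :=
          Finset.prod_le_prod (fun k _ => h0 k) (fun k _ => h1 k)
      _ = M ^ (Fintype.card ι - 1 - 1) := by
          rw [Finset.prod_const, Finset.card_erase_of_mem (Finset.mem_erase.2 ⟨hik, Finset.mem_univ k⟩),
            Finset.card_erase_of_mem (Finset.mem_univ i), Finset.card_univ]
      _ ≤ M ^ 6 := pow_le_pow_right₀ hM (by omega)
  have h3 : 0 ≤ ∏ l ∈ (Finset.univ.erase i).erase k, a l := Finset.prod_nonneg fun l _ => h0 l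
  have h4 : a i * a k ≤ a i ^ 2 + a k ^ 2 := by nlinarith [sq_nonneg (a i - a k), sq_nonneg (a i), sq_nonneg (a k)]
  have h5 : 0 ≤ a i * a k := mul_nonneg (h0 i) (h0 k)
  calc a i * (a k * ∏ l ∈ (Finset.univ.erase i).erase k, a l)
      = (a i * a k) * ∏ l ∈ (Finset.univ.erase i).erase k, a l := by ring
    _ ≤ (a i ^ 2 + a k ^ 2) * M ^ 6 := mul_le_mul h4 h2 h3 (by positivity)
    _ = _ := by ring

/-- (QVec) one vector of lengths -/
theorem q_vec (hPV : PVProp) {b : ℕ} (hb : 2 ≤ b) : ∃ C : ℝ, 0 < C ∧ ∃ x₀ : ℝ, ∀ x : ℝ, x₀ ≤ x →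
    ∀ J : ℕ, (b : ℝ) ^ J ≤ x ^ (1 / 100 : ℝ) → ∀ j : ℕ, j ≤ 4 → ∀ v : Fin (2 * j) → ℕ,
    (∀ i, (v i : ℝ) ≤ 2 * Real.log x + 3) →
    |(∑ i, (v i : ℝ)) - Real.log x| ≤ 1 / 10 * Real.log x → ∀ κ : ℝ,
    ∑ χ : DirichletCharacter ℂ (b ^ J), ∫ t in Gt χ κ ((b : ℝ) ^ J),
      ∫ ξ, gk ξ * ∏ i, nt (tyf (x ^ (1 / 2 : ℝ)) (fac j i)) (v i) χ (t + ξ) ≤
      C * (Real.log x) ^ 9 := by
  classical
  obtain ⟨C1, hC1, hsm⟩ := q_sm hPV hb
  obtain ⟨C2, hC2, hmv⟩ := q_mv
  have hcg : 0 ≤ ∫ ξ, gk ξ * (1 + |ξ|) ^ 2 := integral_nonneg fun ξ => by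
    have := gk_nonneg ξ
    positivity
  set cg : ℝ := ∫ ξ, gk ξ * (1 + |ξ|) ^ 2 with hcgd
  refine ⟨(C1 + 4 * C2) * 10 ^ 8 * cg + 1, by positivity, Real.exp 100, fun x hx J hJ j hj v hv hsum κ => ?_⟩
  have hx0 : 0 < x := (Real.exp_pos _).trans_le hx
  set L : ℝ := Real.log x with hL
  have hL100 : 100 ≤ L := (Real.le_log_iff_exp_le hx0).2 hx
  set T : ℝ := (b : ℝ) ^ J with hT
  have hT1 : 1 ≤ T := one_le_pow₀ (by exact_mod_cast (by omega : 1 ≤ b))
  have hT0 : 0 < T := by linarith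
  have hlT : Real.log T ≤ L / 100 := by
    have h1 := Real.log_le_log hT0 hJ
    rw [Real.log_rpow hx0] at h1
    linarith
  set Z : ℝ := x ^ (1 / 2 : ℝ) with hZ
  have hZ0 : 0 < Z := Real.rpow_pos_of_pos hx0 _
  have hlZ : Real.log Z = L / 2 := by
    rw [hZ, Real.log_rpow hx0]
    ring
  set f : Fin (2 * j) → ArithmeticFunction ℝ := fun i => tyf Z (fac j i) with hf
  set M : ℝ := 10 * L with hM
  have hM1 : 1 ≤ M := by linarith
  have hnt : ∀ (χ : DirichletCharacter ℂ (b ^ J)) (i : Fin (2 * j)) (t : ℝ),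
      nt (f i) (v i) χ t ≤ M := by
    intro χ i t
    refine (nt_triv (tyf_sm Z (fac j i)) (v i) χ t).trans ?_
    have := hv i
    linarith
  have hnn : ∀ (χ : DirichletCharacter ℂ (b ^ J)) (i : Fin (2 * j)) (t : ℝ),
      0 ≤ nt (f i) (v i) χ t := fun χ i t => nt_nonneg _ _ _ _
  have hcard : Fintype.card (Fin (2 * j)) ≤ 8 := by
    rw [Fintype.card_fin]
    omega
  have hcont : ∀ (χ : DirichletCharacter ℂ (b ^ J)) (i : Fin (2 * j)),
      Continuous fun t : ℝ => nt (f i) (v i) χ t := fun χ i => nt_continuous _ _ _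
  have hcontp : ∀ (χ : DirichletCharacter ℂ (b ^ J)),
      Continuous fun t : ℝ => ∏ i, nt (f i) (v i) χ t := fun χ =>
    continuous_finsetProd _ fun i _ => hcont χ i
  have hsh : ∀ (g : ℝ → ℝ) (ξ : ℝ), Continuous g → Continuous fun t : ℝ => g (t + ξ) :=
    fun g ξ hg => hg.comp (continuous_id.add continuous_const)
  -- the key bound
  have hkey : ∀ ξ : ℝ, ∑ χ : DirichletCharacter ℂ (b ^ J), ∫ t in (-T)..T,
      ∏ i, nt (f i) (v i) χ (t + ξ) ≤ (C1 + 4 * C2) * M ^ 8 * (1 + |ξ|) ^ 2 := by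
    intro ξ
    have hxi : 1 ≤ (1 + |ξ|) ^ 2 := by
      have := abs_nonneg ξ
      nlinarith
    by_cases hA : ∃ i, fac j i ≠ 2 ∧ T ^ 5 ≤ Real.exp (v i)
    · obtain ⟨i, hk, hvi⟩ := hA
      have h1 : ∀ χ : DirichletCharacter ℂ (b ^ J), ∫ t in (-T)..T,
          ∏ i, nt (f i) (v i) χ (t + ξ) ≤ M ^ 7 * ∫ t in (-T)..T, nt (f i) (v i) χ (t + ξ) := by
        intro χ
        rw [← intervalIntegral.integral_const_mul]
        refine intervalIntegral.integral_mono_on (by linarith)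
          ((hsh _ ξ (hcontp χ)).intervalIntegrable _ _)
          (((hsh _ ξ (hcont χ i)).const_mul _).intervalIntegrable _ _) fun t _ => ?_
        exact q_prod1 (fun i => nt (f i) (v i) χ (t + ξ)) hM1 (fun i => hnn χ i _)
          (fun i => hnt χ i _) hcard i
      refine (Finset.sum_le_sum fun χ _ => h1 χ).trans ?_
      rw [← Finset.mul_sum]
      have h2 := hsm J (fac j i) Z hk (v i) hvi ξ
      have h3 : 1 + (v i : ℝ) ≤ M := by
        have := hv i
        linarith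
      calc M ^ 7 * ∑ χ : DirichletCharacter ℂ (b ^ J), ∫ t in (-T)..T, nt (f i) (v i) χ (t + ξ)
          ≤ M ^ 7 * (C1 * (1 + v i) * (1 + |ξ|) ^ 2) :=
            mul_le_mul_of_nonneg_left h2 (by positivity)
        _ ≤ M ^ 7 * (C1 * M * (1 + |ξ|) ^ 2) := by gcongr
        _ = C1 * M ^ 8 * (1 + |ξ|) ^ 2 := by ring
        _ ≤ (C1 + 4 * C2) * M ^ 8 * (1 + |ξ|) ^ 2 := by
            gcongr
            linarith
    push Not at hA
    by_cases hz : ∃ i, pc (f i) (v i) = 0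
    · obtain ⟨i, hi⟩ := hz
      have h1 : ∀ (χ : DirichletCharacter ℂ (b ^ J)) (t : ℝ), ∏ i, nt (f i) (v i) χ t = 0 :=
        fun χ t => Finset.prod_eq_zero (Finset.mem_univ i) (nt_zero_of hi χ t)
      simp only [h1]
      simp
      positivity
    push Not at hz
    have hmu : ∀ i, fac j i = 2 → (v i : ℝ) ≤ L / 2 + 1 := by
      intro i hi
      by_contra hcon
      push Not at hcon
      refine hz i ?_
      rw [hf]
      simp only
      rw [hi]
      refine pc_mz_zero ?_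
      rw [← Real.log_le_iff_le_exp hZ0, hlZ]
      linarith
    have htwo : ∃ i k, k ≠ i ∧ T ^ 5 ≤ Real.exp (v i) ∧ T ^ 5 ≤ Real.exp (v k) := by
      by_contra hno
      push Not at hno
      set S : Finset (Fin (2 * j)) := Finset.univ.filter fun i => T ^ 5 ≤ Real.exp (v i) with hS
      have hS1 : S.card ≤ 1 := by
        rw [Finset.card_le_one]
        intro i hi k hk
        by_contra hik
        rw [hS, Finset.mem_filter] at hi hk
        exact absurd hk.2 (not_le.2 (hno i k (fun h => hik h.symm) hi.2))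
      have h1 : ∀ i ∈ Finset.univ, (v i : ℝ) ≤ L / 20 + if i ∈ S then (9 / 20 * L + 1) else 0 := by
        intro i _
        by_cases hi : T ^ 5 ≤ Real.exp (v i)
        · rw [if_pos (by rw [hS, Finset.mem_filter]; exact ⟨Finset.mem_univ i, hi⟩)]
          by_cases hk : fac j i = 2
          · have := hmu i hk
            linarith
          · exact absurd hi (not_le.2 (hA i hk))
        · push Not at hi
          have h2 : (v i : ℝ) < 5 * Real.log T := by
            have h3 := Real.log_lt_log (Real.exp_pos _) hi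
            rw [Real.log_exp, Real.log_pow] at h3
            exact_mod_cast h3
          split_ifs <;> linarith
      have h2 := Finset.sum_le_sum h1
      rw [Finset.sum_add_distrib, Finset.sum_const, Finset.card_univ, Fintype.card_fin,
        ← Finset.sum_filter, Finset.sum_const, nsmul_eq_mul, nsmul_eq_mul] at h2
      have h3 : ((Finset.univ.filter fun i => i ∈ S).card : ℝ) ≤ 1 := by
        have : (Finset.univ.filter fun i => i ∈ S) = S := by
          ext i
          simp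
        rw [this]
        exact_mod_cast hS1
      have h4 : (((2 * j : ℕ)) : ℝ) ≤ 8 := by exact_mod_cast (by omega : 2 * j ≤ 8)
      have h5 : ((Finset.univ.filter fun i => i ∈ S).card : ℝ) * (9 / 20 * L + 1) ≤
          1 * (9 / 20 * L + 1) := mul_le_mul_of_nonneg_right h3 (by linarith)
      have h6 : (((2 * j : ℕ)) : ℝ) * (L / 20) ≤ 8 * (L / 20) :=
        mul_le_mul_of_nonneg_right h4 (by linarith)
      have h7 := (abs_le.1 hsum).1
      linarith
    obtain ⟨i, k, hik, hi, hk⟩ := htwo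
    have hsq : ∀ l : Fin (2 * j), T ^ 5 ≤ Real.exp (v l) →
        ∑ χ : DirichletCharacter ℂ (b ^ J), ∫ t in (-T)..T, nt (f l) (v l) χ (t + ξ) ^ 2 ≤
          2 * C2 * M ^ 2 := by
      intro l hl
      have h1 := hmv (b ^ J) (Nat.one_le_pow _ _ (by omega)) (f l) (tyf_sm Z (fac j l)) (v l) ξ T hT1
      have h2 : ∀ χ : DirichletCharacter ℂ (b ^ J), ∫ t in (-T)..T, nt (f l) (v l) χ (t + ξ) ^ 2 =
          ∫ t in (ξ - T)..(ξ + T), nt (f l) (v l) χ t ^ 2 := by
        intro χ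
        rw [intervalIntegral.integral_comp_add_right (fun t : ℝ => nt (f l) (v l) χ t ^ 2) ξ]
        congr 1 <;> ring
      rw [Finset.sum_congr rfl fun χ _ => h2 χ]
      refine h1.trans ?_
      push_cast
      rw [← hT]
      have h3 : T * T * Real.exp (-(v l : ℝ)) ≤ 1 := by
        rw [Real.exp_neg, ← div_eq_mul_inv, div_le_one (Real.exp_pos _)]
        refine le_trans ?_ hl
        calc T * T = T ^ 2 := by ring
          _ ≤ T ^ 5 := pow_le_pow_right₀ hT1 (by norm_num)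
      have h4 : (v l : ℝ) + 2 ≤ M := by
        have := hv l
        linarith
      calc C2 * ((v l : ℝ) + 2) ^ 2 * (1 + T * T * Real.exp (-(v l : ℝ))) ≤
          C2 * M ^ 2 * (1 + 1) := by gcongr
        _ = _ := by ring
    have h1 : ∀ χ : DirichletCharacter ℂ (b ^ J), ∫ t in (-T)..T,
        ∏ i, nt (f i) (v i) χ (t + ξ) ≤ M ^ 6 * ((∫ t in (-T)..T, nt (f i) (v i) χ (t + ξ) ^ 2) +
          ∫ t in (-T)..T, nt (f k) (v k) χ (t + ξ) ^ 2) := by
      intro χ
      have hc2 : ∀ l : Fin (2 * j), Continuous fun t : ℝ => nt (f l) (v l) χ (t + ξ) ^ 2 :=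
        fun l => (hsh _ ξ (hcont χ l)).pow 2
      have hi2 : ∀ l : Fin (2 * j), IntervalIntegrable
          (fun t : ℝ => nt (f l) (v l) χ (t + ξ) ^ 2) volume (-T) T :=
        fun l => (hc2 l).intervalIntegrable _ _
      rw [← intervalIntegral.integral_add (hi2 i) (hi2 k), ← intervalIntegral.integral_const_mul]
      refine intervalIntegral.integral_mono_on (by linarith)
        ((hsh _ ξ (hcontp χ)).intervalIntegrable _ _)
        ((((hi2 i).add (hi2 k)).const_mul (M ^ 6))) fun t _ => ?_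
      exact q_prod2 (fun i => nt (f i) (v i) χ (t + ξ)) hM1 (fun i => hnn χ i _)
        (fun i => hnt χ i _) hcard hik
    refine (Finset.sum_le_sum fun χ _ => h1 χ).trans ?_
    rw [← Finset.mul_sum, Finset.sum_add_distrib]
    have h2 := hsq i hi
    have h3 := hsq k hk
    calc M ^ 6 * _ ≤ M ^ 6 * (2 * C2 * M ^ 2 + 2 * C2 * M ^ 2) :=
          mul_le_mul_of_nonneg_left (add_le_add h2 h3) (by positivity)
      _ = 4 * C2 * M ^ 8 * 1 := by ring
      _ ≤ (C1 + 4 * C2) * M ^ 8 * (1 + |ξ|) ^ 2 := by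
          gcongr
          linarith
  have h := q_sum (fun χ : DirichletCharacter ℂ (b ^ J) => Gt χ κ T) hT0.le
    (fun χ => Gt_measurable χ κ T) (fun χ => Gt_sub χ κ T) hcontp
    (fun χ t => Finset.prod_nonneg fun i _ => hnn χ i t) (M := M ^ 8)
    (fun χ t => by
      calc ∏ i, nt (f i) (v i) χ t ≤ ∏ _i : Fin (2 * j), M :=
            Finset.prod_le_prod (fun i _ => hnn χ i t) (fun i _ => hnt χ i t)
        _ = M ^ (2 * j) := by rw [Finset.prod_const, Finset.card_univ, Fintype.card_fin]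
        _ ≤ M ^ 8 := pow_le_pow_right₀ hM1 (by omega)) hkey
  refine h.trans ?_
  have h8 : M ^ 8 = 10 ^ 8 * L ^ 8 := by rw [hM]; ring
  have h9 : L ^ 8 ≤ L ^ 9 := pow_le_pow_right₀ (by linarith) (by norm_num)
  have h10 : 0 ≤ L ^ 9 := by positivity
  rw [h8]
  calc (C1 + 4 * C2) * (10 ^ 8 * L ^ 8) * cg = ((C1 + 4 * C2) * 10 ^ 8 * cg) * L ^ 8 := by ring
    _ ≤ ((C1 + 4 * C2) * 10 ^ 8 * cg) * L ^ 9 := mul_le_mul_of_nonneg_left h9 (by positivity)
    _ ≤ ((C1 + 4 * C2) * 10 ^ 8 * cg + 1) * L ^ 9 := by nlinarith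

end Pool.Agent.HPX
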