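import Pool.Agent.HPX.QHB
import Pool.Agent.HPX.QVec
import Pool.Agent.HPP.LPV
import Pool.Agent.HPX.Iface
import Pool.Agent.HPP.APP
import Pool.Agent.HPP.VAux

/-!
# HPX/QFin: `LowProp` from `hbx` and `q_vec` (helper16)
-/

namespace Pool.Agent.HPX

open Complex MeasureTheory Pool.Agent.HPP

/-- the statement of `q_vec` -/
def QVecProp : Prop := ∀ b : ℕ, 2 ≤ b → ∃ C : ℝ, 0 < C ∧ ∃ x₀ : ℝ, ∀ x : ℝ, x₀ ≤ x → ∀ J : ℕ,
  (b : ℝ) ^ J ≤ x ^ (1 / 100 : ℝ) → ∀ j ≤ 4, ∀ v : Fin (2 * j) → ℕ,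
  (∀ i, (v i : ℝ) ≤ 2 * Real.log x + 3) → |(∑ i, (v i : ℝ)) - Real.log x| ≤ 1 / 10 * Real.log x →
  ∀ κ : ℝ, ∑ χ : DirichletCharacter ℂ (b ^ J), ∫ t in Gt χ κ ((b : ℝ) ^ J),
    ∫ ξ, gk ξ * ∏ i, nt (tyf (x ^ (1 / 2 : ℝ)) (fac j i)) (v i) χ (t + ξ) ≤ C * (Real.log x) ^ 9

theorem q_int_cont {Q k : ℕ} (f : Fin k → ArithmeticFunction ℝ) (hf : ∀ i, Sm (f i))
    (v : Fin k → ℕ) (χ : DirichletCharacter ℂ Q) :
    Continuous fun t : ℝ => ∫ ξ, gk ξ * ∏ i, nt (f i) (v i) χ (t + ξ) := by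
  refine continuous_of_dominated (bound := fun ξ => gk ξ * ∏ i, (3 * ((v i : ℝ) + 2))) ?_ ?_ ?_ ?_
  · intro t
    refine (Continuous.mul (by unfold gk; fun_prop) ?_).aestronglyMeasurable
    exact continuous_finsetProd _ fun i _ =>
      (nt_continuous (f i) (v i) χ).comp (continuous_const.add continuous_id)
  · intro t
    refine Filter.Eventually.of_forall fun ξ => ?_
    rw [Real.norm_of_nonneg (mul_nonneg (gk_nonneg ξ)
      (Finset.prod_nonneg fun i _ => nt_nonneg _ _ _ _))]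
    exact mul_le_mul_of_nonneg_left (Finset.prod_le_prod (fun i _ => nt_nonneg _ _ _ _)
      fun i _ => nt_triv (hf i) (v i) χ _) (gk_nonneg ξ)
  · exact hb_gk_integrable.mul_const _
  · refine Filter.Eventually.of_forall fun ξ => ?_
    exact continuous_const.mul (continuous_finsetProd _ fun i _ =>
      (nt_continuous (f i) (v i) χ).comp (continuous_id.add continuous_const))

private theorem Gt_meas {Q : ℕ} (χ : DirichletCharacter ℂ Q) (κ T : ℝ) :
    MeasurableSet (Gt χ κ T) := by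
  unfold Gt
  have h1 : MeasurableSet {t : ℝ | |t| ≤ T} :=
    (isClosed_le continuous_abs continuous_const).measurableSet
  by_cases hχ : χ = 1
  · have h2 : MeasurableSet {t : ℝ | κ ≤ |t|} :=
      (isClosed_le continuous_const continuous_abs).measurableSet
    have e : {t : ℝ | |t| ≤ T ∧ (χ = 1 → κ ≤ |t|)} = {t : ℝ | |t| ≤ T} ∩ {t : ℝ | κ ≤ |t|} := by
      ext t; simp [hχ]
    rw [e]; exact h1.inter h2
  · have e : {t : ℝ | |t| ≤ T ∧ (χ = 1 → κ ≤ |t|)} = {t : ℝ | |t| ≤ T} := by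
      ext t; simp [hχ]
    rw [e]; exact h1

private theorem card_VX {U x : ℝ} (hx : 3 ≤ Real.log x) {j : ℕ} (hj : j ≤ 4) :
    ((VX U x j).card : ℝ) ≤ (3 * Real.log x) ^ 8 := by
  have h0 : ((VX U x j).card : ℝ) ≤ ((⌊2 * Real.log x⌋₊ + 3 : ℕ) : ℝ) ^ (2 * j) := by
    have h1 : (VX U x j).card ≤ (Fintype.piFinset fun _ : Fin (2 * j) =>
        Finset.range (⌊2 * Real.log x⌋₊ + 3)).card := Finset.card_filter_le _ _
    rw [Fintype.card_piFinset, Finset.prod_const, Finset.card_range, Finset.card_univ,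
      Fintype.card_fin] at h1
    exact_mod_cast h1
  have hfl : (⌊2 * Real.log x⌋₊ : ℝ) ≤ 2 * Real.log x := Nat.floor_le (by linarith)
  have h2 : ((⌊2 * Real.log x⌋₊ + 3 : ℕ) : ℝ) ≤ 3 * Real.log x := by
    push_cast
    linarith
  calc ((VX U x j).card : ℝ) ≤ _ := h0
    _ ≤ (3 * Real.log x) ^ (2 * j) := pow_le_pow_left₀ (by positivity) h2 _
    _ ≤ (3 * Real.log x) ^ 8 := pow_le_pow_right₀ (by linarith) (by omega)

theorem low_of (hvec : QVecProp) : LowProp := by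
  refine ⟨17, by norm_num, fun b hb ε hε => ?_⟩
  obtain ⟨C₁, hC₁, x₁, h1⟩ := hbx
  obtain ⟨C₂, hC₂, x₂, h2⟩ := hvec b hb
  have hb1 : (1 : ℝ) ≤ b := by exact_mod_cast (by omega : 1 ≤ b)
  have hb0 : (0 : ℝ) < b := by linarith
  refine ⟨C₁ * Real.exp (10 + 1 / (2 * ε)) * (4 * 3 ^ 8 * C₂) + 2 * C₁ * Real.exp 6 + 2 * C₁,
    by positivity, max (max x₁ x₂) (Real.exp 800), fun x hx J hJ hbJ => ?_⟩
  set K : ℝ := C₁ * Real.exp (10 + 1 / (2 * ε)) * (4 * 3 ^ 8 * C₂) + 2 * C₁ * Real.exp 6 +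
    2 * C₁ with hK
  have hx1 : x₁ ≤ x := le_trans (le_trans (le_max_left _ _) (le_max_left _ _)) hx
  have hx2 : x₂ ≤ x := le_trans (le_trans (le_max_right _ _) (le_max_left _ _)) hx
  have hxe : Real.exp 800 ≤ x := le_trans (le_max_right _ _) hx
  have hx0 : 0 < x := (Real.exp_pos _).trans_le hxe
  have hL : 800 ≤ Real.log x := (Real.le_log_iff_exp_le hx0).2 hxe
  have hxx : 1 ≤ x := le_trans (Real.one_le_exp (by norm_num)) hxe
  set L := Real.log x with hLd
  set a : ℝ := J * Real.log b with ha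
  have hlb : 0 ≤ Real.log b := Real.log_nonneg hb1
  have ha0 : 0 ≤ a := by positivity
  set T : ℝ := (b : ℝ) ^ J with hT
  have hTa : T = Real.exp a := by
    rw [hT, ha, mul_comm, Real.exp_mul, Real.exp_log hb0, Real.rpow_natCast]
  have hT0 : 0 < T := by rw [hTa]; exact Real.exp_pos a
  have haL : a ≤ L / 100 := by
    have h3 := Real.log_le_log hT0 hbJ
    rw [hT, Real.log_pow, Real.log_rpow hx0] at h3
    linarith
  set s := Real.sqrt (2 * a) with hs
  have hs0 : 0 ≤ s := Real.sqrt_nonneg _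
  have hs2 : s ^ 2 = 2 * a := Real.sq_sqrt (by linarith)
  have hsL : s ≤ L / 20 := Real.sqrt_le_iff.2 ⟨by linarith, by nlinarith⟩
  set U := s + 10 with hU
  have hU10 : 10 ≤ U := by rw [hU]; linarith
  have hUL : U ≤ 1 / 10 * L := by rw [hU]; linarith
  have hUL4 : U ≤ 1 / 4 * L := by linarith
  have hsε : s ≤ ε * a + 1 / (2 * ε) := by
    have h3 := sq_nonneg (ε * s - 1)
    have h4 : 2 * ε * s ≤ 2 * ε ^ 2 * a + 1 := by nlinarith
    have e : ε * a + 1 / (2 * ε) = (2 * ε ^ 2 * a + 1) / (2 * ε) := by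
      field_simp
    rw [e, le_div_iff₀ (by positivity)]
    linarith
  set I : (j : ℕ) → (Fin (2 * j) → ℕ) → DirichletCharacter ℂ (b ^ J) → ℝ → ℝ := fun j v χ t =>
    ∫ ξ, gk ξ * ∏ i, nt (tyf (x ^ (1 / 2 : ℝ)) (fac j i)) (v i) χ (t + ξ) with hI
  set K1 : ℝ := C₁ * x * Real.exp U with hK1
  set K2 : ℝ := C₁ * x * L ^ 16 * Real.exp (U - (U - 8) ^ 2) + C₁ * (x ^ 6)⁻¹ with hK2
  have hK1' : 0 ≤ K1 := by positivity
  have hK2' : 0 ≤ K2 := by positivity
  have hchi : ∀ χ : DirichletCharacter ℂ (b ^ J), ∫ t in Gt χ L T, ‖PP χ t x‖ ≤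
      K1 * (∑ j ∈ Finset.Icc 1 4, ∑ v ∈ VX U x j, ∫ t in Gt χ L T, I j v χ t) + K2 * (2 * T) := by
    intro χ
    have hGf : volume (Gt χ L T) ≠ ⊤ := ne_top_of_le_ne_top
      (by rw [Real.volume_Icc]; exact ENNReal.ofReal_ne_top) (measure_mono (Gt_sub χ L T))
    have hIc : ∀ j v, IntegrableOn (fun t => I j v χ t) (Gt χ L T) := fun j v =>
      ((q_int_cont (fun i => tyf (x ^ (1 / 2 : ℝ)) (fac j i)) (fun i => tyf_sm _ _) v
        χ).continuousOn.integrableOn_Icc).mono_set (Gt_sub χ L T)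
    have hPi : IntegrableOn (fun t => ‖PP χ t x‖) (Gt χ L T) :=
      ((PP_continuous χ hx0).norm.continuousOn.integrableOn_Icc).mono_set (Gt_sub χ L T)
    have hS1 : ∀ j, IntegrableOn (fun t => ∑ v ∈ VX U x j, I j v χ t) (Gt χ L T) := fun j =>
      integrable_finsetSum _ fun v _ => hIc j v
    have hS : IntegrableOn (fun t => ∑ j ∈ Finset.Icc 1 4, ∑ v ∈ VX U x j, I j v χ t)
        (Gt χ L T) := integrable_finsetSum _ fun j _ => hS1 j
    have hc : IntegrableOn (fun _ : ℝ => K2) (Gt χ L T) := integrableOn_const hGf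
    calc ∫ t in Gt χ L T, ‖PP χ t x‖
        ≤ ∫ t in Gt χ L T, (K1 * (∑ j ∈ Finset.Icc 1 4, ∑ v ∈ VX U x j, I j v χ t) + K2) := by
          refine setIntegral_mono hPi ((hS.const_mul K1).add hc) fun t => ?_
          have h3 := h1 x hx1 U hU10 hUL4 (b ^ J) χ t
          simp only [hI, hK1, hK2]
          linarith
      _ = K1 * (∑ j ∈ Finset.Icc 1 4, ∑ v ∈ VX U x j, ∫ t in Gt χ L T, I j v χ t) +
          volume.real (Gt χ L T) * K2 := by
          rw [integral_add (hS.const_mul K1) hc, integral_const_mul,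
            integral_finsetSum _ fun j _ => hS1 j, setIntegral_const, smul_eq_mul]
          congr 2
          refine Finset.sum_congr rfl fun j _ => ?_
          rw [integral_finsetSum _ fun v _ => hIc j v]
      _ ≤ _ := by
          have h4 : volume.real (Gt χ L T) ≤ 2 * T := by
            refine (measureReal_mono (Gt_sub χ L T)
              (by rw [Real.volume_Icc]; exact ENNReal.ofReal_ne_top)).trans ?_
            rw [Real.volume_real_Icc_of_le (by linarith)]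
            linarith
          have := mul_le_mul_of_nonneg_right h4 hK2'
          linarith
  have hsum : ∑ χ : DirichletCharacter ℂ (b ^ J), ∫ t in Gt χ L T, ‖PP χ t x‖ ≤
      K1 * (4 * ((3 * L) ^ 8 * (C₂ * L ^ 9))) + T * (K2 * (2 * T)) := by
    refine (Finset.sum_le_sum fun χ _ => hchi χ).trans ?_
    rw [Finset.sum_add_distrib, Finset.sum_const, Finset.card_univ, nsmul_eq_mul, ← Finset.mul_sum]
    have hc1 : (Fintype.card (DirichletCharacter ℂ (b ^ J)) : ℝ) ≤ T := by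
      have h3 := card_char_le (Q := b ^ J) (Nat.one_le_pow _ _ (by omega))
      rw [hT]
      exact_mod_cast h3
    have hc2 : ∑ χ : DirichletCharacter ℂ (b ^ J), ∑ j ∈ Finset.Icc 1 4, ∑ v ∈ VX U x j,
        ∫ t in Gt χ L T, I j v χ t ≤ 4 * ((3 * L) ^ 8 * (C₂ * L ^ 9)) := by
      rw [Finset.sum_comm]
      have h3 : ∀ j ∈ Finset.Icc 1 4, ∑ χ : DirichletCharacter ℂ (b ^ J), ∑ v ∈ VX U x j,
          ∫ t in Gt χ L T, I j v χ t ≤ (3 * L) ^ 8 * (C₂ * L ^ 9) := by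
        intro j hj
        have hj4 : j ≤ 4 := (Finset.mem_Icc.1 hj).2
        rw [Finset.sum_comm]
        have h4 : ∀ v ∈ VX U x j, ∑ χ : DirichletCharacter ℂ (b ^ J),
            ∫ t in Gt χ L T, I j v χ t ≤ C₂ * L ^ 9 := by
          intro v hv
          obtain ⟨hv1, hv2⟩ := Finset.mem_filter.1 hv
          refine h2 x hx2 J hbJ j hj4 v (fun i => ?_) (hv2.trans hUL) L
          have h5 := Finset.mem_range.1 (Fintype.mem_piFinset.1 hv1 i)
          have h6 : (v i : ℝ) ≤ ((⌊2 * Real.log x⌋₊ + 3 : ℕ) : ℝ) := by exact_mod_cast h5.le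
          have hfl : (⌊2 * Real.log x⌋₊ : ℝ) ≤ 2 * Real.log x := Nat.floor_le (by linarith)
          push_cast at h6
          linarith
        refine (Finset.sum_le_sum h4).trans ?_
        rw [Finset.sum_const, nsmul_eq_mul]
        exact mul_le_mul_of_nonneg_right (card_VX (by linarith) hj4) (by positivity)
      refine (Finset.sum_le_sum h3).trans ?_
      rw [Finset.sum_const, Nat.card_Icc, nsmul_eq_mul]
      norm_num
    have h7 := mul_le_mul_of_nonneg_left hc2 hK1'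
    have h8 := mul_le_mul_of_nonneg_right hc1 (by positivity : 0 ≤ K2 * (2 * T))
    linarith
  have hbe : (b : ℝ) ^ (ε * (J : ℝ)) = Real.exp (ε * a) := by
    rw [Real.rpow_def_of_pos hb0, ha]
    congr 1
    ring
  have hLp : L ^ (17 : ℝ) = L ^ 17 := by
    rw [show (17 : ℝ) = ((17 : ℕ) : ℝ) by norm_num, Real.rpow_natCast]
  rw [hbe, hLp]
  have hea : 1 ≤ Real.exp (ε * a) := Real.one_le_exp (by positivity)
  have hL1 : 1 ≤ L := by linarith
  -- first term
  have ht1 : K1 * (4 * ((3 * L) ^ 8 * (C₂ * L ^ 9))) ≤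
      C₁ * Real.exp (10 + 1 / (2 * ε)) * (4 * 3 ^ 8 * C₂) * (Real.exp (ε * a) * x * L ^ 17) := by
    have h3 : Real.exp U ≤ Real.exp (10 + 1 / (2 * ε)) * Real.exp (ε * a) := by
      rw [← Real.exp_add]
      apply Real.exp_le_exp.2
      rw [hU]; linarith
    calc K1 * (4 * ((3 * L) ^ 8 * (C₂ * L ^ 9)))
        = C₁ * Real.exp U * (4 * 3 ^ 8 * C₂) * (x * L ^ 17) := by rw [hK1]; ring
      _ ≤ C₁ * (Real.exp (10 + 1 / (2 * ε)) * Real.exp (ε * a)) * (4 * 3 ^ 8 * C₂) *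
          (x * L ^ 17) := by gcongr
      _ = _ := by ring
  -- second term
  have ht2 : T * (K2 * (2 * T)) ≤ (2 * C₁ * Real.exp 6 + 2 * C₁) * (Real.exp (ε * a) * x * L ^ 17) := by
    have hTT : T * T = Real.exp (2 * a) := by
      rw [hTa, ← Real.exp_add]; congr 1; ring
    have h3 : Real.exp (2 * a) * Real.exp (U - (U - 8) ^ 2) ≤ Real.exp 6 := by
      rw [← Real.exp_add]
      apply Real.exp_le_exp.2
      rw [hU]
      nlinarith
    have h4 : Real.exp (2 * a) * (x ^ 6)⁻¹ ≤ 1 := by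
      have h5 : Real.exp (2 * a) ≤ x := by
        rw [← Real.exp_log hx0]
        apply Real.exp_le_exp.2
        linarith
      have h6 : x ≤ x ^ 6 := le_self_pow₀ hxx (by norm_num)
      rw [← div_eq_mul_inv, div_le_one (by positivity)]
      linarith
    have h5 : L ^ 16 ≤ L ^ 17 := pow_le_pow_right₀ hL1 (by norm_num)
    have h6 : 1 ≤ x * L ^ 17 := one_le_mul_of_one_le_of_one_le hxx (one_le_pow₀ hL1)
    have h7 : x * L ^ 17 ≤ Real.exp (ε * a) * x * L ^ 17 := by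
      have : 0 ≤ x * L ^ 17 := by positivity
      nlinarith
    calc T * (K2 * (2 * T))
        = 2 * C₁ * (Real.exp (2 * a) * Real.exp (U - (U - 8) ^ 2)) * (x * L ^ 16) +
          2 * C₁ * (Real.exp (2 * a) * (x ^ 6)⁻¹) := by
          rw [← hTT, hK2]; ring
      _ ≤ 2 * C₁ * Real.exp 6 * (x * L ^ 17) + 2 * C₁ * 1 := by
          gcongr
      _ ≤ (2 * C₁ * Real.exp 6 + 2 * C₁) * (x * L ^ 17) := by
          have : 2 * C₁ * 1 ≤ 2 * C₁ * (x * L ^ 17) :=
            mul_le_mul_of_nonneg_left h6 (by linarith)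
          linarith
      _ ≤ _ := mul_le_mul_of_nonneg_left h7 (by positivity)
  calc ∑ χ : DirichletCharacter ℂ (b ^ J), ∫ t in Gt χ L T, ‖PP χ t x‖ ≤ _ := hsum
    _ ≤ C₁ * Real.exp (10 + 1 / (2 * ε)) * (4 * 3 ^ 8 * C₂) * (Real.exp (ε * a) * x * L ^ 17) +
        (2 * C₁ * Real.exp 6 + 2 * C₁) * (Real.exp (ε * a) * x * L ^ 17) := add_le_add ht1 ht2
    _ = _ := by rw [hK]; ring

theorem low_prop (hPV : PVProp) : LowProp := low_of fun _ hb => q_vec hPV hb

theorem low_prop' : LowProp := low_prop pv_prop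

end Pool.Agent.HPX
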