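import Pool.Agent.HPX.RLow

/-!
# HPX/RFin: the error terms from the three ranges

`x = b^(k-1)`, `J₁ = ⌈logb b ((log x)^c)⌉ + 2`, `c = 1200 (B₀ + 1)`, `J₂ = min m ((k-1)/101)`.
-/

namespace Pool.Agent.HPX

open Complex MeasureTheory Filter Pool.Agent.HPP

theorem rFin : RFinMod := by
  intro f₀ hS hL hM hH V₀ η hBp f hf1 hf2
  have hf0 : 0 < f := by linarith
  obtain ⟨K, hK0, hK⟩ : ∃ K : ℝ, 0 ≤ K ∧ ∀ y z, |V₀ y - V₀ z| ≤ K * |y - z| := by
    have hcs : HasCompactSupport V₀ := by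
      refine HasCompactSupport.intro (K := Set.Icc 0 1) isCompact_Icc fun y hy => ?_
      by_contra h
      have h1 : y ∈ tsupport V₀ := subset_tsupport _ (Function.mem_support.2 h)
      exact hy (Set.Ioo_subset_Icc_self (hBp.V_supp h1))
    obtain ⟨K, hK⟩ := (hBp.V_smooth 1).lipschitzWith_of_hasCompactSupport hcs (by norm_num)
    refine ⟨K, K.2, fun y z => ?_⟩
    have := hK.dist_le_mul y z
    rwa [Real.dist_eq, Real.dist_eq] at this
  obtain ⟨B₀, hB0, bM, hM⟩ := hM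
  obtain ⟨J₀, hJ₀⟩ := hH f hf1 hf2 K hK0
  refine ⟨J₀ + 1, fun J hJ => ?_⟩
  obtain ⟨bH, hbH⟩ := hJ₀ J (by omega)
  refine ⟨bM + bH, fun b p hbb hbp hbas A hA ε hε => ?_⟩
  have hb3 : 3 ≤ b := hbas.three
  have hβ : (1 : ℝ) < b := by exact_mod_cast (by omega : 1 < b)
  have hβ0 : (0 : ℝ) < b := by linarith
  have hlb : 0 < Real.log b := Real.log_pos hβ
  set c : ℝ := 1200 * (B₀ + 1) with hc
  have hc0 : 0 < c := by rw [hc]; linarith
  obtain ⟨x1, h1⟩ := hL b hbp hb3 (c + 1) (by linarith) (ε / 3) (by positivity)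
  obtain ⟨x2, h2⟩ := hM b (by omega) hbp K hK0 (ε / 3) (by positivity)
  obtain ⟨w3, h3⟩ := hbH b (by omega) hbp A hA (ε / 3) (by positivity)
  -- `J₁` is small compared with `w`
  have hlin : Tendsto (fun w : ℕ => A * Real.log b * (w : ℝ)) atTop atTop :=
    Tendsto.const_mul_atTop (by positivity) tendsto_natCast_atTop_atTop
  have hev1 : ∀ᶠ w : ℕ in atTop, Real.log (A * Real.log b * (w : ℝ)) ≤
      1 / (202 * c * A) * (A * Real.log b * (w : ℝ)) := by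
    have h4 := (Real.isLittleO_log_id_atTop.def (c := 1 / (202 * c * A)) (by positivity))
    have h5 := hlin.eventually h4
    filter_upwards [h5, hlin.eventually_ge_atTop 0] with w hw hw0
    rw [id, Real.norm_eq_abs, Real.norm_of_nonneg hw0] at hw
    exact (le_abs_self _).trans hw
  have hev2 : ∀ᶠ w : ℕ in atTop, max (max x1 x2) (max ((b : ℝ) ^ 3 / Real.log b) 1000) ≤ (w : ℝ) :=
    tendsto_natCast_atTop_atTop.eventually_ge_atTop _
  obtain ⟨w₀, hw₀⟩ := eventually_atTop.1 ((hev1.and hev2).and (eventually_ge_atTop w3))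
  refine ⟨w₀, fun w hw k hk1 hk2 => ?_⟩
  obtain ⟨⟨e1, e2⟩, e3⟩ := hw₀ w hw
  have hwx1 : x1 ≤ (w : ℝ) := ((le_max_left _ _).trans (le_max_left _ _)).trans e2
  have hwx2 : x2 ≤ (w : ℝ) := ((le_max_right _ _).trans (le_max_left _ _)).trans e2
  have hwb : (b : ℝ) ^ 3 / Real.log b ≤ (w : ℝ) :=
    ((le_max_left _ _).trans (le_max_right _ _)).trans e2
  have hw1000 : (1000 : ℝ) ≤ w := ((le_max_right _ _).trans (le_max_right _ _)).trans e2
  have hw1000' : 1000 ≤ w := by exact_mod_cast hw1000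
  have hkw : (w : ℝ) + 1 ≤ k := by
    have h4 : (0 : ℝ) ≤ 2 * (2 ^ J * w) := by positivity
    have h5 : 0 ≤ f * ((k : ℝ) - 1 - w) := h4.trans hk1
    have h6 : 0 ≤ (k : ℝ) - 1 - w := nonneg_of_mul_nonneg_right h5 hf0
    linarith
  have hkw' : w + 1 ≤ k := by exact_mod_cast hkw
  have hk1r : ((k - 1 : ℕ) : ℝ) = (k : ℝ) - 1 := by
    rw [Nat.cast_sub (by omega)]; norm_num
  set m : ℕ := 2 ^ J * w with hm
  have h2J : 2 ≤ 2 ^ J := by
    calc 2 = 2 ^ 1 := (pow_one 2).symm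
      _ ≤ 2 ^ J := Nat.pow_le_pow_right (by norm_num) (by omega)
  have hmw : 2 * w ≤ m := Nat.mul_le_mul_right w h2J
  set x : ℝ := (b : ℝ) ^ (k - 1) with hx
  have hx0 : 0 < x := by positivity
  have hxw : (w : ℝ) ≤ x := by
    have h4 : k - 1 < b ^ (k - 1) := Nat.lt_pow_self (by omega)
    have h5 : w ≤ b ^ (k - 1) := by omega
    rw [hx]; exact_mod_cast h5
  have hx1 : 1 ≤ x := by linarith
  set T : ℝ := (b : ℝ) ^ (m + w / 4) with hT
  have hT0 : 0 < T := by positivity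
  set L : ℝ := Real.log x with hLdef
  have hLk : L = ((k : ℝ) - 1) * Real.log b := by
    rw [hLdef, hx, Real.log_pow, hk1r]
  have hLw : (w : ℝ) * Real.log b ≤ L := by
    rw [hLk]; exact mul_le_mul_of_nonneg_right (by linarith) hlb.le
  have hLb : (b : ℝ) ^ 3 ≤ L := by
    rw [div_le_iff₀ hlb] at hwb
    exact hwb.trans hLw
  have hL1 : 1 ≤ L := (one_le_pow₀ hβ.le).trans hLb
  have hL0 : 0 < L := by linarith
  have hLA : L ≤ A * Real.log b * w := by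
    rw [hLk]
    have : ((k : ℝ) - 1) * Real.log b ≤ A * w * Real.log b :=
      mul_le_mul_of_nonneg_right (by linarith) hlb.le
    linarith
  set y : ℝ := c * Real.logb b L with hy
  have hy0 : 0 ≤ y := mul_nonneg hc0.le (Real.logb_nonneg hβ hL1)
  have hby : (b : ℝ) ^ y = L ^ c := by
    rw [hy, mul_comm, Real.rpow_mul hβ0.le, Real.rpow_logb hβ0 (by linarith) hL0]
  have hyw : y ≤ w / 202 := by
    have h4 : Real.log L ≤ 1 / (202 * c * A) * (A * Real.log b * w) :=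
      (Real.log_le_log hL0 hLA).trans e1
    have h5 : Real.logb b L ≤ 1 / (202 * c) * w := by
      rw [Real.logb, div_le_iff₀ hlb]
      refine h4.trans (le_of_eq ?_)
      field_simp
    calc y = c * Real.logb b L := rfl
      _ ≤ c * (1 / (202 * c) * w) := mul_le_mul_of_nonneg_left h5 hc0.le
      _ = w / 202 := by field_simp
  set J₁ : ℕ := ⌈y⌉₊ + 2 with hJ₁
  have hceil1 : y ≤ (⌈y⌉₊ : ℝ) := Nat.le_ceil y
  have hceil2 : (⌈y⌉₊ : ℝ) < y + 1 := Nat.ceil_lt_add_one hy0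
  have hJ₁r : (J₁ : ℝ) = (⌈y⌉₊ : ℝ) + 2 := by rw [hJ₁]; push_cast; ring
  have hJ₁w : (J₁ : ℝ) * 101 ≤ w := by rw [hJ₁r]; linarith
  have hJ₁w' : J₁ * 101 ≤ w := by exact_mod_cast hJ₁w
  have hlow : L ^ c ≤ (b : ℝ) ^ J₁ := by
    rw [← hby, ← Real.rpow_natCast]
    exact Real.rpow_le_rpow_of_exponent_le hβ.le (by rw [hJ₁r]; linarith)
  have hup : (b : ℝ) ^ J₁ ≤ L ^ (c + 1) := by
    have h4 : (b : ℝ) ^ J₁ ≤ (b : ℝ) ^ (y + 3) := by
      rw [← Real.rpow_natCast]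
      exact Real.rpow_le_rpow_of_exponent_le hβ.le (by rw [hJ₁r]; linarith)
    have h5 : (b : ℝ) ^ (y + 3) = L ^ c * (b : ℝ) ^ 3 := by
      rw [Real.rpow_add hβ0, hby]
      congr 1
      exact_mod_cast Real.rpow_natCast (b : ℝ) 3
    rw [h5] at h4
    refine h4.trans ?_
    rw [Real.rpow_add hL0, Real.rpow_one]
    exact mul_le_mul_of_nonneg_left hLb (Real.rpow_nonneg hL0.le _)
  set J₂ : ℕ := min m ((k - 1) / 101) with hJ₂
  have hJ12 : J₁ ≤ J₂ := by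
    rw [hJ₂, le_min_iff]
    constructor
    · omega
    · rw [Nat.le_div_iff_mul_le (by norm_num)]
      omega
  have hJ2m : J₂ ≤ m := min_le_left _ _
  have hJ1m : J₁ ≤ m := hJ12.trans hJ2m
  have hJ2x : (b : ℝ) ^ J₂ ≤ x ^ (1 / 100 : ℝ) := by
    rw [hx, ← Real.rpow_natCast, ← Real.rpow_natCast, ← Real.rpow_mul hβ0.le]
    refine Real.rpow_le_rpow_of_exponent_le hβ.le ?_
    have h4 : (J₂ : ℝ) ≤ (((k - 1) / 101 : ℕ) : ℝ) := by exact_mod_cast min_le_right _ _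
    have h5 : (((k - 1) / 101 : ℕ) : ℝ) ≤ ((k - 1 : ℕ) : ℝ) / 101 := by
      exact_mod_cast Nat.cast_div_le
    have h6 : (0 : ℝ) ≤ ((k - 1 : ℕ) : ℝ) := Nat.cast_nonneg _
    linarith
  have hTm : T ≤ (b : ℝ) ^ (m + m / 8) := by
    rw [hT]
    refine pow_le_pow_right₀ hβ.le ?_
    omega
  set V : ℝ → ℝ := fun y => V₀ (y - p) with hVdef
  have hVr : ∀ y, 0 ≤ V y ∧ V y ≤ 1 := fun y => hBp.V_range _
  have hVK : ∀ y z, |V y - V z| ≤ K * |y - z| := by
    intro y z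
    have := hK (y - p) (z - p)
    rwa [sub_sub_sub_cancel_right] at this
  have g0 := hS b p m J₁ J₂ V x T hbas (by omega) hJ12 hx1 hT0
  have g1 := h1 x (hwx1.trans hxw) p m J₁ V hbas hVr (by omega) hJ1m hup
  have g2 := h2 x (hwx2.trans hxw) p m J₁ J₂ V T hbas hVr hVK (by omega) hJ12 hJ2m hJ2x hlow hT0 hTm
  have g3 := h3 w e3 k p V hbas hVr hVK hk1 hk2
  have g4 : E2 b p J w k V ≤ R1 b p m J₁ V x + ∑ j ∈ Finset.Ico J₁ J₂, R2 b p m j V x T +
      R3 b p m J₂ V x T := g0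
  refine g4.trans ?_
  have g5 : ε * ((RR b p m ∅).card : ℝ) * x = ε / 3 * ((RR b p m ∅).card : ℝ) * x +
      ε / 3 * ((RR b p m ∅).card : ℝ) * x + ε / 3 * ((RR b p m ∅).card : ℝ) * x := by ring
  rw [g5]
  exact add_le_add (add_le_add g1 g2) g3

theorem errAssembly_of (hD : RDefsMod) (hMid : RMidMod) (hHigh : RHighMod) : ErrAssembly := by
  intro f₀ h1 h2 hSup hE hLow hSW hPN hSm hBig
  obtain ⟨C, hC, hCell⟩ := hD.2 hSup
  exact rFin f₀ hD.1 (rLow hSW hPN) (hMid C hC hCell hLow)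
    (hHigh f₀ h1 h2 C hC hCell hE hSm hBig)

end Pool.Agent.HPX
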