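import Pool.Agent.HPX.RTool
import Pool.Agent.HPP.AErr

/-!
# HPX/RHigh: the high part of the error terms

`N = 2^J`, `m = N w`, `x = b^(k-1)`, `(k-1) ≥ (18/5) N w + w`, `J₂ = min m ((k-1)/101)`, `J₂ + 1 ≥ N w / 30`.
`cell` twice at modulus `b^m`: `{lv χ ≥ J₂} × [-T, T]` and `{lv χ < J₂} × {b^J₂ ≤ |t| ≤ T}`; `s = C^(2m) (1+K) b^(4 - J₂/600)
≤ b^((1/24 - N/18000) w)`, `E = b^w`, `U = b^(8 w)`, `y = x^(-u)`.
-/

namespace Pool.Agent.HPX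

open Complex MeasureTheory Pool.Agent.HPP Filter

/-- the sup bound on all high cells -/
theorem rh_sup {C : ℝ} (hC1 : 1 ≤ C) (hsup : SupCell C) {b p m J₂ a : ℕ} {V : ℝ → ℝ} {K : ℝ}
    (hbp : b.Prime) (hb : Bas b p) (hV : ∀ y, 0 ≤ V y ∧ V y ≤ 1) (hK0 : 0 ≤ K)
    (hK : ∀ y z, |V y - V z| ≤ K * |y - z|) (hm : 1 ≤ m) (hJ : 2 ≤ J₂) (ha : a ≤ m / 8)
    (χ : DirichletCharacter ℂ (b ^ m)) (t : ℝ) (ht : |t| ≤ (b : ℝ) ^ (m + a))
    (h : (b : ℝ) ^ J₂ ≤ mx χ t) :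
    ‖cc b p ∅ V χ t‖ ≤
      C ^ (2 * m) * (1 + K) * (b : ℝ) ^ (4 - (J₂ : ℝ) / 600) * ((RR b p m ∅).card : ℝ) := by
  have hb3 := hb.three
  have hβ : (1 : ℝ) < b := by exact_mod_cast (by omega : 1 < b)
  have hβ0 : (0 : ℝ) < b := by linarith
  have : NeZero (b ^ m) := ⟨pow_ne_zero m (by omega)⟩
  have hlm : lv χ ≤ m := lv_le χ (DirichletCharacter.FactorsThrough.same_level χ)
  have hmT : mx χ t ≤ (b : ℝ) ^ (m + a) :=
    max_le (pow_le_pow_right₀ hβ.le (by omega)) ht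
  have h1 : mx χ t < (b : ℝ) ^ (m + a + 1) :=
    hmT.trans_lt (pow_lt_pow_right₀ hβ (by omega))
  have hex : ∃ j : ℕ, mx χ t < (b : ℝ) ^ (j + 1) := ⟨m + a, h1⟩
  have g1 := Nat.find_spec hex
  have g2 : Nat.find hex ≤ m + a := Nat.find_min' hex h1
  set j := Nat.find hex with hj
  have g3 : J₂ < j + 1 := (pow_lt_pow_iff_right₀ hβ).1 (h.trans_lt g1)
  have g4 : (b : ℝ) ^ j ≤ mx χ t := by
    have g5 : ¬ (mx χ t < (b : ℝ) ^ (j - 1 + 1)) := Nat.find_min hex (by omega)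
    rw [not_lt] at g5
    have g6 : j - 1 + 1 = j := by omega
    rwa [g6] at g5
  have g7 := hsup b p m j V K hbp hb hV hK0 hK hm (by omega) χ t
    (ht.trans (pow_le_pow_right₀ hβ.le (by omega))) g4 g1.le
  refine g7.trans (mul_le_mul_of_nonneg_right ?_ (by positivity))
  have g8 : C ^ j ≤ C ^ (2 * m) := pow_le_pow_right₀ hC1 (by omega)
  have g9 : (b : ℝ) ^ (4 - (j : ℝ) / 600) ≤ (b : ℝ) ^ (4 - (J₂ : ℝ) / 600) := by
    refine Real.rpow_le_rpow_of_exponent_le hβ.le ?_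
    have : (J₂ : ℝ) ≤ j := by exact_mod_cast (by omega : J₂ ≤ j)
    linarith
  have hC0 : 0 ≤ C := by linarith
  refine mul_le_mul (mul_le_mul_of_nonneg_right g8 (by linarith)) g9
    (Real.rpow_nonneg hβ0.le _) (by positivity)

/-- moments on a subset of characters -/
theorem rh_mom {Q : ℕ} {x T κ q y y' A : ℝ} (hx : 0 < x) (hq : 0 ≤ q) (hyy : y' ≤ y)
    (S : Finset (DirichletCharacter ℂ Q)) (I : Set ℝ)
    (hI : ∀ χ ∈ S, I ⊆ Gt χ κ T) [Fintype (DirichletCharacter ℂ Q)]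
    (h : ∑ χ : DirichletCharacter ℂ Q,
      ∫ t in Gt χ κ T ∩ {t | y' ≤ ‖PP χ t x‖ / x}, (‖PP χ t x‖ / x) ^ q ≤ A) :
    ∑ χ ∈ S, ∫ t in I ∩ {t | y ≤ ‖PP χ t x‖ / x}, (‖PP χ t x‖ / x) ^ q ≤ A := by
  refine le_trans (Finset.sum_le_sum fun χ hχ => ?_) (le_trans
    (Finset.sum_le_sum_of_subset_of_nonneg (Finset.subset_univ S)
      (f := fun χ => ∫ t in Gt χ κ T ∩ {t | y' ≤ ‖PP χ t x‖ / x}, (‖PP χ t x‖ / x) ^ q)
      fun χ _ _ => ae_nonneg χ hx _) h)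
  refine ae_mono χ hx hq (T := T) (Set.inter_subset_left.trans (ae_Gt_sub _ _ _)) ?_
  rintro t ⟨ht1, ht2⟩
  exact ⟨hI χ hχ ht1, le_trans hyy ht2⟩

theorem rh_mom1 {Q : ℕ} {x T κ q A : ℝ} (hx : 0 < x) (hq : 0 ≤ q)
    (S : Finset (DirichletCharacter ℂ Q)) (I : Set ℝ)
    (hI : ∀ χ ∈ S, I ⊆ Gt χ κ T) [Fintype (DirichletCharacter ℂ Q)]
    (h : ∑ χ : DirichletCharacter ℂ Q,
      ∫ t in Gt χ κ T, (‖PP χ t x‖ / x) ^ q ≤ A) :
    ∑ χ ∈ S, ∫ t in I, (‖PP χ t x‖ / x) ^ q ≤ A := by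
  refine le_trans (Finset.sum_le_sum fun χ hχ => ?_) (le_trans
    (Finset.sum_le_sum_of_subset_of_nonneg (Finset.subset_univ S)
      (f := fun χ => ∫ t in Gt χ κ T, (‖PP χ t x‖ / x) ^ q)
      fun χ _ _ => ae_nonneg χ hx _) h)
  exact ae_mono χ hx hq (T := T) (ae_Gt_sub _ _ _) (hI χ hχ)

/-- choice of `J₀` -/
theorem rh_J {u γ : ℝ} (hu : 0 < u) (hγ : 0 < γ) : ∃ J₀ : ℕ, ∀ J : ℕ, J₀ ≤ J →
    1 ≤ J ∧ (40000 : ℝ) ≤ 2 ^ J ∧ 8 ≤ u * 2 ^ J ∧ 2 ≤ (u * γ) * 2 ^ J := by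
  have key : ∀ c : ℝ, 0 < c → ∀ d : ℝ, ∀ᶠ J : ℕ in atTop, d ≤ c * 2 ^ J := by
    intro c hc d
    have h := ae_lin_exp (β := 2) (c := 1) (by norm_num) one_pos 0 (d / c)
    filter_upwards [h] with n hn
    rw [one_mul, Real.rpow_natCast, zero_mul, zero_add, div_le_iff₀ hc] at hn
    linarith
  have h1 := key 1 one_pos 40000
  have h2 := key u hu 8
  have h3 := key (u * γ) (by positivity) 2
  have h4 : ∀ᶠ J : ℕ in atTop, 1 ≤ J := eventually_ge_atTop 1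
  obtain ⟨J₀, hJ₀⟩ := eventually_atTop.1 (h1.and (h2.and (h3.and h4)))
  refine ⟨J₀, fun J hJ => ?_⟩
  obtain ⟨a1, a2, a3, a4⟩ := hJ₀ J hJ
  exact ⟨a4, by linarith, a2, a3⟩

theorem rHigh : RHighMod := by
  classical
  intro f₀ h₀ h₀' C hC1 hsup hEn hSm hBig f hf1 hf2 K hK0
  obtain ⟨CE, hCE1, hE⟩ := hEn
  obtain ⟨p₁, hp1, hp1', hbig⟩ := hBig f hf1 hf2
  obtain ⟨u, hu, hS⟩ := hSm f (10 / 9) (by linarith) (by linarith) (by linarith) (by norm_num)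
  have hγ : 0 < 4 / 3 - p₁ := by linarith
  obtain ⟨J₀, hJ₀⟩ := rh_J hu hγ
  refine ⟨J₀, fun J hJ => ?_⟩
  obtain ⟨hJ1, hJN, hJa, hJb⟩ := hJ₀ J hJ
  set CC : ℝ := max CE (C ^ 2) with hCC
  have hCE : CE ≤ CC := le_max_left _ _
  have hCL : C ^ 2 ≤ CC := le_max_right _ _
  have hCC1 : 1 ≤ CC := hCE1.trans hCE
  refine ⟨⌈(CC ^ 2 ^ J) ^ 48⌉₊ + 3, fun b hbb hbp A hA ε hε => ?_⟩
  have hb3 : 3 ≤ b := by omega
  have hb2 : 2 ≤ b := by omega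
  have hβ : (1 : ℝ) < b := by exact_mod_cast (by omega : 1 < b)
  have hβ0 : (0 : ℝ) < b := by linarith
  have hCb : ∀ C : ℝ, 1 ≤ C → C ≤ CC → ∀ w : ℕ, C ^ (2 ^ J * w) ≤ (b : ℝ) ^ (1 / 48 * (w : ℝ)) := by
    intro C hC1 hC2 w
    have h1 : (CC ^ 2 ^ J) ^ 48 ≤ (b : ℝ) := by
      have h2 : (CC ^ 2 ^ J) ^ 48 ≤ (⌈(CC ^ 2 ^ J) ^ 48⌉₊ : ℝ) := Nat.le_ceil _
      have h3 : ((⌈(CC ^ 2 ^ J) ^ 48⌉₊ + 3 : ℕ) : ℝ) ≤ b := by exact_mod_cast hbb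
      push_cast at h3
      linarith
    have h2 : CC ^ 2 ^ J ≤ (b : ℝ) ^ (1 / 48 : ℝ) := by
      have h3 : 0 ≤ CC ^ 2 ^ J := by positivity
      have h4 := Real.rpow_le_rpow (by positivity) h1 (by norm_num : (0 : ℝ) ≤ 1 / 48)
      have h5 : ((CC ^ 2 ^ J) ^ 48) ^ (1 / 48 : ℝ) = CC ^ 2 ^ J := by
        rw [← Real.rpow_natCast (CC ^ 2 ^ J) 48, ← Real.rpow_mul h3]
        norm_num
      rwa [h5] at h4
    calc C ^ (2 ^ J * w) ≤ CC ^ (2 ^ J * w) := pow_le_pow_left₀ (by linarith) hC2 _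
      _ = (CC ^ 2 ^ J) ^ w := by rw [pow_mul]
      _ ≤ ((b : ℝ) ^ (1 / 48 : ℝ)) ^ w := pow_le_pow_left₀ (by positivity) h2 _
      _ = (b : ℝ) ^ (1 / 48 * (w : ℝ)) := by
          rw [← Real.rpow_natCast, ← Real.rpow_mul hβ0.le]
  obtain ⟨xa, hxa⟩ := hbig b hb2 (1 / (200 * A)) (by positivity) (1 / (3 * A)) (by positivity)
  obtain ⟨xb, hxb⟩ := hS b hb2 (1 / (200 * A)) (by positivity) (1 / (3 * A)) (by positivity)
  have e1 := ae_lin_exp hβ (by norm_num : (0 : ℝ) < 1 / 48) 0 ((1 + K) * (b : ℝ) ^ (5 : ℝ))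
  have e2 := ae_lin_exp hβ one_pos 0 (max xa xb)
  have e3 := ae_lin_exp hβ one_pos 0 (6 / ε)
  have e5 : ∀ᶠ w : ℕ in atTop, 12 ≤ w := eventually_ge_atTop 12
  obtain ⟨w₀, hw₀⟩ := eventually_atTop.1 (e1.and (e2.and (e3.and e5)))
  refine ⟨w₀, fun w hw k p V hbas hVr hVK hk1 hk2 => ?_⟩
  obtain ⟨g1, g2, g3, hw12⟩ := hw₀ w hw
  have hW : (12 : ℝ) ≤ w := by exact_mod_cast hw12
  set W : ℝ := (w : ℝ) with hWdef
  have hW0 : 0 ≤ W := by linarith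
  rw [zero_mul, zero_add] at g1 g2 g3
  set m : ℕ := 2 ^ J * w with hm
  have h2J : 1 ≤ 2 ^ J := Nat.one_le_two_pow
  have h2J' : (1 : ℝ) ≤ 2 ^ J := by exact_mod_cast h2J
  have hwm : w ≤ m := by rw [hm]; nlinarith
  have hm1 : 1 ≤ m := by omega
  have hmr : (m : ℝ) = 2 ^ J * W := by rw [hm]; push_cast; rfl
  have hr : ∀ a : ℝ, 0 < (b : ℝ) ^ a := fun a => Real.rpow_pos_of_pos hβ0 a
  have hmono : ∀ a c : ℝ, a ≤ c → (b : ℝ) ^ a ≤ (b : ℝ) ^ c := fun a c h =>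
    Real.rpow_le_rpow_of_exponent_le hβ.le h
  -- `k`
  have hkk : 18 / 5 * (2 ^ J * W) + W ≤ (k : ℝ) - 1 := by
    have h1 : 0 ≤ (k : ℝ) - 1 - W := by
      by_contra h
      rw [not_le] at h
      have : f * ((k : ℝ) - 1 - W) < 0 := mul_neg_of_pos_of_neg (by linarith) h
      have h3 : 0 ≤ 2 * (2 ^ J * W) := by positivity
      linarith
    have h2 : f * ((k : ℝ) - 1 - W) ≤ 5 / 9 * ((k : ℝ) - 1 - W) :=
      mul_le_mul_of_nonneg_right (by linarith) h1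
    linarith
  have hkW : 2 ^ J * W ≤ (k : ℝ) - 1 := by
    have : 0 ≤ 2 ^ J * W := by positivity
    linarith
  have hWJ : W ≤ 2 ^ J * W := by nlinarith
  have hNW : 40000 * W ≤ 2 ^ J * W := mul_le_mul_of_nonneg_right hJN hW0
  have hk1' : 1 ≤ k := by
    have : (1 : ℝ) ≤ k := by linarith
    exact_mod_cast this
  set x : ℝ := (b : ℝ) ^ (k - 1) with hx
  have hkc : ((k - 1 : ℕ) : ℝ) = (k : ℝ) - 1 := by rw [Nat.cast_sub hk1', Nat.cast_one]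
  have hxr : x = (b : ℝ) ^ ((k : ℝ) - 1) := by
    rw [hx, ← Real.rpow_natCast, hkc]
  have hx0 : 0 < x := by rw [hxr]; exact hr _
  have hx1 : 1 ≤ x := by rw [hx]; exact one_le_pow₀ hβ.le
  have hxpow : ∀ a : ℝ, x ^ a = (b : ℝ) ^ (((k : ℝ) - 1) * a) := by
    intro a; rw [hxr, ← Real.rpow_mul hβ0.le]
  have hxbig : max xa xb ≤ x := by
    have h1 : (b : ℝ) ^ (1 * W) ≤ x := by
      rw [hxr]; exact hmono _ _ (by linarith)
    linarith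
  have hxa' : xa ≤ x := (le_max_left _ _).trans hxbig
  have hxb' : xb ≤ x := (le_max_right _ _).trans hxbig
  set Aε : ℝ := x ^ (1 / (200 * A)) with hAε
  have hAε0 : 0 ≤ Aε := Real.rpow_nonneg hx0.le _
  have hAε1 : Aε ≤ (b : ℝ) ^ (1 / 200 * W) := by
    rw [hAε, hxpow]
    refine hmono _ _ ?_
    rw [mul_one_div, div_le_iff₀ (by positivity)]
    have : 1 / 200 * W * (200 * A) = A * W := by ring
    linarith
  -- `J₂`
  set J₂ : ℕ := min m ((k - 1) / 101) with hJ₂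
  have hJ2 : 2 ^ J * W / 30 ≤ (J₂ : ℝ) + 1 := by
    rw [hJ₂, Nat.cast_min]
    rcases le_total (m : ℝ) (((k - 1) / 101 : ℕ) : ℝ) with h | h
    · rw [min_eq_left h, hmr]
      have : 0 ≤ 2 ^ J * W := by positivity
      linarith
    · rw [min_eq_right h]
      have h1 : k - 1 ≤ 101 * ((k - 1) / 101) + 101 := by omega
      have h2 : ((k - 1 : ℕ) : ℝ) ≤ ((101 * ((k - 1) / 101) + 101 : ℕ) : ℝ) := by exact_mod_cast h1
      rw [hkc] at h2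
      push_cast at h2
      linarith
  have hJ2' : (2 : ℝ) ≤ J₂ := by linarith
  have hJ2n : 2 ≤ J₂ := by exact_mod_cast hJ2'
  set κx : ℝ := x ^ (1 / (3 * A)) with hκx
  have hκx1 : κx ≤ (b : ℝ) ^ J₂ := by
    rw [hκx, hxpow, ← Real.rpow_natCast]
    refine hmono _ _ ?_
    rw [mul_one_div, div_le_iff₀ (by positivity)]
    have h1 : W / 3 ≤ (J₂ : ℝ) := by linarith
    have h2 : W / 3 * (3 * A) ≤ J₂ * (3 * A) := mul_le_mul_of_nonneg_right h1 (by positivity)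
    have : W / 3 * (3 * A) = A * W := by ring
    linarith
  set T : ℝ := (b : ℝ) ^ (m + w / 4) with hTdef
  have hT0 : 0 < T := by positivity
  have hTr : T = (b : ℝ) ^ ((m : ℝ) + ((w / 4 : ℕ) : ℝ)) := by
    rw [hTdef, ← Real.rpow_natCast]; push_cast; rfl
  have hw4 : ((w / 4 : ℕ) : ℝ) ≤ W / 4 := by exact_mod_cast Nat.cast_div_le
  have hw8 : w / 4 ≤ m / 8 := by
    have h1 : 2 * w ≤ m := by
      rw [hm]
      refine Nat.mul_le_mul_right _ ?_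
      calc 2 = 2 ^ 1 := by norm_num
        _ ≤ 2 ^ J := Nat.pow_le_pow_right (by norm_num) hJ1
    omega
  have hmT : (b : ℝ) ^ m ≤ T := pow_le_pow_right₀ hβ.le (by omega)
  have hszf : (b : ℝ) ^ m * T ≤ x ^ f := by
    rw [hTr, ← Real.rpow_natCast, ← Real.rpow_add hβ0, hxpow]
    refine hmono _ _ ?_
    have h2 : f * ((k : ℝ) - 1 - W) = ((k : ℝ) - 1) * f - f * W := by ring
    have h3 : 5 / 12 * W ≤ f * W := mul_le_mul_of_nonneg_right hf1.le hW0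
    rw [hmr]
    linarith
  -- energy
  set Eb : ℝ := (b : ℝ) ^ (1 * W) with hEb
  have hEn : ∑ χ : DirichletCharacter ℂ (b ^ m), ∫ t in (-T)..T, ‖cc b p ∅ V χ t‖ ^ 4 ≤
      Eb * ((RR b p m ∅).card : ℝ) ^ 4 := by
    refine (hE b p m ∅ V hbas hm1 (Finset.empty_subset _) hVr T hmT).trans ?_
    refine mul_le_mul_of_nonneg_right ?_ (by positivity)
    have h1 : CE ^ m ≤ (b : ℝ) ^ (1 / 48 * W) := hCb CE hCE1 hCE w
    have h2 : T / (b : ℝ) ^ m ≤ (b : ℝ) ^ (W / 4) := by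
      rw [div_le_iff₀ (by positivity), hTr, ← Real.rpow_natCast (b : ℝ) m, ← Real.rpow_add hβ0]
      exact hmono _ _ (by linarith)
    have h3 : (b : ℝ) ^ (3 * ((∅ : Finset ℕ).card + 1)) ≤ (b : ℝ) ^ (W / 4) := by
      rw [← Real.rpow_natCast]
      refine hmono _ _ ?_
      rw [Finset.card_empty]
      push_cast
      linarith
    calc CE ^ m * (T / (b : ℝ) ^ m) * (b : ℝ) ^ (3 * ((∅ : Finset ℕ).card + 1)) ≤
        (b : ℝ) ^ (1 / 48 * W) * (b : ℝ) ^ (W / 4) * (b : ℝ) ^ (W / 4) := by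
          refine mul_le_mul (mul_le_mul h1 h2 (by positivity) (hr _).le) h3 (by positivity) ?_
          exact mul_nonneg (hr _).le (hr _).le
      _ = (b : ℝ) ^ (1 / 48 * W + W / 4 + W / 4) := by
          rw [← Real.rpow_add hβ0, ← Real.rpow_add hβ0]
      _ ≤ Eb := hmono _ _ (by linarith)
  -- parameters of the cells
  set U : ℝ := (b : ℝ) ^ (8 * W) with hUdef
  have hU1 : 1 ≤ U := Real.one_le_rpow hβ.le (by positivity)
  set y : ℝ := x ^ (-u) with hy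
  have hy0 : 0 < y := Real.rpow_pos_of_pos hx0 _
  have huk : 8 * W ≤ ((k : ℝ) - 1) * u := by
    have h1 : 8 * W ≤ u * 2 ^ J * W := mul_le_mul_of_nonneg_right hJa hW0
    have h2 : u * (2 ^ J * W) ≤ u * ((k : ℝ) - 1) := mul_le_mul_of_nonneg_left hkW hu.le
    linarith
  have hyU : y ≤ U⁻¹ := by
    rw [hy, hxpow, hUdef, ← Real.rpow_neg hβ0.le]
    exact hmono _ _ (by linarith)
  have hyτ : y ^ (4 / 3 - p₁) ≤ (b : ℝ) ^ (-((u * (4 / 3 - p₁) * 2 ^ J) * W)) := by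
    rw [hy, ← Real.rpow_mul hx0.le, hxpow]
    refine hmono _ _ ?_
    have h2 : (u * (4 / 3 - p₁)) * (2 ^ J * W) ≤ (u * (4 / 3 - p₁)) * ((k : ℝ) - 1) :=
      mul_le_mul_of_nonneg_left hkW (by positivity)
    linarith
  have hR0 : (0 : ℝ) ≤ (RR b p m ∅).card := by positivity
  set s : ℝ := C ^ (2 * m) * (1 + K) * (b : ℝ) ^ (4 - (J₂ : ℝ) / 600) with hsdef
  have hC0 : 0 ≤ C := by linarith
  have hs0 : 0 ≤ s := by
    have := (hr (4 - (J₂ : ℝ) / 600)).le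
    positivity
  have hs1 : s ≤ (b : ℝ) ^ ((1 / 24 - 2 ^ J / 18000) * W) := by
    have h1 : C ^ (2 * m) ≤ (b : ℝ) ^ (1 / 48 * W) := by
      rw [pow_mul]
      exact hCb (C ^ 2) (one_le_pow₀ hC1) hCL w
    have h2 : (1 + K) * (b : ℝ) ^ (4 - (J₂ : ℝ) / 600) ≤
        (b : ℝ) ^ ((1 / 48 - 2 ^ J / 18000) * W) := by
      have h3 : (b : ℝ) ^ (4 - (J₂ : ℝ) / 600) ≤ (b : ℝ) ^ (5 : ℝ) * (b : ℝ) ^ (-(2 ^ J / 18000 * W)) := by
        rw [← Real.rpow_add hβ0]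
        refine hmono _ _ ?_
        linarith
      calc (1 + K) * (b : ℝ) ^ (4 - (J₂ : ℝ) / 600) ≤
          (1 + K) * ((b : ℝ) ^ (5 : ℝ) * (b : ℝ) ^ (-(2 ^ J / 18000 * W))) :=
            mul_le_mul_of_nonneg_left h3 (by linarith)
        _ = ((1 + K) * (b : ℝ) ^ (5 : ℝ)) * (b : ℝ) ^ (-(2 ^ J / 18000 * W)) := by ring
        _ ≤ (b : ℝ) ^ (1 / 48 * W) * (b : ℝ) ^ (-(2 ^ J / 18000 * W)) :=
            mul_le_mul_of_nonneg_right g1 (hr _).le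
        _ = _ := by rw [← Real.rpow_add hβ0]; ring_nf
    calc s = C ^ (2 * m) * ((1 + K) * (b : ℝ) ^ (4 - (J₂ : ℝ) / 600)) := by rw [hsdef]; ring
      _ ≤ (b : ℝ) ^ (1 / 48 * W) * (b : ℝ) ^ ((1 / 48 - 2 ^ J / 18000) * W) := by
          refine mul_le_mul h1 h2 ?_ (hr _).le
          exact mul_nonneg (by linarith) (hr _).le
      _ = _ := by rw [← Real.rpow_add hβ0]; ring_nf
  have hcells := fun (χ : DirichletCharacter ℂ (b ^ m)) (t : ℝ) (ht : |t| ≤ T)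
    (h : (b : ℝ) ^ J₂ ≤ mx χ t) =>
    rh_sup hC1 hsup hbp hbas hVr hK0 hVK hm1 hJ2n hw8 χ t ht h
  have hsm := hxb x hxb' m T hm1 hmT hszf
  have hbg := hxa x hxa' m T hm1 hmT hszf
  have hmeas : MeasurableSet {t : ℝ | (b : ℝ) ^ J₂ ≤ |t| ∧ |t| ≤ T} :=
    (measurableSet_le measurable_const continuous_abs.measurable).inter
      (measurableSet_le continuous_abs.measurable measurable_const)
  set S1 := (Finset.univ : Finset (DirichletCharacter ℂ (b ^ m))).filter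
    (fun χ => J₂ ≤ lv χ) with hS1
  set S2 := (Finset.univ : Finset (DirichletCharacter ℂ (b ^ m))).filter
    (fun χ => ¬ J₂ ≤ lv χ) with hS2
  have hI1 : ∀ χ ∈ S1, Set.Icc (-T) T ⊆ Gt χ κx T := by
    intro χ hχ t ht
    refine ⟨abs_le.2 (Set.mem_Icc.1 ht), fun h => ?_⟩
    rw [hS1, Finset.mem_filter, h, lv_one] at hχ
    have := hχ.2
    omega
  have hI2 : ∀ χ ∈ S2, {t : ℝ | (b : ℝ) ^ J₂ ≤ |t| ∧ |t| ≤ T} ⊆ Gt χ κx T := by
    intro χ hχ t ht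
    exact ⟨ht.2, fun _ => hκx1.trans ht.1⟩
  have hnum : s * U ^ ((10 / 9 : ℝ) - 1) * Aε +
      Eb ^ (1 / 4 : ℝ) * (U ^ (-(4 / 3 - (10 / 9 : ℝ))) * Aε) ^ (3 / 4 : ℝ) +
      Eb ^ (1 / 4 : ℝ) * (y ^ (4 / 3 - p₁) * Aε) ^ (3 / 4 : ℝ) ≤ 3 * (b : ℝ) ^ (-1 * W) := by
    refine ae_num hβ hW0 hAε0 hAε1 hUdef hEb hy0.le hyτ hs1 ?_ ?_ ?_
    · linarith
    · norm_num
    · linarith
  have hc1 := cell hbas hm1 hVr S1 (J := Set.Icc (-T) T) measurableSet_Icc hx1 hT0 (subset_refl _)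
    (s := s) (E := Eb) (A := Aε) (U := U) (y := y) (p' := 10 / 9) (p₁ := p₁)
    (fun χ hχ t ht => hcells χ t (abs_le.2 (Set.mem_Icc.1 ht))
      ((pow_le_pow_right₀ hβ.le (Finset.mem_filter.1 hχ).2).trans (le_max_left _ _)))
    (by norm_num) (by norm_num) hp1 hp1' hU1 hy0 hyU hs0 hEn
    (rh_mom hx0 (by norm_num) (le_refl _) S1 _ hI1 hsm)
    (rh_mom1 hx0 (by linarith) S1 _ hI1 hbg)
  have hc2 := cell hbas hm1 hVr S2 (J := {t : ℝ | (b : ℝ) ^ J₂ ≤ |t| ∧ |t| ≤ T}) hmeas hx1 hT0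
    (fun t ht => Set.mem_Icc.2 (abs_le.1 ht.2))
    (s := s) (E := Eb) (A := Aε) (U := U) (y := y) (p' := 10 / 9) (p₁ := p₁)
    (fun χ hχ t ht => hcells χ t ht.2 (ht.1.trans (le_max_right _ _)))
    (by norm_num) (by norm_num) hp1 hp1' hU1 hy0 hyU hs0 hEn
    (rh_mom hx0 (by norm_num) (le_refl _) S2 _ hI2 hsm)
    (rh_mom1 hx0 (by linarith) S2 _ hI2 hbg)
  have hsplit : R3 b p m J₂ V x T =
      ∑ χ ∈ S1, (∫ t in Set.Icc (-T) T, ‖cc b p ∅ V χ t‖ * ‖PP χ t x‖) +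
      ∑ χ ∈ S2, (∫ t in {t : ℝ | (b : ℝ) ^ J₂ ≤ |t| ∧ |t| ≤ T},
        ‖cc b p ∅ V χ t‖ * ‖PP χ t x‖) := by
    unfold R3
    rw [← Finset.sum_filter_add_sum_filter_not Finset.univ (fun χ => J₂ ≤ lv χ)]
    congr 1
    · refine Finset.sum_congr rfl fun χ hχ => ?_
      have h1 : {t : ℝ | |t| ≤ T ∧ (b : ℝ) ^ J₂ ≤ mx χ t} = Set.Icc (-T) T := by
        ext t
        constructor
        · intro ht
          exact Set.mem_Icc.2 (abs_le.1 ht.1)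
        · intro ht
          exact ⟨abs_le.2 (Set.mem_Icc.1 ht),
            (pow_le_pow_right₀ hβ.le (Finset.mem_filter.1 hχ).2).trans (le_max_left _ _)⟩
      rw [h1]
    · refine Finset.sum_congr rfl fun χ hχ => ?_
      have h1 : {t : ℝ | |t| ≤ T ∧ (b : ℝ) ^ J₂ ≤ mx χ t} =
          {t : ℝ | (b : ℝ) ^ J₂ ≤ |t| ∧ |t| ≤ T} := by
        ext t
        constructor
        · intro ht
          refine ⟨?_, ht.1⟩
          rcases le_max_iff.1 ht.2 with h | h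
          · exact absurd ((pow_le_pow_iff_right₀ hβ).1 h) (Finset.mem_filter.1 hχ).2
          · exact h
        · intro ht
          exact ⟨ht.2, ht.1.trans (le_max_right _ _)⟩
      rw [h1]
  rw [hsplit]
  have hRx : 0 ≤ ((RR b p m ∅).card : ℝ) * x := mul_nonneg hR0 hx0.le
  have h5 := mul_le_mul_of_nonneg_left hnum hRx
  have h6 : 6 * (b : ℝ) ^ (-1 * W) ≤ ε := by
    have h7 : (b : ℝ) ^ (-1 * W) = ((b : ℝ) ^ (1 * W))⁻¹ := by
      rw [← Real.rpow_neg hβ0.le]; ring_nf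
    rw [h7, mul_inv_le_iff₀ (hr _)]
    rw [div_le_iff₀ hε] at g3
    linarith
  calc _ ≤ ((RR b p m ∅).card : ℝ) * x * (3 * (b : ℝ) ^ (-1 * W)) +
      ((RR b p m ∅).card : ℝ) * x * (3 * (b : ℝ) ^ (-1 * W)) :=
        add_le_add (hc1.trans h5) (hc2.trans h5)
    _ = ((RR b p m ∅).card : ℝ) * x * (6 * (b : ℝ) ^ (-1 * W)) := by ring
    _ ≤ ((RR b p m ∅).card : ℝ) * x * ε := mul_le_mul_of_nonneg_left h6 hRx
    _ = _ := by ring

end Pool.Agent.HPX
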