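import Pool.Agent.HPX.RIface
import Pool.Agent.HPP.ALev

/-!
# HPX/RMid: the middle cells (`RMidProp`)

On the cell `j` (`b^j ≤ max (b^lv) |t| ≤ b^(j+1)`) the sup bound gives `C^j (1+K) b^(4 - j/600)`, the
`L^1` norm of the prime polynomial is at most that over all characters mod `b^(j+1)` (`LowProp` at
`j + 1` with `ε = 1/4800`), and `C ≤ b^(1/4800)`. The sum over `j ≥ J₁` is geometric with ratio
`b^(-1/800)`, and `b^(J₁/1200) ≥ (log x)^(B₀+1)`.
-/

namespace Pool.Agent.HPX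
open Complex MeasureTheory Pool.Agent.HPP

theorem rm_lift {b m n : ℕ} (hb : 2 ≤ b) (hm : 1 ≤ m) (hn : 1 ≤ n) :
    ∃ e : DirichletCharacter ℂ (b ^ m) → DirichletCharacter ℂ (b ^ n),
      Set.InjOn e {χ | lv χ ≤ n} ∧ ∀ χ, lv χ ≤ n →
        (∀ t x, PP χ t x = PP (e χ) t x) ∧ (e χ = 1 → χ = 1) := by
  classical
  have : NeZero (b ^ n) := ⟨pow_ne_zero n (by omega)⟩
  have : NeZero (b ^ m) := ⟨pow_ne_zero m (by omega)⟩
  rcases le_total m n with h | h
  · have hd : b ^ m ∣ b ^ n := pow_dvd_pow b h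
    refine ⟨fun χ => DirichletCharacter.changeLevel hd χ, ?_, ?_⟩
    · intro χ _ ψ _ hEq
      exact DirichletCharacter.changeLevel_injective hd hEq
    · intro χ _
      have hf : (DirichletCharacter.changeLevel hd χ).FactorsThrough (b ^ m) := ⟨hd, χ, rfl⟩
      constructor
      · intro t x
        have h1 := PP_induced hb hm (DirichletCharacter.changeLevel hd χ) hf t x
        have h2 : hf.χ₀ = χ := by
          have h3 := hf.eq_changeLevel
          exact (DirichletCharacter.changeLevel_injective hd h3).symm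
        rw [h1, h2]
      · intro h1
        have h2 : DirichletCharacter.changeLevel hd χ = DirichletCharacter.changeLevel hd 1 := by
          rw [DirichletCharacter.changeLevel_one]; exact h1
        exact DirichletCharacter.changeLevel_injective hd h2
  · have hf : ∀ χ : DirichletCharacter ℂ (b ^ m), lv χ ≤ n → χ.FactorsThrough (b ^ n) := by
      intro χ hχ
      exact DirichletCharacter.FactorsThrough.mono χ (lv_factors χ) (pow_dvd_pow b hχ)
        (pow_dvd_pow b h)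
    set e : DirichletCharacter ℂ (b ^ m) → DirichletCharacter ℂ (b ^ n) := fun χ =>
      if h : χ.FactorsThrough (b ^ n) then h.χ₀ else 1 with he
    have hev : ∀ χ (hχ : χ.FactorsThrough (b ^ n)), e χ = hχ.χ₀ := by
      intro χ hχ
      simp only [he]
      exact dif_pos hχ
    refine ⟨e, ?_, ?_⟩
    · intro χ hχ ψ hψ hEq
      have h1 := hf χ hχ
      have h2 := hf ψ hψ
      rw [hev χ h1, hev ψ h2] at hEq
      rw [h1.eq_changeLevel, h2.eq_changeLevel, hEq]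
    · intro χ hχ
      have h1 := hf χ hχ
      rw [hev χ h1]
      refine ⟨fun t x => PP_induced hb hn χ h1 t x, fun h2 => ?_⟩
      rw [h1.eq_changeLevel, h2, DirichletCharacter.changeLevel_one]

/-- transfer of a sum over the characters of level `≤ n` to the modulus `b ^ n` -/
theorem rm_sum {b m n : ℕ} (hb : 2 ≤ b) (hm : 1 ≤ m) (hn : 1 ≤ n) {x κ T : ℝ} (hx : 0 < x)
    (S : Finset (DirichletCharacter ℂ (b ^ m))) (hS : ∀ χ ∈ S, lv χ ≤ n)
    (A : DirichletCharacter ℂ (b ^ m) → Set ℝ)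
    (hA : ∀ χ ∈ S, ∀ t ∈ A χ, |t| ≤ T ∧ (χ = 1 → κ ≤ |t|)) :
    ∑ χ ∈ S, ∫ t in A χ, ‖PP χ t x‖ ≤
      ∑ χ : DirichletCharacter ℂ (b ^ n), ∫ t in Gt χ κ T, ‖PP χ t x‖ := by
  classical
  obtain ⟨e, he1, he2⟩ := rm_lift (b := b) (m := m) (n := n) hb hm hn
  have h1 : ∀ χ ∈ S, ∫ t in A χ, ‖PP χ t x‖ ≤ ∫ t in Gt (e χ) κ T, ‖PP (e χ) t x‖ := by
    intro χ hχ
    obtain ⟨g1, g2⟩ := he2 χ (hS χ hχ)
    have h2 : ∀ t, PP χ t x = PP (e χ) t x := fun t => g1 t x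
    simp only [h2]
    refine setIntegral_mono_set ?_ (Filter.Eventually.of_forall fun t => norm_nonneg _)
      (LE.le.eventuallyLE ?_)
    · exact ((PP_continuous (e χ) hx).norm.continuousOn.integrableOn_Icc (a := -T) (b := T)).mono_set
        (fun t ht => Set.mem_Icc.2 (abs_le.1 ht.1))
    · intro t ht
      obtain ⟨a1, a2⟩ := hA χ hχ t ht
      exact ⟨a1, fun h3 => a2 (g2 h3)⟩
  refine (Finset.sum_le_sum h1).trans ?_
  have hinj : Set.InjOn e (S : Set (DirichletCharacter ℂ (b ^ m))) :=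
    he1.mono fun χ hχ => hS χ hχ
  rw [← Finset.sum_image (f := fun ψ : DirichletCharacter ℂ (b ^ n) =>
    ∫ t in Gt ψ κ T, ‖PP ψ t x‖) hinj]
  exact Finset.sum_le_sum_of_subset_of_nonneg (Finset.subset_univ _)
    fun ψ _ _ => integral_nonneg fun t => norm_nonneg _

/-- one cell -/
theorem rm_cell {C : ℝ} (hC : 1 ≤ C) (hS : SupCell C)
    {b p m j : ℕ} (hbp : b.Prime) (hb : Bas b p) (hm : 1 ≤ m) (hj : 2 ≤ j) {V : ℝ → ℝ} {K : ℝ}
    (hV : ∀ y, 0 ≤ V y ∧ V y ≤ 1) (hK : 0 ≤ K) (hVK : ∀ y z, |V y - V z| ≤ K * |y - z|)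
    {x T : ℝ} (hx : 0 < x) (hT : T ≤ (b : ℝ) ^ (m + m / 8)) :
    R2 b p m j V x T ≤
      C ^ j * (1 + K) * (b : ℝ) ^ (4 - (j : ℝ) / 600) * ((RR b p m ∅).card : ℝ) *
      ∑ χ : DirichletCharacter ℂ (b ^ (j + 1)),
        ∫ t in Gt χ (Real.log x) ((b : ℝ) ^ (j + 1)), ‖PP χ t x‖ := by
  classical
  have hb3 := hb.three
  have hb1 : (1 : ℝ) < b := by exact_mod_cast (by omega : 1 < b)
  have hb0 : (0 : ℝ) < b := by linarith
  set A : DirichletCharacter ℂ (b ^ m) → Set ℝ := fun χ => Gt χ (Real.log x) T ∩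
    {t | |t| ≤ (b : ℝ) ^ (j + 1) ∧ (b : ℝ) ^ j ≤ mx χ t} with hA
  set s : ℝ := C ^ j * (1 + K) * (b : ℝ) ^ (4 - (j : ℝ) / 600) * ((RR b p m ∅).card : ℝ) with hs
  have hs0 : 0 ≤ s := by positivity
  set S : Finset (DirichletCharacter ℂ (b ^ m)) := Finset.univ.filter fun χ => lv χ ≤ j with hSd
  have hmeas : ∀ χ, MeasurableSet (A χ) := by
    intro χ
    have e1 : MeasurableSet (Gt χ (Real.log x) T) := by
      have : Gt χ (Real.log x) T = {t : ℝ | |t| ≤ T} ∩ {t : ℝ | χ = 1 → Real.log x ≤ |t|} := rfl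
      rw [this]
      refine (measurableSet_le measurable_norm measurable_const).inter ?_
      by_cases h : χ = 1
      · simp only [h, forall_true_left]
        exact measurableSet_le measurable_const measurable_norm
      · simp only [h, false_imp_iff, Set.ofPred_true]
        exact MeasurableSet.univ
    refine e1.inter (MeasurableSet.inter ?_ ?_)
    · exact measurableSet_le measurable_norm measurable_const
    · exact measurableSet_le measurable_const (measurable_const.max measurable_norm)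
  have hcont : ∀ χ : DirichletCharacter ℂ (b ^ m),
      Continuous fun t : ℝ => ‖cc b p ∅ V χ t‖ * ‖PP χ t x‖ := fun χ =>
    (cc_continuous hb hm ∅ V χ).norm.mul (PP_continuous χ hx).norm
  have hsub : ∀ χ, A χ ⊆ Set.Icc (-T) T := fun χ t ht => Set.mem_Icc.2 (abs_le.1 ht.1.1)
  have h2 : ∀ χ ∈ S, ∫ t in A χ, ‖cc b p ∅ V χ t‖ * ‖PP χ t x‖ ≤ s * ∫ t in A χ, ‖PP χ t x‖ := by
    intro χ hχ
    have hlv : lv χ ≤ j := (Finset.mem_filter.1 hχ).2
    rw [← integral_const_mul]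
    refine setIntegral_mono_on ((hcont χ).continuousOn.integrableOn_Icc.mono_set (hsub χ))
      (((continuous_const.mul (PP_continuous χ hx).norm).continuousOn.integrableOn_Icc).mono_set
        (hsub χ)) (hmeas χ) ?_
    rintro t ⟨⟨ht1, ht2⟩, ht3, ht4⟩
    refine mul_le_mul_of_nonneg_right ?_ (norm_nonneg _)
    rw [hs]
    refine hS b p m j V K hbp hb hV hK hVK hm hj χ t (ht1.trans hT) ht4 ?_
    exact max_le (pow_le_pow_right₀ hb1.le (by omega)) ht3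
  have h3 := rm_sum (b := b) (m := m) (n := j + 1) (by omega) hm (by omega) hx (κ := Real.log x)
    (T := (b : ℝ) ^ (j + 1)) S (fun χ hχ => by
      have := (Finset.mem_filter.1 hχ).2
      omega) A (by
      rintro χ _ t ⟨⟨ht1, ht2⟩, ht3, ht4⟩
      exact ⟨ht3, ht2⟩)
  calc R2 b p m j V x T
      = ∑ χ ∈ S, ∫ t in A χ, ‖cc b p ∅ V χ t‖ * ‖PP χ t x‖ := by
        unfold R2
        rw [hSd]
    _ ≤ ∑ χ ∈ S, s * ∫ t in A χ, ‖PP χ t x‖ := Finset.sum_le_sum h2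
    _ = s * ∑ χ ∈ S, ∫ t in A χ, ‖PP χ t x‖ := by rw [Finset.mul_sum]
    _ ≤ _ := mul_le_mul_of_nonneg_left h3 hs0

theorem rm_pow {C : ℝ} (hC : 1 ≤ C) {b : ℕ} (hb : C ^ 4800 ≤ (b : ℝ)) (j : ℕ) :
    C ^ j ≤ (b : ℝ) ^ ((j : ℝ) / 4800) := by
  have h0 : 0 ≤ C := by linarith
  have hb0 : (0 : ℝ) ≤ b := by positivity
  have h1 : C ≤ (b : ℝ) ^ (1 / 4800 : ℝ) := by
    have h2 := Real.rpow_le_rpow (by positivity) hb (by norm_num : (0 : ℝ) ≤ 1 / 4800)
    have h3 : (C ^ 4800) ^ (1 / 4800 : ℝ) = C := by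
      rw [← Real.rpow_natCast C 4800, ← Real.rpow_mul h0]
      norm_num
    rwa [h3] at h2
  calc C ^ j ≤ ((b : ℝ) ^ (1 / 4800 : ℝ)) ^ j := pow_le_pow_left₀ h0 h1 j
    _ = (b : ℝ) ^ ((j : ℝ) / 4800) := by
        rw [← Real.rpow_natCast, ← Real.rpow_mul hb0]
        congr 1; ring

theorem rMid : RMidMod := by
  intro C hC hS hLowP
  obtain ⟨B₀, hB₀, hLow⟩ := hLowP
  refine ⟨B₀, hB₀, ⌈C ^ 4800⌉₊ + 2, fun b hbb hbp K hK ε hε => ?_⟩
  have hbC : C ^ 4800 ≤ (b : ℝ) := by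
    have h1 : C ^ 4800 ≤ (⌈C ^ 4800⌉₊ : ℝ) := Nat.le_ceil _
    have h2 : ((⌈C ^ 4800⌉₊ + 2 : ℕ) : ℝ) ≤ b := by exact_mod_cast hbb
    push_cast at h2
    linarith
  have hb2 := hbp.two_le
  have hb1 : (1 : ℝ) < b := by exact_mod_cast (by omega : 1 < b)
  have hb0 : (0 : ℝ) < b := by linarith
  obtain ⟨C', hC', x₀, hx₀⟩ := hLow b (by omega) (1 / 4800) (by norm_num)
  set r : ℝ := (b : ℝ) ^ (-(1 / 800) : ℝ) with hr
  have hr0 : 0 < r := Real.rpow_pos_of_pos hb0 _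
  have hr1 : r < 1 := Real.rpow_lt_one_of_one_lt_of_neg hb1 (by norm_num)
  have h6 : 0 < 1 - r := by linarith
  set D : ℝ := (1 + K) * C' * (b : ℝ) ^ (5 : ℝ) * (1 - r)⁻¹ with hD
  have hD0 : 0 < D := by positivity
  refine ⟨max x₀ (max (Real.exp 1) (Real.exp (D / ε))), ?_⟩
  intro x hx p m J₁ J₂ V T hb hV hVK hJ₁ hJ12 hJ₂m hJ2x hJ1 hT0 hT
  have hm : 1 ≤ m := by omega
  have hxx₀ : x₀ ≤ x := (le_max_left _ _).trans hx
  have hxe : Real.exp 1 ≤ x := (le_max_left _ _).trans ((le_max_right _ _).trans hx)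
  have hxD : Real.exp (D / ε) ≤ x := (le_max_right _ _).trans ((le_max_right _ _).trans hx)
  have hx0 : 0 < x := lt_of_lt_of_le (Real.exp_pos 1) hxe
  have hL : 1 ≤ Real.log x := by
    rw [← Real.log_exp 1]; exact Real.log_le_log (Real.exp_pos 1) hxe
  have hLD : D / ε ≤ Real.log x := by
    rw [← Real.log_exp (D / ε)]; exact Real.log_le_log (Real.exp_pos _) hxD
  set L : ℝ := Real.log x with hLd
  have hL0 : 0 < L := by linarith
  set R : ℝ := ((RR b p m ∅).card : ℝ) with hR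
  have hR0 : 0 ≤ R := by positivity
  have hJ1' : L ^ (B₀ + 1) ≤ (b : ℝ) ^ ((J₁ : ℝ) / 1200) := by
    have h1 := Real.rpow_le_rpow (by positivity) hJ1 (by norm_num : (0 : ℝ) ≤ 1 / 1200)
    rw [← Real.rpow_mul hL0.le, ← Real.rpow_natCast, ← Real.rpow_mul hb0.le] at h1
    have e1 : 1200 * (B₀ + 1) * (1 / 1200) = B₀ + 1 := by ring
    have e2 : (J₁ : ℝ) * (1 / 1200) = (J₁ : ℝ) / 1200 := by ring
    rwa [e1, e2] at h1
  have hone : ∀ j ∈ Finset.Ico J₁ J₂, R2 b p m j V x T ≤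
      (1 + K) * C' * (b : ℝ) ^ (5 : ℝ) * R * x * L ^ B₀ * r ^ j := by
    intro j hj
    rw [Finset.mem_Ico] at hj
    have h1 := rm_cell hC hS hbp hb hm (j := j) (by omega) hV hK hVK (x := x) hx0 hT
    refine h1.trans ?_
    have h2 : (b : ℝ) ^ (j + 1) ≤ x ^ (1 / 100 : ℝ) :=
      (pow_le_pow_right₀ hb1.le (by omega)).trans hJ2x
    have h3 := hx₀ x hxx₀ (j + 1) (by omega) h2
    have h4 : C ^ j ≤ (b : ℝ) ^ ((j : ℝ) / 4800) := rm_pow hC hbC j
    calc C ^ j * (1 + K) * (b : ℝ) ^ (4 - (j : ℝ) / 600) * R *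
        ∑ χ : DirichletCharacter ℂ (b ^ (j + 1)), ∫ t in Gt χ L ((b : ℝ) ^ (j + 1)), ‖PP χ t x‖
        ≤ (b : ℝ) ^ ((j : ℝ) / 4800) * (1 + K) * (b : ℝ) ^ (4 - (j : ℝ) / 600) * R *
          (C' * (b : ℝ) ^ (1 / 4800 * ((j + 1 : ℕ) : ℝ)) * x * L ^ B₀) := by
          refine mul_le_mul ?_ h3 ?_ ?_
          · refine mul_le_mul_of_nonneg_right (mul_le_mul_of_nonneg_right
              (mul_le_mul_of_nonneg_right h4 ?_) ?_) hR0
            · linarith
            · positivity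
          · exact Finset.sum_nonneg fun χ _ => integral_nonneg fun t => norm_nonneg _
          · positivity
      _ = (1 + K) * C' * R * x * L ^ B₀ * ((b : ℝ) ^ ((j : ℝ) / 4800) *
          (b : ℝ) ^ (4 - (j : ℝ) / 600) * (b : ℝ) ^ (1 / 4800 * ((j + 1 : ℕ) : ℝ))) := by ring
      _ ≤ (1 + K) * C' * R * x * L ^ B₀ * ((b : ℝ) ^ (5 : ℝ) * r ^ j) := by
          refine mul_le_mul_of_nonneg_left ?_ (by positivity)
          rw [hr, ← Real.rpow_natCast, ← Real.rpow_mul hb0.le, ← Real.rpow_add hb0,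
            ← Real.rpow_add hb0, ← Real.rpow_add hb0]
          refine Real.rpow_le_rpow_of_exponent_le hb1.le ?_
          push_cast
          linarith
      _ = _ := by ring
  refine (Finset.sum_le_sum hone).trans ?_
  rw [← Finset.mul_sum]
  have hgeo : ∑ j ∈ Finset.Ico J₁ J₂, r ^ j ≤ r ^ J₁ * (1 - r)⁻¹ := by
    have := geom_sum_Ico_le_of_lt_one (m := J₁) (n := J₂) hr0.le hr1
    rwa [div_eq_mul_inv] at this
  have hrJ : r ^ J₁ ≤ (L ^ (B₀ + 1))⁻¹ := by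
    have h1 : r ^ J₁ ≤ ((b : ℝ) ^ ((J₁ : ℝ) / 1200))⁻¹ := by
      rw [hr, ← Real.rpow_natCast, ← Real.rpow_mul hb0.le, ← Real.rpow_neg hb0.le]
      refine Real.rpow_le_rpow_of_exponent_le hb1.le ?_
      have : (0 : ℝ) ≤ J₁ := by positivity
      linarith
    refine h1.trans (inv_anti₀ (by positivity) hJ1')
  have h5 : L ^ B₀ * (L ^ (B₀ + 1))⁻¹ = L⁻¹ := by
    rw [Real.rpow_add hL0, Real.rpow_one, mul_inv, ← mul_assoc,
      mul_inv_cancel₀ (by positivity), one_mul]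
  have hfin : D * L⁻¹ ≤ ε := by
    rw [← div_eq_mul_inv, div_le_iff₀ hL0]
    rw [div_le_iff₀ hε] at hLD
    linarith
  calc (1 + K) * C' * (b : ℝ) ^ (5 : ℝ) * R * x * L ^ B₀ * ∑ j ∈ Finset.Ico J₁ J₂, r ^ j
      ≤ (1 + K) * C' * (b : ℝ) ^ (5 : ℝ) * R * x * L ^ B₀ * ((L ^ (B₀ + 1))⁻¹ * (1 - r)⁻¹) := by
        refine mul_le_mul_of_nonneg_left (hgeo.trans ?_) (by positivity)
        exact mul_le_mul_of_nonneg_right hrJ (by positivity)
    _ = (1 + K) * C' * (b : ℝ) ^ (5 : ℝ) * (1 - r)⁻¹ * R * x * (L ^ B₀ * (L ^ (B₀ + 1))⁻¹) := by ring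
    _ = D * L⁻¹ * R * x := by rw [h5, hD]; ring
    _ ≤ ε * R * x := by
        refine mul_le_mul_of_nonneg_right (mul_le_mul_of_nonneg_right hfin hR0) hx0.le

end Pool.Agent.HPX
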