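import Pool.Agent.HPX.RDefs
import Pool.Agent.HPX.RMid
import Pool.Agent.HPX.RHigh
import Pool.Agent.HPX.RFin

/-!
# HPX/RAsm: all error terms
-/

namespace Pool.Agent.HPX

theorem errAssembly : ErrAssembly := errAssembly_of rDefs rMid rHigh

end Pool.Agent.HPX
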