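import Pool.Agent.HPX.SDefs
import Pool.Agent.HPP.APP

/-! # HPX/SFin: SupAll from case T and case A -/

namespace Pool.Agent.HPX

open Complex Pool.Agent.HPP

private lemma sfin_pow_mono {b : ℝ} (hb : 1 ≤ b) {x y : ℕ} (h : x ≤ y) :
    b ^ (4 - (y : ℝ) / 600) ≤ b ^ (4 - (x : ℝ) / 600) := by
  apply Real.rpow_le_rpow_of_exponent_le hb
  have : (x : ℝ) ≤ y := by exact_mod_cast h
  linarith

theorem sFin : SFinProp := by
  rintro ⟨C₁, hC₁, hT⟩ ⟨C₂, hC₂, hA⟩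
  have hC22 : (1 : ℝ) ≤ C₂ ^ 2 := one_le_pow₀ hC₂
  have hC12 : (1 : ℝ) ≤ C₁ * C₂ ^ 2 := by nlinarith
  have hle1 : C₁ ≤ C₁ * C₂ ^ 2 := by nlinarith
  have hle2 : C₂ ^ 2 ≤ C₁ * C₂ ^ 2 := by nlinarith
  refine ⟨C₁ * C₂ ^ 2, hC12, ?_⟩
  intro b p m m' J V K hbp hb hV hK hLip hm1 hmm χ hχ hχ2 t ht hJ1 hJ2 hJ
  have hb3 : (3 : ℝ) ≤ b := by exact_mod_cast hb.three
  have hb1 : (1 : ℝ) ≤ b := by linarith
  have hb1' : (1 : ℝ) < b := by linarith
  have hb0 : (0 : ℝ) < b := by linarith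
  have hR : (0 : ℝ) ≤ ((RR b p m ∅).card : ℝ) := Nat.cast_nonneg _
  have hK1 : (1 : ℝ) ≤ 1 + K := by linarith
  have hCJ : (1 : ℝ) ≤ (C₁ * C₂ ^ 2) ^ J := one_le_pow₀ hC12
  have hpos : ∀ z : ℝ, 0 < (b : ℝ) ^ z := fun z => Real.rpow_pos_of_pos hb0 z
  rcases Nat.lt_or_ge J 2400 with hJs | hJb
  · -- trivial bound
    have htriv := cc_le (b := b) (p := p) (m := m) hb (le_trans hm1 hmm) ∅ hV χ t
    refine htriv.trans ?_
    have h1 : (1 : ℝ) ≤ (b : ℝ) ^ (4 - (J : ℝ) / 600) := by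
      apply Real.one_le_rpow hb1
      have : (J : ℝ) ≤ 2400 := by exact_mod_cast hJs.le
      linarith
    have h2 : (1 : ℝ) ≤ (C₁ * C₂ ^ 2) ^ J * (1 + K) := by nlinarith
    have h3 : (1 : ℝ) ≤ (C₁ * C₂ ^ 2) ^ J * (1 + K) * (b : ℝ) ^ (4 - (J : ℝ) / 600) := by nlinarith
    nlinarith
  · rcases le_or_gt ((b : ℝ) ^ ((m' : ℝ) + 1 / 20)) |t| with hc | hc
    · have hmt : (b : ℝ) ^ m' ≤ |t| := by
        refine le_trans ?_ hc
        rw [← Real.rpow_natCast]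
        exact Real.rpow_le_rpow_of_exponent_le hb1 (by linarith)
      rw [max_eq_right hmt] at hJ1 hJ2
      refine (hT b p m m' J V K hbp hb hV hK hLip hm1 hmm χ hχ hχ2 t ht hc hJ1 hJ2
        (by omega)).trans ?_
      have h1 : C₁ ^ J ≤ (C₁ * C₂ ^ 2) ^ J := pow_le_pow_left₀ (by linarith) hle1 J
      have h2 := (hpos (4 - (J : ℝ) / 600)).le
      gcongr
    · -- case A
      have hmax : max ((b : ℝ) ^ m') |t| ≤ (b : ℝ) ^ ((m' : ℝ) + 1 / 20) := by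
        refine max_le ?_ hc.le
        rw [← Real.rpow_natCast]
        exact Real.rpow_le_rpow_of_exponent_le hb1 (by linarith)
      have hJm : J ≤ m' := by
        have h1 : (b : ℝ) ^ (J : ℝ) ≤ (b : ℝ) ^ ((m' : ℝ) + 1 / 20) := by
          rw [Real.rpow_natCast]
          exact hJ1.trans hmax
        have h2 : (J : ℝ) ≤ (m' : ℝ) + 1 / 20 := (Real.rpow_le_rpow_left_iff hb1').1 h1
        by_contra hcon
        have h3 : (m' : ℝ) + 1 ≤ J := by exact_mod_cast (Nat.lt_of_not_le hcon)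
        linarith
      have hmJ : m' ≤ J + 1 := by
        have h1 : (b : ℝ) ^ m' ≤ (b : ℝ) ^ (J + 1) := (le_max_left _ _).trans hJ2
        exact (pow_le_pow_iff_right₀ hb1').1 h1
      refine (hA b p m m' V K hbp hb hV hK hLip (by omega) hmm χ hχ (hχ2 (by omega)) t
        hc.le).trans ?_
      have h1 : C₂ ^ m' ≤ (C₁ * C₂ ^ 2) ^ J := by
        calc C₂ ^ m' ≤ C₂ ^ (2 * J) := pow_le_pow_right₀ hC₂ (by omega)
          _ = (C₂ ^ 2) ^ J := by rw [pow_mul]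
          _ ≤ (C₁ * C₂ ^ 2) ^ J := pow_le_pow_left₀ (by positivity) hle2 J
      have h2 := sfin_pow_mono (b := (b : ℝ)) hb1 hJm
      have h3 := (hpos (4 - (m' : ℝ) / 600)).le
      have h4 := (hpos (4 - (J : ℝ) / 600)).le
      gcongr

end Pool.Agent.HPX
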