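import Pool.Agent.HPX.SBas

/-! # HPX/SSeq: the sequential lemma (S2) -/

namespace Pool.Agent.HPX

open Complex Pool.Agent.HPP

theorem sSeq : SSeqProp := by
  intro b D s f ρ hb hD hf hρ
  induction s with
  | zero => intro _; simp [Ds]
  | succ s ih =>
    intro h
    have ih' := ih fun l hl => h l (Nat.lt_succ_of_lt hl)
    rw [sum_Ds_succ hD, card_Ds hD, Finset.prod_range_succ, ← card_Ds hD,
      Finset.prod_range_succ, Nat.cast_mul]
    have key : ∀ n ∈ Ds b D s, ∑ z ∈ D s, ∏ l ∈ Finset.range (s + 1),
        f l ((n + b ^ s * z) % b ^ (l + 1)) ≤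
        (∏ l ∈ Finset.range s, f l (n % b ^ (l + 1))) * ((D s).card * ρ s) := by
      intro n hn
      have hn' := Ds_lt hD hn
      have e : ∀ z ∈ D s, ∏ l ∈ Finset.range (s + 1), f l ((n + b ^ s * z) % b ^ (l + 1)) =
          (∏ l ∈ Finset.range s, f l (n % b ^ (l + 1))) * f s (n + b ^ s * z) := by
        intro z hz
        rw [Finset.prod_range_succ]
        have hz' := Finset.mem_range.1 (hD s hz)
        congr 1
        · refine Finset.prod_congr rfl fun l hl => ?_
          have hl' := Finset.mem_range.1 hl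
          congr 1
          obtain ⟨c, hc⟩ := Nat.exists_eq_add_of_le (show l + 1 ≤ s by omega)
          rw [hc, pow_add, mul_assoc, Nat.add_mul_mod_self_left]
        · congr 1
          refine Nat.mod_eq_of_lt ?_
          rw [pow_succ]
          have : b ^ s * (z + 1) ≤ b ^ s * b := Nat.mul_le_mul_left _ hz'
          nlinarith
      rw [Finset.sum_congr rfl e, ← Finset.mul_sum]
      exact mul_le_mul_of_nonneg_left (h s (Nat.lt_succ_self s) n hn)
        (Finset.prod_nonneg fun l _ => hf _ _)
    refine (Finset.sum_le_sum key).trans ?_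
    rw [← Finset.sum_mul]
    refine (mul_le_mul_of_nonneg_right ih' (mul_nonneg (Nat.cast_nonneg _) (hρ s))).trans
      (le_of_eq ?_)
    ring

end Pool.Agent.HPX
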