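import Pool.Agent.HPX.STa
import Pool.Agent.HPX.SSeq

/-! # HPX/STb: case T, the average -/

namespace Pool.Agent.HPX

open Complex Pool.Agent.HPP

variable {b p m m' s l a r : ℕ} {t : ℝ}

lemma numT {b : ℕ} (hb : 3 ≤ b) {ξ : ℝ} (h2 : ξ ≤ 1 - 1 / 20) {B : ℝ}
    (hB1 : B ≤ b / 2) (hB3 : (b : ℝ) ≤ 3 * B) {lam η : ℝ}
    (hlam : lam = (b : ℝ) ^ (ξ - 1) / (2 * Real.pi)) (hη : η = (b : ℝ) ^ (min ξ 0 - 1 / 40)) :
    (4 * lam * B + 2) * (2 * (2 * η) / lam + 1) ≤ B * (243 * (b : ℝ) ^ (-(1 : ℝ) / 40)) := by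
  have hb' : (3 : ℝ) ≤ b := by exact_mod_cast hb
  have hb0 : (0 : ℝ) < b := by linarith
  have hb1 : (1 : ℝ) ≤ b := by linarith
  have hpi := Real.pi_gt_three
  have hpi4 : Real.pi < 3.15 := Real.pi_lt_d2
  set X := (b : ℝ) ^ (max ξ 0) with hX
  have hX1 : 1 ≤ X := Real.one_le_rpow hb1 (le_max_right _ _)
  set Y := (b : ℝ) ^ (1 - 1 / 40 - max ξ 0) with hY
  have hY1 : 1 ≤ Y := by
    refine Real.one_le_rpow hb1 ?_
    have : max ξ 0 ≤ 1 - 1 / 20 := max_le h2 (by norm_num)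
    linarith
  have hXY : X * Y = b * (b : ℝ) ^ (-(1 : ℝ) / 40) := by
    rw [hX, hY, ← Real.rpow_add hb0]
    nth_rewrite 2 [← Real.rpow_one (b : ℝ)]
    rw [← Real.rpow_add hb0]
    congr 1; ring
  have e1 : 4 * lam * B + 2 ≤ 3 * X := by
    have h3 : 4 * lam * B ≤ X := by
      calc 4 * lam * B ≤ 4 * lam * (b / 2) := by
            have : 0 ≤ lam := by rw [hlam]; positivity
            gcongr
        _ = (b : ℝ) ^ (ξ - 1) * b / Real.pi := by rw [hlam]; field_simp; ring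
        _ = (b : ℝ) ^ ξ / Real.pi := by
            congr 1
            nth_rewrite 2 [← Real.rpow_one (b : ℝ)]
            rw [← Real.rpow_add hb0]; congr 1; ring
        _ ≤ (b : ℝ) ^ ξ := div_le_self (by positivity) (by linarith)
        _ ≤ X := Real.rpow_le_rpow_of_exponent_le hb1 (le_max_left _ _)
    linarith
  have e2 : 2 * (2 * η) / lam + 1 ≤ 27 * Y := by
    have h3 : 2 * (2 * η) / lam = 8 * Real.pi * Y := by
      rw [hlam, hη, hY]
      have h4 : (b : ℝ) ^ (min ξ 0 - 1 / 40) = (b : ℝ) ^ (1 - 1 / 40 - max ξ 0) *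
          (b : ℝ) ^ (ξ - 1) := by
        rw [← Real.rpow_add hb0]
        congr 1
        have := min_add_max ξ 0
        linarith
      rw [h4]
      have : (0 : ℝ) < (b : ℝ) ^ (ξ - 1) := by positivity
      field_simp; norm_num
    rw [h3]
    nlinarith
  have h0 : 0 ≤ lam := by rw [hlam]; positivity
  have hη0 : 0 ≤ η := by rw [hη]; positivity
  calc (4 * lam * B + 2) * (2 * (2 * η) / lam + 1) ≤ (3 * X) * (27 * Y) := by
        have : 0 ≤ 2 * (2 * η) / lam + 1 := by positivity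
        gcongr
    _ = 81 * (X * Y) := by ring
    _ = 81 * (b * (b : ℝ) ^ (-(1 : ℝ) / 40)) := by rw [hXY]
    _ ≤ 81 * ((3 * B) * (b : ℝ) ^ (-(1 : ℝ) / 40)) := by gcongr
    _ = _ := by ring

/-- the average in case T -/
theorem sumT (hB : Bas b p) {L l₀ : ℕ} (hsm : s ≤ m) (hL : L ≤ l₀) (hl₀ : l₀ + 1 ≤ s)
    (hl₀' : m' - s ≤ l₀) {φ : ℝ} (ht : |t| = (b : ℝ) ^ φ) (h1 : -1 + 1 / 20 ≤ φ - s - 1 - l₀)
    (h2 : φ - s - 1 - l₀ ≤ 1 - 1 / 20) :
    ∑ n ∈ Dg b p s, ∏ r ∈ Finset.range L, gB b (th b m m' s a t r n) ≤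
      ((Dg b p s).card : ℝ) * (246 * (b : ℝ) ^ (-(1 : ℝ) / 40)) ^ L := by
  classical
  have hb3 := hB.three
  have hb' : (3 : ℝ) ≤ b := by exact_mod_cast hb3
  have hb0 : (0 : ℝ) < b := by linarith
  have hb1 : (1 : ℝ) ≤ b := by linarith
  set ξ := φ - s - 1 - l₀ with hξ
  set η := (b : ℝ) ^ (min ξ 0 - 1 / 40) with hη
  have hη0 : 0 < η := by positivity
  set κ := (b : ℝ) ^ (-(1 : ℝ) / 40) with hκ
  have hκ0 : 0 < κ := by positivity
  have ht0 : t ≠ 0 := by
    have : 0 < |t| := by rw [ht]; positivity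
    exact abs_pos.1 this
  have hexp : ∀ c : ℕ, c = s + l₀ + 2 → |t| / (b : ℝ) ^ c = (b : ℝ) ^ (ξ - 1) := by
    intro c hc
    rw [ht, ← Real.rpow_natCast (b : ℝ) c, ← Real.rpow_sub hb0, hc]
    congr 1
    push_cast
    rw [hξ]; ring
  set f : ℕ → ℕ → ℝ := fun l n => if l ≤ l₀ ∧ l₀ < l + L then
    (if nd (tT b m m' s a t (l₀ - l) (l + 1) n) ≤ 2 * η then 1 else 0) + 3 * κ else 1 with hf
  set ρ : ℕ → ℝ := fun l => if l ≤ l₀ ∧ l₀ < l + L then 246 * κ else 1 with hρ
  have hf0 : ∀ l n, 0 ≤ f l n := by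
    intro l n
    simp only [hf]
    split_ifs <;> positivity
  have hρ0 : ∀ l, 0 ≤ ρ l := by
    intro l
    simp only [hρ]
    split_ifs <;> positivity
  have hre : ∀ g : ℕ → ℝ, ∏ l ∈ Finset.range s, (if l ≤ l₀ ∧ l₀ < l + L then g l else 1) =
      ∏ r ∈ Finset.range L, g (l₀ - r) := by
    intro g
    rw [← Finset.prod_filter]
    refine Finset.prod_nbij' (fun l => l₀ - l) (fun r => l₀ - r) ?_ ?_ ?_ ?_ ?_
    · intro l hl
      simp only [Finset.mem_filter, Finset.mem_range] at hl ⊢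
      omega
    · intro r hr
      simp only [Finset.mem_filter, Finset.mem_range] at hr ⊢
      omega
    · intro l hl
      simp only [Finset.mem_filter, Finset.mem_range] at hl
      show l₀ - (l₀ - l) = l
      omega
    · intro r hr
      simp only [Finset.mem_range] at hr
      show l₀ - (l₀ - r) = r
      omega
    · intro l hl
      simp only [Finset.mem_filter, Finset.mem_range] at hl
      congr 1
      omega
  have hBr : (b : ℝ) ≤ 3 * ((b / 2 : ℕ) : ℝ) := by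
    have := half_le hB
    exact_mod_cast this
  have hBr2 : ((b / 2 : ℕ) : ℝ) ≤ b / 2 := Nat.cast_div_le
  have key := sSeq b (Dt b p) s f ρ (by omega) (hDt hB.lt) hf0 hρ0 ?_
  · have hprod : ∏ l ∈ Finset.range s, ρ l = (246 * κ) ^ L := by
      simp only [hρ]
      rw [hre (fun _ => 246 * κ), Finset.prod_const, Finset.card_range]
    rw [hprod] at key
    refine le_trans (Finset.sum_le_sum fun n hn => ?_) key
    have e1 : ∏ l ∈ Finset.range s, f l (n % b ^ (l + 1)) = ∏ r ∈ Finset.range L,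
        ((if nd (tT b m m' s a t (l₀ - (l₀ - r)) (l₀ - r + 1) (n % b ^ (l₀ - r + 1))) ≤ 2 * η
          then 1 else 0) + 3 * κ) := by
      simp only [hf]
      exact hre (fun l => (if nd (tT b m m' s a t (l₀ - l) (l + 1) (n % b ^ (l + 1))) ≤ 2 * η
          then 1 else 0) + 3 * κ)
    rw [e1]
    refine Finset.prod_le_prod (fun r _ => gB_nonneg _ _) fun r hr => ?_
    have hr' := Finset.mem_range.1 hr
    have hrr : l₀ - (l₀ - r) = r := by omega
    rw [hrr]
    have hη2 : |t| / (3 * (b : ℝ) ^ (s + r + (l₀ - r + 1) + 1)) ≤ η := by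
      have h3 := hexp (s + r + (l₀ - r + 1) + 1) (by omega)
      have h4 : |t| / (3 * (b : ℝ) ^ (s + r + (l₀ - r + 1) + 1)) = (b : ℝ) ^ (ξ - 1) / 3 := by
        rw [← h3]; field_simp
      rw [h4]
      have h5 : (b : ℝ) ^ (ξ - 1) ≤ η := by
        refine Real.rpow_le_rpow_of_exponent_le hb1 ?_
        rcases le_total ξ 0 with h6 | h6
        · rw [min_eq_left h6]; linarith
        · rw [min_eq_right h6]; linarith
      have h6 : (0 : ℝ) ≤ (b : ℝ) ^ (ξ - 1) := by positivity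
      linarith
    have h3 := one_factor (m' := m') (a := a) (t := t) (l := l₀ - r) (r := r) hB hn (by omega) hsm
      (by omega) hη0 hη2
    refine h3.trans ?_
    gcongr
    -- `3 / (b η) ≤ 3 κ`
    have h4 : κ⁻¹ ≤ b * η := by
      rw [hκ, hη, ← Real.rpow_neg hb0.le]
      nth_rewrite 2 [← Real.rpow_one (b : ℝ)]
      rw [← Real.rpow_add hb0]
      refine Real.rpow_le_rpow_of_exponent_le hb1 ?_
      have : -1 + 1 / 20 ≤ min ξ 0 := le_min h1 (by norm_num)
      linarith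
    have h5 : (b * η)⁻¹ ≤ κ := inv_le_of_inv_le₀ hκ0 h4
    rw [div_eq_mul_inv]
    gcongr
  · intro l hl n hn
    by_cases hc : l ≤ l₀ ∧ l₀ < l + L
    · simp only [hf, hρ, if_pos hc]
      have hl1 : 1 ≤ l := by omega
      have hDl : Dt b p l = Finset.range (b / 2) := by
        unfold Dt; rw [if_neg (by omega)]
      rw [hDl, Finset.card_range, Finset.sum_add_distrib, Finset.sum_const, nsmul_eq_mul,
        Finset.card_range]
      have h3 := digit_T (m := m) (m' := m') (a := a) (t := t) (s := s) (r := l₀ - l) hB hn hl1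
        (by omega) (by omega) ht0 hη0.le
      rw [Finset.card_filter] at h3
      push_cast at h3
      have hlam : |t| / (2 * Real.pi * (b : ℝ) ^ (s + (l₀ - l) + l + 2)) =
          (b : ℝ) ^ (ξ - 1) / (2 * Real.pi) := by
        rw [← hexp (s + (l₀ - l) + l + 2) (by omega)]; field_simp
      have h4 := numT hb3 h2 hBr2 hBr hlam hη
      have h5 := h3.trans h4
      have h6 : ((b / 2 : ℕ) : ℝ) * (246 * κ) = ((b / 2 : ℕ) : ℝ) * (243 * κ) +
        ((b / 2 : ℕ) : ℝ) * (3 * κ) := by ring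
      rw [h6]
      gcongr
    · simp only [hf, hρ, if_neg hc]
      simp

end Pool.Agent.HPX
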