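import Pool.Agent.HPX.SLin
import Pool.Agent.HPX.STb

/-! # HPX/ST: case T -/

namespace Pool.Agent.HPX

open Complex Pool.Agent.HPP

theorem sT : STProp := by
  refine ⟨300, by norm_num, ?_⟩
  intro b p m m' J V K hbp hB hV hK hVK hm1 hmm χ hχ hχ2 t ht1 ht2 ht3 ht4 hJ
  have hb3 := hB.three
  have hb' : (3 : ℝ) ≤ b := by exact_mod_cast hb3
  have hb0 : (0 : ℝ) < b := by linarith
  have hb1 : (1 : ℝ) ≤ b := by linarith
  have hb1' : (1 : ℝ) < b := by linarith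
  have htp : 0 < |t| := lt_of_lt_of_le (by positivity) ht3
  obtain ⟨φ, hφ⟩ : ∃ φ : ℝ, |t| = (b : ℝ) ^ φ := by
    refine ⟨Real.log |t| / Real.log b, ?_⟩
    rw [Real.rpow_def_of_pos hb0, mul_div_cancel₀ _ (Real.log_pos hb1').ne', Real.exp_log htp]
  have hφ1 : φ ≤ m + m / 8 := by
    have h1 : (b : ℝ) ^ φ ≤ (b : ℝ) ^ (((m + m / 8 : ℕ) : ℝ)) := by
      rw [← hφ, Real.rpow_natCast]; exact ht1
    have h2 := (Real.rpow_le_rpow_left_iff hb1').1 h1
    have h3 : ((m / 8 : ℕ) : ℝ) ≤ (m : ℝ) / 8 := by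
      have := Nat.cast_div_le (α := ℝ) (m := m) (n := 8)
      simpa using this
    push_cast at h2
    linarith
  have hφ2 : (m' : ℝ) + 1 / 20 ≤ φ := by
    rw [hφ] at ht2
    exact (Real.rpow_le_rpow_left_iff hb1').1 ht2
  have hφ3 : (J : ℝ) ≤ φ := by
    rw [hφ, ← Real.rpow_natCast] at ht3
    exact (Real.rpow_le_rpow_left_iff hb1').1 ht3
  have hφ4 : φ ≤ J + 1 := by
    rw [hφ, ← Real.rpow_natCast] at ht4
    have := (Real.rpow_le_rpow_left_iff hb1').1 ht4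
    push_cast at this
    exact this
  -- the parameters
  set s := (11 * (J + 1) + 19) / 20 with hs
  set L := J / 4 with hL
  have hs1 : 11 * (J + 1) ≤ 20 * s := by omega
  have hs2 : 20 * s ≤ 11 * (J + 1) + 19 := by omega
  have hs1' : 11 * ((J : ℝ) + 1) ≤ 20 * s := by exact_mod_cast hs1
  have hs2' : 20 * (s : ℝ) ≤ 11 * (J + 1) + 19 := by exact_mod_cast hs2
  have hJ' : (1200 : ℝ) ≤ J := by exact_mod_cast hJ
  have hmJ : (J : ℝ) ≤ m * (9 / 8) := by linarith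
  have hmJ' : 8 * J ≤ 9 * m := by
    have : 8 * (J : ℝ) ≤ 9 * m := by linarith
    exact_mod_cast this
  have hm'J : m' ≤ J := by
    have : (m' : ℝ) < J + 1 := by linarith
    have : m' < J + 1 := by exact_mod_cast this
    omega
  set l₀ := max ⌈φ - s - 2 + 1 / 20⌉₊ (m' - s) with hl₀
  have hl₀1 : φ - s - 2 + 1 / 20 ≤ l₀ := by
    have h1 := Nat.le_ceil (φ - s - 2 + 1 / 20)
    have h2 : ((⌈φ - s - 2 + 1 / 20⌉₊ : ℕ) : ℝ) ≤ l₀ := by
      rw [hl₀]; exact_mod_cast le_max_left _ _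
    linarith
  have hl₀2 : (l₀ : ℝ) ≤ φ - s - 1 + 19 / 20 := by
    rw [hl₀, Nat.cast_max]
    refine max_le ?_ ?_
    · have h1 := Nat.ceil_lt_add_one (a := φ - s - 2 + 1 / 20) (by linarith)
      linarith
    · rcases le_total m' s with h | h
      · rw [Nat.sub_eq_zero_of_le h]; push_cast; linarith
      · rw [Nat.cast_sub h]; linarith
  have hLl : L ≤ l₀ := by
    have h1 : (L : ℝ) ≤ J / 4 := by
      have := Nat.cast_div_le (α := ℝ) (m := J) (n := 4)
      simpa using this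
    have h2 : (L : ℝ) ≤ l₀ := by linarith
    exact_mod_cast h2
  have hl₀s : l₀ + 1 ≤ s := by
    have h1 : (l₀ : ℝ) + 1 ≤ s := by linarith
    exact_mod_cast h1
  have hsm : s + L ≤ m := by omega
  obtain ⟨a, -, ha⟩ := sLin b p m m' s L V K hbp hB hV hK hVK hm1 hmm (by omega) (by omega) hsm χ hχ
    hχ2
  have h1 := ha t
  have h2 := sumT (m := m) (m' := m') (a := a) (t := t) hB (by omega : s ≤ m) hLl hl₀s
    (le_max_right _ _) hφ (by linarith) (by linarith)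
  have hD : (0 : ℝ) < ((Dg b p s).card : ℝ) := by
    rw [card_Dg hB.lt (by omega)]
    have : 0 < b / 2 := by omega
    positivity
  have h3 : (∑ n ∈ Dg b p s, ∏ r ∈ Finset.range L, gB b (th b m m' s a t r n)) /
      (Dg b p s).card ≤ (246 * (b : ℝ) ^ (-(1 : ℝ) / 40)) ^ L := by
    rw [div_le_iff₀ hD, mul_comm]
    exact h2
  set X := (b : ℝ) ^ (4 - (J : ℝ) / 600) with hX
  have hX0 : 0 < X := by positivity
  have e1 : 4 * |t| / (b : ℝ) ^ (2 * s) ≤ 4 * X := by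
    have h4 : |t| / (b : ℝ) ^ (2 * s) ≤ X := by
      rw [hφ, ← Real.rpow_natCast (b : ℝ) (2 * s), ← Real.rpow_sub hb0]
      refine Real.rpow_le_rpow_of_exponent_le hb1 ?_
      push_cast
      linarith
    calc 4 * |t| / (b : ℝ) ^ (2 * s) = 4 * (|t| / (b : ℝ) ^ (2 * s)) := by ring
      _ ≤ 4 * X := by gcongr
  have e2 : K * b / (b : ℝ) ^ s ≤ K * X := by
    have h4 : (b : ℝ) / (b : ℝ) ^ s ≤ X := by
      nth_rewrite 1 [← Real.rpow_one (b : ℝ)]
      rw [← Real.rpow_natCast (b : ℝ) s, ← Real.rpow_sub hb0]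
      refine Real.rpow_le_rpow_of_exponent_le hb1 ?_
      linarith
    calc K * b / (b : ℝ) ^ s = K * (b / (b : ℝ) ^ s) := by ring
      _ ≤ K * X := by gcongr
  have e3 : (246 * (b : ℝ) ^ (-(1 : ℝ) / 40)) ^ L ≤ 246 ^ J * X := by
    rw [mul_pow]
    have hLJ : L ≤ J := by omega
    have h4 : (246 : ℝ) ^ L ≤ 246 ^ J := pow_le_pow_right₀ (by norm_num) hLJ
    have h5 : ((b : ℝ) ^ (-(1 : ℝ) / 40)) ^ L ≤ X := by
      rw [← Real.rpow_natCast, ← Real.rpow_mul hb0.le]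
      refine Real.rpow_le_rpow_of_exponent_le hb1 ?_
      have h6 : (J : ℝ) ≤ 4 * L + 3 := by
        have : J ≤ 4 * L + 3 := by omega
        exact_mod_cast this
      linarith
    exact mul_le_mul h4 h5 (by positivity) (by positivity)
  have hJ1 : 1 ≤ J := by omega
  have e4 : (4 : ℝ) + 246 ^ J ≤ 300 ^ J := by
    obtain ⟨j, rfl⟩ := Nat.exists_eq_add_of_le' hJ1
    have h4 : (246 : ℝ) ^ j ≤ 300 ^ j := pow_le_pow_left₀ (by norm_num) (by norm_num) j
    have h5 : (1 : ℝ) ≤ 300 ^ j := one_le_pow₀ (by norm_num)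
    rw [pow_succ, pow_succ]
    linarith
  have e5 : (1 : ℝ) ≤ 300 ^ J := one_le_pow₀ (by norm_num)
  have hR : (0 : ℝ) ≤ ((RR b p m ∅).card : ℝ) := Nat.cast_nonneg _
  calc ‖cc b p ∅ V χ t‖ ≤ ((RR b p m ∅).card : ℝ) * (4 * X + K * X + 246 ^ J * X) := by
        refine h1.trans (mul_le_mul_of_nonneg_left ?_ hR)
        exact add_le_add (add_le_add e1 e2) (h3.trans e3)
    _ = ((RR b p m ∅).card : ℝ) * (((4 + 246 ^ J) + K * 1) * X) := by ring
    _ ≤ ((RR b p m ∅).card : ℝ) * ((300 ^ J + K * 300 ^ J) * X) := by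
        refine mul_le_mul_of_nonneg_left (mul_le_mul_of_nonneg_right ?_ hX0.le) hR
        exact add_le_add e4 (mul_le_mul_of_nonneg_left e5 hK)
    _ = _ := by ring

end Pool.Agent.HPX
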