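import Pool.Agent.HPX.SA4
import Pool.Agent.HPX.ST
import Pool.Agent.HPX.SFin

/-! # HPX/SAll: part S complete -/

namespace Pool.Agent.HPX

theorem supAll : SupAll := sFin sT sA

end Pool.Agent.HPX
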