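import Mathlib

/-!
# HPX/WNum: the final numerical estimate

`l = log x`, `Y = l ^ A + l + 9`. For `l ≥ 9`: `q Y ≤ l ^ A * 3 l ^ A`, so `log (q Y) ≤ 3 A log l` (`log 3 ≤ A log l`) and
`D = C log (q Y) ^ 10 ≤ C (3 A log l) ^ 10 ≤ l ^ (1/4)` for `l` large (`isLittleO_log_rpow_atTop`); `D ≥ 1` (`log 9 ≥ 2`).
Hence `e ^ ((1 - 1/D) l) ≤ e ^ l e ^ (- l ^ (3/4))`, `K D e ^ ((1 - 1/D) l) ≤ K l ^ (1/4) e ^ l e ^ (-l ^ (3/4)) ≤ e ^ l e ^ (-√l) / 4`,
`K D e ^ (2 l - l² / 8) ≤ e ^ l e ^ (-√l) / 4`, `K (1 + l) ≤ e ^ l e ^ (-√l) / 4` for `l` large.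
-/

namespace Pool.Agent.HPX

/-- the three elementary estimates with `s = l ^ (1/4)` -/
private lemma num_aux (K s D : ℝ) (hK : 1 ≤ K) (hs3 : 3 ≤ s) (hsK : 4 * K ≤ s) (hD1 : 1 ≤ D)
    (hDs : D ≤ s) :
    K * D * (Real.exp ((1 - 1 / D) * s ^ 4) + Real.exp (2 * s ^ 4 - (s ^ 4) ^ 2 / 8)) +
      K * (1 + s ^ 4) ≤ Real.exp (s ^ 4) * Real.exp (-(s ^ 2)) := by
  have hs0 : 0 < s := by linarith
  have hK0 : 0 < K := by linarith
  have hD0 : 0 < D := by linarith
  have hs2 : s * 3 ≤ s ^ 2 := by nlinarith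
  have hs2' : 9 ≤ s ^ 2 := by nlinarith
  have hs3' : s ^ 2 * 3 ≤ s ^ 3 := by nlinarith [sq_nonneg s]
  have hs4 : s ^ 2 * 9 ≤ s ^ 4 := by nlinarith [sq_nonneg s]
  have hs4' : 81 ≤ s ^ 4 := by nlinarith
  rw [← Real.exp_add]
  set R := Real.exp (s ^ 4 + -(s ^ 2)) with hR
  have hR0 : 0 < R := Real.exp_pos _
  have hKD : K * D ≤ s ^ 2 / 4 := by
    have h1 : K * D ≤ (s / 4) * s := by
      apply mul_le_mul _ hDs hD0.le (by positivity)
      linarith
    nlinarith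
  -- first
  have h1 : K * D * Real.exp ((1 - 1 / D) * s ^ 4) ≤ R / 4 := by
    have e1 : (1 - 1 / D) * s ^ 4 ≤ s ^ 4 - s ^ 3 := by
      have : 1 / s ≤ 1 / D := one_div_le_one_div_of_le hD0 hDs
      have h2 : (1 / s) * s ^ 4 = s ^ 3 := by field_simp
      have h3 : (1 / s) * s ^ 4 ≤ (1 / D) * s ^ 4 := by
        apply mul_le_mul_of_nonneg_right this (by positivity)
      nlinarith
    have e2 : Real.exp ((1 - 1 / D) * s ^ 4) ≤ R * Real.exp (-(s ^ 2)) := by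
      rw [hR, ← Real.exp_add]
      apply Real.exp_le_exp.mpr
      linarith
    have e3 : s ^ 2 * Real.exp (-(s ^ 2)) ≤ 1 := by
      have := Real.add_one_le_exp (s ^ 2)
      rw [Real.exp_neg, ← div_eq_mul_inv, div_le_one (Real.exp_pos _)]
      linarith
    calc K * D * Real.exp ((1 - 1 / D) * s ^ 4) ≤ (s ^ 2 / 4) * (R * Real.exp (-(s ^ 2))) := by
          apply mul_le_mul hKD e2 (Real.exp_pos _).le (by positivity)
      _ = R / 4 * (s ^ 2 * Real.exp (-(s ^ 2))) := by ring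
      _ ≤ R / 4 * 1 := by
          apply mul_le_mul_of_nonneg_left e3 (by positivity)
      _ = R / 4 := by ring
  have h2 : K * D * Real.exp (2 * s ^ 4 - (s ^ 4) ^ 2 / 8) ≤ R / 4 := by
    have e2 : Real.exp (2 * s ^ 4 - (s ^ 4) ^ 2 / 8) ≤ R * Real.exp (-(s ^ 2)) := by
      rw [hR, ← Real.exp_add]
      apply Real.exp_le_exp.mpr
      nlinarith
    have e3 : s ^ 2 * Real.exp (-(s ^ 2)) ≤ 1 := by
      have := Real.add_one_le_exp (s ^ 2)
      rw [Real.exp_neg, ← div_eq_mul_inv, div_le_one (Real.exp_pos _)]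
      linarith
    calc K * D * Real.exp (2 * s ^ 4 - (s ^ 4) ^ 2 / 8)
        ≤ (s ^ 2 / 4) * (R * Real.exp (-(s ^ 2))) := by
          apply mul_le_mul hKD e2 (Real.exp_pos _).le (by positivity)
      _ = R / 4 * (s ^ 2 * Real.exp (-(s ^ 2))) := by ring
      _ ≤ R / 4 * 1 := by
          apply mul_le_mul_of_nonneg_left e3 (by positivity)
      _ = R / 4 := by ring
  have h3 : K * (1 + s ^ 4) ≤ R / 4 := by
    have e1 : Real.exp (s ^ 4 / 2) ≤ R := by
      rw [hR]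
      apply Real.exp_le_exp.mpr
      linarith
    have e2 : (s ^ 4 / 2) ^ 2 / 2 ≤ Real.exp (s ^ 4 / 2) := by
      have := Real.quadratic_le_exp_of_nonneg (x := s ^ 4 / 2) (by positivity)
      have h0 : 0 ≤ s ^ 4 := by positivity
      linarith
    have e3 : K * (1 + s ^ 4) ≤ (s / 4) * (2 * s ^ 4) := by
      apply mul_le_mul (by linarith) (by linarith) (by positivity) (by positivity)
    have e4 : (s / 4) * (2 * s ^ 4) ≤ ((s ^ 4 / 2) ^ 2 / 2) / 4 := by
      have h5 : 16 * s ≤ s ^ 4 := by nlinarith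
      have h6 : 16 * s * s ^ 4 ≤ s ^ 4 * s ^ 4 := mul_le_mul_of_nonneg_right h5 (by positivity)
      nlinarith
    linarith
  have h4 : K * D * (Real.exp ((1 - 1 / D) * s ^ 4) + Real.exp (2 * s ^ 4 - (s ^ 4) ^ 2 / 8)) =
      K * D * Real.exp ((1 - 1 / D) * s ^ 4) + K * D * Real.exp (2 * s ^ 4 - (s ^ 4) ^ 2 / 8) := by
    ring
  rw [h4]
  linarith

theorem num (A C K : ℝ) (hA : 1 ≤ A) (hC : 1 ≤ C) (hK : 1 ≤ K) : ∃ l₀ : ℝ, 9 ≤ l₀ ∧
    ∀ l : ℝ, l₀ ≤ l → ∀ q : ℝ, 1 ≤ q → q ≤ l ^ A →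
    K * (C * Real.log (q * (l ^ A + l + 9)) ^ 10) *
      (Real.exp ((1 - 1 / (C * Real.log (q * (l ^ A + l + 9)) ^ 10)) * l) +
        Real.exp (2 * l - l ^ 2 / 8)) + K * (1 + l) ≤
      Real.exp l * Real.exp (-Real.sqrt l) := by
  have hA0 : 0 < A := by linarith
  have hC0 : 0 < C := by linarith
  have hev := (isLittleO_log_rpow_atTop (show (0 : ℝ) < 1 / 40 by norm_num)).def
    (show (0 : ℝ) < 1 / (3 * A * C) by positivity)
  obtain ⟨l₁, hl₁⟩ := Filter.eventually_atTop.mp hev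
  refine ⟨max l₁ (max 81 ((4 * K) ^ 4)), ?_, ?_⟩
  · exact le_trans (by norm_num) (le_trans (le_max_left _ _) (le_max_right _ _))
  intro l hl q hq1 hq
  have hla : l₁ ≤ l := le_trans (le_max_left _ _) hl
  have hlb : 81 ≤ l := le_trans (le_trans (le_max_left _ _) (le_max_right _ _)) hl
  have hlc : (4 * K) ^ 4 ≤ l := le_trans (le_trans (le_max_right _ _) (le_max_right _ _)) hl
  have hl0 : 0 < l := by linarith
  have hlog1 : 1 ≤ Real.log l := by
    rw [Real.le_log_iff_exp_le hl0]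
    have := Real.exp_one_lt_d9
    linarith
  have hlA : l ≤ l ^ A := by
    have := Real.rpow_le_rpow_of_exponent_le (by linarith : (1 : ℝ) ≤ l) hA
    simpa using this
  have hlA0 : 0 < l ^ A := Real.rpow_pos_of_pos hl0 _
  set Y := l ^ A + l + 9 with hY
  have hY1 : Y ≤ 3 * l ^ A := by linarith
  have hY9 : 9 ≤ Y := by linarith
  have hY0 : 0 < Y := by linarith
  have hqY9 : 9 ≤ q * Y := by nlinarith
  have hqY0 : 0 < q * Y := by linarith
  set L := Real.log (q * Y) with hL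
  have hL1 : 1 ≤ L := by
    rw [hL, Real.le_log_iff_exp_le hqY0]
    have := Real.exp_one_lt_d9
    linarith
  have hLu : L ≤ 3 * A * Real.log l := by
    have h1 : q * Y ≤ l ^ A * (3 * l ^ A) := mul_le_mul hq hY1 hY0.le hlA0.le
    have h2 : L ≤ Real.log (l ^ A * (3 * l ^ A)) := Real.log_le_log hqY0 h1
    have h3 : Real.log (l ^ A * (3 * l ^ A)) = A * Real.log l + (Real.log 3 + A * Real.log l) := by
      rw [Real.log_mul hlA0.ne' (by positivity), Real.log_mul (by norm_num) hlA0.ne',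
        Real.log_rpow hl0]
    have h4 : Real.log 3 ≤ Real.log l := Real.log_le_log (by norm_num) (by linarith)
    nlinarith
  set s := l ^ (1 / 4 : ℝ) with hs
  have hs0 : 0 < s := Real.rpow_pos_of_pos hl0 _
  have hs4 : s ^ 4 = l := by
    rw [hs, ← Real.rpow_natCast, ← Real.rpow_mul hl0.le]
    norm_num
  have hs2 : s ^ 2 = Real.sqrt l := by
    rw [hs, ← Real.rpow_natCast, ← Real.rpow_mul hl0.le, Real.sqrt_eq_rpow]
    norm_num
  have hs3 : 3 ≤ s := by
    have : (3 : ℝ) ^ 4 ≤ s ^ 4 := by rw [hs4]; linarith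
    exact le_of_pow_le_pow_left₀ (by norm_num) hs0.le this
  have hsK : 4 * K ≤ s := by
    have : (4 * K) ^ 4 ≤ s ^ 4 := by rw [hs4]; exact hlc
    exact le_of_pow_le_pow_left₀ (by norm_num) hs0.le this
  have hD1 : 1 ≤ C * L ^ 10 := by
    have : 1 ≤ L ^ 10 := one_le_pow₀ hL1
    nlinarith
  have hDs : C * L ^ 10 ≤ s := by
    have h1 := hl₁ l hla
    rw [Real.norm_of_nonneg (by linarith), Real.norm_of_nonneg (Real.rpow_nonneg hl0.le _)] at h1
    set r := l ^ (1 / 40 : ℝ) with hr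
    have hr0 : 0 < r := Real.rpow_pos_of_pos hl0 _
    have hr10 : r ^ 10 = s := by
      rw [hr, hs, ← Real.rpow_natCast, ← Real.rpow_mul hl0.le]
      norm_num
    have h2 : 3 * A * Real.log l ≤ r / C := by
      have : 3 * A * Real.log l ≤ 3 * A * (1 / (3 * A * C) * r) :=
        mul_le_mul_of_nonneg_left h1 (by positivity)
      have h5 : 3 * A * (1 / (3 * A * C) * r) = r / C := by field_simp
      linarith
    have h3 : L ^ 10 ≤ (r / C) ^ 10 := pow_le_pow_left₀ (by linarith) (by linarith) 10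
    have h4 : C * (r / C) ^ 10 ≤ r ^ 10 := by
      rw [div_pow]
      have h6 : 1 ≤ C ^ 9 := one_le_pow₀ hC
      have h7 : C * (r ^ 10 / C ^ 10) = r ^ 10 / C ^ 9 := by field_simp
      rw [h7]
      exact div_le_self (by positivity) h6
    rw [← hr10]
    exact le_trans (mul_le_mul_of_nonneg_left h3 hC0.le) h4
  have hmain := num_aux K s (C * L ^ 10) hK hs3 hsK hD1 hDs
  rw [hs4, hs2] at hmain
  exact hmain

end Pool.Agent.HPX
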