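import Pool.Agent.HPX.WDefs

/-!
# HPX/WOne: the principal character mod `b ^ J` against the principal character mod `1`

`PP 1 t x` mod `1` minus `PP 1 t x` mod `b ^ J` is the sum over `n` not coprime to `b` (`PP_summable` of `HPP/APP` for both) of
`Λ n n ^ (it) e ^ (-log² (n/x))`; nonzero terms: `n = p ^ k`, `p ∣ b` prime, `k ≥ 1`, `Λ n = log p ≤ log b`. Norm `≤ log b * ∑_{p ∣ b} ∑_{k ≥ 1}
e ^ (-(k log p - v)²)`, `v = log x ≥ 0`. For `k log p ≥ 2 v` the exponent is `≤ - (k log p)² / 4 ≤ - k² / 16`; for `k log p < 2 v` (at most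
`2 v / log 2 + 1 ≤ 3 v + 1` values) the term is `≤ 1`. So the bound is `(log b) * b * (C + 3 v)`.
(One way to organise: the set of these `n` injects into pairs `(p, k)`, `p ∈ b.primeFactors`; or bound
`Λ n 1[n not coprime to b] ≤ ∑ p ∈ b.primeFactors, Λ n 1[p ∣ n]` and for a fixed prime `p` sum over the powers `p ^ k`.)
Any other bound which is `≤ K (1 + log x)` is fine.
-/

namespace Pool.Agent.HPX

open Complex Pool.Agent.HPP

private lemma one_pow_sum {L v : ℝ} (hL : 1 / 2 ≤ L) (hv : 0 ≤ v) (N : ℕ) :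
    ∑ k ∈ Finset.range N, Real.exp (-(k * L - v) ^ 2) ≤
      (1 - Real.exp (-(1 / 16)))⁻¹ + (4 * v + 1) := by
  have hr0 : 0 ≤ Real.exp (-(1 / 16 : ℝ)) := (Real.exp_pos _).le
  have hr1 : Real.exp (-(1 / 16 : ℝ)) < 1 := by
    rw [Real.exp_lt_one_iff]; norm_num
  have hpt : ∀ k : ℕ, Real.exp (-(k * L - v) ^ 2) ≤
      Real.exp (-(1 / 16)) ^ k + (if (k : ℝ) < 4 * v then 1 else 0) := by
    intro k
    split_ifs with h
    · have h1 : Real.exp (-(k * L - v) ^ 2) ≤ 1 := by
        rw [Real.exp_le_one_iff]; nlinarith [sq_nonneg (k * L - v)]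
      have h2 : 0 ≤ Real.exp (-(1 / 16 : ℝ)) ^ k := by positivity
      linarith
    · rw [add_zero, ← Real.exp_nat_mul]
      apply Real.exp_le_exp.2
      push Not at h
      have hk : (0 : ℝ) ≤ k := Nat.cast_nonneg k
      have h1 : (k : ℝ) / 4 ≤ k * L - v := by nlinarith
      have h2 : (k : ℝ) ≤ (k : ℝ) ^ 2 := by exact_mod_cast Nat.le_self_pow two_ne_zero k
      have h3 : ((k : ℝ) / 4) ^ 2 ≤ (k * L - v) ^ 2 := by gcongr
      nlinarith
  have h1 : ∑ k ∈ Finset.range N, Real.exp (-(k * L - v) ^ 2) ≤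
      ∑ k ∈ Finset.range N, Real.exp (-(1 / 16)) ^ k +
        ∑ k ∈ Finset.range N, (if (k : ℝ) < 4 * v then (1 : ℝ) else 0) := by
    rw [← Finset.sum_add_distrib]
    exact Finset.sum_le_sum fun k _ => hpt k
  have h2 : ∑ k ∈ Finset.range N, Real.exp (-(1 / 16 : ℝ)) ^ k ≤
      (1 - Real.exp (-(1 / 16)))⁻¹ := by
    rw [← tsum_geometric_of_lt_one hr0 hr1]
    exact (summable_geometric_of_lt_one hr0 hr1).sum_le_tsum _ fun k _ => by positivity
  have h3 : ∑ k ∈ Finset.range N, (if (k : ℝ) < 4 * v then (1 : ℝ) else 0) ≤ 4 * v + 1 := by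
    rw [← Finset.sum_filter, Finset.sum_const, nsmul_eq_mul, mul_one]
    have hc : (Finset.filter (fun k : ℕ => (k : ℝ) < 4 * v) (Finset.range N)).card ≤
        ⌈4 * v⌉₊ := by
      rw [← Finset.card_range ⌈4 * v⌉₊]
      apply Finset.card_le_card
      intro k hk
      rw [Finset.mem_filter] at hk
      rw [Finset.mem_range]
      exact Nat.lt_ceil.2 hk.2
    have hd : ((⌈4 * v⌉₊ : ℕ) : ℝ) < 4 * v + 1 := Nat.ceil_lt_add_one (by linarith)
    have he : ((Finset.filter (fun k : ℕ => (k : ℝ) < 4 * v) (Finset.range N)).card : ℝ) ≤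
        ((⌈4 * v⌉₊ : ℕ) : ℝ) := by exact_mod_cast hc
    linarith
  linarith

/-- the real majorant of the difference -/
private noncomputable def gg (b : ℕ) (x : ℝ) (n : ℕ) : ℝ :=
  if Nat.Coprime n b then 0 else
    ArithmeticFunction.vonMangoldt n * Real.exp (-(Real.log (n / x)) ^ 2)

private lemma gg_nonneg (b : ℕ) (x : ℝ) (n : ℕ) : 0 ≤ gg b x n := by
  unfold gg
  split_ifs
  · exact le_rfl
  · exact mul_nonneg ArithmeticFunction.vonMangoldt_nonneg (Real.exp_pos _).le

private lemma gg_pow {b : ℕ} (hb : 2 ≤ b) {x : ℝ} (hx : 1 ≤ x) {p : ℕ} (hp : p ∈ b.primeFactors)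
    (k : ℕ) : gg b x (p ^ k) ≤
      Real.log b * Real.exp (-(k * Real.log p - Real.log x) ^ 2) := by
  have hpp : p.Prime := Nat.prime_of_mem_primeFactors hp
  have hpb : p ≤ b := Nat.le_of_mem_primeFactors hp
  have hlb : 0 ≤ Real.log b := Real.log_natCast_nonneg b
  unfold gg
  split_ifs with h
  · positivity
  · rcases Nat.eq_zero_or_pos k with hk | hk
    · subst hk
      simp at h
    · rw [ArithmeticFunction.vonMangoldt_apply_pow hk.ne', ArithmeticFunction.vonMangoldt_apply_prime hpp]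
      have h1 : Real.log (((p ^ k : ℕ) : ℝ) / x) = k * Real.log p - Real.log x := by
        have hp0 : (0 : ℝ) < p := by exact_mod_cast hpp.pos
        have hx0 : (0 : ℝ) < x := by linarith
        have hpk : (((p ^ k : ℕ)) : ℝ) ≠ 0 := by
          exact_mod_cast (pow_pos hpp.pos k).ne'
        rw [Real.log_div hpk hx0.ne']
        push_cast
        rw [Real.log_pow]
      rw [h1]
      have h2 : Real.log p ≤ Real.log b :=
        Real.log_le_log (by exact_mod_cast hpp.pos) (by exact_mod_cast hpb)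
      gcongr

private lemma gg_rep {b : ℕ} (hb : 2 ≤ b) {x : ℝ} {n : ℕ} (h : gg b x n ≠ 0) :
    ∃ p ∈ b.primeFactors, ∃ k : ℕ, k ≤ n ∧ n = p ^ k := by
  unfold gg at h
  split_ifs at h with hc
  · exact absurd rfl h
  · have h1 : ArithmeticFunction.vonMangoldt n ≠ 0 := left_ne_zero_of_mul h
    rw [ArithmeticFunction.vonMangoldt_ne_zero_iff] at h1
    obtain ⟨p, k, hp, hk, rfl⟩ := (isPrimePow_nat_iff n).1 h1
    refine ⟨p, ?_, k, (Nat.lt_pow_self hp.one_lt).le, rfl⟩
    rw [Nat.mem_primeFactors]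
    refine ⟨hp, ?_, by omega⟩
    by_contra hd
    exact hc (Nat.Coprime.pow_left k ((Nat.Prime.coprime_iff_not_dvd hp).2 hd))

private lemma gg_sum {b : ℕ} (hb : 2 ≤ b) {x : ℝ} (hx : 1 ≤ x) (u : Finset ℕ) :
    ∑ n ∈ u, gg b x n ≤ b.primeFactors.card * (Real.log b *
      ((1 - Real.exp (-(1 / 16)))⁻¹ + (4 * Real.log x + 1))) := by
  classical
  obtain ⟨N, hN⟩ : ∃ N : ℕ, ∀ n ∈ u, n < N := ⟨u.sup id + 1, fun n hn => by
    have := Finset.le_sup (f := id) hn
    simp only [id] at this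
    omega⟩
  have hlb : 0 ≤ Real.log b := Real.log_natCast_nonneg b
  have hv : 0 ≤ Real.log x := Real.log_nonneg hx
  have h1 : ∀ n ∈ u, gg b x n ≤ ∑ p ∈ b.primeFactors, ∑ k ∈ Finset.range N,
      (if n = p ^ k then gg b x n else 0) := by
    intro n hn
    by_cases h0 : gg b x n = 0
    · rw [h0]
      simp
    · obtain ⟨p, hp, k, hk, hnk⟩ := gg_rep hb h0
      have hkN : k ∈ Finset.range N := Finset.mem_range.2 (lt_of_le_of_lt hk (hN n hn))
      calc gg b x n = (if n = p ^ k then gg b x n else 0) := by rw [if_pos hnk]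
        _ ≤ ∑ k ∈ Finset.range N, (if n = p ^ k then gg b x n else 0) :=
            Finset.single_le_sum (f := fun k => if n = p ^ k then gg b x n else 0)
              (fun i _ => by
                split_ifs
                · exact gg_nonneg b x n
                · exact le_rfl) hkN
        _ ≤ _ := Finset.single_le_sum
              (f := fun p => ∑ k ∈ Finset.range N, (if n = p ^ k then gg b x n else 0))
              (fun i _ => Finset.sum_nonneg fun j _ => by
                split_ifs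
                · exact gg_nonneg b x n
                · exact le_rfl) hp
  have h2 : ∀ p ∈ b.primeFactors, ∑ k ∈ Finset.range N, ∑ n ∈ u,
      (if n = p ^ k then gg b x n else 0) ≤
      Real.log b * ((1 - Real.exp (-(1 / 16)))⁻¹ + (4 * Real.log x + 1)) := by
    intro p hp
    have hpp : p.Prime := Nat.prime_of_mem_primeFactors hp
    have hL : 1 / 2 ≤ Real.log p := by
      have h3 := Real.log_two_gt_d9
      have h4 : Real.log 2 ≤ Real.log p :=
        Real.log_le_log (by norm_num) (by exact_mod_cast hpp.two_le)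
      linarith
    calc ∑ k ∈ Finset.range N, ∑ n ∈ u, (if n = p ^ k then gg b x n else 0)
        ≤ ∑ k ∈ Finset.range N, Real.log b * Real.exp (-(k * Real.log p - Real.log x) ^ 2) := by
          apply Finset.sum_le_sum
          intro k _
          rw [Finset.sum_ite_eq' u (p ^ k)]
          split_ifs
          · exact gg_pow hb hx hp k
          · positivity
      _ = Real.log b * ∑ k ∈ Finset.range N, Real.exp (-(k * Real.log p - Real.log x) ^ 2) := by
          rw [Finset.mul_sum]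
      _ ≤ _ := by
          gcongr
          exact one_pow_sum hL hv N
  calc ∑ n ∈ u, gg b x n
      ≤ ∑ n ∈ u, ∑ p ∈ b.primeFactors, ∑ k ∈ Finset.range N,
        (if n = p ^ k then gg b x n else 0) := Finset.sum_le_sum h1
    _ = ∑ p ∈ b.primeFactors, ∑ k ∈ Finset.range N, ∑ n ∈ u,
        (if n = p ^ k then gg b x n else 0) := by
        rw [Finset.sum_comm]
        refine Finset.sum_congr rfl fun p _ => ?_
        rw [Finset.sum_comm]
    _ ≤ ∑ p ∈ b.primeFactors, Real.log b *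
        ((1 - Real.exp (-(1 / 16)))⁻¹ + (4 * Real.log x + 1)) := Finset.sum_le_sum h2
    _ = _ := by rw [Finset.sum_const, nsmul_eq_mul]

theorem PP_one (b : ℕ) (hb : 2 ≤ b) : ∃ K : ℝ, 1 ≤ K ∧ ∀ J : ℕ, 1 ≤ J → ∀ t x : ℝ, 1 ≤ x →
    ‖PP (1 : DirichletCharacter ℂ (b ^ J)) t x - PP (1 : DirichletCharacter ℂ 1) t x‖ ≤
      K * (1 + Real.log x) := by
  have hr1 : Real.exp (-(1 / 16 : ℝ)) < 1 := by
    rw [Real.exp_lt_one_iff]; norm_num
  have hC : 0 ≤ (1 - Real.exp (-(1 / 16 : ℝ)))⁻¹ := inv_nonneg.2 (by linarith)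
  have hlb : 0 ≤ Real.log b := Real.log_natCast_nonneg b
  have hA : 0 ≤ (b.primeFactors.card : ℝ) * Real.log b := by positivity
  refine ⟨1 + b.primeFactors.card * Real.log b * ((1 - Real.exp (-(1 / 16)))⁻¹ + 5), ?_, ?_⟩
  · have : 0 ≤ b.primeFactors.card * Real.log b * ((1 - Real.exp (-(1 / 16)))⁻¹ + 5) := by
      positivity
    linarith
  intro J hJ t x hx
  have hx0 : 0 < x := by linarith
  have hv : 0 ≤ Real.log x := Real.log_nonneg hx
  have hbnd := gg_sum hb hx
  have hgs : Summable (gg b x) := summable_of_sum_le (fun n => gg_nonneg b x n) hbnd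
  have hgt : ∑' n, gg b x n ≤ _ := hgs.tsum_le_of_sum_le hbnd
  have hs1 := PP_summable (1 : DirichletCharacter ℂ (b ^ J)) t hx0
  have hs2 := PP_summable (1 : DirichletCharacter ℂ 1) t hx0
  have hterm : ∀ n : ℕ,
      ‖(ArithmeticFunction.vonMangoldt n : ℂ) * (1 : DirichletCharacter ℂ (b ^ J)) (n : ZMod (b ^ J)) *
        (n : ℂ) ^ (t * I) * (Real.exp (-(Real.log (n / x)) ^ 2) : ℂ) -
      (ArithmeticFunction.vonMangoldt n : ℂ) * (1 : DirichletCharacter ℂ 1) (n : ZMod 1) *
        (n : ℂ) ^ (t * I) * (Real.exp (-(Real.log (n / x)) ^ 2) : ℂ)‖ ≤ gg b x n := by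
    intro n
    have h1 : (1 : DirichletCharacter ℂ 1) (n : ZMod 1) = 1 := by
      rw [MulChar.one_apply]
      exact isUnit_of_subsingleton _
    rw [h1]
    unfold gg
    split_ifs with hc
    · have h2 : (1 : DirichletCharacter ℂ (b ^ J)) (n : ZMod (b ^ J)) = 1 := by
        rw [MulChar.one_apply]
        rw [ZMod.isUnit_iff_coprime]
        exact Nat.Coprime.pow_right J hc
      rw [h2, sub_self, norm_zero]
    · have h2 : (1 : DirichletCharacter ℂ (b ^ J)) (n : ZMod (b ^ J)) = 0 := by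
        apply MulChar.map_nonunit
        rw [ZMod.isUnit_iff_coprime]
        intro h
        exact hc ((Nat.coprime_pow_right_iff (by omega) _ _).1 h)
      rw [h2, mul_zero, zero_mul, zero_mul, zero_sub, norm_neg, mul_one, norm_mul, norm_mul,
        Complex.norm_real, Complex.norm_real, Real.norm_eq_abs, Real.norm_eq_abs,
        abs_of_nonneg ArithmeticFunction.vonMangoldt_nonneg, abs_of_pos (Real.exp_pos _)]
      rcases Nat.eq_zero_or_pos n with hn | hn
      · subst hn
        simp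
      · have h3 : ‖(n : ℂ) ^ (t * I)‖ = 1 := by
          rw [Complex.norm_natCast_cpow_of_pos hn]
          simp
        rw [h3, mul_one]
  have hdiff : PP (1 : DirichletCharacter ℂ (b ^ J)) t x - PP (1 : DirichletCharacter ℂ 1) t x =
      ∑' n : ℕ, ((ArithmeticFunction.vonMangoldt n : ℂ) *
        (1 : DirichletCharacter ℂ (b ^ J)) (n : ZMod (b ^ J)) *
        (n : ℂ) ^ (t * I) * (Real.exp (-(Real.log (n / x)) ^ 2) : ℂ) -
      (ArithmeticFunction.vonMangoldt n : ℂ) * (1 : DirichletCharacter ℂ 1) (n : ZMod 1) *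
        (n : ℂ) ^ (t * I) * (Real.exp (-(Real.log (n / x)) ^ 2) : ℂ)) := by
    rw [hs1.tsum_sub hs2]
    rfl
  rw [hdiff]
  refine (tsum_of_norm_bounded hgs.hasSum hterm).trans (hgt.trans ?_)
  have e1 : (b.primeFactors.card : ℝ) * (Real.log b *
      ((1 - Real.exp (-(1 / 16)))⁻¹ + (4 * Real.log x + 1))) =
      (b.primeFactors.card * Real.log b) *
      ((1 - Real.exp (-(1 / 16)))⁻¹ + (4 * Real.log x + 1)) := by ring
  rw [e1]
  have e2 : (1 - Real.exp (-(1 / 16)))⁻¹ + (4 * Real.log x + 1) ≤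
      ((1 - Real.exp (-(1 / 16)))⁻¹ + 5) * (1 + Real.log x) := by
    nlinarith [mul_nonneg hC hv]
  have e3 := mul_le_mul_of_nonneg_left e2 hA
  nlinarith

end Pool.Agent.HPX
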