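import Pool.Agent.HPP.LMel
import Pool.Agent.HPP.APnt

/-!
# HPX/WDefs: definitions for part W (SWProp, PNTProp)

`LI c h t v` is the integral over the line `Re w = c` of `KM 1 0 w * e ^ (w v) * h (w - i t)`, where
`KM 1 0 w = sqrt π * e ^ (w² / 4)` is the kernel of `HPP/LDefs`, `HPP/LMel`.
-/

namespace Pool.Agent.HPX

open Complex MeasureTheory Pool.Agent.HPP

/-- line integral of `KM 1 0 w e ^ (w v) h (w - i t)` over `Re w = c` -/
noncomputable def LI (c : ℝ) (h : ℂ → ℂ) (t v : ℝ) : ℂ :=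
  ∫ y : ℝ, KM 1 0 (c + y * I) * cexp ((c + y * I) * v) * h (c + y * I - t * I)

end Pool.Agent.HPX
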