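import Pool.Agent.ZC.Residue
import Pool.Agent.HPX.WDefs

/-!
# HPX/WPole: the pole of the zeta function

`ZC.strip_residue` with `a = 0`, `b = 2`, `ρ = 1 + t I`, `F w = KM 1 0 w * cexp (w v)` (`KM_bound` gives the decay
`‖F w‖ ≤ C e ^ (2 v) / (1 + (Im w)²)`, `C` may depend on `v`): the integral over `Re w = 2` is `2 π F(ρ)` plus the integral over
`Re w = 0`, where `|w - ρ| ≥ 1` and `‖cexp (w v)‖ = 1`: norm `≤ ∫ ‖KM 1 0 (y I)‖ dy = K` (`KM_integrable`).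
`F ρ = cexp ((1 + t I) v) * KM 1 0 (1 + t I)` and `KM 1 0 (1 + t I) = GG t` (`GG_eq`).
Note `(2 + y I - t I) - 1 = 2 + y I - ρ`.
-/

namespace Pool.Agent.HPX

open Complex MeasureTheory Pool.Agent.HPP

private lemma pole_aux (y : ℝ) :
    (1 + |y|) * Real.exp (-1 * y ^ 2 / 4) ≤ 64 / (1 + y ^ 2) := by
  rw [le_div_iff₀ (by positivity)]
  have h1 : (1 + |y|) * (1 + y ^ 2) ≤ 64 * Real.exp (y ^ 2 / 4) := by
    have h2 := Real.quadratic_le_exp_of_nonneg (x := y ^ 2 / 4) (by positivity)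
    have h3 : |y| ≤ 1 + y ^ 2 := by
      have := sq_abs y
      nlinarith [sq_nonneg (|y| - 1)]
    have h4 : (1 + |y|) * (1 + y ^ 2) ≤ (2 * (1 + y ^ 2)) * (1 + y ^ 2) := by
      apply mul_le_mul_of_nonneg_right _ (by positivity)
      nlinarith [sq_nonneg y]
    nlinarith [sq_nonneg (y ^ 2), sq_nonneg y]
  have h5 : Real.exp (-1 * y ^ 2 / 4) * Real.exp (y ^ 2 / 4) = 1 := by
    rw [← Real.exp_add]
    ring_nf
    exact Real.exp_zero
  calc (1 + |y|) * Real.exp (-1 * y ^ 2 / 4) * (1 + y ^ 2)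
      = ((1 + |y|) * (1 + y ^ 2)) * Real.exp (-1 * y ^ 2 / 4) := by ring
    _ ≤ (64 * Real.exp (y ^ 2 / 4)) * Real.exp (-1 * y ^ 2 / 4) :=
        mul_le_mul_of_nonneg_right h1 (Real.exp_pos _).le
    _ = 64 := by
        linear_combination 64 * h5

theorem pole_term : ∃ K : ℝ, 1 ≤ K ∧ ∀ t v : ℝ, 0 ≤ v →
    ‖LI 2 (fun s => 1 / (s - 1)) t v - 2 * Real.pi * (cexp ((1 + t * I) * v) * GG t)‖ ≤ K := by
  have hint : Integrable fun y : ℝ => ‖KM 1 0 (((0 : ℝ) : ℂ) + y * I)‖ := by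
    have := KM_integrable (j := 1) one_pos (a := 0) (by norm_num) 0 0 0
    simpa using this
  refine ⟨1 + ∫ y : ℝ, ‖KM 1 0 (((0 : ℝ) : ℂ) + y * I)‖, ?_, ?_⟩
  · have : 0 ≤ ∫ y : ℝ, ‖KM 1 0 (((0 : ℝ) : ℂ) + y * I)‖ :=
      integral_nonneg fun y => norm_nonneg _
    linarith
  intro t v hv
  obtain ⟨C, hC1, hC⟩ := KM_bound (j := 1) one_pos
  have hF : Differentiable ℂ (fun w : ℂ => KM 1 0 w * cexp (w * v)) := by
    have := KM_diff 1 0
    fun_prop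
  have hbd : ∀ s : ℂ, (0 : ℝ) ≤ s.re → s.re ≤ (2 : ℝ) →
      ‖(fun w : ℂ => KM 1 0 w * cexp (w * v)) s‖ ≤ (C * 64 * Real.exp (2 * v)) / (1 + s.im ^ 2) := by
    intro s h0 h2
    have h3 := hC 0 (by norm_num) s (by rw [abs_of_nonneg h0]; exact h2)
    have h4 : ‖cexp (s * v)‖ ≤ Real.exp (2 * v) := by
      rw [Complex.norm_exp]
      apply Real.exp_le_exp.2
      simp only [Complex.mul_re, Complex.ofReal_re, Complex.ofReal_im, mul_zero, sub_zero]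
      exact mul_le_mul_of_nonneg_right h2 hv
    have h5 := pole_aux s.im
    show ‖KM 1 0 s * cexp (s * v)‖ ≤ _
    rw [norm_mul]
    calc ‖KM 1 0 s‖ * ‖cexp (s * v)‖
        ≤ (C * (1 + |s.im|) * Real.exp (-1 * s.im ^ 2 / 4)) * Real.exp (2 * v) := by
          apply mul_le_mul h3 h4 (norm_nonneg _) (by positivity)
      _ = C * ((1 + |s.im|) * Real.exp (-1 * s.im ^ 2 / 4)) * Real.exp (2 * v) := by ring
      _ ≤ C * (64 / (1 + s.im ^ 2)) * Real.exp (2 * v) := by gcongr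
      _ = _ := by ring
  have key := ZC.strip_residue (a := 0) (b := 2) (ρ := 1 + t * I) (by simp) (by simp) hF hbd
  have hLI : LI 2 (fun s => 1 / (s - 1)) t v =
      ∫ τ : ℝ, (fun w : ℂ => KM 1 0 w * cexp (w * v)) (((2 : ℝ) : ℂ) + τ * I) /
        (((2 : ℝ) : ℂ) + τ * I - (1 + t * I)) := by
    unfold LI
    congr 1
    funext y
    show _ * (1 / _) = _ / _
    rw [mul_one_div]
    congr 1
    ring
  have hGG : KM 1 0 (1 + t * I) = GG t := by
    rw [GG_eq]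
    unfold KM
    simp
  have hval : 2 * (Real.pi : ℂ) * (cexp ((1 + t * I) * v) * GG t) =
      2 * Real.pi * (fun w : ℂ => KM 1 0 w * cexp (w * v)) (1 + t * I) := by
    show _ = 2 * (Real.pi : ℂ) * (KM 1 0 (1 + t * I) * cexp ((1 + t * I) * v))
    rw [hGG]
    ring
  rw [hLI, hval, ← key, sub_sub_cancel]
  refine (norm_integral_le_integral_norm _).trans ?_
  have hle : (∫ y : ℝ, ‖(fun w : ℂ => KM 1 0 w * cexp (w * v)) (((0 : ℝ) : ℂ) + y * I) /
      (((0 : ℝ) : ℂ) + y * I - (1 + t * I))‖) ≤ ∫ y : ℝ, ‖KM 1 0 (((0 : ℝ) : ℂ) + y * I)‖ := by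
    refine integral_mono_of_nonneg (Filter.Eventually.of_forall fun y => norm_nonneg _) hint
      (Filter.Eventually.of_forall fun y => ?_)
    show ‖KM 1 0 (((0 : ℝ) : ℂ) + y * I) * cexp ((((0 : ℝ) : ℂ) + y * I) * v) /
      (((0 : ℝ) : ℂ) + y * I - (1 + t * I))‖ ≤ ‖KM 1 0 (((0 : ℝ) : ℂ) + y * I)‖
    rw [norm_div, norm_mul]
    have h1 : ‖cexp ((((0 : ℝ) : ℂ) + y * I) * v)‖ = 1 := by
      rw [Complex.norm_exp]
      simp
    have h2 : 1 ≤ ‖(((0 : ℝ) : ℂ) + y * I - (1 + t * I))‖ := by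
      have := Complex.abs_re_le_norm (((0 : ℝ) : ℂ) + y * I - (1 + t * I))
      simpa using this
    rw [h1, mul_one]
    exact div_le_self (norm_nonneg _) h2
  linarith

end Pool.Agent.HPX
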