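import Mathlib

/-!
# HPX/WLow: the `3-4-1` inequality, quantitatively

* `triv_le`: `LFunctionTrivChar q (1 + x) = LSeries 1_q (1 + x)` (`LFunction_eq_LSeries`), norm
  `≤ ∑ n ^ (-1 - x) ≤ 1 + ∫_1^∞ u ^ (-1 - x) du = 1 + 1 / x ≤ 2 / x` (compare with `riemannZeta (1 + x)`,
  `zeta_eq_tsum_one_div_nat_cpow`, or a bound in `HPP` / Mathlib such as
  `riemannZeta_sub_one_mul`...; any route).
* `low`: `x₀ = 1 / (2048 M ^ 5)`. For `x₀ ≤ x ≤ 1`, `norm_LFunction_product_ge_one` (Mathlib): `(2 / x) ^ 3 * ‖L‖ ^ 4 * M ≥ 1`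
  with `L = LFunction χ (1 + x + I y)`, so `‖L‖ ^ 4 ≥ x ^ 3 / (8 M) ≥ x₀ ^ 3 / (8 M) = (4 M x₀) ^ 4` (as
  `256 * 8 * M ^ 5 * x₀ = 1`), i.e. `‖L‖ ≥ 4 M x₀`. For `|σ - 1| ≤ x₀`: mean value inequality on the segment from
  `σ + I y` to `1 + x₀ + I y` (`Convex.norm_image_sub_le_of_norm_deriv_le` or the real variable version
  `norm_image_sub_le_of_norm_deriv_le_segment`), length `≤ 2 x₀`: `‖L(σ + I y)‖ ≥ 4 M x₀ - 2 M x₀ = 2 M x₀ = 1 / (1024 M ^ 4)`.
-/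

namespace Pool.Agent.HPX

open Complex DirichletCharacter

theorem zeta_le_wl {x : ℝ} (hx : 0 < x) : ‖riemannZeta (1 + x)‖ ≤ 1 + 1 / x := by
  have h1 : (1 : ℝ) < 1 + x := by linarith
  have hre : (1 : ℝ) < ((1 : ℂ) + (x : ℂ)).re := by simp [hx]
  have hs := ZetaAsymptotics.zeta_limit_aux1 h1
  have hz := zeta_eq_tsum_one_div_nat_add_one_cpow hre
  have hnn : 0 ≤ ZetaAsymptotics.termTSum (1 + x) :=
    tsum_nonneg fun n => ZetaAsymptotics.term_nonneg _ _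
  have hcast : riemannZeta (1 + x) = ((∑' n : ℕ, 1 / (n + 1 : ℝ) ^ (1 + x) : ℝ) : ℂ) := by
    rw [hz, Complex.ofReal_tsum]
    refine tsum_congr fun n => ?_
    push_cast
    rw [Complex.ofReal_cpow (by positivity)]
    push_cast
    rfl
  rw [hcast, Complex.norm_real, Real.norm_eq_abs,
    abs_of_nonneg (tsum_nonneg fun n => by positivity)]
  have h2 : (1 + x) - 1 = x := by ring
  rw [h2] at hs
  nlinarith [mul_nonneg (by linarith : (0 : ℝ) ≤ 1 + x) hnn]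

theorem triv_le (q : ℕ) [NeZero q] {x : ℝ} (hx : 0 < x) (hx1 : x ≤ 1) :
    ‖LFunctionTrivChar q (1 + x)‖ ≤ 2 / x := by
  have hne : (1 : ℂ) + (x : ℂ) ≠ 1 := by
    intro h
    have : (x : ℂ) = 0 := by linear_combination h
    exact hx.ne' (by exact_mod_cast this)
  rw [LFunctionTrivChar_eq_mul_riemannZeta hne, norm_mul, norm_prod]
  have hprod : ∏ p ∈ q.primeFactors, ‖1 - (p : ℂ) ^ (-(1 + (x : ℂ)))‖ ≤ 1 := by
    refine Finset.prod_le_one (fun _ _ => norm_nonneg _) fun p hp => ?_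
    have hp2 : 2 ≤ p := (Nat.prime_of_mem_primeFactors hp).two_le
    have hp0 : (0 : ℝ) ≤ (p : ℝ) := Nat.cast_nonneg p
    have hc : (p : ℂ) ^ (-(1 + (x : ℂ))) = (((p : ℝ) ^ (-(1 + x)) : ℝ) : ℂ) := by
      rw [Complex.ofReal_cpow hp0]
      push_cast
      rfl
    rw [hc]
    have hle : (p : ℝ) ^ (-(1 + x)) ≤ 1 :=
      Real.rpow_le_one_of_one_le_of_nonpos (by exact_mod_cast (by omega : 1 ≤ p)) (by linarith)
    have hge : 0 ≤ (p : ℝ) ^ (-(1 + x)) := Real.rpow_nonneg hp0 _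
    have : (1 : ℂ) - (((p : ℝ) ^ (-(1 + x)) : ℝ) : ℂ) = ((1 - (p : ℝ) ^ (-(1 + x)) : ℝ) : ℂ) := by
      push_cast
      rfl
    rw [this, Complex.norm_real, Real.norm_eq_abs, abs_le]
    constructor <;> linarith
  have hz := zeta_le_wl hx
  have h3 : 1 + 1 / x ≤ 2 / x := by
    have : 1 ≤ 1 / x := by rw [le_div_iff₀ hx]; linarith
    have h4 : 2 / x = 1 / x + 1 / x := by ring
    linarith
  calc (∏ p ∈ q.primeFactors, ‖1 - (p : ℂ) ^ (-(1 + (x : ℂ)))‖) * ‖riemannZeta (1 + x)‖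
      ≤ 1 * ‖riemannZeta (1 + x)‖ := mul_le_mul_of_nonneg_right hprod (norm_nonneg _)
    _ ≤ 2 / x := by linarith

theorem low_right (q : ℕ) [NeZero q] (χ : DirichletCharacter ℂ q) (y M : ℝ) (hM : 1 ≤ M)
    (h2 : ∀ x : ℝ, 0 < x → x ≤ 1 → ‖LFunction (χ ^ 2) (1 + x + 2 * I * y)‖ ≤ M)
    (x : ℝ) (hx0 : 1 / (2048 * M ^ 5) ≤ x) (hx1 : x ≤ 1) :
    4 * M * (1 / (2048 * M ^ 5)) ≤ ‖LFunction χ (1 + x + I * y)‖ := by
  have hM0 : 0 < M := by linarith
  have hx00 : 0 < 1 / (2048 * M ^ 5) := by positivity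
  have hx : 0 < x := lt_of_lt_of_le hx00 hx0
  have h1 := norm_LFunction_product_ge_one (χ := χ) hx y
  rw [norm_mul, norm_mul, norm_pow, norm_pow] at h1
  have ht := triv_le q hx hx1
  have hL := h2 x hx hx1
  set A := ‖LFunctionTrivChar q (1 + x)‖
  set L := ‖LFunction χ (1 + x + I * y)‖
  set B := ‖LFunction (χ ^ 2) (1 + x + 2 * I * y)‖
  have hA0 : 0 ≤ A := norm_nonneg _
  have hL0 : 0 ≤ L := norm_nonneg _
  have hB0 : 0 ≤ B := norm_nonneg _
  set x0 := 1 / (2048 * M ^ 5) with hx0def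
  have hprod : 1 ≤ (2 / x) ^ 3 * L ^ 4 * M := by
    refine le_trans h1 ?_
    have : A ^ 3 ≤ (2 / x) ^ 3 := pow_le_pow_left₀ hA0 ht 3
    have h5 : A ^ 3 * L ^ 4 ≤ (2 / x) ^ 3 * L ^ 4 := mul_le_mul_of_nonneg_right this (by positivity)
    exact mul_le_mul h5 hL hB0 (by positivity)
  have h6 : x ^ 3 ≤ 8 * M * L ^ 4 := by
    have hx3 : 0 < x ^ 3 := by positivity
    have : (2 / x) ^ 3 * L ^ 4 * M = 8 * M * L ^ 4 / x ^ 3 := by
      field_simp
      ring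
    rw [this, le_div_iff₀ hx3] at hprod
    linarith
  have h7 : x0 ^ 3 ≤ x ^ 3 := pow_le_pow_left₀ hx00.le hx0 3
  have h8 : 8 * M * (4 * M * x0) ^ 4 = x0 ^ 3 := by
    have hkey : 2048 * M ^ 5 * x0 = 1 := by
      rw [hx0def]
      field_simp
    have : 8 * M * (4 * M * x0) ^ 4 = (2048 * M ^ 5 * x0) * x0 ^ 3 := by ring
    rw [this, hkey, one_mul]
  have h9 : (4 * M * x0) ^ 4 ≤ L ^ 4 := by
    have : 8 * M * (4 * M * x0) ^ 4 ≤ 8 * M * L ^ 4 := by rw [h8]; linarith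
    exact le_of_mul_le_mul_left this (by positivity)
  exact le_of_pow_le_pow_left₀ (by norm_num) hL0 h9

theorem low (q : ℕ) [NeZero q] (χ : DirichletCharacter ℂ q) (y M : ℝ) (hM : 1 ≤ M)
    (h2 : ∀ x : ℝ, 0 < x → x ≤ 1 → ‖LFunction (χ ^ 2) (1 + x + 2 * I * y)‖ ≤ M)
    (h3 : ∀ σ : ℝ, 1 - 1 / (2048 * M ^ 5) ≤ σ → σ ≤ 2 →
      DifferentiableAt ℂ (LFunction χ) (σ + I * y) ∧ ‖deriv (LFunction χ) (σ + I * y)‖ ≤ M) :
    ∀ σ : ℝ, 1 - 1 / (2048 * M ^ 5) ≤ σ → σ ≤ 2 →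
      1 / (1024 * M ^ 4) ≤ ‖LFunction χ (σ + I * y)‖ := by
  intro σ hσ hσ2
  have hM0 : 0 < M := by linarith
  set x0 := 1 / (2048 * M ^ 5) with hx0def
  have hx00 : 0 < x0 := by positivity
  have hx01 : x0 ≤ 1 := by
    rw [hx0def, div_le_one (by positivity)]
    have : 1 ≤ M ^ 5 := one_le_pow₀ hM
    linarith
  have hgoal : 1 / (1024 * M ^ 4) = 2 * M * x0 := by
    rw [hx0def]
    field_simp
    norm_num
  rw [hgoal]
  have hr := low_right q χ y M hM h2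
  rcases le_or_gt (1 + x0) σ with h | h
  · have := hr (σ - 1) (by linarith) (by linarith)
    have he : (1 : ℂ) + ((σ - 1 : ℝ) : ℂ) + I * y = σ + I * y := by
      push_cast
      ring
    rw [he] at this
    have hp : 0 ≤ M * x0 := by positivity
    nlinarith
  · have hlo := hr x0 le_rfl hx01
    have he : (1 : ℂ) + (x0 : ℂ) + I * y = ((1 + x0 : ℝ) : ℂ) + I * y := by
      push_cast
      ring
    rw [he] at hlo
    -- mean value
    have hmv : ‖LFunction χ (((1 + x0 : ℝ) : ℂ) + I * y) - LFunction χ ((σ : ℂ) + I * y)‖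
        ≤ M * ((1 + x0) - σ) := by
      have hd : ∀ t ∈ Set.Icc σ (1 + x0),
          HasDerivWithinAt (fun t : ℝ => LFunction χ ((t : ℂ) + I * y))
            (deriv (LFunction χ) ((t : ℂ) + I * y)) (Set.Icc σ (1 + x0)) t := by
        intro t ht
        have h4 := (h3 t (by linarith [ht.1]) (by linarith [ht.2])).1.hasDerivAt
        have h6 := HasDerivAt.comp_ofReal (e := fun z : ℂ => LFunction χ (z + I * y)) (z := t)
          (e' := deriv (LFunction χ) ((t : ℂ) + I * y)) (by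
            have := HasDerivAt.comp (t : ℂ) h4 ((hasDerivAt_id (t : ℂ)).add_const (I * (y : ℂ)))
            rw [mul_one] at this
            exact this)
        exact h6.hasDerivWithinAt
      have := norm_image_sub_le_of_norm_deriv_le_segment' (f := fun t : ℝ => LFunction χ ((t : ℂ) + I * y))
        (C := M) hd (fun t ht => (h3 t (by linarith [ht.1]) (by linarith [ht.2])).2)
        (1 + x0) ⟨h.le, le_rfl⟩
      simpa using this
    have htri : ‖LFunction χ (((1 + x0 : ℝ) : ℂ) + I * y)‖ ≤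
        ‖LFunction χ ((σ : ℂ) + I * y)‖ +
        ‖LFunction χ (((1 + x0 : ℝ) : ℂ) + I * y) - LFunction χ ((σ : ℂ) + I * y)‖ := by
      have := norm_add_le (LFunction χ ((σ : ℂ) + I * y))
        (LFunction χ (((1 + x0 : ℝ) : ℂ) + I * y) - LFunction χ ((σ : ℂ) + I * y))
      simpa using this
    have hlen : M * ((1 + x0) - σ) ≤ 2 * M * x0 := by
      have : (1 + x0) - σ ≤ 2 * x0 := by linarith
      nlinarith
    linarith

end Pool.Agent.HPX
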