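import Pool.Agent.HPX.WComp

/-!
# HPX/WQuad: quadratic characters mod `b ^ J`, `b` an odd prime, bounded height

`χ ^ 2 = 1`, `J ≥ 1`: `χ` factors through `b`: `factorsThrough_iff_ker_unitsMap`; if `u` is a unit with `u = 1` mod `b` then
`u ^ (b ^ (J - 1)) = 1` (`dvd_sub_pow_of_dvd_sub` for a natural representative), so `χ u ^ (b ^ (J - 1)) = 1` and `χ u ^ 2 = 1`;
`b ^ (J - 1)` is odd, so `χ u = 1`. Hence `χ = changeLevel (b ∣ b ^ J) ψ`, `ψ` mod `b`, `ψ ≠ 1` (`changeLevel_one`),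
and `LFunction χ s = LFunction ψ s * ∏ p ∈ (b ^ J).primeFactors, (1 - ψ p p ^ (-s))` (`LFunction_changeLevel`) with
`ψ b = 0`, so `LFunction χ = LFunction ψ` as functions (`funext`; `ψ ≠ 1` gives the side condition). Apply `comp_ld` to `LFunction ψ` for
each of the finitely many `ψ ≠ 1` mod `b` (`LFunction_ne_zero_of_one_le_re`, `differentiable_LFunction`) and take the
maximum (sum) of the constants (`Finset.univ`; `choose`).
-/

namespace Pool.Agent.HPX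

open Complex DirichletCharacter

private theorem wq_factors {b : ℕ} (hb : b.Prime) (h3 : 3 ≤ b) {J : ℕ} (hJ : 1 ≤ J)
    [NeZero (b ^ J)] {χ : DirichletCharacter ℂ (b ^ J)} (h2 : χ ^ 2 = 1) : χ.FactorsThrough b := by
  have hd : b ∣ b ^ J := dvd_pow_self b (by omega)
  rw [factorsThrough_iff_ker_unitsMap hd]
  intro x hx
  rw [MonoidHom.mem_ker] at hx ⊢
  -- `b` divides `x - 1`
  have h1 : (b : ZMod (b ^ J)) ∣ (x : ZMod (b ^ J)) - 1 := by
    have e1 : (ZMod.cast (x : ZMod (b ^ J)) : ZMod b) = 1 := by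
      have := congrArg (fun u : (ZMod b)ˣ => (u : ZMod b)) hx
      simpa [ZMod.unitsMap_val] using this
    set n : ℕ := (x : ZMod (b ^ J)).val with hn
    have e2 : ((n : ℕ) : ZMod (b ^ J)) = (x : ZMod (b ^ J)) := ZMod.natCast_zmod_val _
    have e3 : ((n : ℕ) : ZMod b) = 1 := by
      rw [← e1, ← e2, ZMod.cast_natCast hd]
    have e4 : (b : ℤ) ∣ (n : ℤ) - 1 := by
      rw [← ZMod.intCast_zmod_eq_zero_iff_dvd]
      push_cast
      rw [e3, sub_self]
    obtain ⟨c, hc⟩ := e4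
    refine ⟨(c : ZMod (b ^ J)), ?_⟩
    have e5 := congrArg (fun z : ℤ => (z : ZMod (b ^ J))) hc
    push_cast at e5
    rw [← e2]
    exact e5
  have h4 := dvd_sub_pow_of_dvd_sub h1 (J - 1)
  have h5 : ((b : ZMod (b ^ J)) ^ (J - 1 + 1)) = 0 := by
    have : J - 1 + 1 = J := by omega
    rw [this]
    have h6 : ((b ^ J : ℕ) : ZMod (b ^ J)) = 0 := ZMod.natCast_self _
    push_cast at h6
    exact h6
  rw [h5, zero_dvd_iff, one_pow, sub_eq_zero] at h4
  have h6 : x ^ b ^ (J - 1) = 1 := by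
    apply Units.ext
    push_cast
    exact h4
  have h7 : (χ.toUnitHom x) ^ b ^ (J - 1) = 1 := by
    rw [← map_pow, h6, map_one]
  have h8 : (χ.toUnitHom x) ^ 2 = 1 := by
    apply Units.ext
    push_cast
    rw [MulChar.coe_toUnitHom]
    have := congrArg (fun ψ : DirichletCharacter ℂ (b ^ J) => ψ (x : ZMod (b ^ J))) h2
    simp only [MulChar.one_apply_coe] at this
    rw [← this]
    exact (MulChar.pow_apply_coe χ 2 x).symm
  have h9 : orderOf (χ.toUnitHom x) ∣ 1 := by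
    have g1 := orderOf_dvd_of_pow_eq_one h7
    have g2 := orderOf_dvd_of_pow_eq_one h8
    have hodd : Nat.Coprime (b ^ (J - 1)) 2 := by
      refine Nat.Coprime.pow_left _ ?_
      rw [Nat.coprime_comm, Nat.Prime.coprime_iff_not_dvd Nat.prime_two]
      intro h
      have := (Nat.prime_dvd_prime_iff_eq Nat.prime_two hb).1 h
      omega
    have g3 := Nat.dvd_gcd g1 g2
    rwa [hodd] at g3
  exact orderOf_eq_one_iff.1 (Nat.dvd_one.1 h9)

theorem quad (b : ℕ) [NeZero b] (hb : b.Prime) (h3 : 3 ≤ b) : ∃ C : ℝ, 1 ≤ C ∧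
    ∀ J : ℕ, 1 ≤ J → ∀ χ : DirichletCharacter ℂ (b ^ J), χ ≠ 1 → χ ^ 2 = 1 →
    ∀ s : ℂ, 1 - 1 / C ≤ s.re → s.re ≤ 2 → |s.im| ≤ 2 →
      LFunction χ s ≠ 0 ∧ ‖deriv (LFunction χ) s / LFunction χ s‖ ≤ C := by
  classical
  have hex : ∀ ψ : DirichletCharacter ℂ b, ∃ C : ℝ, 1 ≤ C ∧ (ψ ≠ 1 → ∀ s : ℂ, 1 - 1 / C ≤ s.re →
      s.re ≤ 2 → |s.im| ≤ 2 →
      LFunction ψ s ≠ 0 ∧ ‖deriv (LFunction ψ) s / LFunction ψ s‖ ≤ C) := by
    intro ψ
    by_cases hψ : ψ = 1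
    · exact ⟨1, le_refl _, fun h => absurd hψ h⟩
    · obtain ⟨C, hC1, hC⟩ := comp_ld (Z := LFunction ψ) (differentiable_LFunction hψ)
        (fun s hs _ _ => LFunction_ne_zero_of_one_le_re ψ (Or.inl hψ) hs)
      exact ⟨C, hC1, fun _ => hC⟩
  choose D hD1 hD using hex
  have hfin : Fintype (DirichletCharacter ℂ b) := Fintype.ofFinite _
  have hle : ∀ ψ, D ψ ≤ ∑ ψ, D ψ := fun ψ =>
    Finset.single_le_sum (f := D) (fun i _ => zero_le_one.trans (hD1 i)) (Finset.mem_univ ψ)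
  refine ⟨∑ ψ, D ψ, (hD1 1).trans (hle 1), fun J hJ χ hχ h2 s hs1 hs2 hs3 => ?_⟩
  have hNZ : NeZero (b ^ J) := ⟨pow_ne_zero _ (NeZero.ne b)⟩
  have hf := wq_factors hb h3 hJ h2
  set ψ := hf.χ₀ with hψdef
  have hψ : ψ ≠ 1 := by
    intro h
    apply hχ
    rw [hf.eq_changeLevel, ← hψdef, h, changeLevel_one]
  have hL : LFunction χ = LFunction ψ := by
    funext z
    have e1 := LFunction_changeLevel hf.dvd ψ (s := z) (Or.inl hψ)
    have e2 : χ = changeLevel hf.dvd ψ := hf.eq_changeLevel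
    rw [← e2, Nat.primeFactors_prime_pow (by omega) hb, Finset.prod_singleton] at e1
    have e3 : ψ (b : ZMod b) = 0 := by
      refine ψ.map_nonunit ?_
      rw [ZMod.natCast_self]
      haveI : Fact b.Prime := ⟨hb⟩
      exact not_isUnit_zero
    rw [e3, zero_mul, sub_zero, mul_one] at e1
    exact e1
  rw [hL]
  have hDpos : 0 < D ψ := lt_of_lt_of_le one_pos (hD1 ψ)
  obtain ⟨g1, g2⟩ := hD ψ hψ s (by
    have : 1 / (∑ ψ, D ψ) ≤ 1 / D ψ := one_div_le_one_div_of_le hDpos (hle ψ)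
    linarith) hs2 hs3
  exact ⟨g1, g2.trans (hle ψ)⟩

end Pool.Agent.HPX
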