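import Pool.Agent.HPX.WDer
import Pool.Agent.HPX.WLow
import Pool.Agent.HPX.WQuad

/-!
# HPX/WReg: zero-free region and bound for the logarithmic derivative

* `reg_char`: `Λ = log (b ^ J Y) ≥ 2`, `M = C' Λ ^ 2` with `C'` large. `low` at `y = Im s`, `σ = Re s` (`s = σ + I y`).
  - `h3`: `1 / (2048 M ^ 5) ≤ 1 / (2 Λ)`, so `L_der` applies at height `|y| ≤ Y - 1`.
  - `h2` if `χ ^ 2 ≠ 1`: `L_up` with `2 Y` in place of `Y` (`log (b ^ J * 2 Y) ≤ 2 Λ`), at `1 + x + 2 I y`, `|2 y| ≤ 2 Y`.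
  - `h2` if `χ ^ 2 = 1` and `|y| ≥ 1`: `LFunction 1 = LFunctionTrivChar` and `LFunctionTrivChar_eq_mul_riemannZeta`: the product
    over `(b ^ J).primeFactors = {b}` has norm `≤ 2`; `zeta_up'` with `2 Y` at `1 + x + 2 I y`, `‖x + 2 I y‖ ≥ 2`.
  - then `‖L' / L‖ ≤ M * 1024 M ^ 4`.
  - `χ ^ 2 = 1` and `|y| ≤ 1`: `quad` (`1 / (C Λ ^ 10) ≤ 1 / C_quad`).
* `reg_zeta`: `Z = LFunctionTrivChar₁ 1`. `|y| ≤ 1`: `comp_ld` for `Z` (entire, `differentiable_LFunctionTrivChar₁`; nonzero for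
  `1 ≤ Re s`: at `s = 1` `LFunctionTrivChar₁_apply_one_ne_zero`, otherwise `riemannZeta_ne_zero_of_one_le_re`).
  `|y| ≥ 1`: `low` with `q = 1`, `χ = 1` (`LFunction_modOne_eq : LFunction χ = riemannZeta`, `χ ^ 2 = 1`), `zeta_der`, `zeta_up'`;
  `deriv Z / Z = 1 / (s - 1) + ζ' / ζ` for `s ≠ 1` (`deriv_LFunctionTrivChar₁_apply_of_ne_one`), `‖s - 1‖ ≥ |y| ≥ 1`.
-/

namespace Pool.Agent.HPX

open Complex DirichletCharacter

private lemma fin_aux {L D : ℂ} {M : ℝ} (hM : 1 ≤ M) (hD : ‖D‖ ≤ M)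
    (hL : 1 / (1024 * M ^ 4) ≤ ‖L‖) : L ≠ 0 ∧ ‖D / L‖ ≤ 1024 * M ^ 5 := by
  have hM0 : 0 < M := by linarith
  have hp : 0 < 1 / (1024 * M ^ 4) := by positivity
  have hLp : 0 < ‖L‖ := lt_of_lt_of_le hp hL
  refine ⟨norm_pos_iff.mp hLp, ?_⟩
  rw [norm_div, div_le_iff₀ hLp]
  calc ‖D‖ ≤ M := hD
    _ = 1024 * M ^ 5 * (1 / (1024 * M ^ 4)) := by field_simp
    _ ≤ 1024 * M ^ 5 * ‖L‖ := by
        apply mul_le_mul_of_nonneg_left hL (by positivity)

private lemma log_two_le {X : ℝ} (hX : 9 ≤ X) : 2 ≤ Real.log X := by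
  have h1 : (2 : ℝ) ≤ Real.log 9 := by
    rw [Real.le_log_iff_exp_le (by norm_num)]
    have h := Real.exp_one_lt_d9
    have h2 : Real.exp 2 = Real.exp 1 * Real.exp 1 := by
      rw [← Real.exp_add]; norm_num
    rw [h2]
    have h3 : 0 < Real.exp 1 := Real.exp_pos 1
    nlinarith
  exact le_trans h1 (Real.log_le_log (by norm_num) hX)

private lemma log_mul_two_le {X : ℝ} (hX : 2 ≤ X) : Real.log (2 * X) ≤ 2 * Real.log X := by
  have h1 : Real.log (2 * X) = Real.log 2 + Real.log X :=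
    Real.log_mul (by norm_num) (by linarith)
  have h2 : Real.log 2 ≤ Real.log X := Real.log_le_log (by norm_num) hX
  linarith

private lemma triv_two (b J : ℕ) [NeZero b] (hb : b.Prime) (hJ : 1 ≤ J) {s : ℂ} (hs : 1 ≤ s.re)
    (hs1 : s ≠ 1) : ‖LFunction (1 : DirichletCharacter ℂ (b ^ J)) s‖ ≤ 2 * ‖riemannZeta s‖ := by
  have h := LFunctionTrivChar_eq_mul_riemannZeta (N := b ^ J) hs1
  have h' : LFunction (1 : DirichletCharacter ℂ (b ^ J)) s =
      (∏ p ∈ (b ^ J).primeFactors, (1 - (p : ℂ) ^ (-s))) * riemannZeta s := h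
  rw [h', norm_mul]
  apply mul_le_mul_of_nonneg_right _ (norm_nonneg _)
  have hp : (b ^ J).primeFactors = {b} := by
    rw [Nat.primeFactors_pow b (by omega), hb.primeFactors]
  rw [hp, Finset.prod_singleton]
  have hb0 : 0 < b := hb.pos
  have h1 : ‖(b : ℂ) ^ (-s)‖ ≤ 1 := by
    rw [Complex.norm_natCast_cpow_of_pos hb0]
    apply Real.rpow_le_one_of_one_le_of_nonpos
    · exact_mod_cast hb.one_lt.le
    · simp only [neg_re]; linarith
  calc ‖1 - (b : ℂ) ^ (-s)‖ ≤ ‖(1 : ℂ)‖ + ‖(b : ℂ) ^ (-s)‖ := norm_sub_le _ _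
    _ ≤ 2 := by rw [norm_one]; linarith

theorem reg_char (b : ℕ) [NeZero b] (hb : b.Prime) (h3 : 3 ≤ b) : ∃ C : ℝ, 1 ≤ C ∧
    ∀ J : ℕ, 1 ≤ J → ∀ χ : DirichletCharacter ℂ (b ^ J), χ ≠ 1 → ∀ Y : ℝ, 9 ≤ Y →
    ∀ s : ℂ, 1 - 1 / (C * Real.log ((b : ℝ) ^ J * Y) ^ 10) ≤ s.re → s.re ≤ 2 → |s.im| ≤ Y - 1 →
      LFunction χ s ≠ 0 ∧
        ‖deriv (LFunction χ) s / LFunction χ s‖ ≤ C * Real.log ((b : ℝ) ^ J * Y) ^ 10 := by
  obtain ⟨Cd, hCd, hder⟩ := L_der
  obtain ⟨Cu, hCu, hup⟩ := L_up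
  obtain ⟨Cz, hCz, hzup⟩ := zeta_up'
  obtain ⟨Cq, hCq, hquad⟩ := quad b hb h3
  set C' : ℝ := Cd + Cu + Cz with hC'
  have hC'1 : 1 ≤ C' := by linarith
  have hC'5 : 1 ≤ C' ^ 5 := one_le_pow₀ hC'1
  refine ⟨2048 * C' ^ 5 + Cq, by linarith, ?_⟩
  intro J hJ χ hχ Y hY s hs1 hs2 hs3
  have hb3 : (3 : ℝ) ≤ (b : ℝ) ^ J := by
    calc (3 : ℝ) ≤ (b : ℝ) := by exact_mod_cast h3
      _ = (b : ℝ) ^ 1 := (pow_one _).symm
      _ ≤ (b : ℝ) ^ J := pow_le_pow_right₀ (by exact_mod_cast hb.one_lt.le) hJ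
  set Λ : ℝ := Real.log ((b : ℝ) ^ J * Y) with hΛ
  have hX9 : 9 ≤ (b : ℝ) ^ J * Y := by nlinarith
  have hΛ2 : 2 ≤ Λ := log_two_le hX9
  have hΛ10 : 1 ≤ Λ ^ 10 := one_le_pow₀ (by linarith)
  have hΛp : 0 < Λ := by linarith
  have hcast : ((b ^ J : ℕ) : ℝ) = (b : ℝ) ^ J := by push_cast; ring
  set M : ℝ := C' * Λ ^ 2 with hM
  have hΛΛ : Λ ≤ Λ ^ 2 := by nlinarith
  have hMΛ : Λ ≤ M := by
    calc Λ ≤ Λ ^ 2 := hΛΛ
      _ = 1 * Λ ^ 2 := (one_mul _).symm
      _ ≤ C' * Λ ^ 2 := by apply mul_le_mul_of_nonneg_right hC'1 (by positivity)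
  have hM1 : 1 ≤ M := by linarith
  have hM5 : M ^ 5 = C' ^ 5 * Λ ^ 10 := by rw [hM]; ring
  have hM5Λ : Λ ≤ M ^ 5 := by
    calc Λ ≤ M := hMΛ
      _ = M ^ 1 := (pow_one _).symm
      _ ≤ M ^ 5 := pow_le_pow_right₀ hM1 (by norm_num)
  have hCpos : 0 < (2048 * C' ^ 5 + Cq) * Λ ^ 10 := by positivity
  by_cases hsmall : χ ^ 2 = 1 ∧ |s.im| ≤ 1
  · -- quadratic characters at bounded height
    obtain ⟨hχ2, him⟩ := hsmall
    have hle : Cq ≤ (2048 * C' ^ 5 + Cq) * Λ ^ 10 := by nlinarith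
    have hle' : 1 / ((2048 * C' ^ 5 + Cq) * Λ ^ 10) ≤ 1 / Cq :=
      one_div_le_one_div_of_le (by linarith) hle
    obtain ⟨h1, h2⟩ := hquad J hJ χ hχ hχ2 s (by linarith) hs2 (by linarith)
    exact ⟨h1, h2.trans hle⟩
  · -- general case
    have hle : 2048 * M ^ 5 ≤ (2048 * C' ^ 5 + Cq) * Λ ^ 10 := by
      rw [hM5]; nlinarith
    have hle' : 1 / ((2048 * C' ^ 5 + Cq) * Λ ^ 10) ≤ 1 / (2048 * M ^ 5) :=
      one_div_le_one_div_of_le (by positivity) hle
    have hs_eq : ((s.re : ℂ) + I * (s.im : ℂ)) = s := by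
      rw [mul_comm]; exact Complex.re_add_im s
    have hderM : ∀ σ : ℝ, 1 - 1 / (2048 * M ^ 5) ≤ σ → σ ≤ 2 →
        DifferentiableAt ℂ (LFunction χ) (σ + I * s.im) ∧
          ‖deriv (LFunction χ) (σ + I * s.im)‖ ≤ M := by
      intro σ hσ1 hσ2
      refine ⟨(differentiable_LFunction hχ) _, ?_⟩
      have hre : ((σ : ℂ) + I * (s.im : ℂ)).re = σ := by simp
      have him : ((σ : ℂ) + I * (s.im : ℂ)).im = s.im := by simp
      have h2 : 1 / (2048 * M ^ 5) ≤ 1 / (2 * Λ) :=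
        one_div_le_one_div_of_le (by positivity) (by nlinarith)
      have h := hder (b ^ J) χ hχ Y hY (σ + I * s.im)
        (by rw [hre, hcast]; linarith) (by rw [hre]; exact hσ2) (by rw [him]; exact hs3)
      rw [hcast] at h
      calc _ ≤ Cd * Λ ^ 2 := h
        _ ≤ C' * Λ ^ 2 := by
            apply mul_le_mul_of_nonneg_right _ (by positivity)
            linarith
    have hupM : ∀ x : ℝ, 0 < x → x ≤ 1 →
        ‖LFunction (χ ^ 2) (1 + x + 2 * I * s.im)‖ ≤ M := by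
      intro x hx0 hx1
      have hre : ((1 : ℂ) + x + 2 * I * (s.im : ℂ)).re = 1 + x := by simp
      have him : ((1 : ℂ) + x + 2 * I * (s.im : ℂ)).im = 2 * s.im := by simp
      have hab : |2 * s.im| ≤ 2 * Y := by
        rw [abs_mul, abs_two]; linarith
      by_cases hχ2 : χ ^ 2 = 1
      · have him1 : 1 ≤ |s.im| := by
          by_contra hc
          exact hsmall ⟨hχ2, by linarith [not_le.mp hc]⟩
        rw [hχ2]
        have hne : 2 ≤ ‖((1 : ℂ) + x + 2 * I * (s.im : ℂ)) - 1‖ := by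
          have h1 := Complex.abs_im_le_norm (((1 : ℂ) + x + 2 * I * (s.im : ℂ)) - 1)
          rw [sub_im, him, one_im, sub_zero, abs_mul, abs_two] at h1
          linarith
        have hne1 : ((1 : ℂ) + x + 2 * I * (s.im : ℂ)) ≠ 1 := by
          intro hc
          rw [hc, sub_self, norm_zero] at hne
          linarith
        have h2Y : Real.log (2 * Y) ≤ Λ := by
          rw [hΛ]
          apply Real.log_le_log (by linarith)
          nlinarith
        have hlog : 0 < Real.log (2 * Y) := by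
          have := log_two_le (X := 2 * Y) (by linarith)
          linarith
        have h1 := triv_two b J hb hJ (s := 1 + x + 2 * I * s.im) (by rw [hre]; linarith) hne1
        have h2 := hzup (2 * Y) (by linarith) (1 + x + 2 * I * s.im)
          (by
            rw [hre]
            have : 0 < 1 / Real.log (2 * Y) := by positivity
            linarith)
          (by rw [hre]; linarith) (by rw [him]; exact hab) (by linarith)
        calc _ ≤ 2 * ‖riemannZeta (1 + x + 2 * I * s.im)‖ := h1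
          _ ≤ 2 * (Cz * Real.log (2 * Y)) := by linarith
          _ ≤ 2 * (Cz * Λ) := by
              have := mul_le_mul_of_nonneg_left h2Y (by linarith : (0:ℝ) ≤ Cz)
              linarith
          _ = Cz * (2 * Λ) := by ring
          _ ≤ Cz * Λ ^ 2 := by
              apply mul_le_mul_of_nonneg_left _ (by linarith)
              nlinarith
          _ ≤ C' * Λ ^ 2 := by
              apply mul_le_mul_of_nonneg_right _ (by positivity)
              linarith
      · have hlog2 : Real.log ((b ^ J : ℕ) * (2 * Y)) ≤ 2 * Λ := by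
          rw [hcast, hΛ]
          have h1 : (b : ℝ) ^ J * (2 * Y) = 2 * ((b : ℝ) ^ J * Y) := by ring
          rw [h1]
          exact log_mul_two_le (by linarith)
        have hlogp : 0 < Real.log ((b ^ J : ℕ) * (2 * Y)) := by
          have := log_two_le (X := (b ^ J : ℕ) * (2 * Y)) (by rw [hcast]; nlinarith)
          linarith
        have h2 := hup (b ^ J) (χ ^ 2) hχ2 (2 * Y) (by linarith) (1 + x + 2 * I * s.im)
          (by
            rw [hre]
            have : 0 < 1 / Real.log ((b ^ J : ℕ) * (2 * Y)) := by positivity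
            linarith)
          (by rw [hre]; linarith) (by rw [him]; exact hab)
        calc _ ≤ Cu * Real.log ((b ^ J : ℕ) * (2 * Y)) := h2
          _ ≤ Cu * (2 * Λ) := by
              apply mul_le_mul_of_nonneg_left hlog2 (by linarith)
          _ ≤ Cu * Λ ^ 2 := by
              apply mul_le_mul_of_nonneg_left _ (by linarith)
              nlinarith
          _ ≤ C' * Λ ^ 2 := by
              apply mul_le_mul_of_nonneg_right _ (by positivity)
              linarith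
    have hlow := low (b ^ J) χ s.im M hM1 hupM hderM s.re (by linarith) hs2
    have hd := (hderM s.re (by linarith) hs2).2
    rw [hs_eq] at hlow hd
    obtain ⟨h1, h2⟩ := fin_aux hM1 hd hlow
    refine ⟨h1, h2.trans ?_⟩
    have : 1024 * M ^ 5 ≤ 2048 * M ^ 5 := by
      have : 0 ≤ M ^ 5 := by positivity
      linarith
    linarith

theorem reg_zeta : ∃ C : ℝ, 1 ≤ C ∧ ∀ Y : ℝ, 9 ≤ Y →
    ∀ s : ℂ, 1 - 1 / (C * Real.log Y ^ 10) ≤ s.re → s.re ≤ 2 → |s.im| ≤ Y - 1 →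
      LFunctionTrivChar₁ 1 s ≠ 0 ∧
        ‖deriv (LFunctionTrivChar₁ 1) s / LFunctionTrivChar₁ 1 s‖ ≤ C * Real.log Y ^ 10 := by
  obtain ⟨Cd, hCd, hder⟩ := zeta_der
  obtain ⟨Cz, hCz, hzup⟩ := zeta_up'
  have hZs : ∀ s : ℂ, s ≠ 1 → LFunctionTrivChar₁ 1 s = (s - 1) * riemannZeta s := by
    intro s hs
    rw [LFunctionTrivChar₁, Function.update_of_ne hs, LFunctionTrivChar, LFunction_modOne_eq]
  obtain ⟨Cq, hCq, hcomp⟩ := comp_ld (Z := LFunctionTrivChar₁ 1)
    (differentiable_LFunctionTrivChar₁ 1) (by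
      intro s hs1 _ _
      by_cases hs : s = 1
      · rw [hs]; exact LFunctionTrivChar₁_apply_one_ne_zero 1
      · rw [hZs s hs]
        exact mul_ne_zero (sub_ne_zero.mpr hs) (riemannZeta_ne_zero_of_one_le_re hs1))
  set C' : ℝ := Cd + Cz with hC'
  have hC'1 : 1 ≤ C' := by linarith
  have hC'5 : 1 ≤ C' ^ 5 := one_le_pow₀ hC'1
  refine ⟨2048 * C' ^ 5 + Cq, by linarith, ?_⟩
  intro Y hY s hs1 hs2 hs3
  set Λ : ℝ := Real.log Y with hΛ
  have hΛ2 : 2 ≤ Λ := log_two_le hY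
  have hΛ10 : 1 ≤ Λ ^ 10 := one_le_pow₀ (by linarith)
  have hΛp : 0 < Λ := by linarith
  set M : ℝ := C' * Λ ^ 2 with hM
  have hΛΛ : Λ ≤ Λ ^ 2 := by nlinarith
  have hMΛ : Λ ≤ M := by
    calc Λ ≤ Λ ^ 2 := hΛΛ
      _ = 1 * Λ ^ 2 := (one_mul _).symm
      _ ≤ C' * Λ ^ 2 := by apply mul_le_mul_of_nonneg_right hC'1 (by positivity)
  have hM1 : 1 ≤ M := by linarith
  have hM5 : M ^ 5 = C' ^ 5 * Λ ^ 10 := by rw [hM]; ring
  have hM5Λ : Λ ≤ M ^ 5 := by
    calc Λ ≤ M := hMΛ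
      _ = M ^ 1 := (pow_one _).symm
      _ ≤ M ^ 5 := pow_le_pow_right₀ hM1 (by norm_num)
  have hCpos : 0 < (2048 * C' ^ 5 + Cq) * Λ ^ 10 := by positivity
  by_cases hsmall : |s.im| ≤ 1
  · have hle : Cq ≤ (2048 * C' ^ 5 + Cq) * Λ ^ 10 := by nlinarith
    have hle' : 1 / ((2048 * C' ^ 5 + Cq) * Λ ^ 10) ≤ 1 / Cq :=
      one_div_le_one_div_of_le (by linarith) hle
    obtain ⟨h1, h2⟩ := hcomp s (by linarith) hs2 (by linarith)
    exact ⟨h1, h2.trans hle⟩
  · have him1 : 1 ≤ |s.im| := (not_le.mp hsmall).le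
    have hle : 2048 * M ^ 5 ≤ (2048 * C' ^ 5 + Cq) * Λ ^ 10 := by
      rw [hM5]; nlinarith
    have hle' : 1 / ((2048 * C' ^ 5 + Cq) * Λ ^ 10) ≤ 1 / (2048 * M ^ 5) :=
      one_div_le_one_div_of_le (by positivity) hle
    have hs_eq : ((s.re : ℂ) + I * (s.im : ℂ)) = s := by
      rw [mul_comm]; exact Complex.re_add_im s
    have hLz : LFunction (1 : DirichletCharacter ℂ 1) = riemannZeta := LFunction_modOne_eq
    have hne1 : ∀ z : ℂ, z.im = s.im → 1 ≤ ‖z - 1‖ := by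
      intro z hz
      have h1 := Complex.abs_im_le_norm (z - 1)
      rw [sub_im, one_im, sub_zero, hz] at h1
      linarith
    have hsne : s ≠ 1 := by
      intro hc
      have := hne1 s rfl
      rw [hc, sub_self, norm_zero] at this
      linarith
    have hderM : ∀ σ : ℝ, 1 - 1 / (2048 * M ^ 5) ≤ σ → σ ≤ 2 →
        DifferentiableAt ℂ (LFunction (1 : DirichletCharacter ℂ 1)) (σ + I * s.im) ∧
          ‖deriv (LFunction (1 : DirichletCharacter ℂ 1)) (σ + I * s.im)‖ ≤ M := by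
      intro σ hσ1 hσ2
      have hre : ((σ : ℂ) + I * (s.im : ℂ)).re = σ := by simp
      have him : ((σ : ℂ) + I * (s.im : ℂ)).im = s.im := by simp
      have hn := hne1 _ him
      have hσne : ((σ : ℂ) + I * (s.im : ℂ)) ≠ 1 := by
        intro hc
        rw [hc, sub_self, norm_zero] at hn
        linarith
      refine ⟨differentiableAt_LFunction _ _ (Or.inl hσne), ?_⟩
      rw [hLz]
      have h2 : 1 / (2048 * M ^ 5) ≤ 1 / (2 * Λ) :=
        one_div_le_one_div_of_le (by positivity) (by nlinarith)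
      have h := hder Y hY (σ + I * s.im)
        (by rw [hre]; linarith) (by rw [hre]; exact hσ2) (by rw [him]; exact hs3) (by linarith)
      calc _ ≤ Cd * Λ ^ 2 := h
        _ ≤ C' * Λ ^ 2 := by
            apply mul_le_mul_of_nonneg_right _ (by positivity)
            linarith
    have hupM : ∀ x : ℝ, 0 < x → x ≤ 1 →
        ‖LFunction ((1 : DirichletCharacter ℂ 1) ^ 2) (1 + x + 2 * I * s.im)‖ ≤ M := by
      intro x hx0 hx1
      have hre : ((1 : ℂ) + x + 2 * I * (s.im : ℂ)).re = 1 + x := by simp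
      have him : ((1 : ℂ) + x + 2 * I * (s.im : ℂ)).im = 2 * s.im := by simp
      have hab : |2 * s.im| ≤ 2 * Y := by
        rw [abs_mul, abs_two]; linarith
      rw [one_pow, hLz]
      have hne : 2 ≤ ‖((1 : ℂ) + x + 2 * I * (s.im : ℂ)) - 1‖ := by
        have h1 := Complex.abs_im_le_norm (((1 : ℂ) + x + 2 * I * (s.im : ℂ)) - 1)
        rw [sub_im, him, one_im, sub_zero, abs_mul, abs_two] at h1
        linarith
      have h2Y : Real.log (2 * Y) ≤ 2 * Λ := log_mul_two_le (by linarith)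
      have hlog : 0 < Real.log (2 * Y) := by
        have := log_two_le (X := 2 * Y) (by linarith)
        linarith
      have h2 := hzup (2 * Y) (by linarith) (1 + x + 2 * I * s.im)
        (by
          rw [hre]
          have : 0 < 1 / Real.log (2 * Y) := by positivity
          linarith)
        (by rw [hre]; linarith) (by rw [him]; exact hab) (by linarith)
      calc _ ≤ Cz * Real.log (2 * Y) := h2
        _ ≤ Cz * (2 * Λ) := by
            apply mul_le_mul_of_nonneg_left h2Y (by linarith)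
        _ ≤ Cz * Λ ^ 2 := by
            apply mul_le_mul_of_nonneg_left _ (by linarith)
            nlinarith
        _ ≤ C' * Λ ^ 2 := by
            apply mul_le_mul_of_nonneg_right _ (by positivity)
            linarith
    have hlow := low 1 (1 : DirichletCharacter ℂ 1) s.im M hM1 hupM hderM s.re (by linarith) hs2
    have hd := (hderM s.re (by linarith) hs2).2
    rw [hs_eq] at hlow hd
    obtain ⟨h1, h2⟩ := fin_aux hM1 hd hlow
    have hs10 : s - 1 ≠ 0 := sub_ne_zero.mpr hsne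
    have hZ : LFunctionTrivChar₁ 1 s = (s - 1) * LFunction (1 : DirichletCharacter ℂ 1) s := by
      rw [LFunctionTrivChar₁, Function.update_of_ne hsne]
    have hZ' := deriv_LFunctionTrivChar₁_apply_of_ne_one 1 hsne
    refine ⟨by rw [hZ]; exact mul_ne_zero hs10 h1, ?_⟩
    have hq : deriv (LFunctionTrivChar₁ 1) s / LFunctionTrivChar₁ 1 s =
        deriv (LFunction (1 : DirichletCharacter ℂ 1)) s /
          LFunction (1 : DirichletCharacter ℂ 1) s + 1 / (s - 1) := by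
      rw [hZ', hZ]
      change ((s - 1) * deriv (LFunction (1 : DirichletCharacter ℂ 1)) s +
        LFunction (1 : DirichletCharacter ℂ 1) s) / _ = _
      field_simp
    rw [hq]
    have h5 : ‖1 / (s - 1)‖ ≤ 1 := by
      rw [norm_div, norm_one, div_le_one (by linarith [hne1 s rfl])]
      exact hne1 s rfl
    have h6 : 1 ≤ M ^ 5 := one_le_pow₀ hM1
    calc _ ≤ ‖deriv (LFunction (1 : DirichletCharacter ℂ 1)) s /
          LFunction (1 : DirichletCharacter ℂ 1) s‖ + ‖1 / (s - 1)‖ := norm_add_le _ _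
      _ ≤ 1024 * M ^ 5 + 1 := by linarith
      _ ≤ 2048 * M ^ 5 := by linarith
      _ ≤ _ := hle

end Pool.Agent.HPX
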