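import Pool.Agent.HPX.WDefs
import Pool.Agent.HPP.LRep

/-!
# HPX/WRep: the prime polynomial as an integral over `Re w = 2`

As `HPP/LRep.TT_rep` (copy it) with `χ n` replaced by `χ n Λ n` and `v = log x`: for `Re s > 1`
`- L' / L (s, χ) = ∑ χ n Λ n n ^ (-s)` (`LSeries_twist_vonMangoldt_eq`, `LSeriesSummable_twist_vonMangoldt`,
`deriv_LFunction_eq_deriv_LSeries`, `LFunction_eq_LSeries`); exchange the sum and the integral
(`hasSum_integral_of_summable_integral_norm`), `KM_inv` with `c = 2`, `u = log n - log x`.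
`log (n / x) = log n - log x` for `n ≠ 0`.
-/

namespace Pool.Agent.HPX

open Complex MeasureTheory DirichletCharacter Pool.Agent.HPP

private theorem wr_npow (n : ℕ) (hn : n ≠ 0) (t : ℝ) : ‖(n : ℂ) ^ (t * I)‖ = 1 := by
  rw [Complex.norm_natCast_cpow_of_pos (Nat.pos_of_ne_zero hn)]
  simp

private theorem wr_summable : Summable fun n : ℕ =>
    ArithmeticFunction.vonMangoldt n * ((n : ℝ) ^ 2)⁻¹ := by
  have h1 := ArithmeticFunction.LSeriesSummable_vonMangoldt (s := 2) (by norm_num)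
  rw [LSeriesSummable, ← summable_norm_iff] at h1
  refine h1.congr fun n => ?_
  rcases Nat.eq_zero_or_pos n with h0 | h0
  · subst h0
    simp
  · rw [LSeries.term_of_ne_zero h0.ne', norm_div, Complex.norm_real,
      Real.norm_of_nonneg ArithmeticFunction.vonMangoldt_nonneg,
      Complex.norm_natCast_cpow_of_pos h0, div_eq_mul_inv]
    congr 2
    exact_mod_cast Real.rpow_natCast (n : ℝ) 2

theorem PP_rep {Q : ℕ} [NeZero Q] (χ : DirichletCharacter ℂ Q) (t : ℝ) {x : ℝ} (hx : 0 < x) :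
    2 * Real.pi * PP χ t x =
      LI 2 (fun s => -deriv (LFunction χ) s / LFunction χ s) t (Real.log x) := by
  classical
  obtain ⟨v, hv⟩ : ∃ v : ℝ, v = Real.log x := ⟨_, rfl⟩
  rw [← hv]
  -- the coefficients
  obtain ⟨c, hc⟩ : ∃ c : ℕ → ℂ, c = (fun n : ℕ => χ (n : ZMod Q)) *
      (fun n : ℕ => (ArithmeticFunction.vonMangoldt n : ℂ)) := ⟨_, rfl⟩
  have hcn : ∀ n, c n = χ (n : ZMod Q) * (ArithmeticFunction.vonMangoldt n : ℂ) := by
    intro n; rw [hc]; rfl
  -- the summands
  obtain ⟨F, hF⟩ : ∃ F : ℕ → ℝ → ℂ, F = fun (n : ℕ) (y : ℝ) => KM 1 0 ((2 : ℝ) + y * I) *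
      cexp (((2 : ℝ) + y * I) * v) * LSeries.term c ((2 : ℝ) + y * I - t * I) n :=
    ⟨_, rfl⟩
  have hF0 : ∀ y, F 0 y = 0 := by
    intro y
    rw [hF]
    simp
  have hFn : ∀ n : ℕ, n ≠ 0 → ∀ y, F n y = (c n * (n : ℂ) ^ (t * I)) *
      (KM 1 0 ((2 : ℝ) + y * I) * cexp (-((2 : ℝ) + y * I) * ((Real.log n - v : ℝ) : ℂ))) := by
    intro n hn y
    have hn' : (n : ℂ) ≠ 0 := by exact_mod_cast hn
    rw [hF]
    simp only
    rw [LSeries.term_of_ne_zero hn, div_eq_mul_inv, ← Complex.cpow_neg]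
    have h1 : (n : ℂ) ^ (-(((2 : ℝ) : ℂ) + y * I - t * I)) =
        (n : ℂ) ^ (t * I) * cexp (-((2 : ℝ) + y * I) * (Real.log n : ℂ)) := by
      rw [show -(((2 : ℝ) : ℂ) + y * I - t * I) = t * I + -((2 : ℝ) + y * I) by ring,
        Complex.cpow_add _ _ hn', Complex.cpow_def_of_ne_zero hn' (-((2 : ℝ) + y * I)),
        ← Complex.natCast_log]
      ring_nf
    rw [h1]
    have h2 : cexp (-((2 : ℝ) + y * I) * ((Real.log n - v : ℝ) : ℂ)) =
        cexp (((2 : ℝ) + y * I) * v) * cexp (-((2 : ℝ) + y * I) * (Real.log n : ℂ)) := by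
      rw [← Complex.exp_add]
      congr 1
      push_cast
      ring
    rw [h2]
    ring
  have hnorm : ∀ n : ℕ, ∀ y, ‖F n y‖ ≤ ‖KM 1 0 ((2 : ℝ) + y * I)‖ *
      (Real.exp (2 * v) * (ArithmeticFunction.vonMangoldt n * ((n : ℝ) ^ 2)⁻¹)) := by
    intro n y
    have hΛ : 0 ≤ ArithmeticFunction.vonMangoldt n := ArithmeticFunction.vonMangoldt_nonneg
    rcases Nat.eq_zero_or_pos n with h0 | h0
    · subst h0
      rw [hF0, norm_zero]
      positivity
    · have hn0 : (0 : ℝ) < n := by exact_mod_cast h0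
      rw [hFn n h0.ne' y, norm_mul, norm_mul, norm_mul, wr_npow n h0.ne', mul_one,
        Complex.norm_exp]
      have h1 : (-(((2 : ℝ) : ℂ) + y * I) * ((Real.log n - v : ℝ) : ℂ)).re =
          2 * v + -(2 * Real.log n) := by
        rw [Complex.re_mul_ofReal]
        simp
        ring
      have h2 : Real.exp (-(2 * Real.log n)) = ((n : ℝ) ^ 2)⁻¹ := by
        rw [Real.exp_neg]
        congr 1
        rw [show 2 * Real.log n = Real.log ((n : ℝ) ^ 2) by rw [Real.log_pow]; norm_num]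
        exact Real.exp_log (by positivity)
      rw [h1, Real.exp_add, h2]
      have h3 : ‖c n‖ ≤ ArithmeticFunction.vonMangoldt n := by
        rw [hcn, norm_mul, Complex.norm_real, Real.norm_of_nonneg hΛ]
        have := χ.norm_le_one (n : ZMod Q)
        calc ‖χ (n : ZMod Q)‖ * ArithmeticFunction.vonMangoldt n ≤
            1 * ArithmeticFunction.vonMangoldt n := mul_le_mul_of_nonneg_right this hΛ
          _ = _ := one_mul _
      have h4 : 0 ≤ ‖KM 1 0 ((2 : ℝ) + y * I)‖ * (Real.exp (2 * v) * ((n : ℝ) ^ 2)⁻¹) := by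
        positivity
      calc _ ≤ ArithmeticFunction.vonMangoldt n *
            (‖KM 1 0 ((2 : ℝ) + y * I)‖ * (Real.exp (2 * v) * ((n : ℝ) ^ 2)⁻¹)) :=
            mul_le_mul_of_nonneg_right h3 h4
        _ = _ := by ring
  have hKi : Integrable fun y : ℝ => ‖KM 1 0 ((2 : ℝ) + y * I)‖ := by
    have h1 := KM_integrable one_pos (a := 0) (by norm_num) 2 0 0
    refine h1.congr (Filter.Eventually.of_forall fun y => ?_)
    simp
  have hcont : ∀ n : ℕ, Continuous (F n) := by
    intro n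
    rcases Nat.eq_zero_or_pos n with h0 | h0
    · subst h0
      have : F 0 = fun _ => 0 := funext hF0
      rw [this]
      exact continuous_const
    · have h1 : F n = fun y : ℝ => (c n * (n : ℂ) ^ (t * I)) *
          (KM 1 0 ((2 : ℝ) + y * I) * cexp (-((2 : ℝ) + y * I) * ((Real.log n - v : ℝ) : ℂ))) :=
        funext (hFn n h0.ne')
      rw [h1]
      have := (KM_diff 1 0).continuous
      fun_prop
  have hint : ∀ n : ℕ, Integrable (F n) := by
    intro n
    refine (hKi.mul_const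
      (Real.exp (2 * v) * (ArithmeticFunction.vonMangoldt n * ((n : ℝ) ^ 2)⁻¹))).mono' ?_ ?_
    · exact (hcont n).aestronglyMeasurable
    · exact Filter.Eventually.of_forall fun y => hnorm n y
  have hsum : Summable fun n : ℕ => ∫ y, ‖F n y‖ := by
    have h1 : Summable fun n : ℕ => (∫ y : ℝ, ‖KM 1 0 ((2 : ℝ) + y * I)‖) *
        (Real.exp (2 * v) * (ArithmeticFunction.vonMangoldt n * ((n : ℝ) ^ 2)⁻¹)) :=
      (wr_summable.mul_left _).mul_left _
    refine Summable.of_nonneg_of_le (fun n => integral_nonneg fun y => norm_nonneg _)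
      (fun n => ?_) h1
    rw [← integral_mul_const]
    exact integral_mono (hint n).norm (hKi.mul_const _) fun y => hnorm n y
  have hS := hasSum_integral_of_summable_integral_norm hint hsum
  -- the sum
  have hval : ∀ n : ℕ, ∫ y, F n y = 2 * Real.pi *
      ((ArithmeticFunction.vonMangoldt n : ℂ) * χ (n : ZMod Q) * (n : ℂ) ^ (t * I) *
        (Real.exp (-(Real.log (n / x)) ^ 2) : ℂ)) := by
    intro n
    rcases Nat.eq_zero_or_pos n with h0 | h0
    · subst h0
      have : F 0 = fun _ => 0 := funext hF0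
      rw [this]
      simp
    · have h1 : F n = fun y : ℝ => (c n * (n : ℂ) ^ (t * I)) *
          (KM 1 0 ((2 : ℝ) + y * I) * cexp (-((2 : ℝ) + y * I) * ((Real.log n - v : ℝ) : ℂ))) :=
        funext (hFn n h0.ne')
      have h2 := KM_inv one_pos (a := 0) (by norm_num) 2 (Real.log n - v)
      have hn0 : (n : ℝ) ≠ 0 := by exact_mod_cast h0.ne'
      have h3 : Real.log (n / x) = Real.log n - v := by
        rw [hv, Real.log_div hn0 hx.ne']
      rw [h1, integral_const_mul, h2, h3, hcn]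
      rw [pow_zero, one_mul, div_one]
      ring
  have hL : ∀ y : ℝ, ∑' n, F n y = KM 1 0 ((2 : ℝ) + y * I) * cexp (((2 : ℝ) + y * I) * v) *
      (-deriv (LFunction χ) ((2 : ℝ) + y * I - t * I) / LFunction χ ((2 : ℝ) + y * I - t * I)) := by
    intro y
    have hs : 1 < ((2 : ℝ) + y * I - t * I : ℂ).re := by simp
    rw [LFunction_eq_LSeries χ hs, deriv_LFunction_eq_deriv_LSeries χ hs,
      ← LSeries_twist_vonMangoldt_eq χ hs]
    rw [hF]
    simp only
    rw [tsum_mul_left, hc]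
    rfl
  have h4 : LI 2 (fun s => -deriv (LFunction χ) s / LFunction χ s) t v = ∫ y, ∑' n, F n y := by
    unfold LI
    refine integral_congr_ae (Filter.Eventually.of_forall fun y => ?_)
    simp only
    rw [hL y]
  rw [h4, ← hS.tsum_eq]
  unfold PP
  rw [← tsum_mul_left]
  exact tsum_congr fun n => (hval n).symm

end Pool.Agent.HPX
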