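import Pool.Agent.HPX.WDefs

/-!
# HPX/WShift: moving the line, abstract version

`F w = KM 1 0 w * cexp (w v) * h (w - t I)`. `KM_bound`: `‖KM 1 0 w‖ ≤ C (1 + |Im w|) exp (- (Im w)² / 4)` for `|Re w| ≤ 2`.
* `|y| > H` on `Re w = 2`: `≤ D e ^ (2 v) ∫_{|y| > H} C (1 + |y|) e ^ (-y² / 4) dy ≤ D e ^ (2 v) e ^ (-H² / 8) ∫ C (1 + |y|) e ^ (-y² / 8) dy`.
* `|y| ≤ H`: `Complex.integral_boundary_rect_eq_zero_of_differentiableOn` on the rectangle with corners `1 - lam - H I`, `2 + H I`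
  (there `|Im (w - t I)| ≤ H + |t|`): the integral over the right side is the one over the left side (norm
  `≤ D e ^ ((1 - lam) v) ∫ ‖KM (1 - lam + y I)‖ dy ≤ C' D e ^ ((1 - lam) v)`) plus the two horizontal ones, each
  `≤ 2 D e ^ (2 v) C (1 + H) e ^ (-H² / 4)`, and `(1 + H) e ^ (-H² / 4) ≤ C'' e ^ (-H² / 8)`.
-/

namespace Pool.Agent.HPX

open Complex MeasureTheory Pool.Agent.HPP

private lemma wshift_G_int : Integrable fun y : ℝ => (1 + |y|) * Real.exp (-y ^ 2 / 8) := by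
  have h := KM_integrable (j := 1 / 2) (by norm_num) (a := 0) (by norm_num) 0 1 0
  have h2 := h.const_mul (Real.sqrt (Real.pi * (1 / 2)))⁻¹
  refine h2.congr (Filter.Eventually.of_forall fun y => ?_)
  have hs : 0 < Real.sqrt (Real.pi * (1 / 2)) := Real.sqrt_pos.2 (by positivity)
  have h3 := KM_norm (j := 1 / 2) (by norm_num) 0 (((0 : ℝ) : ℂ) + y * I)
  have hre : (((0 : ℝ) : ℂ) + y * I).re = 0 := by simp
  have him : (((0 : ℝ) : ℂ) + y * I).im = y := by simp
  rw [hre, him] at h3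
  show (Real.sqrt (Real.pi * (1 / 2)))⁻¹ * (‖KM (1 / 2) 0 (((0 : ℝ) : ℂ) + y * I)‖ *
    (1 + |y|) ^ 1 * Real.exp (0 * |y|)) = (1 + |y|) * Real.exp (-y ^ 2 / 8)
  rw [h3, pow_zero, one_mul, pow_one, zero_mul, Real.exp_zero, mul_one]
  have h4 : (1 / 2 : ℝ) * (0 ^ 2 - y ^ 2) / 4 = -y ^ 2 / 8 := by ring
  rw [h4]
  field_simp

private lemma wshift_exp (H : ℝ) :
    (1 + H) * Real.exp (-H ^ 2 / 4) ≤ Real.exp 2 * Real.exp (-H ^ 2 / 8) := by
  have h1 : 1 + H ≤ Real.exp H := by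
    have := Real.add_one_le_exp H
    linarith
  calc (1 + H) * Real.exp (-H ^ 2 / 4) ≤ Real.exp H * Real.exp (-H ^ 2 / 4) := by gcongr
    _ = Real.exp (H + -H ^ 2 / 4) := by rw [Real.exp_add]
    _ ≤ Real.exp (2 + -H ^ 2 / 8) := by
        apply Real.exp_le_exp.2
        nlinarith [sq_nonneg (H - 4)]
    _ = _ := by rw [Real.exp_add]

theorem LI_bound : ∃ K : ℝ, 1 ≤ K ∧ ∀ (h : ℂ → ℂ) (t v H lam D : ℝ), 0 < lam → lam ≤ 1 → 1 ≤ H →
    0 ≤ v → 0 ≤ D →
    (∀ s : ℂ, 1 - lam ≤ s.re → s.re ≤ 2 → |s.im| ≤ H + |t| → DifferentiableAt ℂ h s ∧ ‖h s‖ ≤ D) →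
    (∀ s : ℂ, s.re = 2 → ContinuousAt h s ∧ ‖h s‖ ≤ D) →
    ‖LI 2 h t v‖ ≤ K * D * (Real.exp ((1 - lam) * v) + Real.exp (2 * v - H ^ 2 / 8)) := by
  obtain ⟨C, hC1, hC⟩ := KM_bound (j := 1) one_pos
  set M : ℝ := ∫ y : ℝ, (1 + |y|) * Real.exp (-y ^ 2 / 8) with hM
  have hM0 : 0 ≤ M := integral_nonneg fun y => by positivity
  have hC0 : 0 ≤ C := by linarith
  refine ⟨C * (M + 4 * Real.exp 2 + 1), ?_, ?_⟩
  · have : 0 ≤ M + 4 * Real.exp 2 := by positivity
    nlinarith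
  intro h t v H lam D hlam hlam1 hH hv hD hrect hline
  set F : ℂ → ℂ := fun w => KM 1 0 w * cexp (w * v) * h (w - t * I) with hF
  have hFb : ∀ w : ℂ, |w.re| ≤ 2 → ‖h (w - t * I)‖ ≤ D →
      ‖F w‖ ≤ C * D * ((1 + |w.im|) * Real.exp (-w.im ^ 2 / 4)) * Real.exp (w.re * v) := by
    intro w hw hh
    have h1 := hC 0 (by norm_num) w hw
    have h2 : ‖cexp (w * v)‖ = Real.exp (w.re * v) := by
      rw [Complex.norm_exp]
      congr 1
      simp
    have h3 : -1 * w.im ^ 2 / 4 = -w.im ^ 2 / 4 := by ring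
    rw [h3] at h1
    calc ‖F w‖ = ‖KM 1 0 w‖ * Real.exp (w.re * v) * ‖h (w - t * I)‖ := by
          simp only [hF, norm_mul, h2]
      _ ≤ (C * (1 + |w.im|) * Real.exp (-w.im ^ 2 / 4)) * Real.exp (w.re * v) * D := by
          gcongr
      _ = _ := by ring
  have hGint := wshift_G_int
  -- the line
  have hLI : LI 2 h t v = ∫ y : ℝ, F ((2 : ℝ) + y * I) := rfl
  have hcont2 : Continuous fun y : ℝ => F ((2 : ℝ) + y * I) := by
    have h1 := (KM_diff 1 0).continuous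
    have h2 : Continuous fun y : ℝ => h (((2 : ℝ) : ℂ) + y * I - t * I) := by
      rw [continuous_iff_continuousAt]
      intro y
      have h3 : ContinuousAt h (((2 : ℝ) : ℂ) + y * I - t * I) := (hline _ (by simp)).1
      have h4 : ContinuousAt (fun y : ℝ => ((2 : ℝ) : ℂ) + y * I - t * I) y := by fun_prop
      exact ContinuousAt.comp (f := fun y : ℝ => ((2 : ℝ) : ℂ) + y * I - t * I) h3 h4
    have h5 : Continuous fun y : ℝ => KM 1 0 (((2 : ℝ) : ℂ) + y * I) := by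
      have h6 : Continuous fun y : ℝ => ((2 : ℝ) : ℂ) + y * I := by fun_prop
      exact h1.comp h6
    have h7 : Continuous fun y : ℝ => cexp ((((2 : ℝ) : ℂ) + y * I) * v) := by fun_prop
    exact (h5.mul h7).mul h2
  have hb2 : ∀ y : ℝ, ‖F ((2 : ℝ) + y * I)‖ ≤
      C * D * ((1 + |y|) * Real.exp (-y ^ 2 / 4)) * Real.exp (2 * v) := by
    intro y
    have hre : (((2 : ℝ) : ℂ) + y * I).re = 2 := by simp
    have him : (((2 : ℝ) : ℂ) + y * I).im = y := by simp
    have h1 := hFb (((2 : ℝ) : ℂ) + y * I) (by rw [hre]; norm_num) (hline _ (by simp)).2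
    rwa [hre, him] at h1
  have h48 : ∀ y : ℝ, Real.exp (-y ^ 2 / 4) ≤ Real.exp (-y ^ 2 / 8) := fun y =>
    Real.exp_le_exp.2 (by nlinarith [sq_nonneg y])
  have hFint : Integrable fun y : ℝ => F ((2 : ℝ) + y * I) := by
    refine ((hGint.const_mul (C * D)).mul_const (Real.exp (2 * v))).mono'
      hcont2.aestronglyMeasurable (Filter.Eventually.of_forall fun y => ?_)
    refine (hb2 y).trans ?_
    have := h48 y
    gcongr
  set S : Set ℝ := Set.Ioc (-H) H with hS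
  have hSm : MeasurableSet S := measurableSet_Ioc
  have hsplit : (∫ y : ℝ, F ((2 : ℝ) + y * I)) =
      (∫ y in S, F ((2 : ℝ) + y * I)) + ∫ y in Sᶜ, F ((2 : ℝ) + y * I) :=
    (integral_add_compl hSm hFint).symm
  have htail : ‖∫ y in Sᶜ, F ((2 : ℝ) + y * I)‖ ≤ C * D * M * Real.exp (2 * v - H ^ 2 / 8) := by
    have h1 : ‖∫ y in Sᶜ, F ((2 : ℝ) + y * I)‖ ≤
        ∫ y in Sᶜ, C * D * Real.exp (2 * v - H ^ 2 / 8) * ((1 + |y|) * Real.exp (-y ^ 2 / 8)) := by
      refine norm_integral_le_of_norm_le ((hGint.const_mul _).integrableOn) ?_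
      refine (ae_restrict_iff' hSm.compl).2 (Filter.Eventually.of_forall fun y hy => ?_)
      refine (hb2 y).trans ?_
      have hy1 : H ^ 2 ≤ y ^ 2 := by
        rw [hS, Set.mem_compl_iff, Set.mem_Ioc, not_and_or, not_lt, not_le] at hy
        rcases hy with hy | hy <;> nlinarith
      have h2 : Real.exp (-y ^ 2 / 4) * Real.exp (2 * v) ≤
          Real.exp (2 * v - H ^ 2 / 8) * Real.exp (-y ^ 2 / 8) := by
        rw [← Real.exp_add, ← Real.exp_add]
        apply Real.exp_le_exp.2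
        nlinarith
      calc C * D * ((1 + |y|) * Real.exp (-y ^ 2 / 4)) * Real.exp (2 * v)
          = C * D * (1 + |y|) * (Real.exp (-y ^ 2 / 4) * Real.exp (2 * v)) := by ring
        _ ≤ C * D * (1 + |y|) * (Real.exp (2 * v - H ^ 2 / 8) * Real.exp (-y ^ 2 / 8)) := by
            gcongr
        _ = _ := by ring
    refine h1.trans ?_
    rw [integral_const_mul]
    have h2 : ∫ y in Sᶜ, (1 + |y|) * Real.exp (-y ^ 2 / 8) ≤ M :=
      setIntegral_le_integral hGint (Filter.Eventually.of_forall fun y => by positivity)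
    calc C * D * Real.exp (2 * v - H ^ 2 / 8) * ∫ y in Sᶜ, (1 + |y|) * Real.exp (-y ^ 2 / 8)
        ≤ C * D * Real.exp (2 * v - H ^ 2 / 8) * M := by gcongr
      _ = _ := by ring
  -- the rectangle
  have hmid : (∫ y in S, F ((2 : ℝ) + y * I)) = ∫ y in (-H)..H, F ((2 : ℝ) + y * I) := by
    rw [intervalIntegral.integral_of_le (by linarith)]
  have hre1 : (((1 - lam : ℝ) : ℂ) + ((-H : ℝ) : ℂ) * I).re = 1 - lam := by simp
  have him1 : (((1 - lam : ℝ) : ℂ) + ((-H : ℝ) : ℂ) * I).im = -H := by simp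
  have hre2 : (((2 : ℝ) : ℂ) + ((H : ℝ) : ℂ) * I).re = 2 := by simp
  have him2 : (((2 : ℝ) : ℂ) + ((H : ℝ) : ℂ) * I).im = H := by simp
  have hin : ∀ w : ℂ, 1 - lam ≤ w.re → w.re ≤ 2 → |w.im| ≤ H →
      DifferentiableAt ℂ h (w - t * I) ∧ ‖h (w - t * I)‖ ≤ D := by
    intro w h1 h2 h3
    refine hrect (w - t * I) (by simpa using h1) (by simpa using h2) ?_
    have : (w - t * I).im = w.im - t := by simp
    rw [this]
    calc |w.im - t| ≤ |w.im| + |t| := abs_sub _ _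
      _ ≤ H + |t| := by linarith
  have hdiff : DifferentiableOn ℂ F
      (Set.uIcc (((1 - lam : ℝ) : ℂ) + ((-H : ℝ) : ℂ) * I).re (((2 : ℝ) : ℂ) + ((H : ℝ) : ℂ) * I).re ×ℂ
        Set.uIcc (((1 - lam : ℝ) : ℂ) + ((-H : ℝ) : ℂ) * I).im
          (((2 : ℝ) : ℂ) + ((H : ℝ) : ℂ) * I).im) := by
    intro w hw
    rw [hre1, him1, hre2, him2, Complex.mem_reProdIm, Set.uIcc_of_le (by linarith),
      Set.uIcc_of_le (by linarith)] at hw
    have h1 := (hin w hw.1.1 hw.1.2 (abs_le.2 ⟨hw.2.1, hw.2.2⟩)).1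
    have h2 : DifferentiableAt ℂ (fun w : ℂ => h (w - t * I)) w := by
      have h3 : DifferentiableAt ℂ (fun w : ℂ => w - t * I) w := by fun_prop
      exact DifferentiableAt.comp w (g := h) (f := fun w : ℂ => w - t * I) h1 h3
    have h4 : DifferentiableAt ℂ (KM 1 0) w := (KM_diff 1 0) w
    have h5 : DifferentiableAt ℂ (fun w : ℂ => cexp (w * v)) w := by fun_prop
    exact ((h4.mul h5).mul h2).differentiableWithinAt
  have hR := Complex.integral_boundary_rect_eq_zero_of_differentiableOn F _ _ hdiff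
  rw [hre1, him1, hre2, him2] at hR
  set bot : ℂ := ∫ x : ℝ in (1 - lam)..2, F (x + ((-H : ℝ) : ℂ) * I) with hbot
  set top : ℂ := ∫ x : ℝ in (1 - lam)..2, F (x + ((H : ℝ) : ℂ) * I) with htop
  set lef : ℂ := ∫ y : ℝ in (-H)..H, F (((1 - lam : ℝ) : ℂ) + y * I) with hlef
  set rig : ℂ := ∫ y : ℝ in (-H)..H, F (((2 : ℝ) : ℂ) + y * I) with hrig
  have hR' : bot - top + I * rig - I * lef = 0 := hR
  have hrig_eq : rig = lef + I * (bot - top) := by
    have : I * (bot - top + I * rig - I * lef) = 0 := by rw [hR', mul_zero]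
    have hI : I * I = -1 := Complex.I_mul_I
    have h2 : I * (bot - top) + (I * I) * rig - (I * I) * lef = 0 := by
      rw [← this]; ring
    rw [hI] at h2
    linear_combination -h2
  have hbotb : ∀ σ : ℝ, |σ| = H → ‖∫ x : ℝ in (1 - lam)..2, F (x + (σ : ℂ) * I)‖ ≤
      2 * (C * D * Real.exp 2 * Real.exp (2 * v - H ^ 2 / 8)) := by
    intro σ hσ
    have hσ2 : σ ^ 2 = H ^ 2 := by rw [← sq_abs σ, hσ]
    have h1 : ∀ x ∈ Set.uIoc (1 - lam) (2 : ℝ), ‖F (x + (σ : ℂ) * I)‖ ≤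
        C * D * Real.exp 2 * Real.exp (2 * v - H ^ 2 / 8) := by
      intro x hx
      rw [Set.uIoc_of_le (by linarith)] at hx
      have hre : ((x : ℂ) + (σ : ℂ) * I).re = x := by simp
      have him : ((x : ℂ) + (σ : ℂ) * I).im = σ := by simp
      have h2 := hFb ((x : ℂ) + (σ : ℂ) * I)
        (by rw [hre, abs_le]; constructor <;> linarith [hx.1, hx.2])
        (hin _ (by rw [hre]; exact hx.1.le) (by rw [hre]; exact hx.2) (by rw [him, hσ])).2
      rw [hre, him, hσ, hσ2] at h2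
      refine h2.trans ?_
      have h3 := wshift_exp H
      have h4 : Real.exp (x * v) ≤ Real.exp (2 * v) :=
        Real.exp_le_exp.2 (mul_le_mul_of_nonneg_right hx.2 hv)
      calc C * D * ((1 + H) * Real.exp (-H ^ 2 / 4)) * Real.exp (x * v)
          ≤ C * D * (Real.exp 2 * Real.exp (-H ^ 2 / 8)) * Real.exp (2 * v) := by gcongr
        _ = C * D * Real.exp 2 * (Real.exp (2 * v) * Real.exp (-H ^ 2 / 8)) := by ring
        _ = _ := by
            rw [← Real.exp_add]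
            congr 2
            ring
    have h2 := intervalIntegral.norm_integral_le_of_norm_le_const h1
    refine h2.trans ?_
    have h3 : |2 - (1 - lam)| ≤ 2 := by rw [abs_le]; constructor <;> linarith
    have h4 : 0 ≤ C * D * Real.exp 2 * Real.exp (2 * v - H ^ 2 / 8) := by positivity
    nlinarith
  have hlefb : ‖lef‖ ≤ C * D * M * Real.exp ((1 - lam) * v) := by
    have h1 : ‖lef‖ ≤ ∫ y : ℝ in (-H)..H, C * D * Real.exp ((1 - lam) * v) *
        ((1 + |y|) * Real.exp (-y ^ 2 / 8)) := by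
      refine intervalIntegral.norm_integral_le_of_norm_le (by linarith)
        (Filter.Eventually.of_forall fun y hy => ?_)
        ((hGint.const_mul _).intervalIntegrable)
      have hre : (((1 - lam : ℝ) : ℂ) + (y : ℂ) * I).re = 1 - lam := by simp
      have him : (((1 - lam : ℝ) : ℂ) + (y : ℂ) * I).im = y := by simp
      have h2 := hFb (((1 - lam : ℝ) : ℂ) + (y : ℂ) * I)
        (by rw [hre, abs_le]; constructor <;> linarith)
        (hin _ (by rw [hre]) (by rw [hre]; linarith)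
          (by rw [him, abs_le]; exact ⟨hy.1.le, hy.2⟩)).2
      rw [hre, him] at h2
      refine h2.trans ?_
      have := h48 y
      calc C * D * ((1 + |y|) * Real.exp (-y ^ 2 / 4)) * Real.exp ((1 - lam) * v)
          ≤ C * D * ((1 + |y|) * Real.exp (-y ^ 2 / 8)) * Real.exp ((1 - lam) * v) := by gcongr
        _ = _ := by ring
    refine h1.trans ?_
    rw [intervalIntegral.integral_const_mul, intervalIntegral.integral_of_le (by linarith)]
    have h2 : ∫ y in Set.Ioc (-H) H, (1 + |y|) * Real.exp (-y ^ 2 / 8) ≤ M :=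
      setIntegral_le_integral hGint (Filter.Eventually.of_forall fun y => by positivity)
    calc C * D * Real.exp ((1 - lam) * v) *
        ∫ y in Set.Ioc (-H) H, (1 + |y|) * Real.exp (-y ^ 2 / 8)
        ≤ C * D * Real.exp ((1 - lam) * v) * M := by gcongr
      _ = _ := by ring
  have hb := hbotb (-H) (by rw [abs_neg, abs_of_nonneg (by linarith)])
  have ht := hbotb H (abs_of_nonneg (by linarith))
  have hrigb : ‖rig‖ ≤ C * D * M * Real.exp ((1 - lam) * v) +
      4 * (C * D * Real.exp 2 * Real.exp (2 * v - H ^ 2 / 8)) := by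
    rw [hrig_eq]
    calc ‖lef + I * (bot - top)‖ ≤ ‖lef‖ + ‖I * (bot - top)‖ := norm_add_le _ _
      _ = ‖lef‖ + ‖bot - top‖ := by rw [norm_mul, Complex.norm_I, one_mul]
      _ ≤ ‖lef‖ + (‖bot‖ + ‖top‖) := by gcongr; exact norm_sub_le _ _
      _ ≤ _ := by
          have h1 : ‖bot‖ ≤ 2 * (C * D * Real.exp 2 * Real.exp (2 * v - H ^ 2 / 8)) := hb
          have h2 : ‖top‖ ≤ 2 * (C * D * Real.exp 2 * Real.exp (2 * v - H ^ 2 / 8)) := ht
          linarith
  rw [hLI, hsplit, hmid]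
  have hfin := norm_add_le rig (∫ y in Sᶜ, F ((2 : ℝ) + y * I))
  set E1 := Real.exp ((1 - lam) * v) with hE1
  set E2 := Real.exp (2 * v - H ^ 2 / 8) with hE2
  have hE1p : 0 < E1 := Real.exp_pos _
  have hE2p : 0 < E2 := Real.exp_pos _
  have hCD : 0 ≤ C * D := by positivity
  calc ‖rig + ∫ y in Sᶜ, F ((2 : ℝ) + y * I)‖
      ≤ ‖rig‖ + ‖∫ y in Sᶜ, F ((2 : ℝ) + y * I)‖ := hfin
    _ ≤ (C * D * M * E1 + 4 * (C * D * Real.exp 2 * E2)) + C * D * M * E2 := by linarith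
    _ ≤ C * (M + 4 * Real.exp 2 + 1) * D * (E1 + E2) := by
        have h1 : 0 ≤ C * D * E1 := by positivity
        have h2 : 0 ≤ C * D * E2 := by positivity
        have h3 : 0 ≤ C * D * Real.exp 2 * E1 := by positivity
        nlinarith

end Pool.Agent.HPX
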