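import Mathlib

/-!
# HPX/WTwo: the logarithmic derivative on `Re s = 2`

`- L' / L (s, χ) = ∑ χ n Λ n n ^ (-s)` (`LSeries_twist_vonMangoldt_eq`, `deriv_LFunction_eq_deriv_LSeries`, `LFunction_eq_LSeries`), norm
`≤ ∑ Λ n n ^ (-2) =: C` (`norm_tsum_le_tsum_norm`; summable: `LSeriesSummable_vonMangoldt` at `2`). For `ld_two'`:
`Z = LFunctionTrivChar₁ 1`, `Z' / Z = 1 / (s - 1) + ζ' / ζ` (`deriv_LFunctionTrivChar₁_apply_of_ne_one`, `LFunction_modOne_eq`).
-/

namespace Pool.Agent.HPX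

open Complex DirichletCharacter

private noncomputable def lamC (n : ℕ) : ℂ := ((ArithmeticFunction.vonMangoldt n : ℝ) : ℂ)

private lemma lamC_summable : Summable fun n : ℕ => ‖LSeries.term lamC 2 n‖ := by
  have h := (ArithmeticFunction.LSeriesSummable_vonMangoldt (s := (2 : ℂ)) (by simp)).norm
  exact h

private noncomputable def ldC : ℝ := 1 + ∑' n : ℕ, ‖LSeries.term lamC 2 n‖

private lemma ldC_one : 1 ≤ ldC := by
  have : 0 ≤ ∑' n : ℕ, ‖LSeries.term lamC 2 n‖ := tsum_nonneg fun _ => norm_nonneg _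
  unfold ldC; linarith

private lemma ld_two_aux (Q : ℕ) [NeZero Q] (χ : DirichletCharacter ℂ Q) (s : ℂ) (hs : s.re = 2) :
    LFunction χ s ≠ 0 ∧ ‖deriv (LFunction χ) s / LFunction χ s‖ ≤ ldC - 1 := by
  have h1 : 1 < s.re := by rw [hs]; norm_num
  have hL : LFunction χ s ≠ 0 := by
    rw [LFunction_eq_LSeries χ h1]
    exact LSeries_ne_zero_of_one_lt_re χ h1
  refine ⟨hL, ?_⟩
  have h2 := LSeries_twist_vonMangoldt_eq χ h1
  rw [deriv_LFunction_eq_deriv_LSeries χ h1, LFunction_eq_LSeries χ h1]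
  have h3 : ‖deriv (LSeries fun n => χ n) s / LSeries (fun n => χ n) s‖ =
      ‖-deriv (LSeries fun n => χ n) s / LSeries (fun n => χ n) s‖ := by
    rw [neg_div, norm_neg]
  rw [h3, ← h2]
  have hle : ∀ n : ℕ, ‖LSeries.term ((fun n : ℕ => χ n) *
      fun n : ℕ => ((ArithmeticFunction.vonMangoldt n : ℝ) : ℂ)) s n‖ ≤ ‖LSeries.term lamC 2 n‖ := by
    intro n
    rw [LSeries.norm_term_eq, LSeries.norm_term_eq]
    rcases eq_or_ne n 0 with hn | hn
    · simp [hn]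
    · rw [if_neg hn, if_neg hn, hs]
      have h4 : ((2 : ℂ)).re = 2 := by simp
      rw [h4]
      gcongr
      simp only [Pi.mul_apply, norm_mul, lamC]
      exact mul_le_of_le_one_left (norm_nonneg _) (χ.norm_le_one _)
  have hsum : Summable fun n : ℕ => ‖LSeries.term ((fun n : ℕ => χ n) *
      fun n : ℕ => ((ArithmeticFunction.vonMangoldt n : ℝ) : ℂ)) s n‖ :=
    Summable.of_nonneg_of_le (fun _ => norm_nonneg _) hle lamC_summable
  have h5 : ‖LSeries ((fun n : ℕ => χ n) *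
      fun n : ℕ => ((ArithmeticFunction.vonMangoldt n : ℝ) : ℂ)) s‖ ≤
      ∑' n : ℕ, ‖LSeries.term lamC 2 n‖ :=
    (norm_tsum_le_tsum_norm hsum).trans (hsum.tsum_le_tsum hle lamC_summable)
  have h6 : ldC - 1 = ∑' n : ℕ, ‖LSeries.term lamC 2 n‖ := by unfold ldC; ring
  rw [h6]
  exact h5

theorem ld_two : ∃ C : ℝ, 1 ≤ C ∧ ∀ (Q : ℕ) [NeZero Q] (χ : DirichletCharacter ℂ Q) (s : ℂ),
    s.re = 2 → LFunction χ s ≠ 0 ∧ ‖deriv (LFunction χ) s / LFunction χ s‖ ≤ C := by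
  refine ⟨ldC, ldC_one, fun Q _ χ s hs => ⟨(ld_two_aux Q χ s hs).1, ?_⟩⟩
  linarith [(ld_two_aux Q χ s hs).2]

theorem ld_two' : ∃ C : ℝ, 1 ≤ C ∧ ∀ s : ℂ, s.re = 2 → LFunctionTrivChar₁ 1 s ≠ 0 ∧
    ‖deriv (LFunctionTrivChar₁ 1) s / LFunctionTrivChar₁ 1 s‖ ≤ C ∧
    -deriv (LFunction (1 : DirichletCharacter ℂ 1)) s / LFunction (1 : DirichletCharacter ℂ 1) s =
      1 / (s - 1) + -deriv (LFunctionTrivChar₁ 1) s / LFunctionTrivChar₁ 1 s := by
  refine ⟨ldC + 1, by linarith [ldC_one], fun s hs => ?_⟩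
  obtain ⟨hL, hB⟩ := ld_two_aux 1 1 s hs
  have hs1 : s ≠ 1 := by
    intro h; rw [h] at hs; norm_num at hs
  have hs1' : s - 1 ≠ 0 := sub_ne_zero.mpr hs1
  have hZ : LFunctionTrivChar₁ 1 s = (s - 1) * LFunction (1 : DirichletCharacter ℂ 1) s := by
    rw [LFunctionTrivChar₁, Function.update_of_ne hs1]
  have hD : deriv (LFunctionTrivChar₁ 1) s =
      (s - 1) * deriv (LFunction (1 : DirichletCharacter ℂ 1)) s +
        LFunction (1 : DirichletCharacter ℂ 1) s := deriv_LFunctionTrivChar₁_apply_of_ne_one 1 hs1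
  have hq : deriv (LFunctionTrivChar₁ 1) s / LFunctionTrivChar₁ 1 s =
      1 / (s - 1) + deriv (LFunction (1 : DirichletCharacter ℂ 1)) s /
        LFunction (1 : DirichletCharacter ℂ 1) s := by
    rw [hD, hZ]; field_simp; ring
  refine ⟨?_, ?_, ?_⟩
  · rw [hZ]; exact mul_ne_zero hs1' hL
  · rw [hq]
    refine (norm_add_le _ _).trans ?_
    have h1 : ‖(1 : ℂ) / (s - 1)‖ ≤ 1 := by
      rw [norm_div, norm_one]
      have : 1 ≤ ‖s - 1‖ := by
        have h2 := Complex.re_le_norm (s - 1)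
        have h3 : (s - 1).re = 1 := by rw [Complex.sub_re, hs]; norm_num
        linarith
      exact div_le_one_of_le₀ this (by positivity)
    linarith
  · rw [neg_div, neg_div, hq]; ring

end Pool.Agent.HPX
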