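import Pool.Agent.HPX.Iface
import Pool.Agent.HPX.WReg
import Pool.Agent.HPX.WRep
import Pool.Agent.HPX.WShift
import Pool.Agent.HPX.WPole
import Pool.Agent.HPX.WOne
import Pool.Agent.HPX.WTwo
import Pool.Agent.HPX.WNum

/-!
# HPX/WFin: `SWProp` and `PNTProp`

`l = log x`, `v = H = l`, `Y = l ^ A + l + 9`.
* `sw_prop`: `q = b ^ J`, `h = - L' / L`, `C` = sum of the constants of `reg_char` and `ld_two`, `D = C log (q Y) ^ 10`, `lam = 1 / D`
  (`≤ 1`). `LI_bound`: `h` is differentiable at the points with `L ≠ 0` (`differentiable_LFunction`, `deriv` of it is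
  differentiable: `Differentiable.deriv`?, `Differentiable.contDiff` / `AnalyticOnNhd.deriv`); `|Im s| ≤ H + |t| ≤ Y - 1`. `PP_rep`, divide
  by `2 π`, `num`.
* `pnt_prop`: `PP_one`, `PP_rep` with `Q = 1`; on `Re s = 2`: `- L' / L = 1 / (s - 1) - Z' / Z` (`ld_two'`), so `LI 2` of it is
  `LI 2 (1 / (s - 1)) + LI 2 (- Z' / Z)` (`integral_add`; integrability: `KM_integrable` and bounded continuous functions on the
  line). `pole_term`: `cexp ((1 + t I) log x) = x * x ^ (t I)`. `LI_bound` with `h = - Z' / Z`, `reg_zeta`, `ld_two'`, `q = 1` in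
  `num`, `K` = sum of all constants.
-/

namespace Pool.Agent.HPX

open Complex MeasureTheory DirichletCharacter Pool.Agent.HPP

private lemma wf_diff {L : ℂ → ℂ} (hL : Differentiable ℂ L) {s : ℂ} (h0 : L s ≠ 0) :
    DifferentiableAt ℂ (fun s => -deriv L s / L s) s := by
  have h1 : DifferentiableAt ℂ (deriv L) s := (hL.analyticAt s).deriv.differentiableAt
  exact h1.neg.div (hL s) h0

private lemma wf_norm (a b : ℂ) : ‖-a / b‖ = ‖a / b‖ := by
  rw [neg_div, norm_neg]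

private lemma wf_log {X : ℝ} (hX : 9 ≤ X) : 1 ≤ Real.log X := by
  rw [Real.le_log_iff_exp_le (by linarith)]
  have := Real.exp_one_lt_d9
  linarith

private lemma wf_core {C₁ C₂ C K q A l t : ℝ} {L : ℂ → ℂ} (hL : Differentiable ℂ L) (hC₁ : 1 ≤ C₁)
    (hC₂ : 1 ≤ C₂) (hC : C = C₁ + C₂) (hl9 : 9 ≤ l) (hq1 : 1 ≤ q)
    (hLI : ∀ (h : ℂ → ℂ) (t v H lam D : ℝ), 0 < lam → lam ≤ 1 → 1 ≤ H →
      0 ≤ v → 0 ≤ D →
      (∀ s : ℂ, 1 - lam ≤ s.re → s.re ≤ 2 → |s.im| ≤ H + |t| → DifferentiableAt ℂ h s ∧ ‖h s‖ ≤ D) →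
      (∀ s : ℂ, s.re = 2 → ContinuousAt h s ∧ ‖h s‖ ≤ D) →
      ‖LI 2 h t v‖ ≤ K * D * (Real.exp ((1 - lam) * v) + Real.exp (2 * v - H ^ 2 / 8)))
    (ht : |t| ≤ l ^ A)
    (hreg : ∀ s : ℂ, 1 - 1 / (C₁ * Real.log (q * (l ^ A + l + 9)) ^ 10) ≤ s.re → s.re ≤ 2 →
      |s.im| ≤ (l ^ A + l + 9) - 1 → L s ≠ 0 ∧
        ‖deriv L s / L s‖ ≤ C₁ * Real.log (q * (l ^ A + l + 9)) ^ 10)
    (hld : ∀ s : ℂ, s.re = 2 → L s ≠ 0 ∧ ‖deriv L s / L s‖ ≤ C₂) :
    ‖LI 2 (fun s => -deriv L s / L s) t l‖ ≤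
      K * (C * Real.log (q * (l ^ A + l + 9)) ^ 10) *
      (Real.exp ((1 - 1 / (C * Real.log (q * (l ^ A + l + 9)) ^ 10)) * l) +
        Real.exp (2 * l - l ^ 2 / 8)) := by
  have hlA : 0 ≤ l ^ A := Real.rpow_nonneg (by linarith) _
  have hY9 : 9 ≤ l ^ A + l + 9 := by linarith
  have hqY : 9 ≤ q * (l ^ A + l + 9) := by nlinarith
  have hlog : 1 ≤ Real.log (q * (l ^ A + l + 9)) := wf_log hqY
  have hΛ : 1 ≤ Real.log (q * (l ^ A + l + 9)) ^ 10 := one_le_pow₀ hlog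
  generalize hΛe : Real.log (q * (l ^ A + l + 9)) ^ 10 = Λ at hΛ hreg ⊢
  have hD1 : 1 ≤ C * Λ := by
    rw [hC]; nlinarith
  have h1 : C₁ * Λ ≤ C * Λ := by
    rw [hC]; nlinarith
  have h2 : C₂ ≤ C * Λ := by
    rw [hC]; nlinarith
  have h3 : 0 < C₁ * Λ := by nlinarith
  have h4 : 1 / (C * Λ) ≤ 1 / (C₁ * Λ) := one_div_le_one_div_of_le h3 h1
  refine hLI _ t l l (1 / (C * Λ)) (C * Λ) (by positivity) ?_ (by linarith) (by linarith)
    (by linarith) ?_ ?_
  · rw [div_le_one (by linarith)]; exact hD1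
  · intro s hs1 hs2 hs3
    obtain ⟨h5, h6⟩ := hreg s (by linarith) hs2 (by linarith)
    refine ⟨wf_diff hL h5, ?_⟩
    simp only [wf_norm]
    linarith
  · intro s hs
    obtain ⟨h5, h6⟩ := hld s hs
    refine ⟨(wf_diff hL h5).continuousAt, ?_⟩
    simp only [wf_norm]
    linarith

theorem sw_prop : SWProp := by
  intro b hb h3 A hA
  haveI : NeZero b := ⟨hb.ne_zero⟩
  obtain ⟨C₁, hC₁, hreg⟩ := reg_char b hb h3
  obtain ⟨C₂, hC₂, hld⟩ := ld_two
  obtain ⟨K, hK, hLI⟩ := LI_bound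
  obtain ⟨l₀, hl₀, hnum⟩ := num A (C₁ + C₂) K hA (by linarith) hK
  refine ⟨Real.exp l₀, fun x hx J hJ hq χ hχ t ht => ?_⟩
  have hx0 : 0 < x := lt_of_lt_of_le (Real.exp_pos _) hx
  have hrep := PP_rep χ t hx0
  have hll : l₀ ≤ Real.log x := by rwa [Real.le_log_iff_exp_le hx0]
  have hexpl : Real.exp (Real.log x) = x := Real.exp_log hx0
  generalize Real.log x = l at hrep hll hexpl hq ht ⊢
  have hq1 : 1 ≤ (b : ℝ) ^ J := one_le_pow₀ (by exact_mod_cast hb.one_lt.le)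
  have hlA : 0 ≤ l ^ A := Real.rpow_nonneg (by linarith) _
  have hcore := wf_core (C₁ := C₁) (C₂ := C₂) (C := C₁ + C₂) (K := K) (q := (b : ℝ) ^ J) (A := A)
    (l := l) (t := t) (L := LFunction χ) (differentiable_LFunction hχ) hC₁ hC₂ rfl (by linarith)
    hq1 hLI ht (fun s hs1 hs2 hs3 => hreg J hJ χ hχ _ (by linarith) s hs1 hs2 hs3)
    (fun s hs => hld _ χ s hs)
  have hn := hnum l hll ((b : ℝ) ^ J) hq1 hq
  rw [← hrep] at hcore
  have hpi : ‖(2 * Real.pi * PP χ t x : ℂ)‖ = 2 * Real.pi * ‖PP χ t x‖ := by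
    rw [norm_mul, norm_mul, Complex.norm_real, Real.norm_of_nonneg Real.pi_pos.le]
    simp
  rw [hpi] at hcore
  have hpi1 : 1 ≤ 2 * Real.pi := by
    have := Real.pi_gt_three
    linarith
  have h0 : ‖PP χ t x‖ ≤ 2 * Real.pi * ‖PP χ t x‖ := by
    have := norm_nonneg (PP χ t x)
    nlinarith
  have hK1 : 0 ≤ K * (1 + l) := by
    apply mul_nonneg <;> linarith
  rw [hexpl] at hn
  linarith

private lemma wf_int (g : ℂ → ℂ) (t v D : ℝ)
    (hg : ∀ s : ℂ, s.re = 2 → ContinuousAt g s ∧ ‖g s‖ ≤ D) :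
    Integrable fun y : ℝ => KM 1 0 ((2 : ℝ) + y * I) * cexp (((2 : ℝ) + y * I) * v) *
      g ((2 : ℝ) + y * I - t * I) := by
  have hKi : Integrable fun y : ℝ => ‖KM 1 0 ((2 : ℝ) + y * I)‖ := by
    have h1 := KM_integrable one_pos (a := 0) (by norm_num) 2 0 0
    refine h1.congr (Filter.Eventually.of_forall fun y => ?_)
    simp
  have hre : ∀ y : ℝ, (((2 : ℝ) : ℂ) + y * I - t * I).re = 2 := by
    intro y; simp
  refine (hKi.mul_const (Real.exp (2 * v) * D)).mono' ?_ ?_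
  · apply Continuous.aestronglyMeasurable
    have h1 := (KM_diff 1 0).continuous
    have h2 : Continuous fun y : ℝ => g ((2 : ℝ) + y * I - t * I) := by
      rw [continuous_iff_continuousAt]
      intro y
      have h3 : ContinuousAt (fun y : ℝ => (((2 : ℝ) : ℂ) + y * I - t * I)) y := by fun_prop
      exact ContinuousAt.comp (f := fun y : ℝ => (((2 : ℝ) : ℂ) + y * I - t * I)) (g := g)
        (hg _ (hre y)).1 h3
    have h4 : Continuous fun y : ℝ => KM 1 0 ((2 : ℝ) + y * I) := by fun_prop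
    have h5 : Continuous fun y : ℝ => cexp (((2 : ℝ) + y * I) * v) := by fun_prop
    exact (h4.mul h5).mul h2
  · refine Filter.Eventually.of_forall fun y => ?_
    rw [norm_mul, norm_mul, mul_assoc]
    apply mul_le_mul_of_nonneg_left _ (norm_nonneg _)
    have h1 : ‖cexp (((2 : ℝ) + y * I) * v)‖ = Real.exp (2 * v) := by
      rw [Complex.norm_exp]
      congr 1
      simp
    rw [h1]
    exact mul_le_mul_of_nonneg_left (hg _ (hre y)).2 (Real.exp_pos _).le

theorem pnt_prop : PNTProp := by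
  intro b hb A hA
  haveI : NeZero b := ⟨by omega⟩
  obtain ⟨K₁, hK₁, hone⟩ := PP_one b hb
  obtain ⟨C₁, hC₁, hreg⟩ := reg_zeta
  obtain ⟨C₂, hC₂, hld⟩ := ld_two'
  obtain ⟨K, hK, hLI⟩ := LI_bound
  obtain ⟨K₂, hK₂, hpole⟩ := pole_term
  obtain ⟨l₀, hl₀, hnum⟩ := num A (C₁ + C₂) (K + K₁ + K₂) hA (by linarith) (by linarith)
  refine ⟨Real.exp l₀, fun x hx J hJ t ht => ?_⟩
  have hx0 : 0 < x := lt_of_lt_of_le (Real.exp_pos _) hx
  have hrep := PP_rep (1 : DirichletCharacter ℂ 1) t hx0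
  have hll : l₀ ≤ Real.log x := by rwa [Real.le_log_iff_exp_le hx0]
  have hexpl : Real.exp (Real.log x) = x := Real.exp_log hx0
  have hx1 : 1 ≤ x := by
    rw [← hexpl]
    exact Real.one_le_exp (by linarith)
  have hxx : cexp ((1 + t * I) * Real.log x) = (x : ℂ) * (x : ℂ) ^ (t * I) := by
    have hxne : (x : ℂ) ≠ 0 := by exact_mod_cast hx0.ne'
    rw [Complex.cpow_def_of_ne_zero hxne, ← Complex.ofReal_log hx0.le, add_mul, Complex.exp_add,
      one_mul, ← Complex.ofReal_exp, hexpl]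
    ring_nf
  have h1 := hone J hJ t x hx1
  generalize Real.log x = l at hrep hll hexpl ht hxx h1 ⊢
  have hlA : 0 ≤ l ^ A := Real.rpow_nonneg (by linarith) _
  have hcore := wf_core (C₁ := C₁) (C₂ := C₂) (C := C₁ + C₂) (K := K) (q := 1) (A := A)
    (l := l) (t := t) (L := LFunctionTrivChar₁ 1) (differentiable_LFunctionTrivChar₁ 1) hC₁ hC₂ rfl
    (by linarith) le_rfl hLI ht (fun s hs1 hs2 hs3 => by
      rw [one_mul] at hs1 ⊢
      exact hreg _ (by linarith) s hs1 hs2 hs3)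
    (fun s hs => ⟨(hld s hs).1, (hld s hs).2.1⟩)
  have hn := hnum l hll 1 le_rfl (by
    have := Real.one_le_rpow (x := l) (z := A) (by linarith) (by linarith)
    exact this)
  -- splitting
  have hsplit : LI 2 (fun s => -deriv (LFunction (1 : DirichletCharacter ℂ 1)) s /
      LFunction (1 : DirichletCharacter ℂ 1) s) t l =
      LI 2 (fun s => 1 / (s - 1)) t l +
        LI 2 (fun s => -deriv (LFunctionTrivChar₁ 1) s / LFunctionTrivChar₁ 1 s) t l := by
    have hi1 := wf_int (fun s => 1 / (s - 1)) t l 1 (by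
      intro s hs
      have hs1 : s - 1 ≠ 0 := by
        intro h
        have h2 : (s - 1).re = 0 := by rw [h]; simp
        rw [Complex.sub_re, hs] at h2
        norm_num at h2
      refine ⟨?_, ?_⟩
      · exact ContinuousAt.div (f := fun _ : ℂ => (1 : ℂ)) (g := fun s : ℂ => s - 1)
          continuousAt_const (by fun_prop) hs1
      · rw [norm_div, norm_one]
        have : 1 ≤ ‖s - 1‖ := by
          have h2 := Complex.re_le_norm (s - 1)
          have h3 : (s - 1).re = 1 := by rw [Complex.sub_re, hs]; norm_num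
          linarith
        exact div_le_one_of_le₀ this (by positivity))
    have hi2 := wf_int (fun s => -deriv (LFunctionTrivChar₁ 1) s / LFunctionTrivChar₁ 1 s) t l C₂ (by
      intro s hs
      obtain ⟨h5, h6, -⟩ := hld s hs
      refine ⟨(wf_diff (differentiable_LFunctionTrivChar₁ 1) h5).continuousAt, ?_⟩
      simp only [wf_norm]
      exact h6)
    unfold LI
    rw [← integral_add hi1 hi2]
    refine integral_congr_ae (Filter.Eventually.of_forall fun y => ?_)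
    have hre : (((2 : ℝ) : ℂ) + y * I - t * I).re = 2 := by simp
    have h7 := (hld _ hre).2.2
    simp only
    rw [h7]
    ring
  have hp := hpole t l (by linarith)
  rw [hxx] at hp
  have hpi : ∀ z : ℂ, ‖(2 * Real.pi * z : ℂ)‖ = 2 * Real.pi * ‖z‖ := by
    intro z
    rw [norm_mul, norm_mul, Complex.norm_real, Real.norm_of_nonneg Real.pi_pos.le]
    simp
  have hpi1 : 1 ≤ 2 * Real.pi := by
    have := Real.pi_gt_three
    linarith
  have h2 : ‖PP (1 : DirichletCharacter ℂ 1) t x - (x : ℂ) * (x : ℂ) ^ (t * I) * GG t‖ ≤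
      K₂ + ‖LI 2 (fun s => -deriv (LFunctionTrivChar₁ 1) s / LFunctionTrivChar₁ 1 s) t l‖ := by
    calc _ ≤ 2 * Real.pi *
          ‖PP (1 : DirichletCharacter ℂ 1) t x - (x : ℂ) * (x : ℂ) ^ (t * I) * GG t‖ := by
          have := norm_nonneg (PP (1 : DirichletCharacter ℂ 1) t x -
            (x : ℂ) * (x : ℂ) ^ (t * I) * GG t)
          nlinarith
      _ = ‖(2 * Real.pi * (PP (1 : DirichletCharacter ℂ 1) t x -
            (x : ℂ) * (x : ℂ) ^ (t * I) * GG t) : ℂ)‖ := (hpi _).symm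
      _ = ‖(LI 2 (fun s => 1 / (s - 1)) t l -
            2 * Real.pi * ((x : ℂ) * (x : ℂ) ^ (t * I) * GG t)) +
            LI 2 (fun s => -deriv (LFunctionTrivChar₁ 1) s / LFunctionTrivChar₁ 1 s) t l‖ := by
          rw [mul_sub, hrep, hsplit]
          congr 1
          ring
      _ ≤ _ := by
          refine (norm_add_le _ _).trans ?_
          linarith
  have h3 : ‖PP (1 : DirichletCharacter ℂ (b ^ J)) t x - (x : ℂ) * (x : ℂ) ^ (t * I) * GG t‖ ≤
      ‖PP (1 : DirichletCharacter ℂ (b ^ J)) t x - PP (1 : DirichletCharacter ℂ 1) t x‖ +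
      ‖PP (1 : DirichletCharacter ℂ 1) t x - (x : ℂ) * (x : ℂ) ^ (t * I) * GG t‖ := by
    have := norm_add_le (PP (1 : DirichletCharacter ℂ (b ^ J)) t x - PP (1 : DirichletCharacter ℂ 1) t x)
      (PP (1 : DirichletCharacter ℂ 1) t x - (x : ℂ) * (x : ℂ) ^ (t * I) * GG t)
    rwa [sub_add_sub_cancel] at this
  rw [hexpl] at hn
  refine h3.trans (le_trans ?_ hn)
  have hE : 0 ≤ (C₁ + C₂) * Real.log (1 * (l ^ A + l + 9)) ^ 10 *
      (Real.exp ((1 - 1 / ((C₁ + C₂) * Real.log (1 * (l ^ A + l + 9)) ^ 10)) * l) +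
        Real.exp (2 * l - l ^ 2 / 8)) := by
    have : 0 ≤ Real.log (1 * (l ^ A + l + 9)) ^ 10 := by positivity
    positivity
  have hE2 : K * ((C₁ + C₂) * Real.log (1 * (l ^ A + l + 9)) ^ 10) *
      (Real.exp ((1 - 1 / ((C₁ + C₂) * Real.log (1 * (l ^ A + l + 9)) ^ 10)) * l) +
        Real.exp (2 * l - l ^ 2 / 8)) ≤ (K + K₁ + K₂) *
      ((C₁ + C₂) * Real.log (1 * (l ^ A + l + 9)) ^ 10) *
      (Real.exp ((1 - 1 / ((C₁ + C₂) * Real.log (1 * (l ^ A + l + 9)) ^ 10)) * l) +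
        Real.exp (2 * l - l ^ 2 / 8)) := by
    rw [mul_assoc, mul_assoc (K + K₁ + K₂)]
    apply mul_le_mul_of_nonneg_right _ hE
    linarith
  have hE3 : K₁ * (1 + l) + K₂ ≤ (K + K₁ + K₂) * (1 + l) := by nlinarith
  linarith

end Pool.Agent.HPX
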