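import Pool.Agent.HPX.AsmX
import Pool.Agent.HPX.MMain
import Pool.Agent.HPX.SAll
import Pool.Agent.HPX.RAsm
import Pool.Agent.HPX.QFin
import Pool.Agent.HPX.WFin
import Pool.Agent.HPP.ACount
import Pool.Agent.HPP.EFin
import Pool.Agent.HPP.VMain
import Pool.Agent.HPP.VBig2
import Pool.Agent.HPP.LPV
import Pool.Agent.HPP.LFin

/-! # HPX/Fin: the final statement for prime bases, from all parts -/

namespace Pool.Agent.HPX

open Pool.Agent.HPP

/-- assembly -/
theorem assembly {f₀ : ℝ} (h₀ : 5 / 12 < f₀) (h₀' : f₀ ≤ 5 / 9)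
    (hB : ∀ f, 5 / 12 < f → f < f₀ → ∃ p₁, 1 ≤ p₁ ∧ p₁ < 4 / 3 ∧ BigAt f p₁) : FinalX f₀ :=
  assemblyX f₀ h₀ h₀' (mainX_of pnt_prop) countProp
    (errAssembly f₀ h₀ h₀' supAll energyProp (low_prop pv_prop) sw_prop pnt_prop
      (smallProp pv_prop) hB)

theorem finX : FinalX (5 / 9) := by
  refine assembly (by norm_num) (by norm_num) fun f h1 h2 => ?_
  have h3 : 12 / 5 * f < 4 / 3 := by linarith
  have h4 : (1 : ℝ) ≤ 12 / 5 * f := by linarith
  refine ⟨(12 / 5 * f + 4 / 3) / 2, by linarith, by linarith, ?_⟩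
  exact bigProp2 pv_prop four_prop f _ (by linarith) (by linarith) (by linarith) (by linarith)

end Pool.Agent.HPX
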