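import Pool.Agent.HPX.Iface
import Pool.Agent.HPP.EBas

/-!
# HPX/MCnt : lower bound of the main term by the patterns with `d₁ = b/8 + 1`
-/

namespace Pool.Agent.HPX

open Pool.Agent.HPP

private theorem rest_lt {b : ℕ} : ∀ {n : ℕ} (f : Fin n → ℕ), (∀ i, f i < b) →
    ∑ i : Fin n, f i * b ^ (n - 1 - (i : ℕ)) < b ^ n := by
  intro n
  induction n with
  | zero => intro f _; simp
  | succ n ih =>
    intro f hf
    rw [Fin.sum_univ_succ]
    have h1 := ih (fun i => f (Fin.succ i)) (fun i => hf _)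
    have h2 : f 0 + 1 ≤ b := hf _
    have h3 : (f 0 + 1) * b ^ n ≤ b * b ^ n := Nat.mul_le_mul_right _ h2
    have h4 : ∑ i : Fin n, f (Fin.succ i) * b ^ (n + 1 - 1 - ((Fin.succ i : Fin (n + 1)) : ℕ)) =
        ∑ i : Fin n, f (Fin.succ i) * b ^ (n - 1 - (i : ℕ)) := by
      refine Finset.sum_congr rfl fun i _ => ?_
      congr 2
      rw [Fin.val_succ]
      omega
    rw [h4]
    have h5 : n + 1 - 1 - ((0 : Fin (n + 1)) : ℕ) = n := by simp
    rw [h5]
    have h6 : b * b ^ n = b ^ (n + 1) := by ring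
    have h7 : (f 0 + 1) * b ^ n = f 0 * b ^ n + b ^ n := by ring
    omega

private theorem top_dig {b p n : ℕ} (hb : Bas b p) {F : Finset ℕ} {ω : Fin (n + 2) → ℕ × ℕ}
    (hω : ω ∈ RR b p (n + 2) F) :
    p * b ^ (n + 1) + (ω 1).2 * b ^ n ≤ topv b ω ∧
      topv b ω < p * b ^ (n + 1) + ((ω 1).2 + 1) * b ^ n := by
  have h0 : (ω 0).2 = p := by
    have h1 : ω 0 ∈ Sd b p F ((0 : Fin (n + 2)) : ℕ) := (Fintype.mem_piFinset.mp hω) 0
    unfold Sd at h1
    rw [if_pos (by simp), Finset.mem_singleton] at h1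
    rw [h1]
  have h1 : topv b ω = p * b ^ (n + 1) + ((ω 1).2 * b ^ n +
      ∑ i : Fin n, (ω (Fin.succ (Fin.succ i))).2 * b ^ (n - 1 - (i : ℕ))) := by
    unfold topv
    rw [Fin.sum_univ_succ, Fin.sum_univ_succ, h0]
    congr 1
    congr 1
    refine Finset.sum_congr rfl fun i _ => ?_
    congr 2
    rw [Fin.val_succ, Fin.val_succ]
    omega
  have h2 := rest_lt (b := b) (fun i : Fin n => (ω (Fin.succ (Fin.succ i))).2)
    (fun i => (digit_lt hb hω _).2)
  have h3 : ((ω 1).2 + 1) * b ^ n = (ω 1).2 * b ^ n + b ^ n := by ring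
  constructor <;> omega

private theorem card_fix {b p n d : ℕ} (hd : d < b / 2) :
    (RR b p (n + 2) ∅).card ≤ b * ((RR b p (n + 2) ∅).filter fun ω => ω 1 = (d, d)).card := by
  classical
  have hone : ((1 : Fin (n + 2)) : ℕ) ≠ 0 := by
    simp
  refine Finset.card_le_mul_card_image_of_maps_to
    (f := fun ω : Fin (n + 2) → ℕ × ℕ => Function.update ω 1 (d, d)) ?_ b ?_
  · intro ω hω
    have hω' := Fintype.mem_piFinset.mp hω
    refine Finset.mem_filter.mpr ⟨Fintype.mem_piFinset.mpr fun i => ?_, by simp⟩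
    by_cases hi : i = 1
    · subst hi
      rw [Function.update_self]
      unfold Sd
      rw [if_neg hone, if_neg (by simp)]
      exact Finset.mem_image.mpr ⟨d, Finset.mem_range.mpr hd, rfl⟩
    · rw [Function.update_of_ne hi]
      exact hω' i
  · intro ω' _
    have h1 : ((RR b p (n + 2) ∅).filter fun ω : Fin (n + 2) → ℕ × ℕ =>
        Function.update ω 1 (d, d) = ω').card ≤
        (Sd b p ∅ ((1 : Fin (n + 2)) : ℕ)).card := by
      refine Finset.card_le_card_of_injOn (fun ω => ω 1) ?_ ?_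
      · intro ω hω
        exact (Fintype.mem_piFinset.mp (Finset.mem_filter.mp hω).1) 1
      · intro ω hω ω₂ hω₂ he
        have e1 := (Finset.mem_filter.mp hω).2
        have e2 := (Finset.mem_filter.mp hω₂).2
        funext i
        by_cases hi : i = 1
        · subst hi; exact he
        · have e3 := congrFun (e1.trans e2.symm) i
          rwa [Function.update_of_ne hi, Function.update_of_ne hi] at e3
    refine h1.trans ?_
    unfold Sd
    rw [if_neg hone, if_neg (by simp)]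
    refine Finset.card_image_le.trans ?_
    rw [Finset.card_range]
    omega

/-- lower bound of the main term -/
theorem main_count {V₀ η : ℝ → ℝ} (hB : Bp V₀ η) (hV : ∀ y, 1 / 8 ≤ y → y ≤ 3 / 8 → V₀ y = 1)
    {b p : ℕ} (hb : Bas b p) (hb16 : 16 ≤ b) {m : ℕ} (hm : 2 ≤ m) :
    Real.exp (-(Real.log b) ^ 2) / b * ((RR b p m ∅).card : ℝ) ≤
      ∑ ω ∈ RR b p m ∅, wt b (fun y => V₀ (y - p)) ω *
        (((topv b ω : ℝ) / (b : ℝ) ^ (m - 1)) *
          Real.exp (-(Real.log ((topv b ω : ℝ) / (b : ℝ) ^ (m - 1))) ^ 2)) := by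
  classical
  obtain ⟨n, rfl⟩ : ∃ n, m = n + 2 := ⟨m - 2, by omega⟩
  have hbpos : (0 : ℝ) < b := by exact_mod_cast (by omega : 0 < b)
  have hb16' : (16 : ℝ) ≤ b := by exact_mod_cast hb16
  have hp1 : 1 ≤ p := hb.prime.one_le
  set E : ℝ := Real.exp (-(Real.log b) ^ 2) with hE
  have hE0 : 0 < E := Real.exp_pos _
  set d : ℕ := b / 8 + 1 with hd
  have hd2 : d < b / 2 := by omega
  set f : (Fin (n + 2) → ℕ × ℕ) → ℝ := fun ω => wt b (fun y => V₀ (y - p)) ω *
        (((topv b ω : ℝ) / (b : ℝ) ^ (n + 2 - 1)) *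
          Real.exp (-(Real.log ((topv b ω : ℝ) / (b : ℝ) ^ (n + 2 - 1))) ^ 2)) with hf
  have hn1 : n + 2 - 1 = n + 1 := by omega
  have hf0 : ∀ ω, 0 ≤ f ω := by
    intro ω
    rw [hf]
    unfold wt
    exact mul_nonneg (hB.V_range _).1 (by positivity)
  have hfE : ∀ ω ∈ (RR b p (n + 2) ∅).filter (fun ω => ω 1 = (d, d)), E ≤ f ω := by
    intro ω hω
    obtain ⟨hω1, hω2⟩ := Finset.mem_filter.mp hω
    obtain ⟨t1, t2⟩ := top_dig hb hω1
    obtain ⟨t3, t4, t5⟩ := top_bounds hb (by omega) hω1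
    rw [hω2] at t1 t2
    simp only at t1 t2
    rw [hn1] at t3 t4
    have hP : (0 : ℝ) < (b : ℝ) ^ (n + 1) := by positivity
    have t1' : (p : ℝ) * (b : ℝ) ^ (n + 1) + d * (b : ℝ) ^ n ≤ topv b ω := by exact_mod_cast t1
    have t2' : (topv b ω : ℝ) ≤ p * (b : ℝ) ^ (n + 1) + (d + 1) * (b : ℝ) ^ n := by
      exact_mod_cast t2.le
    have t3' : (p : ℝ) * (b : ℝ) ^ (n + 1) ≤ topv b ω := by exact_mod_cast t3
    have t5' : (topv b ω : ℝ) ≤ (b : ℝ) ^ (n + 2) := by exact_mod_cast t5.le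
    have hp1' : (1 : ℝ) ≤ p := by exact_mod_cast hp1
    set y : ℝ := (topv b ω : ℝ) / (b : ℝ) ^ (n + 2 - 1) with hy
    have hyd : y = (topv b ω : ℝ) / (b : ℝ) ^ (n + 1) := by rw [hy, hn1]
    have hpow : (b : ℝ) ^ (n + 1) = b * (b : ℝ) ^ n := by ring
    have hpow2 : (b : ℝ) ^ (n + 2) = b * (b : ℝ) ^ (n + 1) := by ring
    have hPn : (0 : ℝ) < (b : ℝ) ^ n := by positivity
    have y1 : p + (d : ℝ) / b ≤ y := by
      rw [hyd, le_div_iff₀ hP]
      have : (p + (d : ℝ) / b) * (b : ℝ) ^ (n + 1) = p * (b : ℝ) ^ (n + 1) + d * (b : ℝ) ^ n := by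
        rw [hpow]; field_simp
      rw [this]; exact t1'
    have y2 : y ≤ p + ((d : ℝ) + 1) / b := by
      rw [hyd, div_le_iff₀ hP]
      have : (p + ((d : ℝ) + 1) / b) * (b : ℝ) ^ (n + 1) =
          p * (b : ℝ) ^ (n + 1) + (d + 1) * (b : ℝ) ^ n := by
        rw [hpow]; field_simp
      rw [this]; exact t2'
    have y3 : y ≤ b := by
      rw [hyd, div_le_iff₀ hP, ← hpow2]; exact t5'
    have y4 : 1 ≤ y := by
      rw [hyd, le_div_iff₀ hP, one_mul]
      nlinarith
    have hdl : (b : ℝ) / 8 ≤ d := by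
      have : b ≤ 8 * d := by omega
      have : (b : ℝ) ≤ 8 * d := by exact_mod_cast this
      linarith
    have hdu : (d : ℝ) ≤ b / 8 + 1 := by
      have : 8 * d ≤ b + 8 := by omega
      have : (8 : ℝ) * d ≤ b + 8 := by exact_mod_cast this
      linarith
    have hVy : V₀ (y - p) = 1 := by
      apply hV
      · have : (1 : ℝ) / 8 ≤ (d : ℝ) / b := by
          rw [le_div_iff₀ hbpos]; linarith
        linarith
      · have : ((d : ℝ) + 1) / b ≤ 3 / 8 := by
          rw [div_le_iff₀ hbpos]; linarith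
        linarith
    have hlog : (Real.log y) ^ 2 ≤ (Real.log b) ^ 2 := by
      have l0 : 0 ≤ Real.log y := Real.log_nonneg y4
      have l1 : Real.log y ≤ Real.log b := Real.log_le_log (by linarith) y3
      exact pow_le_pow_left₀ l0 l1 2
    have hEle : E ≤ Real.exp (-(Real.log y) ^ 2) := Real.exp_le_exp.mpr (by linarith)
    have hfe : f ω = V₀ (y - p) * (y * Real.exp (-(Real.log y) ^ 2)) := rfl
    rw [hfe, hVy, one_mul]
    calc E ≤ Real.exp (-(Real.log y) ^ 2) := hEle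
      _ ≤ y * Real.exp (-(Real.log y) ^ 2) := le_mul_of_one_le_left (Real.exp_pos _).le y4
  have hc := card_fix (b := b) (p := p) (n := n) hd2
  have hc' : ((RR b p (n + 2) ∅).card : ℝ) ≤
      b * (((RR b p (n + 2) ∅).filter fun ω => ω 1 = (d, d)).card : ℝ) := by exact_mod_cast hc
  calc E / b * ((RR b p (n + 2) ∅).card : ℝ)
      ≤ E / b * (b * (((RR b p (n + 2) ∅).filter fun ω => ω 1 = (d, d)).card : ℝ)) :=
        mul_le_mul_of_nonneg_left hc' (by positivity)
    _ = (((RR b p (n + 2) ∅).filter fun ω => ω 1 = (d, d)).card : ℝ) * E := by field_simp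
    _ = ∑ ω ∈ (RR b p (n + 2) ∅).filter (fun ω => ω 1 = (d, d)), E := by
        rw [Finset.sum_const, nsmul_eq_mul]
    _ ≤ ∑ ω ∈ (RR b p (n + 2) ∅).filter (fun ω => ω 1 = (d, d)), f ω := Finset.sum_le_sum hfE
    _ ≤ ∑ ω ∈ RR b p (n + 2) ∅, f ω :=
        Finset.sum_le_sum_of_subset_of_nonneg (Finset.filter_subset _ _) (fun ω _ _ => hf0 ω)

end Pool.Agent.HPX
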