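import Pool.Agent.HPP.VHBb

/-!
# HPX/QFar: vectors with `U < |∑ v - log x|` (helper16)
-/

namespace Pool.Agent.HPX

open Complex MeasureTheory ArithmeticFunction Pool.Agent.HPP

/-- `ℓ¹` norm of one piece -/
theorem pc_l1e {F : ArithmeticFunction ℝ} (hF : Sm F) (v N : ℕ) :
    ∑ n ∈ Finset.Icc 1 N, |pc F v n| ≤ Real.exp ((v : ℝ) + 1) * ((v : ℝ) + 2) := by
  set M := ⌊Real.exp ((v : ℝ) + 1)⌋₊ with hM
  have h1 : ∀ n ∈ Finset.Icc 1 N, |pc F v n| ≤ if n ∈ Finset.Icc 1 M then (v : ℝ) + 2 else 0 := by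
    intro n hn
    split_ifs with h
    · exact vp_pc_abs hF v n
    · by_contra hc
      apply h
      have h2 : pc F v n ≠ 0 := by
        intro h0
        rw [h0, abs_zero] at hc
        exact hc le_rfl
      rw [Finset.mem_Icc]
      exact ⟨(Finset.mem_Icc.1 hn).1, Nat.le_floor (pc_supp h2).2.le⟩
  refine (Finset.sum_le_sum h1).trans ?_
  rw [← Finset.sum_filter, Finset.sum_const, nsmul_eq_mul]
  have h2 : (((Finset.Icc 1 N).filter fun n => n ∈ Finset.Icc 1 M).card : ℝ) ≤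
      Real.exp ((v : ℝ) + 1) := by
    have h3 : ((Finset.Icc 1 N).filter fun n => n ∈ Finset.Icc 1 M).card ≤
        (Finset.Icc 1 M).card := by
      apply Finset.card_le_card
      intro n hn
      exact (Finset.mem_filter.1 hn).2
    rw [Nat.card_Icc, Nat.add_sub_cancel] at h3
    exact (Nat.cast_le.2 h3).trans (Nat.floor_le (Real.exp_pos _).le)
  exact mul_le_mul_of_nonneg_right h2 (by positivity)

/-- pieces with `|∑ v - log x| > U` -/
theorem far_bdU {Q : ℕ} (χ : DirichletCharacter ℂ Q) (t : ℝ) {U x : ℝ} (hU : 10 ≤ U)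
    (hx : 1 ≤ x) {k : ℕ} (hk : k ≤ 8)
    (f : Fin k → ArithmeticFunction ℝ) (hf : ∀ i, Sm (f i)) (v : Fin k → ℕ)
    (hv2 : ∀ i, (v i : ℝ) ≤ 2 * Real.log x + 3)
    (hv : U < |(∑ i, (v i : ℝ)) - Real.log x|) :
    ‖∑ n ∈ Finset.Icc 1 ⌊x ^ 2⌋₊, (((∏ i, pc (f i) (v i)) n : ℝ) : ℂ) * χ (n : ZMod Q) *
      (n : ℂ) ^ (t * I) * (Real.exp (-(Real.log (n / x)) ^ 2) : ℂ)‖ ≤
      x * Real.exp (8 + U - (U - 8) ^ 2) * (2 * Real.log x + 5) ^ 8 := by
  have hx0 : 0 < x := by linarith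
  have hl0 : 0 ≤ Real.log x := Real.log_nonneg hx
  set u := |(∑ i, (v i : ℝ)) - Real.log x| with hu
  have hk' : (k : ℝ) ≤ 8 := by exact_mod_cast hk
  refine (norm_sum_le _ _).trans ?_
  have h1 : ∀ n ∈ Finset.Icc 1 ⌊x ^ 2⌋₊, ‖(((∏ i, pc (f i) (v i)) n : ℝ) : ℂ) * χ (n : ZMod Q) *
      (n : ℂ) ^ (t * I) * (Real.exp (-(Real.log (n / x)) ^ 2) : ℂ)‖ ≤
      |(∏ i, pc (f i) (v i)) n| * Real.exp (-(u - 8) ^ 2) := by
    intro n hn
    obtain ⟨n1, n2⟩ := Finset.mem_Icc.1 hn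
    simp only [norm_mul, Complex.norm_real, Real.norm_eq_abs, abs_of_pos (Real.exp_pos _)]
    by_cases hz : (∏ i, pc (f i) (v i)) n = 0
    · rw [hz]; simp
    · obtain ⟨_, h3⟩ := prod_supp Finset.univ f v hz
      rw [Finset.card_univ, Fintype.card_fin] at h3
      have hn0 : (0 : ℝ) < n := by exact_mod_cast n1
      have h4 : Real.log (n / x) = Real.log n - Real.log x := Real.log_div hn0.ne' hx0.ne'
      have h5 : u - 8 ≤ |Real.log (n / x)| := by
        rw [h4]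
        have h6 : u ≤ |Real.log n - Real.log x| + |Real.log n - ∑ i, (v i : ℝ)| := by
          have e1 : (∑ i, (v i : ℝ)) - Real.log x =
              (Real.log n - Real.log x) - (Real.log n - ∑ i, (v i : ℝ)) := by ring
          rw [hu, e1]
          exact abs_sub _ _
        linarith
      have h6 : (u - 8) ^ 2 ≤ (Real.log (n / x)) ^ 2 := by
        rw [← sq_abs (Real.log (n / x))]
        exact pow_le_pow_left₀ (by linarith) h5 2
      have h7 : Real.exp (-(Real.log (n / x)) ^ 2) ≤ Real.exp (-(u - 8) ^ 2) :=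
        Real.exp_le_exp.2 (by linarith)
      have h8 := χ.norm_le_one (n : ZMod Q)
      have h9 := norm_natCast_cpow_mul_I_le n t
      calc |(∏ i, pc (f i) (v i)) n| * ‖χ (n : ZMod Q)‖ * ‖(n : ℂ) ^ (t * I)‖ *
            Real.exp (-(Real.log (n / x)) ^ 2)
          ≤ |(∏ i, pc (f i) (v i)) n| * 1 * 1 * Real.exp (-(u - 8) ^ 2) := by
            gcongr
        _ = _ := by ring
  refine (Finset.sum_le_sum h1).trans ?_
  rw [← Finset.sum_mul]
  have h2 : ∑ n ∈ Finset.Icc 1 ⌊x ^ 2⌋₊, |(∏ i, pc (f i) (v i)) n| ≤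
      x * Real.exp (u + 8) * (2 * Real.log x + 5) ^ 8 := by
    refine (af_l1_prod Finset.univ (fun i => pc (f i) (v i)) _).trans ?_
    calc ∏ i, ∑ n ∈ Finset.Icc 1 ⌊x ^ 2⌋₊, |pc (f i) (v i) n|
        ≤ ∏ i, Real.exp ((v i : ℝ) + 1) * (2 * Real.log x + 5) := by
          refine Finset.prod_le_prod (fun i _ => Finset.sum_nonneg fun _ _ => abs_nonneg _)
            fun i _ => (pc_l1e (hf i) (v i) _).trans ?_
          exact mul_le_mul_of_nonneg_left (by linarith [hv2 i]) (Real.exp_pos _).le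
      _ = Real.exp (∑ i, ((v i : ℝ) + 1)) * (2 * Real.log x + 5) ^ k := by
          rw [Finset.prod_mul_distrib, ← Real.exp_sum, Finset.prod_const, Finset.card_univ,
            Fintype.card_fin]
      _ ≤ Real.exp (Real.log x + (u + 8)) * (2 * Real.log x + 5) ^ 8 := by
          apply mul_le_mul _ _ (by positivity) (Real.exp_pos _).le
          · apply Real.exp_le_exp.2
            rw [Finset.sum_add_distrib, Finset.sum_const, Finset.card_univ, Fintype.card_fin,
              nsmul_eq_mul, mul_one]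
            have := le_abs_self ((∑ i, (v i : ℝ)) - Real.log x)
            linarith
          · exact pow_le_pow_right₀ (by linarith) hk
      _ = _ := by rw [Real.exp_add, Real.exp_log hx0]
  calc (∑ n ∈ Finset.Icc 1 ⌊x ^ 2⌋₊, |(∏ i, pc (f i) (v i)) n|) * Real.exp (-(u - 8) ^ 2)
      ≤ x * Real.exp (u + 8) * (2 * Real.log x + 5) ^ 8 * Real.exp (-(u - 8) ^ 2) :=
        mul_le_mul_of_nonneg_right h2 (Real.exp_pos _).le
    _ = x * Real.exp (u + 8 + -(u - 8) ^ 2) * (2 * Real.log x + 5) ^ 8 := by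
        rw [Real.exp_add (u + 8)]; ring
    _ ≤ x * Real.exp (8 + U - (U - 8) ^ 2) * (2 * Real.log x + 5) ^ 8 := by
        have h3 : u + 8 + -(u - 8) ^ 2 ≤ 8 + U - (U - 8) ^ 2 := by nlinarith
        have h4 := Real.exp_le_exp.2 h3
        gcongr

end Pool.Agent.HPX
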