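import Pool.Agent.HPX.QHBa
import Pool.Agent.HPX.QFar
import Pool.Agent.HPP.VHB

/-!
# HPX/QHB: the prime polynomial as an average of products of at most `8` factors, width `U` (helper16)
-/

namespace Pool.Agent.HPX

open Complex MeasureTheory Pool.Agent.HPP

/-- the relevant vectors of lengths -/
noncomputable def VX (U x : ℝ) (j : ℕ) : Finset (Fin (2 * j) → ℕ) :=
  (Fintype.piFinset fun _ => Finset.range (⌊2 * Real.log x⌋₊ + 3)).filter
    fun v => |(∑ i, (v i : ℝ)) - Real.log x| ≤ U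

private theorem part_prod {x : ℝ} (hx : 1 ≤ x) {k : ℕ} (f : Fin k → ArithmeticFunction ℝ) {n : ℕ}
    (hn : n ≤ ⌊x ^ 2⌋₊) : (∏ i, f i) n =
      ∑ v ∈ Fintype.piFinset (fun _ : Fin k => Finset.range (⌊2 * Real.log x⌋₊ + 3)),
        (∏ i, pc (f i) (v i)) n := by
  have hx0 : 0 < x := by linarith
  have h1 : ∀ i ∈ Finset.univ, ∀ d ≤ ⌊x ^ 2⌋₊, f i d =
      (∑ v ∈ Finset.range (⌊2 * Real.log x⌋₊ + 3), pc (f i) v) d := by
    intro i _ d hd
    rw [af_sum_apply]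
    rcases Nat.eq_zero_or_pos d with h0 | h0
    · subst h0
      simp
    · have hd0 : (0 : ℝ) < d := by exact_mod_cast h0
      have hd1 : (1 : ℝ) ≤ d := by exact_mod_cast h0
      have hd2 : (d : ℝ) ≤ x ^ 2 := (Nat.le_floor_iff (by positivity)).1 hd
      have h3 := Real.log_le_log hd0 hd2
      rw [Real.log_pow] at h3
      push_cast at h3
      have h4 := Nat.lt_floor_add_one (2 * Real.log x)
      have h5 := sum_uw (y := Real.log d) (M := ⌊2 * Real.log x⌋₊ + 3) (Real.log_nonneg hd1)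
        (by push_cast; linarith)
      simp only [pc_apply]
      rw [← Finset.mul_sum, h5, mul_one]
  rw [af_prod_agree Finset.univ h1 n hn, Finset.prod_univ_sum, af_sum_apply]

theorem hbx : ∃ C : ℝ, 1 ≤ C ∧ ∃ x₀ : ℝ, ∀ x : ℝ, x₀ ≤ x → ∀ U : ℝ, 10 ≤ U →
    U ≤ 1 / 4 * Real.log x → ∀ (Q : ℕ) (χ : DirichletCharacter ℂ Q) (t : ℝ), ‖PP χ t x‖ ≤
      C * x * Real.exp U * (∑ j ∈ Finset.Icc 1 4, ∑ v ∈ VX U x j,
        ∫ ξ, gk ξ * ∏ i, nt (tyf (x ^ (1 / 2 : ℝ)) (fac j i)) (v i) χ (t + ξ)) +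
      C * x * (Real.log x) ^ 16 * Real.exp (U - (U - 8) ^ 2) + C * (x ^ 6)⁻¹ := by
  refine ⟨4 * 2 ^ 4 * Real.exp 8 * 3 ^ 16 + c0t + 1, ?_, Real.exp 107, ?_⟩
  · have h1 : 0 ≤ c0t := tsum_nonneg fun n => by positivity
    have h2 : 0 ≤ 4 * 2 ^ 4 * Real.exp 8 * 3 ^ 16 := by positivity
    linarith
  intro x hx U hU10 hU Q χ t
  set C : ℝ := 4 * 2 ^ 4 * Real.exp 8 * 3 ^ 16 + c0t + 1 with hC
  have hc0 : 0 ≤ c0t := tsum_nonneg fun n => by positivity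
  have hx0 : 0 < x := (Real.exp_pos _).trans_le hx
  have hl : 107 ≤ Real.log x := by
    rw [Real.le_log_iff_exp_le hx0]; exact hx
  have hx1 : 1 ≤ x := by
    have := Real.add_one_le_exp (107 : ℝ)
    linarith
  set L := Real.log x with hL
  set Z : ℝ := x ^ (1 / 2 : ℝ) with hZ
  have hZ1 : 1 ≤ Z := Real.one_le_rpow hx1 (by norm_num)
  have hZ4 : Z ^ 4 = x ^ 2 := by
    rw [hZ, ← Real.rpow_natCast, ← Real.rpow_mul hx0.le, ← Real.rpow_natCast]
    norm_num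
  set X := ⌊x ^ 2⌋₊ with hX
  set M := ⌊2 * L⌋₊ + 3 with hMd
  set al : (j : ℕ) → Finset (Fin (2 * j) → ℕ) := fun j =>
    Fintype.piFinset (fun _ : Fin (2 * j) => Finset.range M) with hal
  set G : (j : ℕ) → (Fin (2 * j) → ℕ) → ArithmeticFunction ℝ := fun j v =>
    ∏ i, pc (tyf Z (fac j i)) (v i) with hG
  set a : ℕ → ℝ := fun j => (-1 : ℝ) ^ (j - 1) * (Nat.choose 4 j : ℝ) with ha
  have hmain : ∑ n ∈ Finset.Icc 1 X, (ArithmeticFunction.vonMangoldt n : ℂ) * χ (n : ZMod Q) *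
      (n : ℂ) ^ (t * I) * (Real.exp (-(Real.log (n / x)) ^ 2) : ℂ) =
      ∑ j ∈ Finset.Icc 1 4, (a j : ℂ) * ∑ v ∈ al j, ∑ n ∈ Finset.Icc 1 X,
        ((G j v n : ℝ) : ℂ) * χ (n : ZMod Q) *
      (n : ℂ) ^ (t * I) * (Real.exp (-(Real.log (n / x)) ^ 2) : ℂ) := by
    have h1 : ∀ n ∈ Finset.Icc 1 X, (ArithmeticFunction.vonMangoldt n : ℂ) * χ (n : ZMod Q) *
        (n : ℂ) ^ (t * I) * (Real.exp (-(Real.log (n / x)) ^ 2) : ℂ) =
        ∑ j ∈ Finset.Icc 1 4, (a j : ℂ) * ∑ v ∈ al j,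
        ((G j v n : ℝ) : ℂ) * χ (n : ZMod Q) *
      (n : ℂ) ^ (t * I) * (Real.exp (-(Real.log (n / x)) ^ 2) : ℂ) := by
      intro n hn
      obtain ⟨n1, n2⟩ := Finset.mem_Icc.1 hn
      have h3 : (n : ℝ) ≤ Z ^ 4 := by
        rw [hZ4]; exact (Nat.le_floor_iff (by positivity)).1 n2
      have h4 : (ArithmeticFunction.vonMangoldt n : ℝ) =
          ∑ j ∈ Finset.Icc 1 4, a j * ∑ v ∈ al j, G j v n := by
        rw [hb_alg4 hZ1 h3]
        refine Finset.sum_congr rfl fun j _ => ?_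
        rw [part_prod hx1 (fun i => tyf Z (fac j i)) n2]
      rw [h4]
      push_cast
      rw [Finset.sum_mul, Finset.sum_mul, Finset.sum_mul]
      refine Finset.sum_congr rfl fun j _ => ?_
      rw [mul_assoc, mul_assoc, mul_assoc, Finset.sum_mul]
      congr 1
      refine Finset.sum_congr rfl fun v _ => ?_
      ring
    rw [Finset.sum_congr rfl h1, Finset.sum_comm]
    refine Finset.sum_congr rfl fun j _ => ?_
    rw [← Finset.mul_sum, Finset.sum_comm]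
  set J : (j : ℕ) → (Fin (2 * j) → ℕ) → ℝ := fun j v =>
    ∫ ξ, gk ξ * ∏ i, nt (tyf Z (fac j i)) (v i) χ (t + ξ) with hJ
  have hJ0 : ∀ j v, 0 ≤ J j v := fun j v => integral_nonneg fun ξ =>
    mul_nonneg (gk_nonneg ξ) (Finset.prod_nonneg fun i _ => nt_nonneg _ _ _ _)
  set E : ℝ := x * Real.exp (8 + U - (U - 8) ^ 2) * (2 * L + 5) ^ 8 with hE
  have hE0 : 0 ≤ E := by positivity
  have hfl : (⌊2 * L⌋₊ : ℝ) ≤ 2 * L := Nat.floor_le (by linarith)
  have hxe : x ^ (1 + U / L) = x * Real.exp U := by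
    rw [Real.rpow_add hx0, Real.rpow_one, Real.rpow_def_of_pos hx0, ← hL]
    congr 2
    field_simp
  have hpiece : ∀ j ∈ Finset.Icc 1 4, ∀ v ∈ al j, ‖∑ n ∈ Finset.Icc 1 X,
      ((G j v n : ℝ) : ℂ) * χ (n : ZMod Q) *
      (n : ℂ) ^ (t * I) * (Real.exp (-(Real.log (n / x)) ^ 2) : ℂ)‖ ≤
      (if |(∑ i, (v i : ℝ)) - L| ≤ U then x * Real.exp U * J j v else 0)
        + E := by
    intro j hj v hv'
    obtain ⟨j1, j2⟩ := Finset.mem_Icc.1 hj
    split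
    · rename_i hv
      have he1 : U / L ≤ 1 / 4 := by
        rw [div_le_iff₀ (by linarith)]
        exact hU
      have he2 : |(∑ i, (v i : ℝ)) - Real.log x| ≤ U / L * Real.log x := by
        rw [← hL, div_mul_cancel₀ _ (by linarith : L ≠ 0)]
        exact hv
      have := near_bd χ t he1 hx1 hl (k := 2 * j) (by omega) (fun i => tyf Z (fac j i)) v he2
      rw [hxe] at this
      linarith
    · rename_i hv
      push Not at hv
      have hv2 : ∀ i, (v i : ℝ) ≤ 2 * Real.log x + 3 := by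
        intro i
        have h1 := Finset.mem_range.1 (Fintype.mem_piFinset.1 hv' i)
        have h2 : (v i : ℝ) ≤ (M : ℝ) := by exact_mod_cast h1.le
        rw [hMd] at h2
        push_cast at h2
        linarith
      have := far_bdU χ t hU10 hx1 (k := 2 * j) (by omega) (fun i => tyf Z (fac j i))
        (fun i => tyf_sm Z _) v hv2 hv
      linarith
  have ha1 : ∀ j, ‖(a j : ℂ)‖ ≤ 2 ^ 4 := by
    intro j
    rw [Complex.norm_real, Real.norm_eq_abs, ha]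
    simp only
    rw [abs_mul, abs_pow, abs_neg, abs_one, one_pow, one_mul, Nat.abs_cast]
    exact_mod_cast Nat.choose_le_two_pow 4 j
  have hcard : ∀ j ∈ Finset.Icc 1 4, ((al j).card : ℝ) ≤ (2 * L + 3) ^ 8 := by
    intro j hj
    obtain ⟨j1, j2⟩ := Finset.mem_Icc.1 hj
    rw [hal]
    simp only [Fintype.card_piFinset, Finset.card_range, Finset.prod_const, Finset.card_univ,
      Fintype.card_fin]
    push_cast
    have h1 : (M : ℝ) ≤ 2 * L + 3 := by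
      rw [hMd]
      push_cast
      linarith
    have h2 : (1 : ℝ) ≤ M := by
      rw [hMd]
      push_cast
      have : (0 : ℝ) ≤ (⌊2 * L⌋₊ : ℝ) := Nat.cast_nonneg _
      linarith
    calc (M : ℝ) ^ (2 * j) ≤ (M : ℝ) ^ 8 := pow_le_pow_right₀ h2 (by omega)
      _ ≤ (2 * L + 3) ^ 8 := pow_le_pow_left₀ (by linarith) h1 8
  have hsum : ‖∑ n ∈ Finset.Icc 1 X, (ArithmeticFunction.vonMangoldt n : ℂ) * χ (n : ZMod Q) *
      (n : ℂ) ^ (t * I) * (Real.exp (-(Real.log (n / x)) ^ 2) : ℂ)‖ ≤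
      2 ^ 4 * (x * Real.exp U) * ∑ j ∈ Finset.Icc 1 4, ∑ v ∈ VX U x j, J j v +
        4 * 2 ^ 4 * (2 * L + 3) ^ 8 * E := by
    rw [hmain]
    refine (norm_sum_le _ _).trans ?_
    have h1 : ∀ j ∈ Finset.Icc 1 4, ‖(a j : ℂ) * ∑ v ∈ al j, ∑ n ∈ Finset.Icc 1 X,
        ((G j v n : ℝ) : ℂ) * χ (n : ZMod Q) *
      (n : ℂ) ^ (t * I) * (Real.exp (-(Real.log (n / x)) ^ 2) : ℂ)‖ ≤
        2 ^ 4 * (x * Real.exp U * ∑ v ∈ VX U x j, J j v + (2 * L + 3) ^ 8 * E) := by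
      intro j hj
      rw [norm_mul]
      refine mul_le_mul (ha1 j) ?_ (norm_nonneg _) (by positivity)
      refine (norm_sum_le _ _).trans ((Finset.sum_le_sum (hpiece j hj)).trans ?_)
      rw [Finset.sum_add_distrib, ← Finset.sum_filter, Finset.sum_const, nsmul_eq_mul,
        ← Finset.mul_sum]
      have h2 : (al j).filter (fun v => |(∑ i, (v i : ℝ)) - L| ≤ U) = VX U x j := rfl
      rw [h2]
      have h3 := mul_le_mul_of_nonneg_right (hcard j hj) hE0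
      linarith
    refine (Finset.sum_le_sum h1).trans (le_of_eq ?_)
    rw [← Finset.mul_sum, Finset.sum_add_distrib, ← Finset.mul_sum, Finset.sum_const,
      Nat.card_Icc, nsmul_eq_mul]
    push_cast
    ring
  have hp := pp_split χ t hx0 (by linarith : 12 ≤ Real.log x)
  have hS0 : 0 ≤ ∑ j ∈ Finset.Icc 1 4, ∑ v ∈ VX U x j, J j v :=
    Finset.sum_nonneg fun j _ => Finset.sum_nonneg fun v _ => hJ0 j v
  have hK0 : 0 ≤ x * Real.exp U * ∑ j ∈ Finset.Icc 1 4, ∑ v ∈ VX U x j, J j v := by positivity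
  have hx6 : 0 ≤ (x ^ 6)⁻¹ := by positivity
  have hex : Real.exp (8 + U - (U - 8) ^ 2) = Real.exp 8 * Real.exp (U - (U - 8) ^ 2) := by
    rw [← Real.exp_add]; congr 1; ring
  have hC1 : 2 ^ 4 ≤ C := by
    have h1 : (1 : ℝ) ≤ Real.exp 8 := Real.one_le_exp (by norm_num)
    rw [hC]
    have h2 : (4 * 2 ^ 4 * 3 ^ 16 : ℝ) * 1 ≤ 4 * 2 ^ 4 * 3 ^ 16 * Real.exp 8 :=
      mul_le_mul_of_nonneg_left h1 (by norm_num)
    norm_num at h2 ⊢
    linarith
  have hb1 : (2 * L + 3) ^ 8 * (2 * L + 5) ^ 8 ≤ 3 ^ 16 * L ^ 16 := by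
    have h1 : (2 * L + 3) ^ 8 ≤ (3 * L) ^ 8 := pow_le_pow_left₀ (by linarith) (by linarith) 8
    have h2 : (2 * L + 5) ^ 8 ≤ (3 * L) ^ 8 := pow_le_pow_left₀ (by linarith) (by linarith) 8
    calc _ ≤ (3 * L) ^ 8 * (3 * L) ^ 8 := mul_le_mul h1 h2 (by positivity) (by positivity)
      _ = _ := by ring
  have hterm2 : 4 * 2 ^ 4 * (2 * L + 3) ^ 8 * E ≤ C * x * L ^ 16 * Real.exp (U - (U - 8) ^ 2) := by
    rw [hE, hex]
    have h1 : 4 * 2 ^ 4 * (2 * L + 3) ^ 8 * (x * (Real.exp 8 * Real.exp (U - (U - 8) ^ 2)) *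
        (2 * L + 5) ^ 8) = 4 * 2 ^ 4 * Real.exp 8 * x * Real.exp (U - (U - 8) ^ 2) *
        ((2 * L + 3) ^ 8 * (2 * L + 5) ^ 8) := by ring
    rw [h1]
    refine (mul_le_mul_of_nonneg_left hb1 (by positivity)).trans ?_
    have h2 : 4 * 2 ^ 4 * Real.exp 8 * 3 ^ 16 ≤ C := by rw [hC]; linarith
    calc 4 * 2 ^ 4 * Real.exp 8 * x * Real.exp (U - (U - 8) ^ 2) * (3 ^ 16 * L ^ 16)
        = (4 * 2 ^ 4 * Real.exp 8 * 3 ^ 16) * (x * L ^ 16 * Real.exp (U - (U - 8) ^ 2)) := by ring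
      _ ≤ C * (x * L ^ 16 * Real.exp (U - (U - 8) ^ 2)) := by
          apply mul_le_mul_of_nonneg_right h2
          have : 0 ≤ L := by linarith
          positivity
      _ = _ := by ring
  have hterm3 : c0t * (x ^ 6)⁻¹ ≤ C * (x ^ 6)⁻¹ := by
    apply mul_le_mul_of_nonneg_right _ hx6
    have : 0 ≤ 4 * 2 ^ 4 * Real.exp 8 * 3 ^ 16 := by positivity
    rw [hC]; linarith
  have hterm1 : 2 ^ 4 * (x * Real.exp U) * ∑ j ∈ Finset.Icc 1 4, ∑ v ∈ VX U x j, J j v ≤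
      C * x * Real.exp U * ∑ j ∈ Finset.Icc 1 4, ∑ v ∈ VX U x j, J j v := by
    have := mul_le_mul_of_nonneg_right hC1 hK0
    linarith
  calc ‖PP χ t x‖ ≤ _ := hp
    _ ≤ _ := by linarith

end Pool.Agent.HPX
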