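import Pool.Agent.HPP.VHBa

/-!
# HPX/QHBa: the Heath-Brown identity with `K = L + 1` (helper16)
-/

namespace Pool.Agent.HPX

open Complex MeasureTheory ArithmeticFunction Pool.Agent.HPP

/-- the Heath-Brown identity with `K = L + 1` -/
theorem hb_algK (L : ℕ) {Z : ℝ} (hZ : 1 ≤ Z) {n : ℕ} (hn : (n : ℝ) ≤ Z ^ (L + 1)) :
    vonMangoldt n = ∑ j ∈ Finset.Icc 1 (L + 1), (-1 : ℝ) ^ (j - 1) * (Nat.choose (L + 1) j : ℝ) *
      (∏ i : Fin (2 * j), tyf Z (fac j i)) n := by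
  set A := mz Z * (zeta : ArithmeticFunction ℝ) with hA
  have h0 : (vonMangoldt * (1 - A) ^ (L + 1) : ArithmeticFunction ℝ) n = 0 := by
    by_contra hc
    obtain ⟨a, b, hab, hn0, h1, h2⟩ := af_mul_ne hc
    have h3 := upow_supp (by linarith : 0 < Z) L h2
    have ha : 1 ≤ a := by
      rcases Nat.eq_zero_or_pos a with h | h
      · rw [h, zero_mul] at hab; exact absurd hab.symm hn0
      · exact h
    have h4 : (b : ℝ) ≤ n := by
      have : b ≤ n := by rw [← hab]; exact Nat.le_mul_of_pos_left b ha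
      exact_mod_cast this
    linarith
  have h1 : (vonMangoldt : ArithmeticFunction ℝ) * (1 - A) ^ (L + 1) =
      ∑ m ∈ Finset.range (L + 1 + 1), ((-1 : ℤ) ^ m * (Nat.choose (L + 1) m : ℤ)) •
        ((vonMangoldt : ArithmeticFunction ℝ) * A ^ m) := by
    rw [show (1 - A) = -A + 1 by ring, add_pow, Finset.mul_sum]
    refine Finset.sum_congr rfl fun m _ => ?_
    rw [zsmul_eq_mul, one_pow, mul_one, neg_pow]
    push_cast
    ring
  rw [h1, ← evAF_apply, map_sum, Finset.sum_range_succ'] at h0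
  have hlam : ∀ k : ℕ, (vonMangoldt : ArithmeticFunction ℝ) * A ^ (k + 1) =
      ∏ i : Fin (2 * (k + 1)), tyf Z (fac (k + 1) i) := fun k => lam_pow Z k
  simp only [map_zsmul, evAF_apply, pow_zero, mul_one, Nat.choose_zero_right,
    Nat.cast_one, one_smul, hlam] at h0
  have h2 : ∑ j ∈ Finset.Icc 1 (L + 1), (-1 : ℝ) ^ (j - 1) * (Nat.choose (L + 1) j : ℝ) *
      (∏ i : Fin (2 * j), tyf Z (fac j i)) n =
      ∑ k ∈ Finset.range (L + 1), (-1 : ℝ) ^ k * (Nat.choose (L + 1) (k + 1) : ℝ) *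
        (∏ i : Fin (2 * (k + 1)), tyf Z (fac (k + 1) i)) n := by
    rw [show Finset.Icc 1 (L + 1) = Finset.Ico 1 (L + 1 + 1) by rfl, Finset.sum_Ico_eq_sum_range,
      Nat.add_sub_cancel]
    refine Finset.sum_congr rfl fun k _ => ?_
    rw [add_comm 1 k, Nat.add_sub_cancel]
  rw [h2]
  have h3 : ∑ k ∈ Finset.range (L + 1), ((-1 : ℤ) ^ (k + 1) * (Nat.choose (L + 1) (k + 1) : ℤ)) •
        (∏ i : Fin (2 * (k + 1)), tyf Z (fac (k + 1) i)) n =
      -∑ k ∈ Finset.range (L + 1), (-1 : ℝ) ^ k * (Nat.choose (L + 1) (k + 1) : ℝ) *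
        (∏ i : Fin (2 * (k + 1)), tyf Z (fac (k + 1) i)) n := by
    rw [← Finset.sum_neg_distrib]
    refine Finset.sum_congr rfl fun k _ => ?_
    rw [zsmul_eq_mul]
    push_cast
    ring
  rw [h3] at h0
  linarith

theorem hb_alg4 {Z : ℝ} (hZ : 1 ≤ Z) {n : ℕ} (hn : (n : ℝ) ≤ Z ^ 4) :
    vonMangoldt n = ∑ j ∈ Finset.Icc 1 4, (-1 : ℝ) ^ (j - 1) * (Nat.choose 4 j : ℝ) *
      (∏ i : Fin (2 * j), tyf Z (fac j i)) n := hb_algK 3 hZ hn

end Pool.Agent.HPX
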