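import Pool.Agent.HPX.RIface

/-!
# HPX/RDefs: the split of the domain, and the sup bound on a cell
-/

namespace Pool.Agent.HPX

open Complex MeasureTheory Pool.Agent.HPP

private theorem rd_Gt_meas {Q : ℕ} (χ : DirichletCharacter ℂ Q) (κ T : ℝ) :
    MeasurableSet (Gt χ κ T) := by
  unfold Gt
  refine (measurableSet_le continuous_abs.measurable measurable_const).inter ?_
  by_cases h : χ = 1
  · simp only [h, forall_const]
    exact measurableSet_le measurable_const continuous_abs.measurable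
  · simp only [h, false_implies]
    exact MeasurableSet.univ

private theorem rd_mx_meas {b m : ℕ} (χ : DirichletCharacter ℂ (b ^ m)) (a : ℝ) :
    MeasurableSet {t : ℝ | a ≤ mx χ t} := by
  unfold mx
  exact measurableSet_le measurable_const (by fun_prop)

theorem rSplit : RSplitProp := by
  classical
  intro b p m J₁ J₂ V x T hb hm hJ hx hT
  have hx0 : 0 < x := by linarith
  have hβ : (1 : ℝ) < b := by
    have := hb.three
    exact_mod_cast (by omega : 1 < b)
  unfold R1 R2 R3
  rw [Finset.sum_filter]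
  simp_rw [Finset.sum_filter]
  rw [Finset.sum_comm, ← Finset.sum_add_distrib, ← Finset.sum_add_distrib]
  refine Finset.sum_le_sum fun χ _ => ?_
  set F : ℝ → ℝ := fun t => ‖cc b p ∅ V χ t‖ * ‖PP χ t x‖ with hF
  have hF0 : ∀ t, 0 ≤ F t := fun t => mul_nonneg (norm_nonneg _) (norm_nonneg _)
  have hFc : Continuous F := (cc_continuous hb hm ∅ V χ).norm.mul (PP_continuous χ hx0).norm
  set S1 : Set ℝ := if lv χ ≤ J₁ then Gt χ (Real.log x) ((b : ℝ) ^ J₁) else ∅ with hS1
  set S2 : ℕ → Set ℝ := fun j => if lv χ ≤ j then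
    Gt χ (Real.log x) T ∩ {t | |t| ≤ (b : ℝ) ^ (j + 1) ∧ (b : ℝ) ^ j ≤ mx χ t} else ∅ with hS2
  set S3 : Set ℝ := {t | |t| ≤ T ∧ (b : ℝ) ^ J₂ ≤ mx χ t} with hS3
  have m1 : MeasurableSet S1 := by
    rw [hS1]; split_ifs
    · exact rd_Gt_meas _ _ _
    · exact MeasurableSet.empty
  have m2 : ∀ j, MeasurableSet (S2 j) := by
    intro j
    simp only [hS2]; split_ifs
    · exact (rd_Gt_meas _ _ _).inter
        ((measurableSet_le continuous_abs.measurable measurable_const).inter (rd_mx_meas χ _))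
    · exact MeasurableSet.empty
  have m3 : MeasurableSet S3 :=
    (measurableSet_le continuous_abs.measurable measurable_const).inter (rd_mx_meas χ _)
  have hint : ∀ (S : Set ℝ) (B : ℝ), S ⊆ Set.Icc (-B) B → IntegrableOn F S := fun S B h =>
    (hFc.continuousOn.integrableOn_Icc).mono_set h
  have s1 : S1 ⊆ Set.Icc (-(b : ℝ) ^ J₁) ((b : ℝ) ^ J₁) := by
    rw [hS1]; split_ifs
    · exact fun t ht => Set.mem_Icc.2 (abs_le.1 ht.1)
    · exact Set.empty_subset _
  have s2 : ∀ j, S2 j ⊆ Set.Icc (-T) T := by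
    intro j
    simp only [hS2]; split_ifs
    · exact fun t ht => Set.mem_Icc.2 (abs_le.1 ht.1.1)
    · exact Set.empty_subset _
  have s3 : S3 ⊆ Set.Icc (-T) T := fun t ht => Set.mem_Icc.2 (abs_le.1 ht.1)
  have s0 : Gt χ (Real.log x) T ⊆ Set.Icc (-T) T := fun t ht => Set.mem_Icc.2 (abs_le.1 ht.1)
  have e1 : (if lv χ ≤ J₁ then ∫ t in Gt χ (Real.log x) ((b : ℝ) ^ J₁), F t else 0) =
      ∫ t, S1.indicator F t := by
    rw [integral_indicator m1, hS1]
    split_ifs
    · rfl
    · rw [setIntegral_empty]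
  have e2 : ∀ j, (if lv χ ≤ j then
      ∫ t in Gt χ (Real.log x) T ∩ {t | |t| ≤ (b : ℝ) ^ (j + 1) ∧ (b : ℝ) ^ j ≤ mx χ t}, F t else 0) =
      ∫ t, (S2 j).indicator F t := by
    intro j
    rw [integral_indicator (m2 j)]
    simp only [hS2]
    split_ifs
    · rfl
    · rw [setIntegral_empty]
  have i1 : Integrable (S1.indicator F) := (hint S1 _ s1).integrable_indicator m1
  have i2 : ∀ j, Integrable ((S2 j).indicator F) := fun j =>
    (hint (S2 j) _ (s2 j)).integrable_indicator (m2 j)
  have i3 : Integrable (S3.indicator F) := (hint S3 _ s3).integrable_indicator m3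
  have i2s : Integrable (fun t => ∑ j ∈ Finset.Ico J₁ J₂, (S2 j).indicator F t) :=
    integrable_finsetSum _ fun j _ => i2 j
  show ∫ t in Gt χ (Real.log x) T, F t ≤
    (if lv χ ≤ J₁ then ∫ t in Gt χ (Real.log x) ((b : ℝ) ^ J₁), F t else 0) +
    (∑ j ∈ Finset.Ico J₁ J₂, if lv χ ≤ j then
      ∫ t in Gt χ (Real.log x) T ∩ {t | |t| ≤ (b : ℝ) ^ (j + 1) ∧ (b : ℝ) ^ j ≤ mx χ t}, F t
      else 0) + ∫ t in S3, F t
  have i12 : Integrable (fun t => S1.indicator F t +
      ∑ j ∈ Finset.Ico J₁ J₂, (S2 j).indicator F t) := i1.add i2s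
  have ia : ∫ t, (S1.indicator F t + ∑ j ∈ Finset.Ico J₁ J₂, (S2 j).indicator F t +
      S3.indicator F t) = (∫ t, S1.indicator F t) +
      (∫ t, ∑ j ∈ Finset.Ico J₁ J₂, (S2 j).indicator F t) + ∫ t, S3.indicator F t := by
    rw [integral_add i12 i3, integral_add i1 i2s]
  rw [e1, Finset.sum_congr rfl fun j _ => e2 j, ← integral_finsetSum _ fun j _ => i2 j,
    ← integral_indicator m3, ← integral_indicator (rd_Gt_meas _ _ _)]
  refine le_trans ?_ (le_of_eq ia)
  refine integral_mono ((hint _ T s0).integrable_indicator (rd_Gt_meas _ _ _))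
    (i12.add i3) fun t => ?_
  show (Gt χ (Real.log x) T).indicator F t ≤
    S1.indicator F t + ∑ j ∈ Finset.Ico J₁ J₂, (S2 j).indicator F t + S3.indicator F t
  have n1 : 0 ≤ S1.indicator F t := Set.indicator_nonneg (fun t _ => hF0 t) t
  have n2 : ∀ j, 0 ≤ (S2 j).indicator F t := fun j => Set.indicator_nonneg (fun t _ => hF0 t) t
  have n2s : 0 ≤ ∑ j ∈ Finset.Ico J₁ J₂, (S2 j).indicator F t := Finset.sum_nonneg fun j _ => n2 j
  have n3 : 0 ≤ S3.indicator F t := Set.indicator_nonneg (fun t _ => hF0 t) t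
  by_cases ht : t ∈ Gt χ (Real.log x) T
  · rw [Set.indicator_of_mem ht]
    by_cases c1 : lv χ ≤ J₁ ∧ |t| ≤ (b : ℝ) ^ J₁
    · have : t ∈ S1 := by
        rw [hS1, if_pos c1.1]
        exact ⟨c1.2, ht.2⟩
      rw [Set.indicator_of_mem this]
      linarith
    · by_cases c3 : (b : ℝ) ^ J₂ ≤ mx χ t
      · have : t ∈ S3 := ⟨ht.1, c3⟩
        rw [Set.indicator_of_mem this]
        linarith
      · push Not at c3
        have c4 : (b : ℝ) ^ J₁ ≤ mx χ t := by
          by_cases c5 : lv χ ≤ J₁
          · have c6 : (b : ℝ) ^ J₁ < |t| := by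
              by_contra h
              exact c1 ⟨c5, not_lt.1 h⟩
            exact c6.le.trans (le_max_right _ _)
          · exact (pow_le_pow_right₀ hβ.le (by omega)).trans (le_max_left _ _)
        -- the cell
        have hex : ∃ j : ℕ, mx χ t < (b : ℝ) ^ (j + 1) := by
          refine ⟨J₂, c3.trans_le (pow_le_pow_right₀ hβ.le (by omega))⟩
        set j := Nat.find hex with hj
        have hj1 : mx χ t < (b : ℝ) ^ (j + 1) := Nat.find_spec hex
        have hJ1j : J₁ ≤ j := by
          by_contra h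
          have : (b : ℝ) ^ (j + 1) ≤ (b : ℝ) ^ J₁ := pow_le_pow_right₀ hβ.le (by omega)
          linarith
        have hJ12 : J₁ < J₂ := by
          by_contra h
          have : (b : ℝ) ^ J₂ ≤ (b : ℝ) ^ J₁ := pow_le_pow_right₀ hβ.le (by omega)
          linarith
        have hjJ2 : j < J₂ := by
          have : j ≤ J₂ - 1 := Nat.find_min' hex (by
            have h4 : J₂ - 1 + 1 = J₂ := by omega
            rw [h4]; exact c3)
          omega
        have hj2 : (b : ℝ) ^ j ≤ mx χ t := by
          by_cases h0 : j = J₁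
          · rw [h0]; exact c4
          · have h5 : j - 1 < Nat.find hex := by omega
            have h6 := Nat.find_min hex h5
            have h7 : j - 1 + 1 = j := by omega
            rw [h7] at h6
            exact not_lt.1 h6
        have hlv : lv χ ≤ j := by
          by_contra h
          have h5 : (b : ℝ) ^ (j + 1) ≤ (b : ℝ) ^ lv χ := pow_le_pow_right₀ hβ.le (by omega)
          have h6 : (b : ℝ) ^ lv χ ≤ mx χ t := le_max_left _ _
          linarith
        have hmem : t ∈ S2 j := by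
          simp only [hS2]
          rw [if_pos hlv]
          exact ⟨ht, (le_max_right _ _).trans hj1.le, hj2⟩
        have h8 : (S2 j).indicator F t ≤ ∑ j ∈ Finset.Ico J₁ J₂, (S2 j).indicator F t :=
          Finset.single_le_sum (f := fun j => (S2 j).indicator F t) (fun j _ => n2 j)
            (Finset.mem_Ico.2 ⟨hJ1j, hjJ2⟩)
        rw [Set.indicator_of_mem hmem] at h8
        linarith
  · rw [Set.indicator_of_notMem ht]
    linarith

theorem supCell_of (h : SupAll) : ∃ C : ℝ, 1 ≤ C ∧ SupCell C := by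
  obtain ⟨C, hC, h⟩ := h
  refine ⟨C, hC, ?_⟩
  intro b p m j V K hbp hb hV hK hVK hm hj χ t ht h1 h2
  have hb3 := hb.three
  have hβ : (1 : ℝ) < b := by exact_mod_cast (by omega : 1 < b)
  by_cases h0 : lv χ = 0
  · have hlv : χ.FactorsThrough (b ^ 1) := by
      have : NeZero (b ^ m) := ⟨pow_ne_zero m (by omega)⟩
      exact DirichletCharacter.FactorsThrough.mono χ (lv_factors χ) (pow_dvd_pow b (by omega))
        (pow_dvd_pow b hm)
    have e1 : mx χ t = max 1 |t| := by unfold mx; rw [h0, pow_zero]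
    have e2 : (b : ℝ) ^ 2 ≤ max 1 |t| := by
      rw [← e1]
      exact (pow_le_pow_right₀ hβ.le hj).trans h1
    have e3 : (b : ℝ) ^ 1 ≤ (b : ℝ) ^ 2 := pow_le_pow_right₀ hβ.le (by norm_num)
    have e4 : (1 : ℝ) < (b : ℝ) ^ 2 := one_lt_pow₀ hβ (by norm_num)
    have e5 : (b : ℝ) ^ 2 ≤ |t| := by
      rcases le_max_iff.1 e2 with h5 | h5
      · linarith
      · exact h5
    have e6 : max ((b : ℝ) ^ 1) |t| = mx χ t := by
      rw [e1, max_eq_right (e3.trans e5), max_eq_right (by linarith)]
    exact h b p m 1 j V K hbp hb hV hK hVK (le_refl 1) hm χ hlv (by omega) t ht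
      (by rw [e6]; exact h1) (by rw [e6]; exact h2) hj
  · refine h b p m (lv χ) j V K hbp hb hV hK hVK (by omega)
      (lv_le χ (DirichletCharacter.FactorsThrough.same_level χ)) χ (lv_factors χ) ?_ t ht h1 h2 hj
    intro h3 h4
    have := lv_le χ h4
    omega

theorem rDefs : RDefsMod := ⟨rSplit, supCell_of⟩

end Pool.Agent.HPX
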