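import Pool.Agent.HPX.Iface
import Pool.Agent.HPP.ALev

/-!
# HPX/RIface: the parts of `ErrAssembly`

`m = 2^J w`, `x = b^(k-1)`, `T = b^(m + w/4)`; `mx χ t = max (b^(lv χ)) |t|`. The domain `Gt χ (log x) T`
is covered by `A1` (`lv χ ≤ J₁`, `|t| ≤ b^J₁`), `A2 j` (`b^j ≤ mx χ t ≤ b^(j+1)`, `J₁ ≤ j < J₂`) and
`A3` (`b^J₂ ≤ mx χ t`), `J₂ = min m ((k-1)/101)`.
-/

namespace Pool.Agent.HPX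

open Complex MeasureTheory Pool.Agent.HPP

noncomputable def mx {b m : ℕ} (χ : DirichletCharacter ℂ (b ^ m)) (t : ℝ) : ℝ :=
  max ((b : ℝ) ^ lv χ) |t|

open Classical in
/-- low part -/
noncomputable def R1 (b p m J₁ : ℕ) (V : ℝ → ℝ) (x : ℝ) : ℝ :=
  ∑ χ ∈ (Finset.univ : Finset (DirichletCharacter ℂ (b ^ m))).filter (fun χ => lv χ ≤ J₁),
    ∫ t in Gt χ (Real.log x) ((b : ℝ) ^ J₁), ‖cc b p ∅ V χ t‖ * ‖PP χ t x‖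

open Classical in
/-- one middle cell -/
noncomputable def R2 (b p m j : ℕ) (V : ℝ → ℝ) (x T : ℝ) : ℝ :=
  ∑ χ ∈ (Finset.univ : Finset (DirichletCharacter ℂ (b ^ m))).filter (fun χ => lv χ ≤ j),
    ∫ t in Gt χ (Real.log x) T ∩ {t | |t| ≤ (b : ℝ) ^ (j + 1) ∧ (b : ℝ) ^ j ≤ mx χ t},
      ‖cc b p ∅ V χ t‖ * ‖PP χ t x‖

/-- high part -/
noncomputable def R3 (b p m J₂ : ℕ) (V : ℝ → ℝ) (x T : ℝ) : ℝ :=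
  ∑ χ : DirichletCharacter ℂ (b ^ m),
    ∫ t in {t | |t| ≤ T ∧ (b : ℝ) ^ J₂ ≤ mx χ t}, ‖cc b p ∅ V χ t‖ * ‖PP χ t x‖

/-- (RDefs) the split -/
def RSplitProp : Prop := ∀ (b p m J₁ J₂ : ℕ) (V : ℝ → ℝ) (x T : ℝ), Bas b p → 1 ≤ m → J₁ ≤ J₂ →
  1 ≤ x → 0 < T →
  ∑ χ : DirichletCharacter ℂ (b ^ m), ∫ t in Gt χ (Real.log x) T,
      ‖cc b p ∅ V χ t‖ * ‖PP χ t x‖ ≤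
    R1 b p m J₁ V x + ∑ j ∈ Finset.Ico J₁ J₂, R2 b p m j V x T + R3 b p m J₂ V x T

/-- (RDefs) the sup bound on a cell -/
def SupCell (C : ℝ) : Prop := ∀ (b p m j : ℕ) (V : ℝ → ℝ) (K : ℝ), b.Prime → Bas b p →
  (∀ y, 0 ≤ V y ∧ V y ≤ 1) → 0 ≤ K → (∀ y z, |V y - V z| ≤ K * |y - z|) → 1 ≤ m → 2 ≤ j →
  ∀ χ : DirichletCharacter ℂ (b ^ m), ∀ t : ℝ, |t| ≤ (b : ℝ) ^ (m + m / 8) →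
  (b : ℝ) ^ j ≤ mx χ t → mx χ t ≤ (b : ℝ) ^ (j + 1) →
  ‖cc b p ∅ V χ t‖ ≤ C ^ j * (1 + K) * (b : ℝ) ^ (4 - (j : ℝ) / 600) * ((RR b p m ∅).card : ℝ)

/-- (RLow) -/
def RLowProp : Prop := ∀ b : ℕ, b.Prime → 3 ≤ b → ∀ A₁ : ℝ, 1 ≤ A₁ → ∀ ε : ℝ, 0 < ε →
  ∃ x₀ : ℝ, ∀ x : ℝ, x₀ ≤ x → ∀ (p m J₁ : ℕ) (V : ℝ → ℝ), Bas b p → (∀ y, 0 ≤ V y ∧ V y ≤ 1) →
  1 ≤ J₁ → J₁ ≤ m → (b : ℝ) ^ J₁ ≤ (Real.log x) ^ A₁ →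
  R1 b p m J₁ V x ≤ ε * (RR b p m ∅).card * x

/-- (RMid) -/
def RMidProp : Prop := ∃ B₀ : ℝ, 0 ≤ B₀ ∧ ∃ b₀ : ℕ, ∀ b : ℕ, b₀ ≤ b → b.Prime → ∀ K : ℝ, 0 ≤ K →
  ∀ ε : ℝ, 0 < ε → ∃ x₀ : ℝ, ∀ x : ℝ, x₀ ≤ x → ∀ (p m J₁ J₂ : ℕ) (V : ℝ → ℝ) (T : ℝ), Bas b p →
  (∀ y, 0 ≤ V y ∧ V y ≤ 1) → (∀ y z, |V y - V z| ≤ K * |y - z|) → 2 ≤ J₁ → J₁ ≤ J₂ → J₂ ≤ m →
  (b : ℝ) ^ J₂ ≤ x ^ (1 / 100 : ℝ) → (Real.log x) ^ (1200 * (B₀ + 1)) ≤ (b : ℝ) ^ J₁ → 0 < T →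
  T ≤ (b : ℝ) ^ (m + m / 8) →
  ∑ j ∈ Finset.Ico J₁ J₂, R2 b p m j V x T ≤ ε * (RR b p m ∅).card * x

/-- (RHigh) -/
def RHighProp (f₀ : ℝ) : Prop := ∀ f : ℝ, 5 / 12 < f → f < f₀ → ∀ K : ℝ, 0 ≤ K →
  ∃ J₀ : ℕ, ∀ J : ℕ, J₀ ≤ J → ∃ b₀ : ℕ, ∀ b : ℕ, b₀ ≤ b → b.Prime →
  ∀ A : ℝ, 0 < A → ∀ ε : ℝ, 0 < ε → ∃ w₀ : ℕ, ∀ w : ℕ, w₀ ≤ w → ∀ (k p : ℕ) (V : ℝ → ℝ),
  Bas b p → (∀ y, 0 ≤ V y ∧ V y ≤ 1) → (∀ y z, |V y - V z| ≤ K * |y - z|) →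
  (2 : ℝ) * (2 ^ J * w) ≤ f * (k - 1 - w) → (k : ℝ) ≤ A * w →
  R3 b p (2 ^ J * w) (min (2 ^ J * w) ((k - 1) / 101)) V ((b : ℝ) ^ (k - 1))
    ((b : ℝ) ^ (2 ^ J * w + w / 4)) ≤ ε * (RR b p (2 ^ J * w) ∅).card * (b : ℝ) ^ (k - 1)

/-- statements of the modules -/
def RDefsMod : Prop := RSplitProp ∧ (SupAll → ∃ C : ℝ, 1 ≤ C ∧ SupCell C)

def RLowMod : Prop := SWProp → PNTProp → RLowProp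

def RMidMod : Prop := ∀ C : ℝ, 1 ≤ C → SupCell C → LowProp → RMidProp

def RHighMod : Prop := ∀ f₀ : ℝ, 5 / 12 < f₀ → f₀ ≤ 5 / 9 → ∀ C : ℝ, 1 ≤ C → SupCell C →
  EnergyProp → SmallProp → (∀ f, 5 / 12 < f → f < f₀ → ∃ p₁, 1 ≤ p₁ ∧ p₁ < 4 / 3 ∧ BigAt f p₁) →
  RHighProp f₀

def RFinMod : Prop := ∀ f₀ : ℝ, RSplitProp → RLowProp → RMidProp → RHighProp f₀ → ErrX f₀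

end Pool.Agent.HPX
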