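import Pool.Agent.HPX.RIface

/-!
# HPX/RLow: characters of small level and small `t` (Siegel-Walfisz range)
-/

namespace Pool.Agent.HPX

open Complex MeasureTheory Filter Pool.Agent.HPP

/-- the prime polynomial of a character of small level -/
theorem rl_PP {b : ℕ} (hbp : b.Prime) (hb3 : 3 ≤ b) (hSW : SWProp) (hPN : PNTProp) {A : ℝ}
    (hA : 1 ≤ A) : ∃ x₀ : ℝ, ∀ x : ℝ, x₀ ≤ x → ∀ m J1 : ℕ, 1 ≤ J1 →
    (b : ℝ) ^ J1 ≤ (Real.log x) ^ A → ∀ χ : DirichletCharacter ℂ (b ^ m),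
    χ.FactorsThrough (b ^ J1) → ∀ t ∈ Gt χ (Real.log x) ((b : ℝ) ^ J1),
    ‖PP χ t x‖ ≤ 5 * (x * Real.exp (-Real.sqrt (Real.log x))) := by
  obtain ⟨x1, h1⟩ := hSW b hbp hb3 A hA
  obtain ⟨x2, h2⟩ := hPN b (by omega) A hA
  refine ⟨max (max x1 x2) (Real.exp 4), fun x hx m J1 hJ1 hq χ hχ t ht => ?_⟩
  have hx1 : x1 ≤ x := (le_max_left _ _).trans ((le_max_left _ _).trans hx)
  have hx2 : x2 ≤ x := (le_max_right _ _).trans ((le_max_left _ _).trans hx)
  have hx3 : Real.exp 4 ≤ x := (le_max_right _ _).trans hx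
  have hx0 : 0 < x := lt_of_lt_of_le (Real.exp_pos _) hx3
  have hlog : 4 ≤ Real.log x := by
    rw [Real.le_log_iff_exp_le hx0]; exact hx3
  have htT : |t| ≤ (Real.log x) ^ A := ht.1.trans hq
  have hb0 : b ^ m ≠ 0 := pow_ne_zero m (by omega)
  have : NeZero (b ^ m) := ⟨hb0⟩
  have hE : 0 < x * Real.exp (-Real.sqrt (Real.log x)) := mul_pos hx0 (Real.exp_pos _)
  rw [PP_induced (by omega) hJ1 χ hχ t x]
  by_cases h0 : χ = 1
  · have h3 : hχ.χ₀ = 1 := by
      apply DirichletCharacter.changeLevel_injective hχ.dvd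
      rw [← hχ.eq_changeLevel, DirichletCharacter.changeLevel_one]
      exact h0
    rw [h3]
    have h4 := h2 x hx2 J1 hJ1 t htT
    have h5 : Real.log x ≤ |t| := ht.2 h0
    have h6 : ‖(x : ℂ) * (x : ℂ) ^ (t * I) * GG t‖ ≤
        4 * (x * Real.exp (-Real.sqrt (Real.log x))) := by
      rw [norm_mul, norm_mul, Complex.norm_real, Real.norm_of_nonneg hx0.le,
        Complex.norm_cpow_eq_rpow_re_of_pos hx0]
      have h7 : ((t : ℂ) * I).re = 0 := by simp
      rw [h7, Real.rpow_zero, mul_one]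
      have h8 := norm_GG_le t
      have h9 : -t ^ 2 / 4 ≤ -Real.sqrt (Real.log x) := by
        have h10 : (Real.log x) ^ 2 ≤ t ^ 2 := by
          rw [← sq_abs t]
          exact pow_le_pow_left₀ (by linarith) h5 2
        have h11 : Real.sqrt (Real.log x) ≤ Real.log x := by
          rw [Real.sqrt_le_left (by linarith)]
          nlinarith
        nlinarith
      have h12 : Real.exp (-t ^ 2 / 4) ≤ Real.exp (-Real.sqrt (Real.log x)) :=
        Real.exp_le_exp.2 h9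
      calc x * ‖GG t‖ ≤ x * (4 * Real.exp (-Real.sqrt (Real.log x))) :=
            mul_le_mul_of_nonneg_left (h8.trans (by linarith)) hx0.le
        _ = _ := by ring
    have h7 : ‖PP (1 : DirichletCharacter ℂ (b ^ J1)) t x‖ ≤
        ‖PP (1 : DirichletCharacter ℂ (b ^ J1)) t x - (x : ℂ) * (x : ℂ) ^ (t * I) * GG t‖ +
          ‖(x : ℂ) * (x : ℂ) ^ (t * I) * GG t‖ := by
      have := norm_add_le (PP (1 : DirichletCharacter ℂ (b ^ J1)) t x -
        (x : ℂ) * (x : ℂ) ^ (t * I) * GG t) ((x : ℂ) * (x : ℂ) ^ (t * I) * GG t)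
      rwa [sub_add_cancel] at this
    linarith
  · have h3 : hχ.χ₀ ≠ 1 := by
      intro h
      apply h0
      rw [hχ.eq_changeLevel, h, DirichletCharacter.changeLevel_one]
    have h4 := h1 x hx1 J1 hJ1 hq hχ.χ₀ h3 t htT
    linarith

open Classical in
/-- number of characters mod `b ^ m` which factor through `b ^ j` -/
theorem card_factors {b m : ℕ} (hb : 2 ≤ b) (j : ℕ) :
    ((Finset.univ : Finset (DirichletCharacter ℂ (b ^ m))).filter
      (fun χ => χ.FactorsThrough (b ^ j))).card ≤ b ^ j := by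
  have : NeZero (b ^ j) := ⟨pow_ne_zero j (by omega)⟩
  set e : DirichletCharacter ℂ (b ^ m) → DirichletCharacter ℂ (b ^ j) := fun χ =>
    if h : χ.FactorsThrough (b ^ j) then h.χ₀ else 1 with he
  have h1 : ((Finset.univ : Finset (DirichletCharacter ℂ (b ^ m))).filter
      (fun χ => χ.FactorsThrough (b ^ j))).card ≤
      (Finset.univ : Finset (DirichletCharacter ℂ (b ^ j))).card := by
    refine Finset.card_le_card_of_injOn e (fun _ _ => Finset.mem_coe.2 (Finset.mem_univ _)) ?_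
    intro χ hχ ψ hψ hEq
    have hx := (Finset.mem_filter.1 (Finset.mem_coe.1 hχ)).2
    have hy := (Finset.mem_filter.1 (Finset.mem_coe.1 hψ)).2
    have e1 : e χ = hx.χ₀ := by simp only [he]; exact dif_pos hx
    have e2 : e ψ = hy.χ₀ := by simp only [he]; exact dif_pos hy
    rw [e1, e2] at hEq
    rw [hx.eq_changeLevel, hy.eq_changeLevel, hEq]
  refine h1.trans ?_
  rw [Finset.card_univ, ← Nat.card_eq_fintype_card,
    DirichletCharacter.card_eq_totient_of_hasEnoughRootsOfUnity]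
  exact Nat.totient_le _

open Classical in
/-- (R1) characters of level `≤ J1` and `|t| ≤ b ^ J1` -/
theorem rl_sum {b : ℕ} (hbp : b.Prime) (hb3 : 3 ≤ b) (hSW : SWProp) (hPN : PNTProp) {A ε : ℝ}
    (hA : 1 ≤ A) (hε : 0 < ε) : ∃ x₀ : ℝ, ∀ x : ℝ, x₀ ≤ x → ∀ m J1 : ℕ, 1 ≤ m → 1 ≤ J1 →
    (b : ℝ) ^ J1 ≤ (Real.log x) ^ A → ∀ p : ℕ, Bas b p → ∀ V : ℝ → ℝ,
    (∀ y, 0 ≤ V y ∧ V y ≤ 1) →
    ∑ χ ∈ (Finset.univ : Finset (DirichletCharacter ℂ (b ^ m))).filter
        (fun χ => χ.FactorsThrough (b ^ J1)),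
      ∫ t in Gt χ (Real.log x) ((b : ℝ) ^ J1), ‖cc b p ∅ V χ t‖ * ‖PP χ t x‖ ≤
      ε * ((RR b p m ∅).card : ℝ) * x := by
  obtain ⟨x1, h1⟩ := rl_PP hbp hb3 hSW hPN hA
  have hlim : Tendsto (fun u : ℝ => u ^ (4 * A) * Real.exp (-1 * u)) atTop (nhds 0) :=
    tendsto_rpow_mul_exp_neg_mul_atTop_nhds_zero (4 * A) 1 one_pos
  have hsq : Tendsto (fun x : ℝ => Real.sqrt (Real.log x)) atTop atTop :=
    Real.tendsto_sqrt_atTop.comp Real.tendsto_log_atTop
  have hev : ∀ᶠ x : ℝ in atTop,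
      (Real.sqrt (Real.log x)) ^ (4 * A) * Real.exp (-1 * Real.sqrt (Real.log x)) < ε / 10 :=
    (hlim.comp hsq).eventually_lt_const (by positivity)
  obtain ⟨x2, hx2⟩ := eventually_atTop.1 hev
  refine ⟨max (max x1 x2) (Real.exp 1), fun x hx m J1 hm hJ1 hq p hb V hV => ?_⟩
  have hx1' : x1 ≤ x := (le_max_left _ _).trans ((le_max_left _ _).trans hx)
  have hx2' : x2 ≤ x := (le_max_right _ _).trans ((le_max_left _ _).trans hx)
  have hx3 : Real.exp 1 ≤ x := (le_max_right _ _).trans hx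
  have hx0 : 0 < x := lt_of_lt_of_le (Real.exp_pos _) hx3
  have hlog : 1 ≤ Real.log x := by
    rw [Real.le_log_iff_exp_le hx0]; exact hx3
  have hβ0 : (0 : ℝ) < b := by exact_mod_cast (by omega : 0 < b)
  set B : ℝ := (b : ℝ) ^ J1 with hB
  have hB0 : 0 < B := pow_pos hβ0 _
  set R : ℝ := ((RR b p m ∅).card : ℝ) with hR
  have hR0 : 0 ≤ R := Nat.cast_nonneg _
  set Ex : ℝ := Real.exp (-Real.sqrt (Real.log x)) with hEx
  have hEx0 : 0 < Ex := Real.exp_pos _
  have hterm : ∀ χ ∈ (Finset.univ : Finset (DirichletCharacter ℂ (b ^ m))).filter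
        (fun χ => χ.FactorsThrough (b ^ J1)),
      ∫ t in Gt χ (Real.log x) B, ‖cc b p ∅ V χ t‖ * ‖PP χ t x‖ ≤
        (R * (5 * (x * Ex))) * (2 * B) := by
    intro χ hχ
    have hf := (Finset.mem_filter.1 hχ).2
    have hsub : Gt χ (Real.log x) B ⊆ Set.Icc (-B) B := fun t ht => Set.mem_Icc.2 (abs_le.1 ht.1)
    have hvol : volume (Gt χ (Real.log x) B) < ⊤ :=
      lt_of_le_of_lt (measure_mono hsub) (by rw [Real.volume_Icc]; exact ENNReal.ofReal_lt_top)
    have h5 : ‖∫ t in Gt χ (Real.log x) B, ‖cc b p ∅ V χ t‖ * ‖PP χ t x‖‖ ≤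
        (R * (5 * (x * Ex))) * volume.real (Gt χ (Real.log x) B) := by
      refine norm_setIntegral_le_of_norm_le_const hvol fun t ht => ?_
      rw [Real.norm_of_nonneg (mul_nonneg (norm_nonneg _) (norm_nonneg _))]
      exact mul_le_mul (cc_le hb hm ∅ hV χ t) (h1 x hx1' m J1 hJ1 hq χ hf t ht) (norm_nonneg _) hR0
    refine (le_abs_self _).trans (h5.trans ?_)
    refine mul_le_mul_of_nonneg_left ?_ (by positivity)
    have h6 : volume.real (Gt χ (Real.log x) B) ≤ volume.real (Set.Icc (-B) B) :=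
      measureReal_mono hsub (by rw [Real.volume_Icc]; exact ENNReal.ofReal_ne_top)
    refine h6.trans (le_of_eq ?_)
    rw [Real.volume_real_Icc_of_le (by linarith)]
    ring
  refine (Finset.sum_le_sum hterm).trans ?_
  rw [Finset.sum_const, nsmul_eq_mul]
  have hcard : ((((Finset.univ : Finset (DirichletCharacter ℂ (b ^ m))).filter
      (fun χ => χ.FactorsThrough (b ^ J1))).card : ℕ) : ℝ) ≤ B := by
    rw [hB]
    exact_mod_cast card_factors (m := m) (by omega : 2 ≤ b) J1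
  have h7 := hx2 x hx2'
  have h8 : (Real.sqrt (Real.log x)) ^ (4 * A) = (Real.log x) ^ (2 * A) := by
    rw [Real.sqrt_eq_rpow, ← Real.rpow_mul (by linarith)]
    congr 1
    ring
  rw [h8, neg_one_mul] at h7
  have h9 : B * B ≤ (Real.log x) ^ (2 * A) := by
    rw [two_mul, Real.rpow_add (by linarith)]
    exact mul_le_mul hq hq hB0.le (Real.rpow_nonneg (by linarith) _)
  calc ((((Finset.univ : Finset (DirichletCharacter ℂ (b ^ m))).filter
      (fun χ => χ.FactorsThrough (b ^ J1))).card : ℕ) : ℝ) * ((R * (5 * (x * Ex))) * (2 * B))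
      ≤ B * ((R * (5 * (x * Ex))) * (2 * B)) :=
        mul_le_mul_of_nonneg_right hcard (by positivity)
    _ = (B * B) * (10 * R * x * Ex) := by ring
    _ ≤ (Real.log x) ^ (2 * A) * (10 * R * x * Ex) :=
        mul_le_mul_of_nonneg_right h9 (by positivity)
    _ = (Real.log x ^ (2 * A) * Ex) * (10 * R * x) := by ring
    _ ≤ (ε / 10) * (10 * R * x) := mul_le_mul_of_nonneg_right h7.le (by positivity)
    _ = ε * R * x := by ring

theorem rLow : RLowMod := by
  intro hSW hPN b hbp hb3 A₁ hA ε hε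
  obtain ⟨x₀, h₀⟩ := rl_sum hbp hb3 hSW hPN hA hε
  refine ⟨max x₀ 1, fun x hx p m J₁ V hb hV hJ hJm hq => ?_⟩
  refine le_trans ?_ (h₀ x ((le_max_left _ _).trans hx) m J₁ (by omega) hJ hq p hb V hV)
  classical
  unfold R1
  refine Finset.sum_le_sum_of_subset_of_nonneg (fun χ hχ => ?_) fun χ _ _ =>
    integral_nonneg fun t => mul_nonneg (norm_nonneg _) (norm_nonneg _)
  rw [Finset.mem_filter] at hχ ⊢
  refine ⟨Finset.mem_univ _, ?_⟩
  have : NeZero (b ^ m) := ⟨pow_ne_zero m (by omega)⟩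
  exact DirichletCharacter.FactorsThrough.mono χ (lv_factors χ) (pow_dvd_pow b hχ.2)
    (pow_dvd_pow b hJm)

end Pool.Agent.HPX
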