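import Pool.Agent.HPX.RIface
import Pool.Agent.HPP.APP

/-!
# HPX/RTool: tools for the error terms

`sum_lv_le`: the characters mod `b^m` of level `≤ n` inject into the characters mod `b^n`.
`Gt_induced`: the sets `Gt` of a character and of the inducing character agree.
-/

namespace Pool.Agent.HPX

open Complex MeasureTheory Pool.Agent.HPP

theorem lv_le_factors {b m n : ℕ} (hb : 2 ≤ b) (hnm : n ≤ m) {χ : DirichletCharacter ℂ (b ^ m)}
    (h : lv χ ≤ n) : χ.FactorsThrough (b ^ n) := by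
  have : NeZero (b ^ m) := ⟨pow_ne_zero m (by omega)⟩
  exact DirichletCharacter.FactorsThrough.mono χ (lv_factors χ) (pow_dvd_pow b h)
    (pow_dvd_pow b hnm)

theorem chi0_eq_one {b m n : ℕ} {χ : DirichletCharacter ℂ (b ^ m)}
    (hb : 2 ≤ b) (hχ : χ.FactorsThrough (b ^ n)) : hχ.χ₀ = 1 ↔ χ = 1 := by
  have : NeZero (b ^ m) := ⟨pow_ne_zero m (by omega)⟩
  constructor
  · intro h
    rw [hχ.eq_changeLevel, h, DirichletCharacter.changeLevel_one]
  · intro h
    have h1 := hχ.eq_changeLevel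
    have h2 : DirichletCharacter.changeLevel hχ.dvd hχ.χ₀ =
        DirichletCharacter.changeLevel hχ.dvd (1 : DirichletCharacter ℂ (b ^ n)) := by
      rw [DirichletCharacter.changeLevel_one, ← h1]
      exact h
    exact DirichletCharacter.changeLevel_injective hχ.dvd h2

theorem Gt_induced {b m n : ℕ} {χ : DirichletCharacter ℂ (b ^ m)}
    (hb : 2 ≤ b) (hχ : χ.FactorsThrough (b ^ n)) (κ T : ℝ) : Gt hχ.χ₀ κ T = Gt χ κ T := by
  unfold Gt
  rw [chi0_eq_one hb hχ]

theorem lv_one {b m : ℕ} : lv (1 : DirichletCharacter ℂ (b ^ m)) = 0 := by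
  have h3 : (1 : DirichletCharacter ℂ (b ^ m)).FactorsThrough (b ^ 0) := by
    rw [pow_zero]
    exact ⟨one_dvd _, 1, by rw [DirichletCharacter.changeLevel_one]⟩
  have h4 := lv_le _ h3
  omega

open Classical in
theorem sum_lv_le {b m n : ℕ} (hb : 2 ≤ b) (hnm : n ≤ m)
    (G : DirichletCharacter ℂ (b ^ m) → ℝ) (G' : DirichletCharacter ℂ (b ^ n) → ℝ)
    (h0 : ∀ ψ, 0 ≤ G' ψ)
    (h : ∀ (χ : DirichletCharacter ℂ (b ^ m)) (hχ : χ.FactorsThrough (b ^ n)), G χ ≤ G' hχ.χ₀) :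
    ∑ χ ∈ (Finset.univ : Finset (DirichletCharacter ℂ (b ^ m))).filter (fun χ => lv χ ≤ n), G χ ≤
      ∑ ψ : DirichletCharacter ℂ (b ^ n), G' ψ := by
  set e : DirichletCharacter ℂ (b ^ m) → DirichletCharacter ℂ (b ^ n) := fun χ =>
    if h : χ.FactorsThrough (b ^ n) then h.χ₀ else 1 with he
  have hfac : ∀ χ ∈ (Finset.univ : Finset (DirichletCharacter ℂ (b ^ m))).filter
      (fun χ => lv χ ≤ n), χ.FactorsThrough (b ^ n) := by
    intro χ hχ
    exact lv_le_factors hb hnm (Finset.mem_filter.1 hχ).2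
  have hev : ∀ χ (hχ : χ.FactorsThrough (b ^ n)), e χ = hχ.χ₀ := by
    intro χ hχ
    simp only [he]
    exact dif_pos hχ
  have hinj : Set.InjOn e ((Finset.univ : Finset (DirichletCharacter ℂ (b ^ m))).filter
      (fun χ => lv χ ≤ n) : Finset (DirichletCharacter ℂ (b ^ m))) := by
    intro χ hχ ψ hψ hEq
    have h1 := hfac χ (Finset.mem_coe.1 hχ)
    have h2 := hfac ψ (Finset.mem_coe.1 hψ)
    rw [hev χ h1, hev ψ h2] at hEq
    rw [h1.eq_changeLevel, h2.eq_changeLevel, hEq]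
  calc ∑ χ ∈ (Finset.univ : Finset (DirichletCharacter ℂ (b ^ m))).filter
        (fun χ => lv χ ≤ n), G χ
      ≤ ∑ χ ∈ (Finset.univ : Finset (DirichletCharacter ℂ (b ^ m))).filter
        (fun χ => lv χ ≤ n), G' (e χ) := by
        refine Finset.sum_le_sum fun χ hχ => ?_
        rw [hev χ (hfac χ hχ)]
        exact h χ (hfac χ hχ)
    _ = ∑ ψ ∈ ((Finset.univ : Finset (DirichletCharacter ℂ (b ^ m))).filter
        (fun χ => lv χ ≤ n)).image e, G' ψ := (Finset.sum_image hinj).symm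
    _ ≤ ∑ ψ : DirichletCharacter ℂ (b ^ n), G' ψ :=
        Finset.sum_le_sum_of_subset_of_nonneg (Finset.subset_univ _) fun χ _ _ => h0 χ

open Classical in
/-- the number of characters of level `≤ n` -/
theorem card_lv_le {b m n : ℕ} (hb : 2 ≤ b) (hnm : n ≤ m) :
    (((Finset.univ : Finset (DirichletCharacter ℂ (b ^ m))).filter
      (fun χ => lv χ ≤ n)).card : ℝ) ≤ (b : ℝ) ^ n := by
  have : NeZero (b ^ n) := ⟨pow_ne_zero n (by omega)⟩
  have h1 := sum_lv_le hb hnm (fun _ => 1) (fun _ => 1) (fun _ => zero_le_one)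
    (fun _ _ => le_refl _)
  rw [Finset.sum_const, Finset.sum_const, nsmul_eq_mul, nsmul_eq_mul, mul_one, mul_one] at h1
  refine h1.trans ?_
  rw [Finset.card_univ]
  have h2 : Fintype.card (DirichletCharacter ℂ (b ^ n)) = (b ^ n).totient := by
    rw [← Nat.card_eq_fintype_card, DirichletCharacter.card_eq_totient_of_hasEnoughRootsOfUnity]
  rw [h2]
  exact_mod_cast Nat.totient_le _

theorem Gt_measurable {Q : ℕ} (χ : DirichletCharacter ℂ Q) (κ T : ℝ) :
    MeasurableSet (Gt χ κ T) := by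
  by_cases h : χ = 1
  · have h1 : Gt χ κ T = {t : ℝ | |t| ≤ T} ∩ {t : ℝ | κ ≤ |t|} := by
      ext t
      simp [Gt, h]
    rw [h1]
    exact (measurableSet_le continuous_abs.measurable measurable_const).inter
      (measurableSet_le measurable_const continuous_abs.measurable)
  · have h1 : Gt χ κ T = {t : ℝ | |t| ≤ T} := by
      ext t
      simp [Gt, h]
    rw [h1]
    exact measurableSet_le continuous_abs.measurable measurable_const

theorem prod_continuous {b p m : ℕ} (hb : Bas b p) (hm : 1 ≤ m) (V : ℝ → ℝ)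
    (χ : DirichletCharacter ℂ (b ^ m)) {x : ℝ} (hx : 0 < x) :
    Continuous fun t : ℝ => ‖cc b p ∅ V χ t‖ * ‖PP χ t x‖ :=
  (cc_continuous hb hm ∅ V χ).norm.mul (PP_continuous χ hx).norm

theorem prod_int {b p m : ℕ} (hb : Bas b p) (hm : 1 ≤ m) (V : ℝ → ℝ)
    (χ : DirichletCharacter ℂ (b ^ m)) {x T : ℝ} (hx : 0 < x) {s : Set ℝ}
    (hs : s ⊆ Set.Icc (-T) T) :
    IntegrableOn (fun t : ℝ => ‖cc b p ∅ V χ t‖ * ‖PP χ t x‖) s :=
  ((prod_continuous hb hm V χ hx).continuousOn.integrableOn_Icc).mono_set hs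

end Pool.Agent.HPX
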