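import Pool.Agent.HPX.SDefs
import Pool.Agent.HPP.DRoot

/-! # HPX/SNd: distance to the nearest integer, geometric sums -/

namespace Pool.Agent.HPX

open Complex Pool.Agent.HPP

lemma nd_nonneg (x : ℝ) : 0 ≤ nd x := abs_nonneg _

lemma nd_le_half (x : ℝ) : nd x ≤ 1 / 2 := abs_sub_round x

lemma nd_le_abs_sub_int (x : ℝ) (k : ℤ) : nd x ≤ |x - k| := round_le x k

lemma nd_add_int (x : ℝ) (k : ℤ) : nd (x + k) = nd x := by
  unfold nd
  rw [round_add_intCast]
  push_cast
  rw [add_sub_add_right_eq_sub]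

lemma nd_sub_int (x : ℝ) (k : ℤ) : nd (x - k) = nd x := by
  have := nd_add_int (x - k) k
  rw [sub_add_cancel] at this
  exact this.symm

lemma nd_neg (x : ℝ) : nd (-x) = nd x := by
  have h : ∀ y : ℝ, nd (-y) ≤ nd y := by
    intro y
    have := nd_le_abs_sub_int (-y) (-round y)
    refine this.trans (le_of_eq ?_)
    unfold nd
    rw [← abs_neg]
    congr 1
    push_cast; ring
  refine le_antisymm (h x) ?_
  have := h (-x)
  rwa [neg_neg] at this

lemma nd_add_le (x y : ℝ) : nd (x + y) ≤ nd x + nd y := by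
  have := nd_le_abs_sub_int (x + y) (round x + round y)
  refine this.trans ?_
  unfold nd
  refine le_trans (le_of_eq ?_) (abs_add_le _ _)
  congr 1
  push_cast; ring

lemma nd_sub_le (x y : ℝ) : nd (x - y) ≤ nd x + nd y := by
  rw [sub_eq_add_neg, ← nd_neg y]
  exact nd_add_le x (-y)

lemma nd_le_add_abs (x y : ℝ) : nd x ≤ nd y + |x - y| := by
  have := nd_le_abs_sub_int x (round y)
  refine this.trans ?_
  unfold nd
  have h : x - round y = (y - round y) + (x - y) := by ring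
  rw [h]
  exact abs_add_le _ _

/-- the main periodicity lemma: integer difference -/
lemma nd_eq_of_sub_eq_int {x y : ℝ} (k : ℤ) (h : x - y = k) : nd x = nd y := by
  have : x = y + k := by linarith
  rw [this, nd_add_int]

lemma gB_nonneg (b : ℕ) (x : ℝ) : 0 ≤ gB b x := by
  unfold gB; positivity

lemma norm_exp_two_pi (x : ℝ) : ‖Complex.exp (2 * Real.pi * I * (x : ℝ))‖ = 1 := by
  rw [show (2 * Real.pi * I * (x : ℝ) : ℂ) = ((2 * Real.pi * x : ℝ) : ℂ) * I by push_cast; ring]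
  exact Complex.norm_exp_ofReal_mul_I _

lemma gB_le_one (b : ℕ) (x : ℝ) : gB b x ≤ 1 := by
  unfold gB
  refine div_le_one_of_le₀ ?_ (Nat.cast_nonneg _)
  refine (norm_sum_le _ _).trans (le_of_eq ?_)
  simp only [norm_exp_two_pi, Finset.sum_const, Finset.card_range, nsmul_eq_mul, mul_one]

lemma gB_add_int (b : ℕ) (x : ℝ) (k : ℤ) : gB b (x + k) = gB b x := by
  unfold gB
  congr 2
  refine Finset.sum_congr rfl fun z _ => ?_
  have h : (2 * Real.pi * I * ((z : ℝ) * (x + k) : ℝ) : ℂ) =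
      2 * Real.pi * I * ((z : ℝ) * x : ℝ) + ((z * k : ℤ) : ℂ) * (2 * Real.pi * I) := by
    push_cast; ring
  rw [h, Complex.exp_add, Complex.exp_int_mul_two_pi_mul_I, mul_one]

lemma gB_le_inv {b : ℕ} (hb : 3 ≤ b) {x : ℝ} (hx : 0 < nd x) : gB b x ≤ 3 / (b * nd x) := by
  set ζ := Complex.exp (2 * Real.pi * I * x) with hζ
  have h4 : 4 * nd x ≤ ‖ζ - 1‖ := norm_e_ge x
  have hpos : 0 < ‖ζ - 1‖ := by linarith
  have hne : ζ ≠ 1 := by
    intro h
    rw [h, sub_self, norm_zero] at hpos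
    exact lt_irrefl _ hpos
  have hs : ∑ z ∈ Finset.range (b / 2), Complex.exp (2 * Real.pi * I * ((z : ℝ) * x : ℝ)) =
      ∑ z ∈ Finset.range (b / 2), ζ ^ z := by
    refine Finset.sum_congr rfl fun z _ => ?_
    rw [hζ, ← Complex.exp_nat_mul]
    congr 1
    push_cast; ring
  have hn : ‖∑ z ∈ Finset.range (b / 2), ζ ^ z‖ ≤ 2 / (4 * nd x) := by
    rw [geom_sum_eq hne, norm_div]
    have h1 : ‖ζ ^ (b / 2) - 1‖ ≤ 2 := by
      refine (norm_sub_le _ _).trans ?_
      rw [norm_pow, norm_one]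
      have : ‖ζ‖ = 1 := norm_exp_two_pi x
      rw [this, one_pow]; norm_num
    exact div_le_div₀ (by norm_num) h1 (by linarith) h4
  have hB : (b : ℝ) ≤ 3 * ((b / 2 : ℕ) : ℝ) := by
    have : b ≤ 3 * (b / 2) := by omega
    exact_mod_cast this
  have hb' : (3 : ℝ) ≤ b := by exact_mod_cast hb
  have hBp : (0 : ℝ) < ((b / 2 : ℕ) : ℝ) := by linarith
  unfold gB
  rw [hs, div_le_div_iff₀ hBp (by positivity)]
  calc ‖∑ z ∈ Finset.range (b / 2), ζ ^ z‖ * (b * nd x) ≤ 2 / (4 * nd x) * (b * nd x) := by gcongr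
    _ = b / 2 := by field_simp; norm_num
    _ ≤ 3 * ((b / 2 : ℕ) : ℝ) := by linarith

open Classical in
lemma gB_le {b : ℕ} (hb : 3 ≤ b) {η : ℝ} (hη : 0 < η) (x : ℝ) :
    gB b x ≤ (if nd x ≤ η then 1 else 0) + 3 / (b * η) := by
  have hb' : (3 : ℝ) ≤ b := by exact_mod_cast hb
  by_cases h : nd x ≤ η
  · rw [if_pos h]
    have h1 := gB_le_one b x
    have : 0 ≤ 3 / (b * η) := by positivity
    linarith
  · rw [if_neg h, zero_add]
    have h1 := not_le.1 h
    refine (gB_le_inv hb (hη.trans h1)).trans ?_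
    gcongr

end Pool.Agent.HPX
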