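import Pool.Agent.HPX.SBas

/-! # HPX/SRR: the sum over patterns as a sum over `Dg` -/

namespace Pool.Agent.HPX

open Complex Pool.Agent.HPP

variable {b p m s L l : ℕ} {D : ℕ → Finset ℕ}

lemma sum_mem_Ds {f : ℕ → ℕ} (h : ∀ i < s, f i ∈ D i) :
    ∑ i ∈ Finset.range s, b ^ i * f i ∈ Ds b D s := by
  induction s with
  | zero => simp [Ds]
  | succ s ih =>
    rw [Finset.sum_range_succ]
    exact mem_Ds_succ.2 ⟨_, ih fun i hi => h i (by omega), _, h s (by omega), rfl⟩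

lemma dg_sum {f : ℕ → ℕ} (h : ∀ i < s, f i < b) : ∀ i < s,
    dg b (∑ j ∈ Finset.range s, b ^ j * f j) i = f i := by
  induction s with
  | zero => intro i hi; omega
  | succ s ih =>
    intro i hi
    rw [Finset.sum_range_succ]
    rcases Nat.lt_or_ge i s with h1 | h1
    · rw [dg_add_lt h1, ih (fun i hi => h i (by omega)) i h1]
    · obtain rfl : i = s := by omega
      have hlt : ∑ j ∈ Finset.range i, b ^ j * f j < b ^ i := by
        refine Ds_lt (D := fun _ => Finset.range b) (fun _ => Finset.Subset.refl _) ?_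
        exact sum_mem_Ds fun j hj => Finset.mem_range.2 (h j (by omega))
      have := dg_add_ge (b := b) (z := f i) hlt 0
      rw [add_zero] at this
      rw [this, dg_of_lt (h i (by omega))]

lemma sum_dg {n : ℕ} (hD : ∀ i, D i ⊆ Finset.range b) (h : n ∈ Ds b D s) :
    ∑ i ∈ Finset.range s, b ^ i * dg b n i = n := by
  induction s generalizing n with
  | zero => simp only [Ds, Finset.mem_singleton] at h; simp [h]
  | succ s ih =>
    obtain ⟨x, hx, z, hz, rfl⟩ := mem_Ds_succ.1 h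
    rw [Finset.sum_range_succ]
    have e1 : ∑ i ∈ Finset.range s, b ^ i * dg b (x + b ^ s * z) i = x := by
      rw [← ih hx]
      refine Finset.sum_congr rfl fun i hi => ?_
      rw [ih hx, dg_add_lt (Finset.mem_range.1 hi)]
    have := dg_add_ge (b := b) (z := z) (Ds_lt hD hx) 0
    rw [add_zero] at this
    rw [e1, this, dg_of_lt (Finset.mem_range.1 (hD s hz))]

lemma Sd_eq (i : ℕ) : Sd b p ∅ i = (Dt b p i).image fun d => (d, d) := by
  unfold Sd Dt
  split_ifs with h0 h1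
  · simp
  · simp at h1
  · rfl

lemma mem_Sd {i : ℕ} {x : ℕ × ℕ} : x ∈ Sd b p ∅ i ↔ x.1 ∈ Dt b p i ∧ x.2 = x.1 := by
  rw [Sd_eq, Finset.mem_image]
  constructor
  · rintro ⟨d, hd, rfl⟩; exact ⟨hd, rfl⟩
  · rintro ⟨h1, h2⟩; exact ⟨x.1, h1, Prod.ext rfl h2.symm⟩

lemma lowv_eq (ω : Fin m → ℕ × ℕ) : lowv b ω =
    ∑ i ∈ Finset.range m, b ^ i * (if h : i < m then (ω ⟨i, h⟩).1 else 0) := by
  unfold lowv
  rw [← Fin.sum_univ_eq_sum_range (fun i => b ^ i * (if h : i < m then (ω ⟨i, h⟩).1 else 0)) m]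
  refine Finset.sum_congr rfl fun i _ => ?_
  rw [dif_pos i.2, mul_comm]

theorem sum_RR {M : Type*} [AddCommMonoid M] (hB : Bas b p) (hm : 1 ≤ m) (F : ℕ → ℝ → M) :
    ∑ ω ∈ RR b p m ∅, F (lowv b ω) ((topv b ω : ℝ) / (b : ℝ) ^ (m - 1)) =
      ∑ n ∈ Dg b p m, F n (yv b m n) := by
  have hp := hB.lt
  have hb : 0 < b := by have := hB.three; omega
  have hb' : (0 : ℝ) < b := by exact_mod_cast hb
  have hdig : ∀ ω ∈ RR b p m ∅, ∀ i : Fin m, dg b (lowv b ω) i = (ω i).1 := by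
    intro ω hω i
    rw [RR, Fintype.mem_piFinset] at hω
    rw [lowv_eq, dg_sum _ i i.2, dif_pos i.2]
    intro j hj
    rw [dif_pos hj]
    exact Finset.mem_range.1 (hDt hp j (mem_Sd.1 (hω ⟨j, hj⟩)).1)
  refine Finset.sum_nbij' (lowv b) (fun n i => (dg b n i, dg b n i)) ?_ ?_ ?_ ?_ ?_
  · intro ω hω
    rw [RR, Fintype.mem_piFinset] at hω
    rw [lowv_eq]
    refine sum_mem_Ds fun j hj => ?_
    rw [dif_pos hj]
    exact (mem_Sd.1 (hω ⟨j, hj⟩)).1
  · intro n hn
    rw [RR, Fintype.mem_piFinset]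
    intro i
    exact mem_Sd.2 ⟨dg_mem (hDt hp) hn i.2, rfl⟩
  · intro ω hω
    funext i
    have h1 := hdig ω hω i
    rw [RR, Fintype.mem_piFinset] at hω
    have h2 := (mem_Sd.1 (hω i)).2
    exact Prod.ext h1 (by rw [h2]; exact h1)
  · intro n hn
    rw [lowv_eq]
    conv_rhs => rw [← sum_dg (hDt hp) hn]
    refine Finset.sum_congr rfl fun i hi => ?_
    rw [dif_pos (Finset.mem_range.1 hi)]
  · intro ω hω
    congr 1
    have h1 := hdig ω hω
    rw [RR, Fintype.mem_piFinset] at hω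
    unfold topv yv
    rw [← Fin.sum_univ_eq_sum_range (fun i => (dg b (lowv b ω) i : ℝ) / (b : ℝ) ^ i) m,
      Nat.cast_sum, Finset.sum_div]
    refine Finset.sum_congr rfl fun i _ => ?_
    have h2 := (mem_Sd.1 (hω i)).2
    rw [h1 i, h2, Nat.cast_mul, Nat.cast_pow]
    have h3 : (b : ℝ) ^ (m - 1) = (b : ℝ) ^ (m - 1 - (i : ℕ)) * (b : ℝ) ^ (i : ℕ) := by
      rw [← pow_add]; congr 1; have := i.2; omega
    rw [h3]
    field_simp

lemma card_RR (hB : Bas b p) (hm : 1 ≤ m) : (RR b p m ∅).card = (Dg b p m).card := by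
  rw [Finset.card_eq_sum_ones, Finset.card_eq_sum_ones]
  exact sum_RR hB hm fun _ _ => 1

end Pool.Agent.HPX
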