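import Pool.Agent.HPX.SBas
import Pool.Agent.HPX.SNd
import Pool.Agent.HPX.SRR

/-! # HPX/SA1 -/

namespace Pool.Agent.HPX

open Complex Pool.Agent.HPP

/-- the first digits as a number -/
lemma sa1_sum_dg {b L l : ℕ} {S : ℕ} (hS : S ∈ Zg b L) (hl : l ≤ L) :
    ∑ i ∈ Finset.range l, b ^ i * dg b S i = S % b ^ l := by
  have h1 := Ds_mod (hZ b) hS hl
  have h2 := sum_dg (hZ b) h1
  rw [← h2]
  refine Finset.sum_congr rfl fun i hi => ?_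
  rw [dg_mod (Finset.mem_range.1 hi)]

/-- the congruence for the inverses -/
lemma sa1_inv {b m h M P S R : ℕ} (hb : 0 < b) (hhM : h + M ≤ m) (hMh : M ≤ h)
    (hP : P.Coprime b) (hn : (P + b ^ h * (S + b ^ M * R)).Coprime b) :
    ((b : ℤ) ^ (h + M)) ∣ (iv b m (P + b ^ h * (S + b ^ M * R)) : ℤ) - (iv b m P : ℤ) +
      (b : ℤ) ^ h * S * (iv b m P : ℤ) ^ 2 := by
  have h1 := (iv_mul (m := m) hb hn).of_dvd (pow_dvd_pow b hhM)
  have h2 := (iv_mul (m := m) hb hP).of_dvd (pow_dvd_pow b hhM)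
  set u := iv b m (P + b ^ h * (S + b ^ M * R))
  set v := iv b m P
  rw [← ZMod.natCast_eq_natCast_iff] at h1 h2
  have hB : ((b : ZMod (b ^ (h + M))) ^ h) * (b : ZMod (b ^ (h + M))) ^ M = 0 := by
    rw [← pow_add]
    exact_mod_cast ZMod.natCast_self (b ^ (h + M))
  have hB2 : ((b : ZMod (b ^ (h + M))) ^ h) * (b : ZMod (b ^ (h + M))) ^ h = 0 := by
    obtain ⟨c, rfl⟩ := Nat.exists_eq_add_of_le hMh
    have : ((b : ZMod (b ^ (M + c + M))) ^ (M + c)) * (b : ZMod (b ^ (M + c + M))) ^ (M + c) =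
      (((b : ZMod (b ^ (M + c + M))) ^ (M + c)) * (b : ZMod (b ^ (M + c + M))) ^ M) *
        (b : ZMod (b ^ (M + c + M))) ^ c := by
      rw [pow_add]; ring
    rw [this, hB, zero_mul]
  push_cast at h1 h2
  have key : ((((u : ℤ) - (v : ℤ) + (b : ℤ) ^ h * S * (v : ℤ) ^ 2 : ℤ)) : ZMod (b ^ (h + M))) = 0 := by
    push_cast
    have hw : ((v : ZMod (b ^ (h + M))) - (b : ZMod (b ^ (h + M))) ^ h * S * v ^ 2) *
        (P + (b : ZMod (b ^ (h + M))) ^ h * (S + (b : ZMod (b ^ (h + M))) ^ M * R)) = 1 := by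
      linear_combination (1 - (b : ZMod (b ^ (h + M))) ^ h * S * v) * h2 -
        (S : ZMod (b ^ (h + M))) ^ 2 * v ^ 2 * hB2 +
        (R * v - R * (b : ZMod (b ^ (h + M))) ^ h * S * v ^ 2) * hB
    linear_combination ((v : ZMod (b ^ (h + M))) - (b : ZMod (b ^ (h + M))) ^ h * S * v ^ 2) * h1 -
      (u : ZMod (b ^ (h + M))) * hw
  rw [ZMod.intCast_zmod_eq_zero_iff_dvd] at key
  push_cast at key
  exact key

theorem sA1 : SA1Prop := by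
  intro b p m m' s h M a t hbp hB hb100 hm' hsm hm'e hhM hMh ht P hP S hS R hR r hr
  have hb : 0 < b := by omega
  have hb0 : (0 : ℝ) < b := by exact_mod_cast hb
  have hb100' : (100 : ℝ) ≤ b := by exact_mod_cast hb100
  have hh1 : 1 ≤ h := by omega
  -- the number
  obtain ⟨W, hW⟩ : ∃ W, W = S + b ^ M * R := ⟨_, rfl⟩
  have hWm : W ∈ Zg b (s - h) := by
    have : s - h = M + (s - (h + M)) := by omega
    rw [this]
    exact mem_Zg_add.2 ⟨S, hS, R, hR, hW.symm⟩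
  have hnm : P + b ^ h * W ∈ Dg b p s := by
    have : s = h + (s - h) := by omega
    rw [this]
    exact (mem_Dg_add hh1).2 ⟨P, hP, W, hWm, rfl⟩
  have hPc : P.Coprime b := Dg_coprime hB hh1 hP
  have hnc : (P + b ^ h * W).Coprime b := Dg_coprime hB (by omega) hnm
  have hPlt : P < b ^ h := Dg_lt hB.lt hP
  -- integer part
  have hdvd := sa1_inv (m := m) (S := S) (R := R) hb (by omega : h + M ≤ m) (by omega : M ≤ h) hPc
    (by rw [← hW]; exact hnc)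
  rw [← hW] at hdvd ⊢
  set u := iv b m (P + b ^ h * W) with hu
  set v := iv b m P with hv
  have hdvd2 : ((b : ℤ) ^ (h + r + 1)) ∣ (u : ℤ) - (v : ℤ) +
      (b : ℤ) ^ h * (∑ i ∈ Finset.range (r + 1), (b : ℤ) ^ i * dg b S i) * (v : ℤ) ^ 2 := by
    have h1 : ((∑ i ∈ Finset.range (r + 1), (b : ℤ) ^ i * dg b S i)) = ((S % b ^ (r + 1) : ℕ) : ℤ) := by
      rw [← sa1_sum_dg hS (by omega : r + 1 ≤ M)]
      push_cast; rfl
    rw [h1]
    have h2 : (S : ℤ) = ((S % b ^ (r + 1) : ℕ) : ℤ) + (b : ℤ) ^ (r + 1) * ((S / b ^ (r + 1) : ℕ) : ℤ) := by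
      exact_mod_cast (Nat.mod_add_div S (b ^ (r + 1))).symm
    have h3 : ((b : ℤ) ^ (h + r + 1)) ∣ (u : ℤ) - (v : ℤ) + (b : ℤ) ^ h * S * (v : ℤ) ^ 2 :=
      dvd_trans (pow_dvd_pow _ (by omega)) hdvd
    have h4 : ((b : ℤ) ^ (h + r + 1)) ∣
        (b : ℤ) ^ h * ((b : ℤ) ^ (r + 1) * ((S / b ^ (r + 1) : ℕ) : ℤ)) * (v : ℤ) ^ 2 := by
      refine ⟨((S / b ^ (r + 1) : ℕ) : ℤ) * (v : ℤ) ^ 2, ?_⟩
      rw [show h + r + 1 = h + (r + 1) by ring, pow_add (b : ℤ) h (r + 1)]; ring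
    have h5 := dvd_sub h3 h4
    rw [h2] at h5
    have h6 : ∀ A : ℤ, (u : ℤ) - (v : ℤ) + (b : ℤ) ^ h * A * (v : ℤ) ^ 2 =
        (u : ℤ) - (v : ℤ) + (b : ℤ) ^ h * (A + (b : ℤ) ^ (r + 1) * ((S / b ^ (r + 1) : ℕ) : ℤ)) *
          (v : ℤ) ^ 2 - (b : ℤ) ^ h * ((b : ℤ) ^ (r + 1) * ((S / b ^ (r + 1) : ℕ) : ℤ)) * (v : ℤ) ^ 2 := by
      intro A; ring
    rw [h6]
    exact h5
  obtain ⟨k, hk⟩ := hdvd2
  have hkR : (u : ℝ) - (v : ℝ) +
      (b : ℝ) ^ h * (∑ i ∈ Finset.range (r + 1), (b : ℝ) ^ i * dg b S i) * (v : ℝ) ^ 2 =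
      (b : ℝ) ^ (h + r + 1) * k := by exact_mod_cast hk
  -- real part
  have hyP := yv_Dg hB hh1 hP
  have hyn := yv_Dg hB (by omega : 1 ≤ s) hnm
  have hyadd : yv b s (P + b ^ h * W) = yv b h P + yv b (s - h) W / (b : ℝ) ^ h := by
    have : s = h + (s - h) := by omega
    conv_lhs => rw [this]
    exact yv_add hPlt
  have hY0 := yv_nonneg (b := b) (s := s - h) W
  have hY1 := yv_Zg_le (by omega : 2 ≤ b) hWm
  -- split W
  have hsr : s - h = (r + 1) + (s - h - (r + 1)) := by omega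
  obtain ⟨W1, hW1, W2, hW2, hWe⟩ := mem_Zg_add.1 (hsr ▸ hWm)
  have hσ : ∑ i ∈ Finset.range (r + 1), (dg b S i : ℝ) / (b : ℝ) ^ i = yv b (r + 1) W1 := by
    unfold yv
    refine Finset.sum_congr rfl fun i hi => ?_
    have hi' := Finset.mem_range.1 hi
    have e1 : dg b S i = dg b W i := by rw [hW, dg_add_lt (by omega)]
    have e2 : dg b W1 i = dg b W i := by rw [← hWe, dg_add_lt hi']
    rw [e1, e2]
  have hYσ : yv b (s - h) W = yv b (r + 1) W1 + yv b (s - h - (r + 1)) W2 / (b : ℝ) ^ (r + 1) := by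
    conv_lhs => rw [hsr, ← hWe]
    exact yv_add (Zg_lt hW1)
  have hY2 := yv_nonneg (b := b) (s := s - h - (r + 1)) W2
  have hY3 := yv_Zg_le (by omega : 2 ≤ b) hW2
  set y := yv b s (P + b ^ h * W) with hy
  set z := yv b h P with hz
  set Y := yv b (s - h) W with hYd
  set σ := yv b (r + 1) W1 with hσd
  set Y' := yv b (s - h - (r + 1)) W2 with hY'd
  have hp2 : (b : ℝ) / 2 ≤ p := by
    have := hB.gt
    have : (b : ℝ) < 2 * p := by exact_mod_cast this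
    linarith
  have hz0 : (b : ℝ) / 2 ≤ z := le_trans hp2 hyP.1
  have hy0 : (b : ℝ) / 2 ≤ y := le_trans hp2 hyn.1
  have hzp : 0 < z := by linarith
  have hyp : 0 < y := by linarith
  obtain ⟨T, hT⟩ : ∃ T : ℝ, T = t * (b : ℝ) ^ (h + r + 1) / (2 * Real.pi * (b : ℝ) ^ m') := ⟨_, rfl⟩
  have hbm : (0 : ℝ) < (b : ℝ) ^ m' := by positivity
  have hbh : (0 : ℝ) < (b : ℝ) ^ h := by positivity
  have hbr : (0 : ℝ) < (b : ℝ) ^ r := by positivity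
  have hTabs : |T| ≤ (b : ℝ) ^ (1 / 20 : ℝ) * (b : ℝ) ^ (h + r + 1) / (2 * Real.pi) := by
    rw [hT, abs_div, abs_mul, abs_of_pos (by positivity : (0 : ℝ) < (b : ℝ) ^ (h + r + 1)),
      abs_of_pos (by positivity : (0 : ℝ) < 2 * Real.pi * (b : ℝ) ^ m')]
    have h1 : |t| ≤ (b : ℝ) ^ m' * (b : ℝ) ^ (1 / 20 : ℝ) := by
      rw [Real.rpow_add hb0, Real.rpow_natCast] at ht
      exact ht
    rw [div_le_div_iff₀ (by positivity) (by positivity)]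
    calc |t| * (b : ℝ) ^ (h + r + 1) * (2 * Real.pi) ≤
        ((b : ℝ) ^ m' * (b : ℝ) ^ (1 / 20 : ℝ)) * (b : ℝ) ^ (h + r + 1) * (2 * Real.pi) := by gcongr
      _ = _ := by ring
  -- the bracket
  obtain ⟨br, hbr'⟩ : ∃ br : ℝ, br = 1 / y - 1 / z + σ / ((b : ℝ) ^ h * z ^ 2) := ⟨_, rfl⟩
  have hbre : br = -(Y' / ((b : ℝ) ^ h * (b : ℝ) ^ (r + 1) * z ^ 2)) +
      Y ^ 2 / ((b : ℝ) ^ h * (b : ℝ) ^ h * (y * z ^ 2)) := by
    have e1 : σ = Y - Y' / (b : ℝ) ^ (r + 1) := by rw [hYσ]; ring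
    have e2 : Y = (y - z) * (b : ℝ) ^ h := by
      rw [hyadd]; field_simp; ring
    rw [hbr', e1, e2]
    field_simp
    ring
  have hbrabs : |br| ≤ 2 / ((b : ℝ) ^ h * (b : ℝ) ^ r * (b : ℝ) ^ 2) +
      2 / ((b : ℝ) ^ h * (b : ℝ) ^ h * b) := by
    rw [hbre]
    refine (abs_add_le _ _).trans ?_
    rw [abs_neg, abs_of_nonneg (by positivity), abs_of_nonneg (by positivity)]
    have hz2 : ((b : ℝ) / 2) ^ 2 ≤ z ^ 2 := by
      apply pow_le_pow_left₀ (by positivity) hz0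
    gcongr ?_ + ?_
    · rw [div_le_div_iff₀ (by positivity) (by positivity)]
      calc Y' * ((b : ℝ) ^ h * (b : ℝ) ^ r * (b : ℝ) ^ 2) ≤
          ((b : ℝ) / 2) * ((b : ℝ) ^ h * (b : ℝ) ^ r * (b : ℝ) ^ 2) := by gcongr
        _ = 2 * ((b : ℝ) ^ h * (b : ℝ) ^ (r + 1) * ((b : ℝ) / 2) ^ 2) := by rw [pow_succ]; ring
        _ ≤ 2 * ((b : ℝ) ^ h * (b : ℝ) ^ (r + 1) * z ^ 2) := by gcongr
    · rw [div_le_div_iff₀ (by positivity) (by positivity)]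
      calc Y ^ 2 * ((b : ℝ) ^ h * (b : ℝ) ^ h * b) ≤
          ((b : ℝ) / 2) ^ 2 * ((b : ℝ) ^ h * (b : ℝ) ^ h * b) := by gcongr
        _ = 2 * ((b : ℝ) ^ h * (b : ℝ) ^ h * (((b : ℝ) / 2) * ((b : ℝ) / 2) ^ 2)) := by ring
        _ ≤ 2 * ((b : ℝ) ^ h * (b : ℝ) ^ h * (y * z ^ 2)) := by gcongr
  have hTb : |T * br| ≤ 10 * (b : ℝ) ^ (-(19 : ℝ) / 20) := by
    rw [abs_mul]
    have h1 : |T| * |br| ≤ ((b : ℝ) ^ (1 / 20 : ℝ) * (b : ℝ) ^ (h + r + 1) / (2 * Real.pi)) *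
        (2 / ((b : ℝ) ^ h * (b : ℝ) ^ r * (b : ℝ) ^ 2) + 2 / ((b : ℝ) ^ h * (b : ℝ) ^ h * b)) := by
      gcongr
    refine h1.trans ?_
    have h2 : ((b : ℝ) ^ (h + r + 1)) *
        (2 / ((b : ℝ) ^ h * (b : ℝ) ^ r * (b : ℝ) ^ 2) + 2 / ((b : ℝ) ^ h * (b : ℝ) ^ h * b)) ≤
        4 / b := by
      have e1 : (b : ℝ) ^ (h + r + 1) * (2 / ((b : ℝ) ^ h * (b : ℝ) ^ r * (b : ℝ) ^ 2)) = 2 / b := by
        rw [pow_add, pow_add]; field_simp
      have e2 : (b : ℝ) ^ (h + r + 1) * (2 / ((b : ℝ) ^ h * (b : ℝ) ^ h * b)) ≤ 2 / b := by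
        obtain ⟨c, rfl⟩ : ∃ c, h = r + 1 + c := ⟨h - (r + 1), by omega⟩
        have : (b : ℝ) ^ (r + 1 + c + r + 1) * (2 / ((b : ℝ) ^ (r + 1 + c) * (b : ℝ) ^ (r + 1 + c) * b)) =
          2 / (b * (b : ℝ) ^ c) := by
          rw [show r + 1 + c + r + 1 = (r + 1 + c) + (r + 1) by ring, pow_add (b : ℝ) (r + 1 + c) (r + 1),
            pow_add (b : ℝ) (r + 1) c]
          field_simp
        rw [this]
        have hc : (1 : ℝ) ≤ (b : ℝ) ^ c := one_le_pow₀ (by linarith)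
        apply div_le_div_of_nonneg_left (by norm_num) hb0
        nlinarith
      rw [mul_add, e1]
      calc 2 / (b : ℝ) + _ ≤ 2 / b + 2 / b := by gcongr
        _ = 4 / b := by ring
    have h3 : (b : ℝ) ^ (-(19 : ℝ) / 20) = (b : ℝ) ^ (1 / 20 : ℝ) / b := by
      rw [show (-(19 : ℝ) / 20) = 1 / 20 - 1 by norm_num, Real.rpow_sub hb0, Real.rpow_one]
    rw [h3]
    have hpi : 3 < Real.pi := Real.pi_gt_three
    have hX : 0 < (b : ℝ) ^ (1 / 20 : ℝ) := by positivity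
    calc ((b : ℝ) ^ (1 / 20 : ℝ) * (b : ℝ) ^ (h + r + 1) / (2 * Real.pi)) *
        (2 / ((b : ℝ) ^ h * (b : ℝ) ^ r * (b : ℝ) ^ 2) + 2 / ((b : ℝ) ^ h * (b : ℝ) ^ h * b)) =
        ((b : ℝ) ^ (1 / 20 : ℝ) / (2 * Real.pi)) * (((b : ℝ) ^ (h + r + 1)) *
        (2 / ((b : ℝ) ^ h * (b : ℝ) ^ r * (b : ℝ) ^ 2) + 2 / ((b : ℝ) ^ h * (b : ℝ) ^ h * b))) := by ring
      _ ≤ ((b : ℝ) ^ (1 / 20 : ℝ) / (2 * Real.pi)) * (4 / b) := by gcongr
      _ ≤ ((b : ℝ) ^ (1 / 20 : ℝ) / 1) * (10 / b) := by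
        gcongr
        · linarith
        · norm_num
      _ = 10 * ((b : ℝ) ^ (1 / 20 : ℝ) / b) := by ring
  -- assemble
  refine le_trans (nd_le_abs_sub_int _ (a * k)) (le_of_eq_of_le ?_ hTb)
  congr 1
  unfold th gam psi
  rw [← hu, ← hv, ← hy, ← hz]
  have e1 : (b : ℝ) ^ (m' - s) = (b : ℝ) ^ (h + r + 1) * (b : ℝ) ^ (M - 1 - r) := by
    rw [← pow_add]; congr 1; omega
  have e2 : (b : ℝ) ^ m' = (b : ℝ) ^ (h + r + 1) * (b : ℝ) ^ (s + (M - 1 - r)) := by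
    rw [← pow_add]; congr 1; omega
  have e3 : ∑ l ∈ Finset.range (r + 1), (dg b S l : ℝ) *
      ((a : ℝ) * (v : ℝ) ^ 2 / (b : ℝ) ^ (r - l + 1) +
        t * (b : ℝ) ^ (r - l + 1) / (2 * Real.pi * z ^ 2 * (b : ℝ) ^ m')) =
      a * (v : ℝ) ^ 2 * (b : ℝ) ^ h * (∑ i ∈ Finset.range (r + 1), (b : ℝ) ^ i * dg b S i) /
        (b : ℝ) ^ (h + r + 1) + T * (σ / ((b : ℝ) ^ h * z ^ 2)) := by
    rw [← hσ, Finset.mul_sum, Finset.sum_div, Finset.sum_div, Finset.mul_sum, ← Finset.sum_add_distrib]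
    refine Finset.sum_congr rfl fun l hl => ?_
    have hl' : l ≤ r := by have := Finset.mem_range.1 hl; omega
    obtain ⟨c, rfl⟩ := Nat.exists_eq_add_of_le hl'
    have : l + c - l = c := by omega
    rw [this, hT, show h + (l + c) + 1 = h + l + (c + 1) by ring, pow_add (b : ℝ) (h + l) (c + 1),
      pow_add (b : ℝ) h l]
    have hpi := Real.pi_pos
    field_simp
  rw [e3]
  have e4 : (a : ℝ) * u * (b : ℝ) ^ (M - 1 - r) / (b : ℝ) ^ (m' - s) = a * u / (b : ℝ) ^ (h + r + 1) := by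
    rw [e1]; field_simp
  have e5 : t / (2 * Real.pi * y * (b : ℝ) ^ (s + (M - 1 - r))) = T * (1 / y) := by
    rw [hT, e2]
    have hpi := Real.pi_pos
    field_simp
  have e6 : t * (b : ℝ) ^ (h + r + 1) / (2 * Real.pi * z * (b : ℝ) ^ m') = T * (1 / z) := by
    rw [hT]
    have hpi := Real.pi_pos
    field_simp
  rw [e4, e5, e6, hbr']
  push_cast
  have e7 : (a : ℝ) * u / (b : ℝ) ^ (h + r + 1) - a * v / (b : ℝ) ^ (h + r + 1) +
      a * (v : ℝ) ^ 2 * (b : ℝ) ^ h * (∑ i ∈ Finset.range (r + 1), (b : ℝ) ^ i * dg b S i) /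
        (b : ℝ) ^ (h + r + 1) = a * k := by
    have hne : (b : ℝ) ^ (h + r + 1) ≠ 0 := by positivity
    rw [← sub_div, ← add_div, div_eq_iff hne]
    linear_combination (a : ℝ) * hkR
  linear_combination e7

end Pool.Agent.HPX
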