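import Pool.Agent.HPX.SBas
import Pool.Agent.HPX.SNd

/-! # HPX/SA2 -/

namespace Pool.Agent.HPX

open Complex Pool.Agent.HPP

private lemma ext_dg {b : ℕ} (hb : 1 ≤ b) : ∀ (M : ℕ) {x y : ℕ}, x < b ^ M → y < b ^ M →
    (∀ l < M, dg b x l = dg b y l) → x = y := by
  intro M
  induction M with
  | zero =>
    intro x y hx hy _
    simp at hx hy
    omega
  | succ M ih =>
    intro x y hx hy h
    have hbM : 0 < b ^ M := Nat.pow_pos (by omega)
    have h1 : x % b ^ M = y % b ^ M := by
      apply ih (Nat.mod_lt _ hbM) (Nat.mod_lt _ hbM)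
      intro l hl
      rw [dg_mod hl, dg_mod hl]
      exact h l (by omega)
    have h2 : x / b ^ M = y / b ^ M := by
      have hx2 : x / b ^ M < b := by
        rw [Nat.div_lt_iff_lt_mul hbM]
        calc x < b ^ (M + 1) := hx
          _ = b * b ^ M := by ring
      have hy2 : y / b ^ M < b := by
        rw [Nat.div_lt_iff_lt_mul hbM]
        calc y < b ^ (M + 1) := hy
          _ = b * b ^ M := by ring
      have := h M (by omega)
      unfold dg at this
      rw [Nat.mod_eq_of_lt hx2, Nat.mod_eq_of_lt hy2] at this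
      exact this
    rw [← Nat.div_add_mod x (b ^ M), ← Nat.div_add_mod y (b ^ M), h1, h2]

theorem sA2 : SA2Prop := by
  classical
  intro b M K₀ L₂ Γ ψ η G hb hK hL hG hcard
  -- the pigeonhole map
  set T : Finset ((Fin M → ℕ) × (Fin (M - L₂) → ℕ)) :=
    (Fintype.piFinset fun _ : Fin M => Finset.range (b / 2 / K₀ + 1)) ×ˢ
      (Fintype.piFinset fun _ : Fin (M - L₂) => Finset.range K₀) with hT
  have hTc : T.card = (b / 2 / K₀ + 1) ^ M * K₀ ^ (M - L₂) := by
    rw [hT, Finset.card_product, Fintype.card_piFinset, Fintype.card_piFinset]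
    simp
  set A := (Zg b M).filter fun S => ∀ r ∈ G,
    nd (Γ r - ∑ l ∈ Finset.range (r + 1), (dg b S l : ℝ) * ψ (r - l)) ≤ η with hA
  let F : ℕ → (Fin M → ℕ) × (Fin (M - L₂) → ℕ) := fun S =>
    (fun l => dg b S l / K₀, fun l => dg b S (L₂ + l) % K₀)
  have hmaps : ∀ S ∈ A, F S ∈ T := by
    intro S hS
    have hSZ : S ∈ Zg b M := (Finset.mem_filter.mp hS).1
    rw [hT, Finset.mem_product, Fintype.mem_piFinset, Fintype.mem_piFinset]
    refine ⟨fun l => ?_, fun l => ?_⟩
    · have := dg_mem (hZ b) hSZ l.2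
      rw [Finset.mem_range] at this ⊢
      have h3 : dg b S l / K₀ ≤ b / 2 / K₀ := Nat.div_le_div_right this.le
      simp only [F]
      omega
    · simp only [F]
      rw [Finset.mem_range]
      exact Nat.mod_lt _ (by omega)
  obtain ⟨S, hS, S', hS', hne, hFS⟩ := Finset.exists_ne_map_eq_of_card_lt_of_maps_to
    (by rw [hTc]; exact hcard) hmaps
  have hSZ : S ∈ Zg b M := (Finset.mem_filter.mp hS).1
  have hSZ' : S' ∈ Zg b M := (Finset.mem_filter.mp hS').1
  have hF1 : ∀ l < M, dg b S l / K₀ = dg b S' l / K₀ := by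
    intro l hl
    have := congrFun (congrArg Prod.fst hFS) ⟨l, hl⟩
    exact this
  have hF2 : ∀ l, L₂ ≤ l → l < M → dg b S l % K₀ = dg b S' l % K₀ := by
    intro l hl hl2
    have := congrFun (congrArg Prod.snd hFS) ⟨l - L₂, by omega⟩
    simp only [F] at this
    rwa [show L₂ + (l - L₂) = l by omega] at this
  have hbig : ∀ l, L₂ ≤ l → l < M → dg b S l = dg b S' l := by
    intro l hl hl2
    rw [← Nat.div_add_mod (dg b S l) K₀, ← Nat.div_add_mod (dg b S' l) K₀, hF1 l hl2,
      hF2 l hl hl2]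
  have hex : ∃ l, l < M ∧ dg b S l ≠ dg b S' l := by
    by_contra hcon
    push Not at hcon
    exact hne (ext_dg (by omega) M (Zg_lt hSZ) (Zg_lt hSZ') hcon)
  set l₀ := Nat.find hex with hl₀
  have hl₀M : l₀ < M := (Nat.find_spec hex).1
  have hl₀ne : dg b S l₀ ≠ dg b S' l₀ := (Nat.find_spec hex).2
  have hl₀min : ∀ l < l₀, dg b S l = dg b S' l := by
    intro l hl
    by_contra hcon
    exact Nat.find_min hex hl ⟨by omega, hcon⟩
  have hl₀L : l₀ < L₂ := by
    by_contra hcon
    exact hl₀ne (hbig l₀ (by omega) hl₀M)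
  refine ⟨l₀, hl₀L, fun i => if i < M - L₂ then
    ((dg b S (l₀ + i) : ℤ) - dg b S' (l₀ + i)) else 0, ?_, ?_, ?_, ?_⟩
  · have h00 : (if (0 : ℕ) < M - L₂ then ((dg b S (l₀ + 0) : ℤ) - dg b S' (l₀ + 0)) else 0) =
        (dg b S l₀ : ℤ) - dg b S' l₀ := if_pos (by omega)
    intro h
    replace h : (if (0 : ℕ) < M - L₂ then ((dg b S (l₀ + 0) : ℤ) - dg b S' (l₀ + 0)) else 0) = 0 := h
    rw [h00] at h
    apply hl₀ne
    have := sub_eq_zero.mp h
    exact_mod_cast this
  · intro i
    beta_reduce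
    split_ifs with hi
    · have h1 := hF1 (l₀ + i) (by omega)
      have h2 := Nat.div_add_mod (dg b S (l₀ + i)) K₀
      have h3 := Nat.div_add_mod (dg b S' (l₀ + i)) K₀
      have h4 := Nat.mod_lt (dg b S (l₀ + i)) (show K₀ > 0 by omega)
      have h5 := Nat.mod_lt (dg b S' (l₀ + i)) (show K₀ > 0 by omega)
      rw [h1] at h2
      rw [abs_lt]
      generalize K₀ * (dg b S' (l₀ + i) / K₀) = q at h2 h3
      omega
    · simp
      omega
  · intro i hi
    exact if_neg (by omega)
  · intro j hj hjG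
    have h1 := (Finset.mem_filter.mp hS).2 _ hjG
    have h2 := (Finset.mem_filter.mp hS').2 _ hjG
    have key : ∑ i ∈ Finset.range (j + 1),
        (((if i < M - L₂ then ((dg b S (l₀ + i) : ℤ) - dg b S' (l₀ + i)) else 0 : ℤ)) : ℝ) *
          ψ (j - i) =
        (Γ (l₀ + j) - ∑ l ∈ Finset.range (l₀ + j + 1), (dg b S' l : ℝ) * ψ (l₀ + j - l)) -
        (Γ (l₀ + j) - ∑ l ∈ Finset.range (l₀ + j + 1), (dg b S l : ℝ) * ψ (l₀ + j - l)) := by
      rw [sub_sub_sub_cancel_left, ← Finset.sum_sub_distrib, show l₀ + j + 1 = l₀ + (j + 1) by ring]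
      have hsplit : ∀ g : ℕ → ℝ, (∀ l < l₀, g l = 0) → ∑ l ∈ Finset.range (l₀ + (j + 1)), g l =
          ∑ i ∈ Finset.range (j + 1), g (l₀ + i) := by
        intro g hg
        rw [Finset.sum_range_add, Finset.sum_eq_zero (s := Finset.range l₀), zero_add]
        intro l hl
        exact hg l (Finset.mem_range.mp hl)
      rw [hsplit _ (fun l hl => by rw [hl₀min l hl, sub_self])]
      apply Finset.sum_congr rfl
      intro i hi
      rw [Finset.mem_range] at hi
      rw [if_pos (by omega), show l₀ + j - (l₀ + i) = j - i by omega]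
      push_cast
      ring
    rw [key]
    refine (nd_sub_le _ _).trans ?_
    linarith

end Pool.Agent.HPX
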