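import Pool.Agent.HPX.SNd

/-! # HPX/SCnt2 -/

namespace Pool.Agent.HPX

open Complex Pool.Agent.HPP

theorem sCnt2 : SCnt2Prop := by
  intro b W c r hb hW hr
  have hbpos : (0 : ℝ) < b := by exact_mod_cast hb.pos
  set S := (Finset.range b).filter fun n : ℕ => nd ((W : ℝ) * n / b + c) ≤ r with hS
  set α : ℝ := -(c * b) - r * b with hα
  set β : ℝ := -(c * b) + r * b with hβ
  let g : ℕ → ℤ := fun n => W * n - round ((W : ℝ) * n / b + c) * b
  have hg : ∀ n ∈ S, g n ∈ Finset.Icc ⌈α⌉ ⌊β⌋ := by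
    intro n hn
    have h1 : nd ((W : ℝ) * n / b + c) ≤ r := (Finset.mem_filter.1 hn).2
    have h2 : |(W : ℝ) * n / b + c - round ((W : ℝ) * n / b + c)| ≤ r := h1
    set k := round ((W : ℝ) * n / b + c) with hk
    have h3 := abs_le.1 h2
    have h4 : ((g n : ℤ) : ℝ) = (W : ℝ) * n - k * b := by
      simp only [g]; push_cast; rw [hk]
    have h5 : ((W : ℝ) * n / b + c - k) * b = (W : ℝ) * n - k * b + c * b := by
      field_simp
      ring
    have h6 : -(r * b) ≤ ((W : ℝ) * n / b + c - k) * b := by nlinarith [h3.1]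
    have h7 : ((W : ℝ) * n / b + c - k) * b ≤ r * b := by nlinarith [h3.2]
    rw [h5] at h6 h7
    rw [Finset.mem_Icc]
    constructor
    · rw [Int.ceil_le, h4, hα]; linarith
    · rw [Int.le_floor, h4, hβ]; linarith
  have hinj : Set.InjOn g S := by
    intro n hn n' hn' hnn
    have h1 : n < b := Finset.mem_range.1 (Finset.mem_filter.1 hn).1
    have h2 : n' < b := Finset.mem_range.1 (Finset.mem_filter.1 hn').1
    have h3 : (b : ℤ) ∣ W * ((n : ℤ) - n') := by
      simp only [g] at hnn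
      refine ⟨round ((W : ℝ) * n / b + c) - round ((W : ℝ) * n' / b + c), ?_⟩
      linarith
    have hp : Prime (b : ℤ) := Nat.prime_iff_prime_int.1 hb
    have h4 : (b : ℤ) ∣ (n : ℤ) - n' := (hp.dvd_or_dvd h3).resolve_left hW
    have h5 : (n : ℤ) - n' = 0 := by
      apply Int.eq_zero_of_abs_lt_dvd h4
      rw [abs_lt]
      constructor <;> omega
    omega
  have hcard : S.card ≤ (Finset.Icc ⌈α⌉ ⌊β⌋).card := by
    refine Finset.card_le_card_of_injOn g ?_ ?_
    · intro n hn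
      exact_mod_cast hg n hn
    · exact hinj
  have h1 : ((Finset.Icc ⌈α⌉ ⌊β⌋).card : ℝ) ≤ 2 * r * b + 1 := by
    rw [Int.card_Icc]
    have h0 : (0 : ℝ) ≤ 2 * r * b + 1 := by positivity
    by_cases h : 0 ≤ ⌊β⌋ + 1 - ⌈α⌉
    · have h2 : (((⌊β⌋ + 1 - ⌈α⌉).toNat : ℕ) : ℝ) = ((⌊β⌋ + 1 - ⌈α⌉ : ℤ) : ℝ) := by
        exact_mod_cast congrArg (fun z : ℤ => (z : ℝ)) (Int.toNat_of_nonneg h)
      rw [h2]
      push_cast
      have h3 := Int.floor_le β
      have h4 := Int.le_ceil α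
      rw [hα] at h4
      rw [hβ] at h3
      linarith
    · have h2 : (⌊β⌋ + 1 - ⌈α⌉).toNat = 0 := by
        apply Int.toNat_of_nonpos
        omega
      rw [h2]
      simpa using h0
  calc (S.card : ℝ) ≤ ((Finset.Icc ⌈α⌉ ⌊β⌋).card : ℝ) := by exact_mod_cast hcard
    _ ≤ 2 * r * b + 1 := h1

end Pool.Agent.HPX
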