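import Pool.Agent.HPX.SSeq
import Pool.Agent.HPX.SCnt2

/-! # HPX/SA3: count of the first halves -/

namespace Pool.Agent.HPX

open Complex Pool.Agent.HPP

variable {b p m m' h a j : ℕ} {t : ℝ} {e : ℕ → ℤ}

/-- `E_j` -/
def EJ (b : ℕ) (e : ℕ → ℤ) (j : ℕ) : ℤ := ∑ i ∈ Finset.range (j + 1), e i * (b : ℤ) ^ i

/-- `Y_j` -/
noncomputable def YJ (b : ℕ) (e : ℕ → ℤ) (j : ℕ) : ℝ :=
  ∑ i ∈ Finset.range (j + 1), (e i : ℝ) / (b : ℝ) ^ i

/-- the phase as a function of `P` -/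
noncomputable def Ph (b m m' h a : ℕ) (t : ℝ) (e : ℕ → ℤ) (P j : ℕ) : ℝ :=
  ∑ i ∈ Finset.range (j + 1), (e i : ℝ) * psi b m m' h a t P (j - i)

lemma Ph_eq (hb : 0 < b) (P j : ℕ) : Ph b m m' h a t e P j =
    (a : ℝ) * (iv b m P : ℝ) ^ 2 * (EJ b e j : ℝ) / (b : ℝ) ^ (j + 1) +
      t * (b : ℝ) ^ (j + 1) * YJ b e j / (2 * Real.pi * (yv b h P) ^ 2 * (b : ℝ) ^ m') := by
  have hb' : (b : ℝ) ≠ 0 := by positivity
  unfold Ph psi EJ YJ
  push_cast
  rw [Finset.mul_sum, Finset.mul_sum, Finset.sum_div, Finset.sum_div, ← Finset.sum_add_distrib]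
  refine Finset.sum_congr rfl fun i hi => ?_
  have hi' : i ≤ j := by have := Finset.mem_range.1 hi; omega
  obtain ⟨c, rfl⟩ := Nat.exists_eq_add_of_le hi'
  rw [Nat.add_sub_cancel_left, mul_add]
  congr 1
  · have : (b : ℝ) ^ (i + c + 1) = (b : ℝ) ^ i * (b : ℝ) ^ (c + 1) := by rw [← pow_add]; ring_nf
    rw [this]
    field_simp
  · have : (b : ℝ) ^ (i + c + 1) = (b : ℝ) ^ i * (b : ℝ) ^ (c + 1) := by rw [← pow_add]; ring_nf
    rw [this]
    have h2 : ((b : ℝ) ^ i * (b : ℝ) ^ (c + 1)) * ((e i : ℝ) / (b : ℝ) ^ i) =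
        (e i : ℝ) * (b : ℝ) ^ (c + 1) := by field_simp
    rw [mul_assoc t, h2]
    ring

lemma YJ_le (hb : 2 ≤ b) {K₀ : ℕ} (he : ∀ i, |e i| < K₀) (j : ℕ) : |YJ b e j| ≤ 2 * K₀ := by
  have hb' : (2 : ℝ) ≤ b := by exact_mod_cast hb
  have h0 : (0 : ℝ) ≤ K₀ := by positivity
  have h1 : ∀ i, |(e i : ℝ) / (b : ℝ) ^ i| ≤ K₀ * (1 / 2) ^ i := by
    intro i
    rw [abs_div, abs_of_pos (by positivity : (0 : ℝ) < (b : ℝ) ^ i), div_eq_mul_inv]
    have h2 : |(e i : ℝ)| ≤ K₀ := by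
      have := (he i).le
      exact_mod_cast this
    have h3 : ((b : ℝ) ^ i)⁻¹ ≤ (1 / 2) ^ i := by
      rw [← inv_pow, one_div]
      gcongr
    gcongr
  calc |YJ b e j| ≤ ∑ i ∈ Finset.range (j + 1), |(e i : ℝ) / (b : ℝ) ^ i| :=
        Finset.abs_sum_le_sum_abs _ _
    _ ≤ ∑ i ∈ Finset.range (j + 1), K₀ * (1 / 2 : ℝ) ^ i := Finset.sum_le_sum fun i _ => h1 i
    _ = K₀ * ∑ i ∈ Finset.range (j + 1), (1 / 2 : ℝ) ^ i := by rw [Finset.mul_sum]
    _ ≤ K₀ * 2 := by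
        gcongr
        rw [geom_sum_eq (by norm_num)]
        have : (0 : ℝ) < (1 / 2) ^ (j + 1) := by positivity
        rw [div_le_iff_of_neg (by norm_num)]
        linarith
    _ = 2 * K₀ := by ring

/-- difference of inverse squares -/
lemma inv_sq_sub {c y y' : ℝ} (hc : 0 < c) (hy : c ≤ y) (hy' : c ≤ y') :
    |(y ^ 2)⁻¹ - (y' ^ 2)⁻¹| ≤ 2 * |y - y'| / c ^ 3 := by
  have h1 : 0 < y := hc.trans_le hy
  have h2 : 0 < y' := hc.trans_le hy'
  have e : (y ^ 2)⁻¹ - (y' ^ 2)⁻¹ = -(y - y') * (1 / (y * y' ^ 2) + 1 / (y ^ 2 * y')) := by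
    field_simp; ring
  rw [e, abs_mul, abs_neg, abs_of_nonneg (by positivity : 0 ≤ 1 / (y * y' ^ 2) + 1 / (y ^ 2 * y'))]
  have h3 : 1 / (y * y' ^ 2) ≤ 1 / c ^ 3 := by
    apply one_div_le_one_div_of_le (by positivity)
    calc c ^ 3 = c * c ^ 2 := by ring
      _ ≤ y * y' ^ 2 := by gcongr
  have h4 : 1 / (y ^ 2 * y') ≤ 1 / c ^ 3 := by
    apply one_div_le_one_div_of_le (by positivity)
    calc c ^ 3 = c ^ 2 * c := by ring
      _ ≤ y ^ 2 * y' := by gcongr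
  calc |y - y'| * (1 / (y * y' ^ 2) + 1 / (y ^ 2 * y')) ≤ |y - y'| * (1 / c ^ 3 + 1 / c ^ 3) := by
        gcongr
    _ = 2 * |y - y'| / c ^ 3 := by ring

/-- the real part as a function of `y` -/
lemma real_part (hb : 2 ≤ b) {K₀ : ℕ} (he : ∀ i, |e i| < K₀)
    (ht : |t| ≤ (b : ℝ) ^ ((m' : ℝ) + 1 / 20)) {y y' : ℝ} (hy : (b : ℝ) / 2 ≤ y)
    (hy' : (b : ℝ) / 2 ≤ y') :
    |t * (b : ℝ) ^ (j + 1) * YJ b e j / (2 * Real.pi * y ^ 2 * (b : ℝ) ^ m') -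
      t * (b : ℝ) ^ (j + 1) * YJ b e j / (2 * Real.pi * y' ^ 2 * (b : ℝ) ^ m')| ≤
      6 * K₀ * (b : ℝ) ^ (1 / 20 : ℝ) * (b : ℝ) ^ (j + 1) * |y - y'| / (b : ℝ) ^ 3 := by
  have hb' : (2 : ℝ) ≤ b := by exact_mod_cast hb
  have hb0 : (0 : ℝ) < b := by linarith
  have hY := YJ_le hb he j
  have hpi := Real.pi_gt_three
  have hI := inv_sq_sub (by positivity : (0 : ℝ) < b / 2) hy hy'
  have ht' : |t| / (b : ℝ) ^ m' ≤ (b : ℝ) ^ (1 / 20 : ℝ) := by
    rw [div_le_iff₀ (by positivity)]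
    refine ht.trans (le_of_eq ?_)
    rw [Real.rpow_add hb0, Real.rpow_natCast, mul_comm]
  have e1 : t * (b : ℝ) ^ (j + 1) * YJ b e j / (2 * Real.pi * y ^ 2 * (b : ℝ) ^ m') -
      t * (b : ℝ) ^ (j + 1) * YJ b e j / (2 * Real.pi * y' ^ 2 * (b : ℝ) ^ m') =
      (t / (b : ℝ) ^ m') * (b : ℝ) ^ (j + 1) * YJ b e j / (2 * Real.pi) *
        ((y ^ 2)⁻¹ - (y' ^ 2)⁻¹) := by
    have h1 : 0 < y := (by positivity : (0 : ℝ) < b / 2).trans_le hy
    have h2 : 0 < y' := (by positivity : (0 : ℝ) < b / 2).trans_le hy'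
    field_simp
  rw [e1, abs_mul, abs_div, abs_mul, abs_mul, abs_div, abs_of_pos (by positivity : (0 : ℝ) <
    (b : ℝ) ^ m'), abs_of_pos (by positivity : (0 : ℝ) < (b : ℝ) ^ (j + 1)),
    abs_of_pos (by positivity : (0 : ℝ) < 2 * Real.pi)]
  calc |t| / (b : ℝ) ^ m' * (b : ℝ) ^ (j + 1) * |YJ b e j| / (2 * Real.pi) *
        |(y ^ 2)⁻¹ - (y' ^ 2)⁻¹| ≤ (b : ℝ) ^ (1 / 20 : ℝ) * (b : ℝ) ^ (j + 1) * (2 * K₀) /
          (2 * 3) * (2 * |y - y'| / (b / 2) ^ 3) := by gcongr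
    _ = (16 / 3) * K₀ * (b : ℝ) ^ (1 / 20 : ℝ) * (b : ℝ) ^ (j + 1) * |y - y'| / (b : ℝ) ^ 3 := by
        field_simp; ring
    _ ≤ _ := by gcongr; norm_num

lemma bigb (hb : 3 ^ 30 ≤ b) {K₀ : ℕ} (hK : (K₀ : ℝ) ≤ (b : ℝ) ^ (1 / 6 : ℝ)) :
    3 * K₀ * (b : ℝ) ^ (1 / 20 : ℝ) ≤ b * (b : ℝ) ^ (-(3 : ℝ) / 4) := by
  have hb' : (3 : ℝ) ^ 30 ≤ b := by exact_mod_cast hb
  have hb0 : (0 : ℝ) < b := by linarith [pow_pos (by norm_num : (0 : ℝ) < 3) 30]
  have h1 : (3 : ℝ) ≤ (b : ℝ) ^ (1 / 30 : ℝ) := by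
    calc (3 : ℝ) = ((3 : ℝ) ^ (30 : ℝ)) ^ (1 / 30 : ℝ) := by
          rw [← Real.rpow_mul (by norm_num)]; norm_num
      _ ≤ _ := by
          refine Real.rpow_le_rpow (by positivity) ?_ (by norm_num)
          rw [show (30 : ℝ) = ((30 : ℕ) : ℝ) by norm_num, Real.rpow_natCast]
          exact hb'
  calc 3 * K₀ * (b : ℝ) ^ (1 / 20 : ℝ) ≤
        (b : ℝ) ^ (1 / 30 : ℝ) * (b : ℝ) ^ (1 / 6 : ℝ) * (b : ℝ) ^ (1 / 20 : ℝ) := by gcongr
    _ = (b : ℝ) ^ (1 / 4 : ℝ) := by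
        rw [← Real.rpow_add hb0, ← Real.rpow_add hb0]; norm_num
    _ = b * (b : ℝ) ^ (-(3 : ℝ) / 4) := by
        nth_rewrite 2 [← Real.rpow_one (b : ℝ)]
        rw [← Real.rpow_add hb0]; norm_num

lemma p_ge (hB : Bas b p) : (b : ℝ) / 2 ≤ p := by
  have := hB.gt
  have : (b : ℝ) < 2 * p := by exact_mod_cast this
  linarith

/-- truncation of `P` -/
lemma Ph_trunc (hB : Bas b p) (hb : 3 ^ 30 ≤ b) {K₀ : ℕ} (hK : (K₀ : ℝ) ≤ (b : ℝ) ^ (1 / 6 : ℝ))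
    (hm : h ≤ m) (he : ∀ i, |e i| < K₀) (ht : |t| ≤ (b : ℝ) ^ ((m' : ℝ) + 1 / 20)) {P : ℕ}
    (hP : P ∈ Dg b p h) (hj : j < h) :
    nd (Ph b m m' (j + 1) a t e (P % b ^ (j + 1)) j) ≤
      nd (Ph b m m' h a t e P j) + (b : ℝ) ^ (-(3 : ℝ) / 4) := by
  have hb2 : 2 ≤ b := by have := hB.three; omega
  have hb0 : 0 < b := by omega
  have hb' : (2 : ℝ) ≤ b := by exact_mod_cast hb2
  obtain ⟨L, rfl⟩ : ∃ L, h = j + 1 + L := ⟨h - (j + 1), by omega⟩
  obtain ⟨x, hx, z, hz, rfl⟩ := (mem_Dg_add (by omega : 1 ≤ j + 1)).1 hP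
  have hxl := Dg_lt hB.lt hx
  rw [Nat.add_mul_mod_self_left, Nat.mod_eq_of_lt hxl]
  set Q := x + b ^ (j + 1) * z with hQ
  have hc1 : x.Coprime b := Dg_coprime hB (by omega) hx
  have hc2 : Q.Coprime b := Dg_coprime hB (by omega) hP
  have hcong : iv b m Q ≡ iv b m x [MOD b ^ (j + 1)] := by
    refine iv_congr hb0 hc2 hc1 (by omega) ?_
    rw [hQ]; simp [Nat.ModEq]
  have hy1 := (yv_Dg hB (by omega : 1 ≤ j + 1) hx).1
  have hy2 := (yv_Dg hB (by omega : 1 ≤ j + 1 + L) hP).1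
  have hp := p_ge hB
  have hR := real_part (t := t) (m' := m') (j := j) hb2 he ht (hp.trans hy2) (hp.trans hy1)
  have hyd : |yv b (j + 1 + L) Q - yv b (j + 1) x| ≤ b / 2 / (b : ℝ) ^ (j + 1) := by
    rw [hQ, yv_add hxl, add_sub_cancel_left, abs_of_nonneg]
    · gcongr
      exact yv_Zg_le hb2 hz
    · have := yv_nonneg (b := b) (s := L) z
      positivity
  -- the integer
  obtain ⟨c, hc⟩ := (Nat.modEq_iff_dvd.1 (hcong.pow 2)).mul_left ((a : ℤ) * EJ b e j)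
  have hcR : (a : ℝ) * (EJ b e j : ℝ) * ((iv b m x : ℝ) ^ 2 - (iv b m Q : ℝ) ^ 2) =
      (b : ℝ) ^ (j + 1) * c := by
    have := congrArg (Int.cast : ℤ → ℝ) hc
    push_cast at this
    exact this
  rw [Ph_eq hb0, Ph_eq hb0]
  have hbj : (0 : ℝ) < (b : ℝ) ^ (j + 1) := by positivity
  set R1 := t * (b : ℝ) ^ (j + 1) * YJ b e j / (2 * Real.pi * yv b (j + 1) x ^ 2 * (b : ℝ) ^ m')
  set R2 := t * (b : ℝ) ^ (j + 1) * YJ b e j /
    (2 * Real.pi * yv b (j + 1 + L) Q ^ 2 * (b : ℝ) ^ m')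
  have e1 : nd ((a : ℝ) * (iv b m x : ℝ) ^ 2 * (EJ b e j : ℝ) / (b : ℝ) ^ (j + 1) + R1) =
      nd ((a : ℝ) * (iv b m Q : ℝ) ^ 2 * (EJ b e j : ℝ) / (b : ℝ) ^ (j + 1) + R1) := by
    refine nd_eq_of_sub_eq_int c ?_
    have : (a : ℝ) * (iv b m x : ℝ) ^ 2 * (EJ b e j : ℝ) / (b : ℝ) ^ (j + 1) + R1 -
        ((a : ℝ) * (iv b m Q : ℝ) ^ 2 * (EJ b e j : ℝ) / (b : ℝ) ^ (j + 1) + R1) =
        ((a : ℝ) * (EJ b e j : ℝ) * ((iv b m x : ℝ) ^ 2 - (iv b m Q : ℝ) ^ 2)) /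
          (b : ℝ) ^ (j + 1) := by ring
    rw [this, hcR]
    field_simp
  rw [e1]
  refine (nd_le_add_abs _ ((a : ℝ) * (iv b m Q : ℝ) ^ 2 * (EJ b e j : ℝ) / (b : ℝ) ^ (j + 1) +
    R2)).trans ?_
  gcongr
  rw [add_sub_add_left_eq_sub, abs_sub_comm]
  refine hR.trans ?_
  have hbig := bigb hb hK
  have hpos : (0 : ℝ) < (b : ℝ) ^ (-(3 : ℝ) / 4) := by positivity
  calc 6 * K₀ * (b : ℝ) ^ (1 / 20 : ℝ) * (b : ℝ) ^ (j + 1) *
        |yv b (j + 1 + L) Q - yv b (j + 1) x| / (b : ℝ) ^ 3 ≤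
        6 * K₀ * (b : ℝ) ^ (1 / 20 : ℝ) * (b : ℝ) ^ (j + 1) * (b / 2 / (b : ℝ) ^ (j + 1)) /
          (b : ℝ) ^ 3 := by gcongr
    _ = (3 * K₀ * (b : ℝ) ^ (1 / 20 : ℝ)) / (b : ℝ) ^ 2 := by field_simp; ring
    _ ≤ (b * (b : ℝ) ^ (-(3 : ℝ) / 4)) / (b : ℝ) ^ 2 := by gcongr
    _ = (b : ℝ) ^ (-(3 : ℝ) / 4) / b := by field_simp
    _ ≤ (b : ℝ) ^ (-(3 : ℝ) / 4) := div_le_self hpos.le (by linarith)

/-- one digit -/
lemma digit_count (hbp : b.Prime) (hB : Bas b p) (hb : 3 ^ 30 ≤ b) {K₀ : ℕ}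
    (hK : (K₀ : ℝ) ≤ (b : ℝ) ^ (1 / 6 : ℝ)) (hm : j + 1 ≤ m) (hj : 1 ≤ j)
    (he : ∀ i, |e i| < K₀) (he0 : e 0 ≠ 0) (ha : ¬ b ∣ a)
    (ht : |t| ≤ (b : ℝ) ^ ((m' : ℝ) + 1 / 20)) {n : ℕ} (hn : n ∈ Dg b p j) :
    (((Finset.range (b / 2)).filter fun z =>
      nd (Ph b m m' (j + 1) a t e (n + b ^ j * z) j) ≤ 5 * (b : ℝ) ^ (-(3 : ℝ) / 4)).card : ℝ) ≤
      ((b / 2 : ℕ) : ℝ) * (51 * (b : ℝ) ^ (-(3 : ℝ) / 4)) := by
  have hb2 : 2 ≤ b := by have := hB.three; omega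
  have hb0 : 0 < b := by omega
  have hb' : (2 : ℝ) ≤ b := by exact_mod_cast hb2
  have hnl := Dg_lt hB.lt hn
  have hcn : n.Coprime b := Dg_coprime hB hj hn
  set u := iv b m n with hu
  set η := (b : ℝ) ^ (-(3 : ℝ) / 4) with hη
  have hη0 : 0 < η := by positivity
  set W : ℤ := -2 * a * EJ b e j * (u : ℤ) ^ 3 with hW
  -- `b` does not divide `W`
  have hbZ : Prime (b : ℤ) := Nat.prime_iff_prime_int.1 hbp
  have hWd : ¬ (b : ℤ) ∣ W := by
    intro hd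
    rw [hW] at hd
    rcases hbZ.dvd_or_dvd hd with hd | hd
    · rcases hbZ.dvd_or_dvd hd with hd | hd
      · rcases hbZ.dvd_or_dvd hd with hd | hd
        · have := Int.le_of_dvd (by norm_num) ((dvd_neg (a := (b : ℤ)) (b := 2)).1 hd)
          have h3 := hB.three
          omega
        · exact ha (by exact_mod_cast hd)
      · have h1 : (b : ℤ) ∣ e 0 := by
          have : EJ b e j = e 0 + b * ∑ i ∈ Finset.range j, e (i + 1) * (b : ℤ) ^ i := by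
            unfold EJ
            rw [Finset.sum_range_succ', Finset.mul_sum, add_comm]
            congr 1
            · simp
            · exact Finset.sum_congr rfl fun i _ => by rw [pow_succ]; ring
          rw [this] at hd
          exact (dvd_add_left (dvd_mul_right _ _)).1 hd
        have h2 : (b : ℤ) ≤ |e 0| := by
          have := Int.le_of_dvd (abs_pos.2 he0) ((dvd_abs _ _).2 h1)
          exact this
        have h3 : (b : ℝ) ≤ K₀ := by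
          have : (b : ℤ) < K₀ := h2.trans_lt (he 0)
          exact_mod_cast this.le
        have h4 : (b : ℝ) ^ (1 / 6 : ℝ) < b := by
          conv_rhs => rw [← Real.rpow_one (b : ℝ)]
          exact Real.rpow_lt_rpow_of_exponent_lt (by linarith) (by norm_num)
        linarith
    · have h1 := hbZ.dvd_of_dvd_pow hd
      have h2 : b ∣ u := by exact_mod_cast h1
      have h3 := iv_coprime (m := m) hb0 (by omega) hcn
      have h4 := Nat.Coprime.eq_one_of_dvd h3.symm h2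
      omega
  set c : ℝ := (a : ℝ) * (EJ b e j : ℝ) * (u : ℝ) ^ 2 / (b : ℝ) ^ (j + 1) +
    t * (b : ℝ) ^ (j + 1) * YJ b e j / (2 * Real.pi * yv b j n ^ 2 * (b : ℝ) ^ m') with hc
  have hcnt := sCnt2 b W c (6 * η) hbp hWd (by positivity)
  have hsub : (((Finset.range (b / 2)).filter fun z =>
      nd (Ph b m m' (j + 1) a t e (n + b ^ j * z) j) ≤ 5 * η).card : ℝ) ≤
      (((Finset.range b).filter fun z : ℕ => nd ((W : ℝ) * z / b + c) ≤ 6 * η).card : ℝ) := by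
    have : ((Finset.range (b / 2)).filter fun z =>
        nd (Ph b m m' (j + 1) a t e (n + b ^ j * z) j) ≤ 5 * η) ⊆
        (Finset.range b).filter fun z : ℕ => nd ((W : ℝ) * z / b + c) ≤ 6 * η := by
      intro z hz
      rw [Finset.mem_filter, Finset.mem_range] at hz ⊢
      obtain ⟨hz1, hz2⟩ := hz
      refine ⟨lt_of_lt_of_le hz1 (Nat.div_le_self _ _), ?_⟩
      set Q := n + b ^ j * z with hQ
      have hQm : Q ∈ Dg b p (j + 1) := by
        refine mem_Ds_succ.2 ⟨n, hn, z, ?_, rfl⟩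
        unfold Dt
        rw [if_neg (by omega)]
        exact Finset.mem_range.2 hz1
      have hcQ : Q.Coprime b := Dg_coprime hB (by omega) hQm
      -- inverse of `Q`
      have hinvZ : ((iv b m Q : ℤ)) ≡ (u : ℤ) - z * b ^ j * u ^ 2 [ZMOD (b : ℤ) ^ (j + 1)] := by
        have h1 : ((iv b m Q : ℤ)) * Q ≡ 1 [ZMOD (b : ℤ) ^ (j + 1)] := by
          have := (iv_mul (m := m) hb0 hcQ).of_dvd (pow_dvd_pow b hm)
          have := (Int.natCast_modEq_iff.2 this)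
          push_cast at this
          exact this
        have h2 : (u : ℤ) * n ≡ 1 [ZMOD (b : ℤ) ^ (j + 1)] := by
          have := (iv_mul (m := m) hb0 hcn).of_dvd (pow_dvd_pow b hm)
          have := (Int.natCast_modEq_iff.2 this)
          push_cast at this
          exact this
        have h3 : (Q : ℤ) * ((u : ℤ) - z * b ^ j * u ^ 2) ≡ 1 [ZMOD (b : ℤ) ^ (j + 1)] := by
          obtain ⟨k, hk⟩ := Int.modEq_iff_dvd.1 h2
          -- `1 - u n = b^(j+1) k`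
          have hun : (u : ℤ) * n = 1 - (b : ℤ) ^ (j + 1) * k := by linarith
          have hbj : (b : ℤ) ^ j * (b : ℤ) ^ j = (b : ℤ) ^ (j + 1) * (b : ℤ) ^ (j - 1) := by
            rw [← pow_add, ← pow_add]; congr 1; omega
          have : (Q : ℤ) * ((u : ℤ) - z * b ^ j * u ^ 2) = 1 + (b : ℤ) ^ (j + 1) *
              (-k + z * b ^ j * u * k - z ^ 2 * (b : ℤ) ^ (j - 1) * u ^ 2) := by
            rw [hQ]
            push_cast
            have e1 : ((n : ℤ) + b ^ j * z) * ((u : ℤ) - z * b ^ j * u ^ 2) =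
              u * n - z * b ^ j * u * (u * n) + b ^ j * z * u -
                z ^ 2 * (b ^ j * b ^ j) * u ^ 2 := by ring
            rw [e1, hun, hbj]; ring
          rw [this]
          simp [Int.ModEq]
        calc ((iv b m Q : ℤ)) = iv b m Q * 1 := (mul_one _).symm
          _ ≡ iv b m Q * (Q * ((u : ℤ) - z * b ^ j * u ^ 2)) [ZMOD (b : ℤ) ^ (j + 1)] :=
              Int.ModEq.mul_left _ h3.symm
          _ = iv b m Q * Q * ((u : ℤ) - z * b ^ j * u ^ 2) := by ring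
          _ ≡ 1 * ((u : ℤ) - z * b ^ j * u ^ 2) [ZMOD (b : ℤ) ^ (j + 1)] :=
              Int.ModEq.mul_right _ h1
          _ = _ := one_mul _
      -- the square
      have hsq : (b : ℤ) ^ (j + 1) ∣ (u : ℤ) ^ 2 - 2 * z * b ^ j * u ^ 3 - (iv b m Q : ℤ) ^ 2 := by
        have h1 := Int.modEq_iff_dvd.1 (hinvZ.pow 2)
        have hbj : (b : ℤ) ^ j * (b : ℤ) ^ j = (b : ℤ) ^ (j + 1) * (b : ℤ) ^ (j - 1) := by
          rw [← pow_add, ← pow_add]; congr 1; omega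
        have e1 : (u : ℤ) ^ 2 - 2 * z * b ^ j * u ^ 3 - (iv b m Q : ℤ) ^ 2 =
            (((u : ℤ) - z * b ^ j * u ^ 2) ^ 2 - (iv b m Q : ℤ) ^ 2) -
              (b : ℤ) ^ (j + 1) * ((b : ℤ) ^ (j - 1) * (z ^ 2 * u ^ 4)) := by
          rw [← mul_assoc ((b : ℤ) ^ (j + 1)), ← hbj]; ring
        rw [e1]
        exact dvd_sub h1 (dvd_mul_right _ _)
      obtain ⟨k, hk⟩ := hsq.mul_left ((a : ℤ) * EJ b e j)
      have hkR : (a : ℝ) * (EJ b e j : ℝ) * ((u : ℝ) ^ 2 - 2 * z * (b : ℝ) ^ j * (u : ℝ) ^ 3 -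
          (iv b m Q : ℝ) ^ 2) = (b : ℝ) ^ (j + 1) * k := by
        have := congrArg (Int.cast : ℤ → ℝ) hk
        push_cast at this
        exact this
      have hy1 := (yv_Dg hB hj hn).1
      have hy2 := (yv_Dg hB (by omega : 1 ≤ j + 1) hQm).1
      have hp := p_ge hB
      have hR := real_part (t := t) (m' := m') (j := j) hb2 he ht (hp.trans hy2) (hp.trans hy1)
      have hyd : |yv b (j + 1) Q - yv b j n| ≤ b / 2 / (b : ℝ) ^ j := by
        rw [hQ, yv_add hnl, add_sub_cancel_left, abs_of_nonneg]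
        · gcongr
          have hz3 : z ∈ Zg b 1 := by simpa [Zg, Ds] using hz1
          exact yv_Zg_le hb2 hz3
        · have := yv_nonneg (b := b) (s := 1) z
          positivity
      set R1 := t * (b : ℝ) ^ (j + 1) * YJ b e j / (2 * Real.pi * yv b j n ^ 2 * (b : ℝ) ^ m')
        with hR1
      set R2 := t * (b : ℝ) ^ (j + 1) * YJ b e j /
        (2 * Real.pi * yv b (j + 1) Q ^ 2 * (b : ℝ) ^ m') with hR2
      rw [Ph_eq hb0, ← hR2] at hz2
      have e1 : nd ((W : ℝ) * z / b + c) =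
          nd ((a : ℝ) * (iv b m Q : ℝ) ^ 2 * (EJ b e j : ℝ) / (b : ℝ) ^ (j + 1) + R1) := by
        refine nd_eq_of_sub_eq_int k ?_
        rw [hc, hW]
        push_cast
        have hbj : (b : ℝ) ^ (j + 1) = (b : ℝ) ^ j * b := pow_succ _ _
        have h5 : (-2 * (a : ℝ) * (EJ b e j : ℝ) * (u : ℝ) ^ 3) * z / b =
            (-2 * (a : ℝ) * (EJ b e j : ℝ) * (u : ℝ) ^ 3) * z * (b : ℝ) ^ j / (b : ℝ) ^ (j + 1) := by
          rw [hbj]; field_simp
        rw [h5]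
        have h6 : (-2 * (a : ℝ) * (EJ b e j : ℝ) * (u : ℝ) ^ 3) * z * (b : ℝ) ^ j /
            (b : ℝ) ^ (j + 1) + ((a : ℝ) * (EJ b e j : ℝ) * (u : ℝ) ^ 2 / (b : ℝ) ^ (j + 1) + R1) -
            ((a : ℝ) * (iv b m Q : ℝ) ^ 2 * (EJ b e j : ℝ) / (b : ℝ) ^ (j + 1) + R1) =
            ((a : ℝ) * (EJ b e j : ℝ) * ((u : ℝ) ^ 2 - 2 * z * (b : ℝ) ^ j * (u : ℝ) ^ 3 -
              (iv b m Q : ℝ) ^ 2)) / (b : ℝ) ^ (j + 1) := by ring
        rw [h6, hkR]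
        field_simp
      rw [e1]
      have hRR : |R2 - R1| ≤ η := by
        refine hR.trans ?_
        have hbig := bigb hb hK
        calc 6 * K₀ * (b : ℝ) ^ (1 / 20 : ℝ) * (b : ℝ) ^ (j + 1) *
              |yv b (j + 1) Q - yv b j n| / (b : ℝ) ^ 3 ≤
              6 * K₀ * (b : ℝ) ^ (1 / 20 : ℝ) * (b : ℝ) ^ (j + 1) * (b / 2 / (b : ℝ) ^ j) /
                (b : ℝ) ^ 3 := by gcongr
          _ = (3 * K₀ * (b : ℝ) ^ (1 / 20 : ℝ)) / (b : ℝ) := by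
              rw [pow_succ]; field_simp; ring
          _ ≤ (b * (b : ℝ) ^ (-(3 : ℝ) / 4)) / (b : ℝ) := by gcongr
          _ = η := by rw [hη]; field_simp
      have h7 := nd_le_add_abs
        ((a : ℝ) * (iv b m Q : ℝ) ^ 2 * (EJ b e j : ℝ) / (b : ℝ) ^ (j + 1) + R1)
        ((a : ℝ) * (iv b m Q : ℝ) ^ 2 * (EJ b e j : ℝ) / (b : ℝ) ^ (j + 1) + R2)
      rw [add_sub_add_left_eq_sub, abs_sub_comm] at h7
      linarith
    exact_mod_cast Finset.card_le_card this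
  have hηb : 1 ≤ η * b := by
    have h1 : η * b = (b : ℝ) ^ (1 / 4 : ℝ) := by
      rw [hη]
      nth_rewrite 2 [← Real.rpow_one (b : ℝ)]
      rw [← Real.rpow_add (by linarith)]; norm_num
    rw [h1]
    exact Real.one_le_rpow (by linarith) (by norm_num)
  have hB3 : (b : ℝ) ≤ 3 * ((b / 2 : ℕ) : ℝ) := by
    have := half_le hB
    exact_mod_cast this
  calc _ ≤ 2 * (6 * η) * b + 1 := hsub.trans hcnt
    _ ≤ 17 * (η * b) := by nlinarith
    _ ≤ 17 * (η * (3 * ((b / 2 : ℕ) : ℝ))) := by gcongr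
    _ = _ := by ring

theorem sA3 : SA3Prop := by
  classical
  refine ⟨3 ^ 30, ?_⟩
  intro b p m m' h a K₀ Λ t e T hbp hB hb hhm hΛ ha hK ht he0 he hT
  have hb2 : 2 ≤ b := by have := hB.three; omega
  set η := (b : ℝ) ^ (-(3 : ℝ) / 4) with hη
  have hη0 : 0 < η := by
    have : (0 : ℝ) < b := by positivity
    positivity
  set f : ℕ → ℕ → ℝ := fun l n => if l ∈ T then
    (if nd (Ph b m m' (l + 1) a t e n l) ≤ 5 * η then 1 else 0) else 1 with hf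
  set ρ : ℕ → ℝ := fun l => if l ∈ T then 51 * η else 1 with hρ
  have hf0 : ∀ l n, 0 ≤ f l n := by
    intro l n; simp only [hf]; split_ifs <;> norm_num
  have hρ0 : ∀ l, 0 ≤ ρ l := by
    intro l; simp only [hρ]; split_ifs
    · positivity
    · norm_num
  have key := sSeq b (Dt b p) h f ρ (by omega) (hDt hB.lt) hf0 hρ0 ?_
  · have hprod : ∏ l ∈ Finset.range h, ρ l = (51 * η) ^ T.card := by
      have hTs : T ⊆ Finset.range h := by
        intro l hl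
        have := Finset.mem_Ico.1 (hT hl)
        exact Finset.mem_range.2 (by omega)
      simp only [hρ]
      rw [Finset.prod_ite, Finset.prod_const, Finset.prod_const_one, mul_one,
        Finset.filter_mem_eq_inter, Finset.inter_eq_right.2 hTs]
    rw [hprod] at key
    refine le_trans ?_ (key.trans (le_of_eq (mul_comm _ _)))
    rw [Finset.card_filter]
    push_cast
    refine Finset.sum_le_sum fun P hP => ?_
    split_ifs with hc
    · refine le_of_eq (Eq.symm (Finset.prod_eq_one fun l hl => ?_))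
      simp only [hf]
      split_ifs with h1 h2
      · rfl
      · exfalso
        apply h2
        have h3 := Finset.mem_range.1 hl
        have h4 := Ph_trunc (a := a) hB hb hK hhm he ht hP h3
        have h5 := hc l h1
        have h6 : nd (Ph b m m' h a t e P l) ≤ 4 * η := h5
        linarith
      · rfl
    · exact Finset.prod_nonneg fun l _ => hf0 _ _
  · intro l hl n hn
    by_cases h1 : l ∈ T
    · simp only [hf, hρ, if_pos h1]
      have hl1 := (Finset.mem_Ico.1 (hT h1)).1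
      have hDl : Dt b p l = Finset.range (b / 2) := by
        unfold Dt; rw [if_neg (by omega)]
      rw [hDl, Finset.card_range]
      have := digit_count (m := m) (m' := m') hbp hB hb hK (by omega : l + 1 ≤ m) hl1 he he0 ha ht hn
      rw [Finset.card_filter] at this
      push_cast at this
      exact this
    · simp only [hf, hρ, if_neg h1]
      simp

end Pool.Agent.HPX
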