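import Pool.Agent.HPX.SA4b

/-! # HPX/SA4: case A -/

namespace Pool.Agent.HPX

theorem sA : SAProp := sA_of sumBound

end Pool.Agent.HPX
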