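import Pool.Agent.HPX.SA1

/-! # HPX/SA4a: from the sum over `Dg s` to the sets `X(P, G)` -/

namespace Pool.Agent.HPX

open Complex Pool.Agent.HPP

/-- `X(P, G)` -/
noncomputable def XX (b m m' h M a : ℕ) (t : ℝ) (P : ℕ) (G : Finset ℕ) : Finset ℕ :=
  (Zg b M).filter fun S => ∀ r ∈ G,
    nd (gam b m m' h a t P r - ∑ l ∈ Finset.range (r + 1), (dg b S l : ℝ) *
      psi b m m' h a t P (r - l)) ≤ 2 * (b : ℝ) ^ (-(3 : ℝ) / 4)

lemma tenle {b : ℕ} (hb : 10 ^ 5 ≤ b) :
    10 * (b : ℝ) ^ (-(19 : ℝ) / 20) ≤ (b : ℝ) ^ (-(3 : ℝ) / 4) := by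
  have hb' : (10 : ℝ) ^ 5 ≤ b := by exact_mod_cast hb
  have hb0 : (0 : ℝ) < b := by linarith
  have h1 : (10 : ℝ) ≤ (b : ℝ) ^ (1 / 5 : ℝ) := by
    calc (10 : ℝ) = ((10 : ℝ) ^ (5 : ℝ)) ^ (1 / 5 : ℝ) := by
          rw [← Real.rpow_mul (by norm_num)]; norm_num
      _ ≤ _ := by
          refine Real.rpow_le_rpow (by positivity) ?_ (by norm_num)
          rw [show (5 : ℝ) = ((5 : ℕ) : ℝ) by norm_num, Real.rpow_natCast]
          exact hb'
  calc 10 * (b : ℝ) ^ (-(19 : ℝ) / 20) ≤ (b : ℝ) ^ (1 / 5 : ℝ) * (b : ℝ) ^ (-(19 : ℝ) / 20) := by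
        gcongr
    _ = _ := by rw [← Real.rpow_add hb0]; norm_num

/-- Steps (a), (b) of S5 -/
theorem sumX {b p m m' s h M a : ℕ} {t : ℝ} (hbp : b.Prime) (hB : Bas b p) (hb : 10 ^ 5 ≤ b)
    (hmm : m' ≤ m) (hsm : s ≤ m) (hm' : m' = s + (h + M)) (hs : h + M ≤ s) (hh : M + 2 ≤ h)
    (ht : |t| ≤ (b : ℝ) ^ ((m' : ℝ) + 1 / 20)) :
    ∑ n ∈ Dg b p s, ∏ r ∈ Finset.range M, gB b (th b m m' s a t r n) ≤
      ((Zg b (s - (h + M))).card : ℝ) * ∑ G ∈ (Finset.range M).powerset,
        (3 * (b : ℝ) ^ (-(1 : ℝ) / 4)) ^ (M - G.card) *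
          ∑ P ∈ Dg b p h, ((XX b m m' h M a t P G).card : ℝ) := by
  classical
  have hb3 := hB.three
  have hb' : (10 : ℝ) ^ 5 ≤ b := by exact_mod_cast hb
  have hb0 : (0 : ℝ) < b := by linarith
  set η := (b : ℝ) ^ (-(3 : ℝ) / 4) with hη
  have hη0 : 0 < η := by positivity
  set δ := 3 * (b : ℝ) ^ (-(1 : ℝ) / 4) with hδ
  have hδ0 : 0 < δ := by positivity
  have hδη : 3 / (b * η) = δ := by
    rw [hδ, hη, div_eq_mul_inv, mul_inv, ← Real.rpow_neg hb0.le, ← Real.rpow_neg_one (b : ℝ),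
      ← Real.rpow_add hb0]
    norm_num
  set A : ℕ → ℕ → ℕ → ℝ := fun P S r => if nd (gam b m m' h a t P r -
    ∑ l ∈ Finset.range (r + 1), (dg b S l : ℝ) * psi b m m' h a t P (r - l)) ≤ 2 * η
    then 1 else 0 with hA
  have hA0 : ∀ P S r, 0 ≤ A P S r := by
    intro P S r; simp only [hA]; split_ifs <;> norm_num
  -- pointwise
  have hpt : ∀ P ∈ Dg b p h, ∀ S ∈ Zg b M, ∀ R ∈ Zg b (s - (h + M)),
      ∏ r ∈ Finset.range M, gB b (th b m m' s a t r (P + b ^ h * (S + b ^ M * R))) ≤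
        ∏ r ∈ Finset.range M, (A P S r + δ) := by
    intro P hP S hS R hR
    rw [← Finset.prod_range_reflect]
    refine Finset.prod_le_prod (fun r _ => gB_nonneg _ _) fun r hr => ?_
    have hr' := Finset.mem_range.1 hr
    have h1 := sA1 b p m m' s h M a t hbp hB (by omega) hmm hsm hm' hs hh ht P hP S hS R hR r hr'
    have h2 := gB_le hb3 hη0 (th b m m' s a t (M - 1 - r) (P + b ^ h * (S + b ^ M * R)))
    rw [hδη] at h2
    refine h2.trans ?_
    gcongr
    simp only [hA]
    set θ := th b m m' s a t (M - 1 - r) (P + b ^ h * (S + b ^ M * R)) with hθ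
    set Sg := ∑ l ∈ Finset.range (r + 1), (dg b S l : ℝ) * psi b m m' h a t P (r - l) with hSg
    set Γ := gam b m m' h a t P r with hΓ
    by_cases h3 : nd θ ≤ η
    · have h4 : nd (Γ - Sg) ≤ 2 * η := by
        have h5 : Γ - Sg = θ - (θ - Γ + Sg) := by ring
        rw [h5]
        refine (nd_sub_le _ _).trans ?_
        have := tenle hb
        have h6 := h1.trans this
        linarith
      rw [if_pos h3, if_pos h4]
    · rw [if_neg h3]
      split_ifs <;> norm_num
  have hind : ∀ P S G, G ⊆ Finset.range M → S ∈ Zg b M → ∏ r ∈ G, A P S r =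
      if S ∈ XX b m m' h M a t P G then 1 else 0 := by
    intro P S G hG hS
    by_cases hX : S ∈ XX b m m' h M a t P G
    · rw [if_pos hX]
      have := (Finset.mem_filter.1 hX).2
      refine Finset.prod_eq_one fun r hr => ?_
      simp only [hA]
      rw [if_pos (this r hr)]
    · rw [if_neg hX]
      have : ∃ r ∈ G, A P S r = 0 := by
        by_contra hcon
        push Not at hcon
        apply hX
        refine Finset.mem_filter.2 ⟨hS, fun r hr => ?_⟩
        have h3 := hcon r hr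
        simp only [hA] at h3
        by_contra h4
        exact h3 (if_neg h4)
      obtain ⟨r, hr, h0⟩ := this
      exact Finset.prod_eq_zero hr h0
  have hexp : ∀ P, ∀ S ∈ Zg b M, ∏ r ∈ Finset.range M, (A P S r + δ) =
      ∑ G ∈ (Finset.range M).powerset, δ ^ (M - G.card) *
        (if S ∈ XX b m m' h M a t P G then 1 else 0) := by
    intro P S hS
    rw [Finset.prod_add]
    refine Finset.sum_congr rfl fun G hG => ?_
    have hG' := Finset.mem_powerset.1 hG
    rw [hind P S G hG' hS, Finset.prod_const, Finset.card_sdiff_of_subset hG', Finset.card_range,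
      mul_comm]
  have hh1 : 1 ≤ h := by omega
  have hsplit : s = h + (M + (s - (h + M))) := by omega
  calc ∑ n ∈ Dg b p s, ∏ r ∈ Finset.range M, gB b (th b m m' s a t r n)
      = ∑ P ∈ Dg b p h, ∑ S ∈ Zg b M, ∑ R ∈ Zg b (s - (h + M)),
          ∏ r ∈ Finset.range M, gB b (th b m m' s a t r (P + b ^ h * (S + b ^ M * R))) := by
        conv_lhs => rw [show Dg b p s = Dg b p (h + (M + (s - (h + M)))) by rw [← hsplit]]
        rw [sum_Dg_add hB.lt hh1]
        refine Finset.sum_congr rfl fun P _ => ?_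
        rw [sum_Zg_add]
    _ ≤ ∑ P ∈ Dg b p h, ∑ S ∈ Zg b M, ∑ R ∈ Zg b (s - (h + M)),
          ∏ r ∈ Finset.range M, (A P S r + δ) :=
        Finset.sum_le_sum fun P hP => Finset.sum_le_sum fun S hS =>
          Finset.sum_le_sum fun R hR => hpt P hP S hS R hR
    _ = ((Zg b (s - (h + M))).card : ℝ) * ∑ P ∈ Dg b p h, ∑ S ∈ Zg b M,
          ∏ r ∈ Finset.range M, (A P S r + δ) := by
        rw [Finset.mul_sum]
        refine Finset.sum_congr rfl fun P _ => ?_
        rw [Finset.mul_sum]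
        refine Finset.sum_congr rfl fun S _ => ?_
        rw [Finset.sum_const, nsmul_eq_mul]
    _ = ((Zg b (s - (h + M))).card : ℝ) * ∑ P ∈ Dg b p h, ∑ S ∈ Zg b M,
          ∑ G ∈ (Finset.range M).powerset, δ ^ (M - G.card) *
            (if S ∈ XX b m m' h M a t P G then 1 else 0) := by
        congr 1
        exact Finset.sum_congr rfl fun P _ => Finset.sum_congr rfl fun S hS => hexp P S hS
    _ = _ := by
        congr 1
        have h1 : ∀ P, ∑ S ∈ Zg b M, ∑ G ∈ (Finset.range M).powerset, δ ^ (M - G.card) *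
            (if S ∈ XX b m m' h M a t P G then (1 : ℝ) else 0) =
            ∑ G ∈ (Finset.range M).powerset, δ ^ (M - G.card) *
              ((XX b m m' h M a t P G).card : ℝ) := by
          intro P
          rw [Finset.sum_comm]
          refine Finset.sum_congr rfl fun G _ => ?_
          rw [← Finset.mul_sum]
          congr 1
          rw [← Finset.sum_filter, Finset.sum_const, nsmul_eq_mul, mul_one]
          congr 2
          ext S
          simp only [Finset.mem_filter]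
          exact ⟨fun h => h.2, fun h => ⟨(Finset.mem_filter.1 h).1, h⟩⟩
        rw [Finset.sum_congr rfl fun P _ => h1 P, Finset.sum_comm]
        refine Finset.sum_congr rfl fun G _ => ?_
        rw [Finset.mul_sum]

end Pool.Agent.HPX
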