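import Pool.Agent.HPX.SDefs

/-! # HPX/SA4c: numerical bounds for case A -/

namespace Pool.Agent.HPX

open Complex Pool.Agent.HPP

/-- many bad positions -/
lemma num1 {b M g : ℕ} (hb : 3 ≤ b) (hg : g ≤ M) (h : M ≤ 30 * g) :
    (3 * (b : ℝ) ^ (-(1 : ℝ) / 4)) ^ g ≤ 3 ^ M * (b : ℝ) ^ (-(M : ℝ) / 120) := by
  have hb1 : (1 : ℝ) ≤ b := by
    have : (3 : ℝ) ≤ b := by exact_mod_cast hb
    linarith
  rw [mul_pow]
  have h1 : (3 : ℝ) ^ g ≤ 3 ^ M := pow_le_pow_right₀ (by norm_num) hg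
  have h2 : ((b : ℝ) ^ (-(1 : ℝ) / 4)) ^ g ≤ (b : ℝ) ^ (-(M : ℝ) / 120) := by
    rw [← Real.rpow_natCast, ← Real.rpow_mul (by linarith)]
    apply Real.rpow_le_rpow_of_exponent_le hb1
    have : (M : ℝ) ≤ 30 * g := by exact_mod_cast h
    linarith
  gcongr

lemma b5_real {b : ℕ} (hb : 10 ^ 5 ≤ b) : (100000 : ℝ) ≤ b := by
  have : 100000 ≤ b := le_trans (by norm_num) hb
  exact_mod_cast this

lemma k0_lower {b : ℕ} (hb : 10 ^ 5 ≤ b) :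
    (b : ℝ) ^ (1 / 6 : ℝ) ≤ 2 * (⌊(b : ℝ) ^ (1 / 6 : ℝ)⌋₊ : ℝ) := by
  have hb1 : (1 : ℝ) ≤ b := by
    have := b5_real hb
    linarith
  have h1 : (1 : ℝ) ≤ (b : ℝ) ^ (1 / 6 : ℝ) := Real.one_le_rpow hb1 (by norm_num)
  have h2 := Nat.lt_floor_add_one ((b : ℝ) ^ (1 / 6 : ℝ))
  have h3 : 1 ≤ ⌊(b : ℝ) ^ (1 / 6 : ℝ)⌋₊ := Nat.le_floor (by simpa using h1)
  have h4 : (1 : ℝ) ≤ (⌊(b : ℝ) ^ (1 / 6 : ℝ)⌋₊ : ℝ) := by exact_mod_cast h3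
  linarith

lemma k0_upper {b : ℕ} : (⌊(b : ℝ) ^ (1 / 6 : ℝ)⌋₊ : ℝ) ≤ (b : ℝ) ^ (1 / 6 : ℝ) :=
  Nat.floor_le (by positivity)

/-- the excluded case -/
lemma num2 {b M : ℕ} (hb : 10 ^ 5 ≤ b) :
    (((b / 2 / ⌊(b : ℝ) ^ (1 / 6 : ℝ)⌋₊ + 1) ^ M * ⌊(b : ℝ) ^ (1 / 6 : ℝ)⌋₊ ^ (M - 2 * M / 3) : ℕ) : ℝ) ≤
      4 ^ M * b * (b : ℝ) ^ (-(M : ℝ) / 120) * ((b / 2 : ℕ) : ℝ) ^ M := by
  have hb5 := b5_real hb
  have hb1 : (1 : ℝ) ≤ b := by linarith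
  have hb0 : (0 : ℝ) < b := by linarith
  have hlow := k0_lower hb
  have hup := k0_upper (b := b)
  have hx1 : (1 : ℝ) ≤ (b : ℝ) ^ (1 / 6 : ℝ) := Real.one_le_rpow hb1 (by norm_num)
  set K := ⌊(b : ℝ) ^ (1 / 6 : ℝ)⌋₊ with hK
  have hK1 : 1 ≤ K := Nat.le_floor (by simpa using hx1)
  have hK0 : (0 : ℝ) < K := by exact_mod_cast hK1
  set x := (b : ℝ) ^ (1 / 6 : ℝ) with hx
  -- K ≤ b / 2
  have hx6 : x ^ 6 = b := by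
    rw [hx, ← Real.rpow_natCast, ← Real.rpow_mul (by linarith)]
    norm_num
  have hKB : K ≤ b / 2 := by
    rw [Nat.le_div_iff_mul_le (by norm_num)]
    have : (K : ℝ) * 2 ≤ b := by
      have h5 : (2 : ℝ) ≤ x ^ 5 := by
        by_contra hc
        push Not at hc
        have : x ^ 6 < 2 * x := by
          have : x ^ 6 = x ^ 5 * x := by ring
          rw [this]; nlinarith
        have hxb : x ≤ 2 := by
          by_contra hc2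
          push Not at hc2
          have : (2 : ℝ) ^ 5 < x ^ 5 := pow_lt_pow_left₀ hc2 (by norm_num) (by norm_num)
          linarith
        linarith
      calc (K : ℝ) * 2 ≤ x * x ^ 5 := by gcongr
        _ = x ^ 6 := by ring
        _ = b := hx6
    exact_mod_cast this
  have hKBr : (K : ℝ) ≤ ((b / 2 : ℕ) : ℝ) := by exact_mod_cast hKB
  have hB0 : (0 : ℝ) < ((b / 2 : ℕ) : ℝ) := lt_of_lt_of_le hK0 hKBr
  have h1 : ((b / 2 / K + 1 : ℕ) : ℝ) ≤ 2 * ((b / 2 : ℕ) : ℝ) / K := by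
    push_cast
    have h2 : ((b / 2 / K : ℕ) : ℝ) ≤ ((b / 2 : ℕ) : ℝ) / K := Nat.cast_div_le
    have h3 : (1 : ℝ) ≤ ((b / 2 : ℕ) : ℝ) / K := by
      rw [le_div_iff₀ hK0]; linarith
    have h4 : 2 * ((b / 2 : ℕ) : ℝ) / K = ((b / 2 : ℕ) : ℝ) / K + ((b / 2 : ℕ) : ℝ) / K := by ring
    rw [h4]
    linarith
  have hL : 2 * M / 3 ≤ M := by omega
  have hpow : (K : ℝ) ^ M = (K : ℝ) ^ (M - 2 * M / 3) * (K : ℝ) ^ (2 * M / 3) := by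
    rw [← pow_add]; congr 1; omega
  have hfin : (1 : ℝ) ≤ 2 ^ M * b * (b : ℝ) ^ (-(M : ℝ) / 120) * (K : ℝ) ^ (2 * M / 3) := by
    have e1 : x ^ (2 * M / 3) ≤ 2 ^ M * (K : ℝ) ^ (2 * M / 3) := by
      calc x ^ (2 * M / 3) ≤ (2 * (K : ℝ)) ^ (2 * M / 3) := by
            apply pow_le_pow_left₀ (by positivity) hlow
        _ = 2 ^ (2 * M / 3) * (K : ℝ) ^ (2 * M / 3) := by rw [mul_pow]
        _ ≤ 2 ^ M * (K : ℝ) ^ (2 * M / 3) := by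
            gcongr
            · norm_num
    have e2 : (1 : ℝ) ≤ b * (b : ℝ) ^ (-(M : ℝ) / 120) * x ^ (2 * M / 3) := by
      rw [hx, ← Real.rpow_natCast ((b : ℝ) ^ (1 / 6 : ℝ)), ← Real.rpow_mul (by linarith)]
      have : (b : ℝ) * (b : ℝ) ^ (-(M : ℝ) / 120) * (b : ℝ) ^ (1 / 6 * ((2 * M / 3 : ℕ) : ℝ)) =
          (b : ℝ) ^ (1 + -(M : ℝ) / 120 + 1 / 6 * ((2 * M / 3 : ℕ) : ℝ)) := by
        rw [Real.rpow_add hb0, Real.rpow_add hb0, Real.rpow_one]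
      rw [this]
      apply Real.one_le_rpow hb1
      have h6 : 2 * M ≤ 3 * (2 * M / 3) + 2 := by omega
      have h7 : (2 : ℝ) * M ≤ 3 * ((2 * M / 3 : ℕ) : ℝ) + 2 := by exact_mod_cast h6
      have h8 : (0 : ℝ) ≤ M := by positivity
      linarith
    calc (1 : ℝ) ≤ b * (b : ℝ) ^ (-(M : ℝ) / 120) * x ^ (2 * M / 3) := e2
      _ ≤ b * (b : ℝ) ^ (-(M : ℝ) / 120) * (2 ^ M * (K : ℝ) ^ (2 * M / 3)) := by gcongr
      _ = _ := by ring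
  push_cast
  have h1' : ((b / 2 / K : ℕ) : ℝ) + 1 ≤ 2 * ((b / 2 : ℕ) : ℝ) / K := by
    have := h1
    push_cast at this
    exact this
  calc (((b / 2 / K : ℕ) : ℝ) + 1) ^ M * (K : ℝ) ^ (M - 2 * M / 3) ≤
      (2 * ((b / 2 : ℕ) : ℝ) / K) ^ M * (K : ℝ) ^ (M - 2 * M / 3) := by gcongr
    _ = 2 ^ M * ((b / 2 : ℕ) : ℝ) ^ M * ((K : ℝ) ^ (M - 2 * M / 3) / (K : ℝ) ^ M) := by
        rw [div_pow, mul_pow]; ring
    _ = 2 ^ M * ((b / 2 : ℕ) : ℝ) ^ M * (1 / (K : ℝ) ^ (2 * M / 3)) := by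
        rw [hpow]
        congr 1
        field_simp
    _ ≤ 2 ^ M * ((b / 2 : ℕ) : ℝ) ^ M * (2 ^ M * b * (b : ℝ) ^ (-(M : ℝ) / 120)) := by
        gcongr
        rw [div_le_iff₀ (by positivity)]
        exact hfin
    _ = 4 ^ M * b * (b : ℝ) ^ (-(M : ℝ) / 120) * ((b / 2 : ℕ) : ℝ) ^ M := by
        have : (4 : ℝ) ^ M = 2 ^ M * 2 ^ M := by rw [← mul_pow]; norm_num
        rw [this]; ring

/-- the union bound -/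
lemma num3 {b M T : ℕ} (hb : 10 ^ 5 ≤ b) (hT : T ≤ M) (h : 3 * M ≤ 10 * T + 10) :
    ((2 * M / 3 : ℕ) : ℝ) * ((2 * ⌊(b : ℝ) ^ (1 / 6 : ℝ)⌋₊ : ℕ) : ℝ) ^ (M - 2 * M / 3) *
      (51 * (b : ℝ) ^ (-(3 : ℝ) / 4)) ^ T ≤
      204 ^ M * b * (b : ℝ) ^ (-(M : ℝ) / 120) := by
  have hb5 := b5_real hb
  have hb1 : (1 : ℝ) ≤ b := by linarith
  have hb0 : (0 : ℝ) < b := by linarith
  have hup := k0_upper (b := b)
  set K := ⌊(b : ℝ) ^ (1 / 6 : ℝ)⌋₊ with hK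
  set x := (b : ℝ) ^ (1 / 6 : ℝ) with hx
  have hx0 : 0 < x := by positivity
  have e1 : ((2 * M / 3 : ℕ) : ℝ) ≤ 2 ^ M := by
    have h1 : 2 * M / 3 ≤ M := by omega
    have h2 : M < 2 ^ M := Nat.lt_two_pow_self
    have h3 : 2 * M / 3 ≤ 2 ^ M := by omega
    exact_mod_cast h3
  have e2 : ((2 * K : ℕ) : ℝ) ^ (M - 2 * M / 3) ≤ 2 ^ M * x ^ (M - 2 * M / 3) := by
    push_cast
    rw [mul_pow]
    gcongr
    · norm_num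
    · omega
  have e3 : (51 * (b : ℝ) ^ (-(3 : ℝ) / 4)) ^ T ≤ 51 ^ M * ((b : ℝ) ^ (-(3 : ℝ) / 4)) ^ T := by
    rw [mul_pow]
    gcongr
    norm_num
  have e4 : x ^ (M - 2 * M / 3) * ((b : ℝ) ^ (-(3 : ℝ) / 4)) ^ T ≤ b * (b : ℝ) ^ (-(M : ℝ) / 120) := by
    rw [hx, ← Real.rpow_natCast ((b : ℝ) ^ (1 / 6 : ℝ)), ← Real.rpow_mul (by linarith),
      ← Real.rpow_natCast ((b : ℝ) ^ (-(3 : ℝ) / 4)), ← Real.rpow_mul (by linarith),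
      ← Real.rpow_add hb0]
    have : (b : ℝ) * (b : ℝ) ^ (-(M : ℝ) / 120) = (b : ℝ) ^ (1 + -(M : ℝ) / 120) := by
      rw [Real.rpow_add hb0, Real.rpow_one]
    rw [this]
    apply Real.rpow_le_rpow_of_exponent_le hb1
    have h6 : 3 * (M - 2 * M / 3) ≤ M + 2 := by omega
    have h7 : (3 : ℝ) * ((M - 2 * M / 3 : ℕ) : ℝ) ≤ M + 2 := by exact_mod_cast h6
    have h8 : (3 : ℝ) * M ≤ 10 * T + 10 := by exact_mod_cast h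
    have h9 : (0 : ℝ) ≤ M := by positivity
    linarith
  calc ((2 * M / 3 : ℕ) : ℝ) * ((2 * K : ℕ) : ℝ) ^ (M - 2 * M / 3) *
      (51 * (b : ℝ) ^ (-(3 : ℝ) / 4)) ^ T ≤
      2 ^ M * (2 ^ M * x ^ (M - 2 * M / 3)) * (51 ^ M * ((b : ℝ) ^ (-(3 : ℝ) / 4)) ^ T) := by
        gcongr
    _ = (2 ^ M * 2 ^ M * 51 ^ M) * (x ^ (M - 2 * M / 3) * ((b : ℝ) ^ (-(3 : ℝ) / 4)) ^ T) := by ring
    _ ≤ (2 ^ M * 2 ^ M * 51 ^ M) * (b * (b : ℝ) ^ (-(M : ℝ) / 120)) := by gcongr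
    _ = 204 ^ M * b * (b : ℝ) ^ (-(M : ℝ) / 120) := by
        have : (204 : ℝ) ^ M = 2 ^ M * 2 ^ M * 51 ^ M := by
          rw [← mul_pow, ← mul_pow]; norm_num
        rw [this]; ring

end Pool.Agent.HPX
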