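import Pool.Agent.HPX.SLin
import Pool.Agent.HPP.APP

/-! # HPX/SA4d: `SAProp` from the bound for the average -/

namespace Pool.Agent.HPX

open Complex Pool.Agent.HPP

/-- the bound for the average (S5 (a)-(f)) -/
def SumBoundProp : Prop := ∃ b₁ : ℕ, ∀ (b p m m' s h M a : ℕ) (t : ℝ), b.Prime → Bas b p → b₁ ≤ b →
  m' ≤ m → s ≤ m → m' = s + (h + M) → h + M ≤ s → M + 2 ≤ h →
  |t| ≤ (b : ℝ) ^ ((m' : ℝ) + 1 / 20) → ¬ b ∣ a →
  ∑ n ∈ Dg b p s, ∏ r ∈ Finset.range M, gB b (th b m m' s a t r n) ≤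
    ((Dg b p s).card : ℝ) * (3 * 408 ^ M * b * (b : ℝ) ^ (-(M : ℝ) / 120))

/-- `s = ⌈0.55 m'⌉ + 1`, `N = m' - s`, `h = ⌈N / 2⌉ + 1`, `M = N - h ≥ 0.225 m' - 3`; for `b < b₁` the
bound is trivial (`APP.cc_le`); `SLin` with `L = M` -/
theorem sA_of (H : SumBoundProp) : SAProp := by
  obtain ⟨b₁, H⟩ := H
  have hb₁ : (0 : ℝ) ≤ b₁ := Nat.cast_nonneg _
  refine ⟨2856 + b₁, by linarith, ?_⟩
  intro b p m m' V K hbp hB hV hK hL h1200 hmm χ hχ hχ' t ht
  have hb3 := hB.three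
  have hb3' : (3 : ℝ) ≤ b := by exact_mod_cast hb3
  have hb0 : (0 : ℝ) < b := by linarith
  have hb1 : (1 : ℝ) ≤ b := by linarith
  have hRR : (0 : ℝ) ≤ ((RR b p m ∅).card : ℝ) := Nat.cast_nonneg _
  have hm1200 : (1200 : ℝ) ≤ m' := by exact_mod_cast h1200
  set B : ℝ := (b : ℝ) ^ (4 - (m' : ℝ) / 600) with hBdef
  have hB0 : 0 < B := by positivity
  by_cases hbb : b₁ ≤ b
  · obtain ⟨s, hs⟩ : ∃ s, s = (11 * m' + 19) / 20 + 1 := ⟨_, rfl⟩
    obtain ⟨h, hh⟩ : ∃ h, h = (m' - s + 1) / 2 + 1 := ⟨_, rfl⟩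
    obtain ⟨M, hM⟩ : ∃ M, M = m' - s - h := ⟨_, rfl⟩
    have e1 : m' = s + (h + M) := by omega
    have e2 : h + M ≤ s := by omega
    have e3 : M + 2 ≤ h := by omega
    have e4 : s ≤ m := by omega
    have e5 : 11 * m' + 20 ≤ 20 * s := by omega
    have e6 : 9 * m' ≤ 40 * M + 99 := by omega
    have e5' : 11 * (m' : ℝ) + 20 ≤ 20 * s := by exact_mod_cast e5
    have e6' : 9 * (m' : ℝ) ≤ 40 * M + 99 := by exact_mod_cast e6
    have e7 : M ≤ m' := by omega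
    obtain ⟨a, ha, hc⟩ := sLin b p m m' s M V K hbp hB hV hK hL (by omega) hmm (by omega) (by omega)
      (by omega) χ hχ (fun _ => hχ')
    have hna := ha (by omega)
    have hsum := H b p m m' s h M a t hbp hB hbb hmm e4 e1 e2 e3 ht hna
    refine (hc t).trans ?_
    have i1 : 4 * |t| / (b : ℝ) ^ (2 * s) ≤ 4 * B := by
      have h1 : |t| / (b : ℝ) ^ (2 * s) ≤ B := by
        rw [div_le_iff₀ (by positivity), hBdef, ← Real.rpow_natCast, ← Real.rpow_add hb0]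
        refine ht.trans (Real.rpow_le_rpow_of_exponent_le hb1 ?_)
        push_cast
        linarith
      rw [mul_div_assoc]
      linarith
    have i2 : K * b / (b : ℝ) ^ s ≤ K * B := by
      have h1 : (b : ℝ) / (b : ℝ) ^ s ≤ B := by
        rw [div_le_iff₀ (by positivity), hBdef, ← Real.rpow_natCast, ← Real.rpow_add hb0]
        nth_rewrite 1 [← Real.rpow_one (b : ℝ)]
        refine Real.rpow_le_rpow_of_exponent_le hb1 ?_
        linarith
      rw [mul_div_assoc]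
      gcongr
    have hDpos : (0 : ℝ) ≤ ((Dg b p s).card : ℝ) := Nat.cast_nonneg _
    have i3 : (∑ n ∈ Dg b p s, ∏ r ∈ Finset.range M, gB b (th b m m' s a t r n)) /
        ((Dg b p s).card : ℝ) ≤ 3 * 408 ^ m' * B := by
      have h1 : (∑ n ∈ Dg b p s, ∏ r ∈ Finset.range M, gB b (th b m m' s a t r n)) /
          ((Dg b p s).card : ℝ) ≤ 3 * 408 ^ M * b * (b : ℝ) ^ (-(M : ℝ) / 120) := by
        refine div_le_of_le_mul₀ hDpos (by positivity) ?_
        rw [mul_comm]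
        exact hsum
      refine h1.trans ?_
      have h2 : (b : ℝ) * (b : ℝ) ^ (-(M : ℝ) / 120) ≤ B := by
        nth_rewrite 1 [← Real.rpow_one (b : ℝ)]
        rw [← Real.rpow_add hb0, hBdef]
        refine Real.rpow_le_rpow_of_exponent_le hb1 ?_
        linarith
      have h3 : (408 : ℝ) ^ M ≤ 408 ^ m' := pow_le_pow_right₀ (by norm_num) e7
      calc 3 * (408 : ℝ) ^ M * b * (b : ℝ) ^ (-(M : ℝ) / 120)
          = 3 * (408 : ℝ) ^ M * (b * (b : ℝ) ^ (-(M : ℝ) / 120)) := by ring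
        _ ≤ 3 * (408 : ℝ) ^ m' * B := by gcongr
    have hC : 7 * (408 : ℝ) ^ m' ≤ (2856 + b₁) ^ m' := by
      calc 7 * (408 : ℝ) ^ m' ≤ 7 ^ m' * (408 : ℝ) ^ m' := by
            gcongr
            exact le_self_pow₀ (by norm_num) (by omega)
        _ = 2856 ^ m' := by rw [← mul_pow]; norm_num
        _ ≤ _ := by
            refine pow_le_pow_left₀ (by norm_num) ?_ _
            linarith
    have h408 : (1 : ℝ) ≤ 408 ^ m' := one_le_pow₀ (by norm_num)
    have hCK : 4 + K + 3 * (408 : ℝ) ^ m' ≤ (2856 + b₁) ^ m' * (1 + K) := by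
      have h1 : (1 : ℝ) ≤ (2856 + (b₁ : ℝ)) ^ m' := by linarith
      have h2 : K ≤ (2856 + (b₁ : ℝ)) ^ m' * K := by
        nth_rewrite 1 [← one_mul K]
        gcongr
      linarith
    calc ((RR b p m ∅).card : ℝ) * (4 * |t| / (b : ℝ) ^ (2 * s) + K * b / (b : ℝ) ^ s +
          (∑ n ∈ Dg b p s, ∏ r ∈ Finset.range M, gB b (th b m m' s a t r n)) /
            ((Dg b p s).card : ℝ))
        ≤ ((RR b p m ∅).card : ℝ) * (4 * B + K * B + 3 * 408 ^ m' * B) :=
          mul_le_mul_of_nonneg_left (add_le_add (add_le_add i1 i2) i3) hRR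
      _ = ((RR b p m ∅).card : ℝ) * ((4 + K + 3 * 408 ^ m') * B) := by ring
      _ ≤ ((RR b p m ∅).card : ℝ) * (((2856 + b₁) ^ m' * (1 + K)) * B) :=
          mul_le_mul_of_nonneg_left (mul_le_mul_of_nonneg_right hCK hB0.le) hRR
      _ = _ := by ring
  · have hlt : (b : ℝ) ≤ b₁ := by
      have : b ≤ b₁ := by omega
      exact_mod_cast this
    have h1 := cc_le hB (by omega) ∅ hV χ t
    refine h1.trans ?_
    have h2 : 1 ≤ (2856 + (b₁ : ℝ)) ^ m' * (1 + K) * B := by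
      have h3 : (b : ℝ) ^ m' ≤ (2856 + (b₁ : ℝ)) ^ m' :=
        pow_le_pow_left₀ hb0.le (by linarith) _
      have h4 : 1 ≤ (b : ℝ) ^ m' * B := by
        rw [hBdef, ← Real.rpow_natCast, ← Real.rpow_add hb0]
        refine Real.one_le_rpow hb1 ?_
        linarith
      calc (1 : ℝ) ≤ (b : ℝ) ^ m' * B := h4
        _ ≤ (2856 + (b₁ : ℝ)) ^ m' * B := by gcongr
        _ = (2856 + (b₁ : ℝ)) ^ m' * 1 * B := by ring
        _ ≤ _ := by
            gcongr
            linarith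
    nth_rewrite 1 [← one_mul ((RR b p m ∅).card : ℝ)]
    gcongr

end Pool.Agent.HPX
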