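import Pool.Agent.HPX.SA4a
import Pool.Agent.HPX.SA4c
import Pool.Agent.HPX.SA4d
import Pool.Agent.HPX.SA2
import Pool.Agent.HPX.SA3

/-! # HPX/SA4b: union bound, bound for the average -/

namespace Pool.Agent.HPX

open Complex Pool.Agent.HPP

open Classical in
/-- coefficient vectors -/
noncomputable def EE (K₀ Λ : ℕ) : Finset (ℕ → ℤ) :=
  (Fintype.piFinset fun _ : Fin Λ => Finset.Ioo (-(K₀ : ℤ)) K₀).image
    fun f i => if h : i < Λ then f ⟨i, h⟩ else 0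

lemma card_EE (K₀ Λ : ℕ) : (EE K₀ Λ).card ≤ (2 * K₀) ^ Λ := by
  classical
  unfold EE
  refine Finset.card_image_le.trans ?_
  rw [Fintype.card_piFinset, Finset.prod_const, Finset.card_univ, Fintype.card_fin, Int.card_Ioo]
  refine Nat.pow_le_pow_left ?_ _
  omega

lemma mem_EE {K₀ Λ : ℕ} {e : ℕ → ℤ} (h1 : ∀ i, |e i| < K₀) (h2 : ∀ i, Λ ≤ i → e i = 0) :
    e ∈ EE K₀ Λ := by
  classical
  unfold EE
  refine Finset.mem_image.2 ⟨fun i => e i, ?_, ?_⟩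
  · rw [Fintype.mem_piFinset]
    intro i
    have := abs_lt.1 (h1 i)
    exact Finset.mem_Ioo.2 this
  · funext i
    split_ifs with h
    · rfl
    · exact (h2 i (by omega)).symm

lemma EE_lt {K₀ Λ : ℕ} (hK : 1 ≤ K₀) {e : ℕ → ℤ} (he : e ∈ EE K₀ Λ) : ∀ i, |e i| < K₀ := by
  classical
  unfold EE at he
  obtain ⟨f, hf, rfl⟩ := Finset.mem_image.1 he
  rw [Fintype.mem_piFinset] at hf
  intro i
  simp only
  split_ifs with h
  · exact abs_lt.2 (Finset.mem_Ioo.1 (hf ⟨i, h⟩))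
  · simp; omega

/-- positions used -/
def TT (G : Finset ℕ) (Λ l₀ : ℕ) : Finset ℕ := (Finset.Ico 1 Λ).filter fun j => l₀ + j ∈ G

lemma TT_card {G : Finset ℕ} {M L₂ l₀ : ℕ} (hG : G ⊆ Finset.range M) (hL : l₀ < L₂) :
    (M - L₂ - 1) ≤ (TT G (M - L₂) l₀).card + (M - G.card) := by
  unfold TT
  have h1 : (Finset.Ico 1 (M - L₂)).card = M - L₂ - 1 := by simp
  rw [← h1, ← Finset.card_filter_add_card_filter_not (s := Finset.Ico 1 (M - L₂))
    (fun j => l₀ + j ∈ G)]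
  gcongr
  have h2 : (((Finset.Ico 1 (M - L₂)).filter fun j => ¬ (l₀ + j ∈ G)).image fun j => l₀ + j) ⊆
      Finset.range M \ G := by
    intro x hx
    obtain ⟨j, hj, rfl⟩ := Finset.mem_image.1 hx
    rw [Finset.mem_filter, Finset.mem_Ico] at hj
    rw [Finset.mem_sdiff, Finset.mem_range]
    exact ⟨by omega, hj.2⟩
  have h3 := Finset.card_le_card h2
  rw [Finset.card_image_of_injective _ (fun x y h => by simpa using h),
    Finset.card_sdiff_of_subset hG, Finset.card_range] at h3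
  exact h3

/-- Steps (d), (e), (f): the bad `P` -/
theorem bad_count : ∃ b₁ : ℕ, ∀ (b p m m' h M a K₀ L₂ : ℕ) (t τ : ℝ) (G : Finset ℕ),
    b.Prime → Bas b p → b₁ ≤ b → h ≤ m → M ≤ h → ¬ b ∣ a → 1 ≤ K₀ → L₂ < M →
    (K₀ : ℝ) ≤ (b : ℝ) ^ (1 / 6 : ℝ) → |t| ≤ (b : ℝ) ^ ((m' : ℝ) + 1 / 20) → G ⊆ Finset.range M →
    (∀ l₀ < L₂, ((L₂ : ℝ) * ((2 * K₀ : ℕ) : ℝ) ^ (M - L₂)) *
      (51 * (b : ℝ) ^ (-(3 : ℝ) / 4)) ^ (TT G (M - L₂) l₀).card ≤ τ) → 0 ≤ τ →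
    (((Dg b p h).filter fun P => (b / 2 / K₀ + 1) ^ M * K₀ ^ (M - L₂) <
      (XX b m m' h M a t P G).card).card : ℝ) ≤ τ * ((Dg b p h).card : ℝ) := by
  classical
  obtain ⟨b₁, H⟩ := sA3
  refine ⟨b₁, ?_⟩
  intro b p m m' h M a K₀ L₂ t τ G hbp hB hb hhm hMh ha hK hL₂ hK2 ht hG hτ hτ0
  have hb2 : 2 ≤ b := by have := hB.three; omega
  set η := (b : ℝ) ^ (-(3 : ℝ) / 4) with hη
  rcases Nat.eq_zero_or_pos L₂ with h0 | hLpos
  · subst h0
    have : (Dg b p h).filter (fun P => (b / 2 / K₀ + 1) ^ M * K₀ ^ (M - 0) <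
      (XX b m m' h M a t P G).card) = ∅ := by
      refine Finset.filter_eq_empty_iff.2 fun P hP hlt => ?_
      obtain ⟨l₀, hl₀, -⟩ := sA2 b M K₀ 0 (gam b m m' h a t P) (psi b m m' h a t P) (2 * η) G hb2 hK
        hL₂ hG hlt
      omega
    rw [this]
    simp only [Finset.card_empty, Nat.cast_zero]
    positivity
  set F : ℕ × (ℕ → ℤ) → Finset ℕ := fun x => if x.2 0 ≠ 0 then
    (Dg b p h).filter (fun P => ∀ j ∈ TT G (M - L₂) x.1,
      nd (∑ i ∈ Finset.range (j + 1), (x.2 i : ℝ) * psi b m m' h a t P (j - i)) ≤ 4 * η) else ∅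
    with hF
  have hsub : (Dg b p h).filter (fun P => (b / 2 / K₀ + 1) ^ M * K₀ ^ (M - L₂) <
      (XX b m m' h M a t P G).card) ⊆ (Finset.range L₂ ×ˢ EE K₀ (M - L₂)).biUnion F := by
    intro P hP
    rw [Finset.mem_filter] at hP
    obtain ⟨l₀, hl₀, e, he0, he1, he2, he3⟩ := sA2 b M K₀ L₂ (gam b m m' h a t P)
      (psi b m m' h a t P) (2 * η) G hb2 hK hL₂ hG hP.2
    rw [Finset.mem_biUnion]
    refine ⟨(l₀, e), Finset.mem_product.2 ⟨Finset.mem_range.2 hl₀, mem_EE he1 he2⟩, ?_⟩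
    simp only [hF]
    rw [if_pos he0, Finset.mem_filter]
    refine ⟨hP.1, fun j hj => ?_⟩
    rw [TT, Finset.mem_filter, Finset.mem_Ico] at hj
    have := he3 j hj.1.2 hj.2
    linarith
  have h51 : 0 ≤ 51 * η := by positivity
  have hτ' : ∀ x ∈ Finset.range L₂ ×ˢ EE K₀ (M - L₂), ((F x).card : ℝ) ≤
      τ / ((L₂ : ℝ) * ((2 * K₀ : ℕ) : ℝ) ^ (M - L₂)) * ((Dg b p h).card : ℝ) := by
    intro x hx
    rw [Finset.mem_product, Finset.mem_range] at hx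
    have hpos : 0 < (L₂ : ℝ) * ((2 * K₀ : ℕ) : ℝ) ^ (M - L₂) := by
      have : 0 < 2 * K₀ := by omega
      positivity
    simp only [hF]
    split_ifs with h0
    · have h1 := H b p m m' h a K₀ (M - L₂) t x.2 (TT G (M - L₂) x.1) hbp hB hb hhm (by omega) ha hK2
        ht h0 (EE_lt hK hx.2) (Finset.filter_subset _ _)
      refine h1.trans ?_
      gcongr
      rw [le_div_iff₀ hpos, mul_comm]
      exact hτ x.1 hx.1
    · simp only [Finset.card_empty, Nat.cast_zero]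
      positivity
  have h1 : (((Dg b p h).filter fun P => (b / 2 / K₀ + 1) ^ M * K₀ ^ (M - L₂) <
      (XX b m m' h M a t P G).card).card : ℝ) ≤
      ∑ x ∈ Finset.range L₂ ×ˢ EE K₀ (M - L₂), ((F x).card : ℝ) := by
    have := (Finset.card_le_card hsub).trans Finset.card_biUnion_le
    exact_mod_cast this
  refine (h1.trans (Finset.sum_le_sum hτ')).trans ?_
  rw [Finset.sum_const, nsmul_eq_mul, Finset.card_product, Finset.card_range]
  have hpos : 0 < (L₂ : ℝ) * ((2 * K₀ : ℕ) : ℝ) ^ (M - L₂) := by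
    have : 0 < 2 * K₀ := by omega
    positivity
  have hE : (((L₂ * (EE K₀ (M - L₂)).card : ℕ)) : ℝ) ≤
      (L₂ : ℝ) * ((2 * K₀ : ℕ) : ℝ) ^ (M - L₂) := by
    have := Nat.mul_le_mul_left L₂ (card_EE K₀ (M - L₂))
    exact_mod_cast this
  calc (((L₂ * (EE K₀ (M - L₂)).card : ℕ)) : ℝ) *
        (τ / ((L₂ : ℝ) * ((2 * K₀ : ℕ) : ℝ) ^ (M - L₂)) * ((Dg b p h).card : ℝ)) ≤
        ((L₂ : ℝ) * ((2 * K₀ : ℕ) : ℝ) ^ (M - L₂)) *
        (τ / ((L₂ : ℝ) * ((2 * K₀ : ℕ) : ℝ) ^ (M - L₂)) * ((Dg b p h).card : ℝ)) := by gcongr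
    _ = τ * ((Dg b p h).card : ℝ) := by field_simp

lemma delta_le {b : ℕ} (hb : 10 ^ 5 ≤ b) : 3 * (b : ℝ) ^ (-(1 : ℝ) / 4) ≤ 1 := by
  have hb' : (10 : ℝ) ^ 5 ≤ b := by exact_mod_cast hb
  have hb0 : (0 : ℝ) < b := by linarith
  have h1 : (3 : ℝ) ≤ (b : ℝ) ^ (1 / 4 : ℝ) := by
    calc (3 : ℝ) = ((3 : ℝ) ^ (4 : ℝ)) ^ (1 / 4 : ℝ) := by
          rw [← Real.rpow_mul (by norm_num)]; norm_num
      _ ≤ _ := by
          refine Real.rpow_le_rpow (by positivity) ?_ (by norm_num)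
          rw [show (4 : ℝ) = ((4 : ℕ) : ℝ) by norm_num, Real.rpow_natCast]
          linarith
  rw [show (-(1 : ℝ) / 4) = -(1 / 4) by norm_num, Real.rpow_neg hb0.le,
    mul_inv_le_iff₀ (by positivity), one_mul]
  exact h1

lemma XX_le {b m m' h M a : ℕ} {t : ℝ} (P : ℕ) (G : Finset ℕ) :
    ((XX b m m' h M a t P G).card : ℝ) ≤ ((Zg b M).card : ℝ) := by
  unfold XX
  exact_mod_cast Finset.card_filter_le _ _

/-- sum over `P`, many bad positions -/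
lemma perG1 {b p m m' h M a : ℕ} {t : ℝ} (hb : 3 ≤ b) {G : Finset ℕ}
    (hcase : M ≤ 30 * (M - G.card)) :
    (3 * (b : ℝ) ^ (-(1 : ℝ) / 4)) ^ (M - G.card) *
      ∑ P ∈ Dg b p h, ((XX b m m' h M a t P G).card : ℝ) ≤
      ((Dg b p h).card : ℝ) * ((Zg b M).card : ℝ) * (3 * 204 ^ M * b * (b : ℝ) ^ (-(M : ℝ) / 120)) := by
  set q := (b : ℝ) ^ (-(M : ℝ) / 120) with hq
  have hq0 : 0 ≤ q := by positivity
  have hb1 : (1 : ℝ) ≤ b := by
    have : (3 : ℝ) ≤ b := by exact_mod_cast hb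
    linarith
  have h3M : (3 : ℝ) ^ M ≤ 204 ^ M := pow_le_pow_left₀ (by norm_num) (by norm_num) M
  have h1 := num1 hb (by omega : M - G.card ≤ M) hcase
  rw [← hq] at h1
  set DD := ((Dg b p h).card : ℝ) with hDD
  set ZZ := ((Zg b M).card : ℝ) with hZZ
  have hDD0 : 0 ≤ DD := Nat.cast_nonneg _
  have hZZ0 : 0 ≤ ZZ := Nat.cast_nonneg _
  have h2 : ∑ P ∈ Dg b p h, ((XX b m m' h M a t P G).card : ℝ) ≤ DD * ZZ := by
    refine (Finset.sum_le_sum fun P _ => XX_le P G).trans ?_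
    rw [Finset.sum_const, nsmul_eq_mul]
  have h204 : (0 : ℝ) ≤ 204 ^ M := by positivity
  calc _ ≤ (3 ^ M * q) * (DD * ZZ) :=
        mul_le_mul h1 h2 (Finset.sum_nonneg fun _ _ => Nat.cast_nonneg _) (by positivity)
    _ ≤ (204 ^ M * q) * (DD * ZZ) :=
        mul_le_mul_of_nonneg_right (mul_le_mul_of_nonneg_right h3M hq0) (by positivity)
    _ = DD * ZZ * (204 ^ M * q) * 1 := by ring
    _ ≤ DD * ZZ * (204 ^ M * q) * (3 * b) :=
        mul_le_mul_of_nonneg_left (by linarith) (by positivity)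
    _ = _ := by ring

/-- sum over `P`, few bad positions -/
lemma perG2 : ∃ b₁ : ℕ, ∀ (b p m m' h M a : ℕ) (t : ℝ) (G : Finset ℕ), b.Prime → Bas b p → b₁ ≤ b →
    h ≤ m → M ≤ h → |t| ≤ (b : ℝ) ^ ((m' : ℝ) + 1 / 20) → ¬ b ∣ a → G ⊆ Finset.range M →
    30 * (M - G.card) < M →
    (3 * (b : ℝ) ^ (-(1 : ℝ) / 4)) ^ (M - G.card) *
      ∑ P ∈ Dg b p h, ((XX b m m' h M a t P G).card : ℝ) ≤
      ((Dg b p h).card : ℝ) * ((Zg b M).card : ℝ) *
        (3 * 204 ^ M * b * (b : ℝ) ^ (-(M : ℝ) / 120)) := by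
  classical
  obtain ⟨b₁, H⟩ := bad_count
  refine ⟨max b₁ (10 ^ 5), ?_⟩
  intro b p m m' h M a t G hbp hB hb hhm hMh ht ha hG' hcase
  have hb1 : b₁ ≤ b := (le_max_left _ _).trans hb
  have hb5 : 10 ^ 5 ≤ b := (le_max_right _ _).trans hb
  have hb1' : (1 : ℝ) ≤ b := by
    have : 1 ≤ b := by omega
    exact_mod_cast this
  set q := (b : ℝ) ^ (-(M : ℝ) / 120) with hq
  have hq0 : 0 ≤ q := by positivity
  set K₀ := ⌊(b : ℝ) ^ (1 / 6 : ℝ)⌋₊ with hK₀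
  have hK1 : 1 ≤ K₀ := by
    rw [hK₀, Nat.one_le_floor_iff]
    exact Real.one_le_rpow hb1' (by norm_num)
  have hK2 : (K₀ : ℝ) ≤ (b : ℝ) ^ (1 / 6 : ℝ) := Nat.floor_le (by positivity)
  have hL2 : 2 * M / 3 < M := by omega
  have hτ0 : (0 : ℝ) ≤ 204 ^ M * b * q := by positivity
  have hbad := H b p m m' h M a K₀ (2 * M / 3) t (204 ^ M * b * q) G hbp hB hb1 hhm hMh ha hK1 hL2
    hK2 ht hG' (by
      intro l₀ hl₀
      have h1 := TT_card hG' hl₀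
      refine num3 hb5 ?_ ?_
      · refine (Finset.card_filter_le _ _).trans ?_
        rw [Nat.card_Ico]; omega
      · omega) hτ0
  have h2 := num2 (M := M) hb5
  have hZB : ((Zg b M).card : ℝ) = ((b / 2 : ℕ) : ℝ) ^ M := by rw [card_Zg, Nat.cast_pow]
  rw [← hK₀, ← hZB, ← hq] at h2
  set N := (b / 2 / K₀ + 1) ^ M * K₀ ^ (M - 2 * M / 3) with hN
  set DD := ((Dg b p h).card : ℝ) with hDD
  set ZZ := ((Zg b M).card : ℝ) with hZZ
  set τ := 204 ^ M * b * q with hτ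
  have hDD0 : 0 ≤ DD := Nat.cast_nonneg _
  have hZZ0 : 0 ≤ ZZ := Nat.cast_nonneg _
  have h3 : ∑ P ∈ Dg b p h, ((XX b m m' h M a t P G).card : ℝ) ≤
      DD * (N : ℝ) + τ * DD * ZZ := by
    have h4 : ∀ P ∈ Dg b p h, ((XX b m m' h M a t P G).card : ℝ) ≤
        (N : ℝ) + (if N < (XX b m m' h M a t P G).card then 1 else 0) * ZZ := by
      intro P _
      by_cases hc : N < (XX b m m' h M a t P G).card
      · rw [if_pos hc, one_mul]
        have h5 : ((XX b m m' h M a t P G).card : ℝ) ≤ ZZ := XX_le P G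
        have hN0 : (0 : ℝ) ≤ N := Nat.cast_nonneg _
        linarith
      · rw [if_neg hc, zero_mul, add_zero]
        exact_mod_cast not_lt.1 hc
    refine (Finset.sum_le_sum h4).trans ?_
    rw [Finset.sum_add_distrib, Finset.sum_const, nsmul_eq_mul, ← Finset.sum_mul]
    refine add_le_add le_rfl (mul_le_mul_of_nonneg_right ?_ hZZ0)
    rw [Finset.card_filter, Nat.cast_sum] at hbad
    refine le_trans (le_of_eq ?_) hbad
    refine Finset.sum_congr rfl fun P _ => ?_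
    split_ifs <;> simp
  have h5 : (3 * (b : ℝ) ^ (-(1 : ℝ) / 4)) ^ (M - G.card) ≤ 1 :=
    pow_le_one₀ (by positivity) (delta_le hb5)
  have hS0 : 0 ≤ ∑ P ∈ Dg b p h, ((XX b m m' h M a t P G).card : ℝ) :=
    Finset.sum_nonneg fun _ _ => Nat.cast_nonneg _
  have h4M : (4 : ℝ) ^ M ≤ 204 ^ M := pow_le_pow_left₀ (by norm_num) (by norm_num) M
  have h6 : 4 ^ M * b * q * ZZ ≤ τ * ZZ := by
    rw [hτ]
    exact mul_le_mul_of_nonneg_right (mul_le_mul_of_nonneg_right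
      (mul_le_mul_of_nonneg_right h4M (by linarith)) hq0) hZZ0
  calc _ ≤ 1 * ∑ P ∈ Dg b p h, ((XX b m m' h M a t P G).card : ℝ) :=
        mul_le_mul_of_nonneg_right h5 hS0
    _ ≤ DD * (N : ℝ) + τ * DD * ZZ := by rw [one_mul]; exact h3
    _ ≤ DD * (τ * ZZ) + τ * DD * ZZ :=
        add_le_add (mul_le_mul_of_nonneg_left (h2.trans h6) hDD0) le_rfl
    _ = DD * ZZ * τ * 2 := by ring
    _ ≤ DD * ZZ * τ * 3 := mul_le_mul_of_nonneg_left (by norm_num) (by positivity)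
    _ = _ := by rw [hτ]; ring

theorem sumBound : SumBoundProp := by
  classical
  obtain ⟨b₁, H⟩ := perG2
  refine ⟨max b₁ (10 ^ 5), ?_⟩
  intro b p m m' s h M a t hbp hB hb hmm hsm hm' hs hh ht ha
  have hb1 : b₁ ≤ b := (le_max_left _ _).trans hb
  have hb5 : 10 ^ 5 ≤ b := (le_max_right _ _).trans hb
  have hG : ∀ G ∈ (Finset.range M).powerset, (3 * (b : ℝ) ^ (-(1 : ℝ) / 4)) ^ (M - G.card) *
      ∑ P ∈ Dg b p h, ((XX b m m' h M a t P G).card : ℝ) ≤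
      ((Dg b p h).card : ℝ) * ((Zg b M).card : ℝ) *
        (3 * 204 ^ M * b * (b : ℝ) ^ (-(M : ℝ) / 120)) := by
    intro G hG
    by_cases hcase : M ≤ 30 * (M - G.card)
    · exact perG1 hB.three hcase
    · exact H b p m m' h M a t G hbp hB hb1 (by omega) (by omega) ht ha (Finset.mem_powerset.1 hG)
        (by omega)
  have hcard : (Dg b p s).card = (Zg b (s - (h + M))).card * ((Dg b p h).card * (Zg b M).card) := by
    rw [card_Dg hB.lt (by omega), card_Zg, card_Dg hB.lt (by omega), card_Zg, ← pow_add, ← pow_add]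
    congr 1; omega
  have h408 : (408 : ℝ) ^ M = 2 ^ M * 204 ^ M := by rw [← mul_pow]; norm_num
  refine (sumX hbp hB hb5 hmm hsm hm' hs hh ht).trans ?_
  refine (mul_le_mul_of_nonneg_left (Finset.sum_le_sum hG) (Nat.cast_nonneg _)).trans ?_
  rw [Finset.sum_const, nsmul_eq_mul, Finset.card_powerset, Finset.card_range, h408, hcard]
  push_cast
  apply le_of_eq
  ring

end Pool.Agent.HPX
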