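import Pool.Agent.HPX.SDefs

/-! # HPX/SBas: digit strings as numbers -/

namespace Pool.Agent.HPX

open Complex Pool.Agent.HPP

variable {b p m s L l : ℕ} {D : ℕ → Finset ℕ}

lemma Ds_lt (hD : ∀ i, D i ⊆ Finset.range b) {n : ℕ} (h : n ∈ Ds b D s) : n < b ^ s := by
  induction s generalizing n with
  | zero => simp [Ds] at h; simp [h]
  | succ s ih =>
    simp only [Ds, Finset.mem_image, Finset.mem_product, Prod.exists] at h
    obtain ⟨x, z, ⟨hx, hz⟩, rfl⟩ := h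
    have h1 := ih hx
    have h2 := Finset.mem_range.1 (hD s hz)
    rw [pow_succ]
    have : b ^ s * (z + 1) ≤ b ^ s * b := Nat.mul_le_mul_left _ h2
    nlinarith

lemma sum_Ds_succ {M : Type*} [AddCommMonoid M] (hD : ∀ i, D i ⊆ Finset.range b) (F : ℕ → M) :
    ∑ n ∈ Ds b D (s + 1), F n = ∑ n ∈ Ds b D s, ∑ z ∈ D s, F (n + b ^ s * z) := by
  rw [Ds, Finset.sum_image, Finset.sum_product]
  intro x hx y hy h
  simp only [Finset.coe_product, Set.mem_prod, Finset.mem_coe] at hx hy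
  have h1 := Ds_lt hD hx.1
  have h2 := Ds_lt hD hy.1
  simp only at h
  have h3 : x.1 = y.1 := by
    have e1 : (x.1 + b ^ s * x.2) % b ^ s = x.1 := by
      rw [Nat.add_mul_mod_self_left, Nat.mod_eq_of_lt h1]
    have e2 : (y.1 + b ^ s * y.2) % b ^ s = y.1 := by
      rw [Nat.add_mul_mod_self_left, Nat.mod_eq_of_lt h2]
    rw [← e1, ← e2, h]
  have h4 : b ^ s * x.2 = b ^ s * y.2 := by rw [h3] at h; omega
  have h5 : x.2 = y.2 := Nat.eq_of_mul_eq_mul_left (by omega) h4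
  exact Prod.ext h3 h5

lemma mem_Ds_succ {n : ℕ} : n ∈ Ds b D (s + 1) ↔ ∃ x ∈ Ds b D s, ∃ z ∈ D s, x + b ^ s * z = n := by
  simp only [Ds, Finset.mem_image, Finset.mem_product, Prod.exists]
  constructor
  · rintro ⟨x, z, ⟨hx, hz⟩, h⟩
    exact ⟨x, hx, z, hz, h⟩
  · rintro ⟨x, hx, z, hz, h⟩
    exact ⟨x, z, ⟨hx, hz⟩, h⟩

lemma card_Ds (hD : ∀ i, D i ⊆ Finset.range b) :
    (Ds b D s).card = ∏ i ∈ Finset.range s, (D i).card := by
  induction s with
  | zero => simp [Ds]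
  | succ s ih =>
    rw [Finset.card_eq_sum_ones, sum_Ds_succ hD, Finset.prod_range_succ, ← ih]
    simp

lemma sum_Ds_add {M : Type*} [AddCommMonoid M] (hD : ∀ i, D i ⊆ Finset.range b) (F : ℕ → M) :
    ∑ n ∈ Ds b D (s + L), F n =
      ∑ n ∈ Ds b D s, ∑ z ∈ Ds b (fun i => D (s + i)) L, F (n + b ^ s * z) := by
  induction L generalizing F with
  | zero => simp [Ds]
  | succ L ih =>
    rw [← add_assoc, sum_Ds_succ hD, ih]
    refine Finset.sum_congr rfl fun n _ => ?_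
    rw [sum_Ds_succ fun i => hD _]
    refine Finset.sum_congr rfl fun z _ => Finset.sum_congr rfl fun w _ => ?_
    congr 1
    rw [pow_add]; ring

lemma mem_Ds_add {n : ℕ} : n ∈ Ds b D (s + L) ↔
    ∃ x ∈ Ds b D s, ∃ z ∈ Ds b (fun i => D (s + i)) L, x + b ^ s * z = n := by
  induction L generalizing n with
  | zero => simp [Ds]
  | succ L ih =>
    rw [← add_assoc, mem_Ds_succ]
    constructor
    · rintro ⟨x, hx, z, hz, rfl⟩
      obtain ⟨x', hx', z', hz', rfl⟩ := ih.1 hx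
      refine ⟨x', hx', z' + b ^ L * z, mem_Ds_succ.2 ⟨z', hz', z, hz, rfl⟩, ?_⟩
      rw [pow_add]; ring
    · rintro ⟨x, hx, z, hz, rfl⟩
      obtain ⟨z', hz', w, hw, rfl⟩ := mem_Ds_succ.1 hz
      refine ⟨x + b ^ s * z', ih.2 ⟨x, hx, z', hz', rfl⟩, w, hw, ?_⟩
      rw [pow_add]; ring

lemma Ds_mod (hD : ∀ i, D i ⊆ Finset.range b) {n : ℕ} (h : n ∈ Ds b D s) (hl : l ≤ s) :
    n % b ^ l ∈ Ds b D l := by
  obtain ⟨L, rfl⟩ := Nat.exists_eq_add_of_le hl
  obtain ⟨x, hx, z, -, rfl⟩ := mem_Ds_add.1 h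
  rwa [Nat.add_mul_mod_self_left, Nat.mod_eq_of_lt (Ds_lt hD hx)]

/-! ### digits -/

lemma dg_lt (hb : 0 < b) (n i : ℕ) : dg b n i < b := Nat.mod_lt _ hb

lemma dg_add_lt {n z i : ℕ} (hi : i < s) : dg b (n + b ^ s * z) i = dg b n i := by
  rcases Nat.eq_zero_or_pos b with rfl | hb
  · unfold dg
    rw [zero_pow (by omega : s ≠ 0)]; simp
  unfold dg
  obtain ⟨c, rfl⟩ := Nat.exists_eq_add_of_lt hi
  have : b ^ (i + c + 1) * z = b ^ i * (b * (b ^ c * z)) := by rw [pow_succ, pow_add]; ring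
  rw [this, Nat.add_mul_div_left _ _ (by positivity), Nat.add_mul_mod_self_left]

lemma dg_add_ge {n z : ℕ} (hn : n < b ^ s) (i : ℕ) : dg b (n + b ^ s * z) (s + i) = dg b z i := by
  unfold dg
  have hb : 0 < b ^ s := by omega
  rw [pow_add, ← Nat.div_div_eq_div_mul, Nat.add_mul_div_left _ _ hb, Nat.div_eq_of_lt hn, zero_add]

lemma dg_mod {n i : ℕ} (hi : i < s) : dg b (n % b ^ s) i = dg b n i := by
  conv_rhs => rw [← Nat.mod_add_div n (b ^ s)]
  rw [dg_add_lt hi]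

lemma dg_eq_zero {n i : ℕ} (hn : n < b ^ s) (hi : s ≤ i) (hb : 0 < b) : dg b n i = 0 := by
  unfold dg
  rw [Nat.div_eq_of_lt (hn.trans_le (Nat.pow_le_pow_right hb hi)), Nat.zero_mod]

lemma dg_of_lt {z : ℕ} (hz : z < b) : dg b z 0 = z := by
  unfold dg; simp [Nat.mod_eq_of_lt hz]

lemma dg_mem (hD : ∀ i, D i ⊆ Finset.range b) {n i : ℕ} (h : n ∈ Ds b D s) (hi : i < s) :
    dg b n i ∈ D i := by
  induction s generalizing n with
  | zero => omega
  | succ s ih =>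
    obtain ⟨x, hx, z, hz, rfl⟩ := mem_Ds_succ.1 h
    rcases Nat.lt_or_ge i s with h1 | h1
    · rw [dg_add_lt h1]; exact ih hx h1
    · obtain rfl : i = s := by omega
      have := dg_add_ge (b := b) (z := z) (Ds_lt hD hx) 0
      rw [add_zero] at this
      rw [this, dg_of_lt (Finset.mem_range.1 (hD i hz))]
      exact hz

lemma prod_Ds {R : Type*} [CommSemiring R] (hD : ∀ i, D i ⊆ Finset.range b) (φ : ℕ → ℕ → R) :
    ∑ z ∈ Ds b D L, ∏ r ∈ Finset.range L, φ r (dg b z r) =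
      ∏ r ∈ Finset.range L, ∑ w ∈ D r, φ r w := by
  induction L with
  | zero => simp [Ds]
  | succ L ih =>
    rw [sum_Ds_succ hD, Finset.prod_range_succ, ← ih, Finset.sum_mul_sum]
    refine Finset.sum_congr rfl fun n hn => Finset.sum_congr rfl fun z hz => ?_
    rw [Finset.prod_range_succ]
    congr 1
    · refine Finset.prod_congr rfl fun r hr => ?_
      rw [dg_add_lt (Finset.mem_range.1 hr)]
    · have := dg_add_ge (b := b) (z := z) (Ds_lt hD hn) 0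
      rw [add_zero] at this
      rw [this, dg_of_lt (Finset.mem_range.1 (hD _ hz))]

/-! ### `Zg`, `Dg` -/

lemma hZ (b : ℕ) : ∀ _ : ℕ, Finset.range (b / 2) ⊆ Finset.range b := fun _ =>
  Finset.range_subset_range.2 (Nat.div_le_self _ _)

lemma hDt (hp : p < b) : ∀ i : ℕ, Dt b p i ⊆ Finset.range b := by
  intro i
  unfold Dt
  split_ifs
  · simpa using hp
  · exact hZ b 0

lemma Zg_lt {z : ℕ} (h : z ∈ Zg b L) : z < b ^ L := Ds_lt (hZ b) h

lemma Dg_lt (hp : p < b) {z : ℕ} (h : z ∈ Dg b p s) : z < b ^ s := Ds_lt (hDt hp) h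

lemma card_Zg : (Zg b L).card = (b / 2) ^ L := by
  rw [Zg, card_Ds (hZ b)]; simp

lemma card_Dg (hp : p < b) (hs : 1 ≤ s) : (Dg b p s).card = (b / 2) ^ (s - 1) := by
  obtain ⟨s, rfl⟩ := Nat.exists_eq_add_of_le' hs
  rw [Dg, card_Ds (hDt hp), Finset.prod_range_succ']
  simp [Dt]

lemma Dt_shift (hs : 1 ≤ s) : (fun i => Dt b p (s + i)) = fun _ => Finset.range (b / 2) := by
  funext i
  unfold Dt
  rw [if_neg (by omega)]

lemma sum_Dg_add {M : Type*} [AddCommMonoid M] (hp : p < b) (hs : 1 ≤ s) (F : ℕ → M) :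
    ∑ n ∈ Dg b p (s + L), F n = ∑ n ∈ Dg b p s, ∑ z ∈ Zg b L, F (n + b ^ s * z) := by
  rw [Dg, sum_Ds_add (hDt hp), Dt_shift hs]; rfl

lemma sum_Zg_add {M : Type*} [AddCommMonoid M] (F : ℕ → M) :
    ∑ n ∈ Zg b (s + L), F n = ∑ n ∈ Zg b s, ∑ z ∈ Zg b L, F (n + b ^ s * z) := by
  rw [Zg, sum_Ds_add (hZ b)]; rfl

lemma mem_Dg_add (hs : 1 ≤ s) {n : ℕ} : n ∈ Dg b p (s + L) ↔
    ∃ x ∈ Dg b p s, ∃ z ∈ Zg b L, x + b ^ s * z = n := by
  rw [Dg, mem_Ds_add, Dt_shift hs]; rfl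

lemma mem_Zg_add {n : ℕ} : n ∈ Zg b (s + L) ↔ ∃ x ∈ Zg b s, ∃ z ∈ Zg b L, x + b ^ s * z = n := by
  rw [Zg, mem_Ds_add]; rfl

lemma Dg_one : Dg b p 1 = {p} := by
  simp [Dg, Ds, Dt]

lemma Dg_modb (hp : p < b) (hs : 1 ≤ s) {n : ℕ} (h : n ∈ Dg b p s) : n ≡ p [MOD b] := by
  have := Ds_mod (hDt hp) h hs
  rw [← Dg, Dg_one, pow_one, Finset.mem_singleton] at this
  show n % b = p % b
  rw [this, Nat.mod_eq_of_lt hp]

lemma Dg_coprime (hB : Bas b p) (hs : 1 ≤ s) {n : ℕ} (h : n ∈ Dg b p s) : n.Coprime b :=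
  coprime_of_mod hB (Dg_modb hB.lt hs h)

/-! ### the real number `yv` -/

lemma yv_nonneg (n : ℕ) : 0 ≤ yv b s n := Finset.sum_nonneg fun _ _ => by positivity

lemma yv_mod (n : ℕ) : yv b s (n % b ^ s) = yv b s n :=
  Finset.sum_congr rfl fun i hi => by rw [dg_mod (Finset.mem_range.1 hi)]

lemma yv_add {n z : ℕ} (hn : n < b ^ s) :
    yv b (s + L) (n + b ^ s * z) = yv b s n + yv b L z / (b : ℝ) ^ s := by
  unfold yv
  rw [Finset.sum_range_add, Finset.sum_div]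
  congr 1
  · exact Finset.sum_congr rfl fun i hi => by rw [dg_add_lt (Finset.mem_range.1 hi)]
  · refine Finset.sum_congr rfl fun i _ => ?_
    rw [dg_add_ge hn, pow_add, div_div, mul_comm]

lemma yv_lt (hb : 0 < b) (n : ℕ) : yv b s n < b := by
  have hb' : (0 : ℝ) < b := by exact_mod_cast hb
  have : yv b s n ≤ b * (1 - ((b : ℝ) ^ s)⁻¹) := by
    unfold yv
    induction s with
    | zero => simp
    | succ s ih =>
      rw [Finset.sum_range_succ]
      have h1 : (dg b n s : ℝ) ≤ b - 1 := by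
        have := dg_lt hb n s
        have : dg b n s + 1 ≤ b := this
        have : (dg b n s : ℝ) + 1 ≤ b := by exact_mod_cast this
        linarith
      have h2 : (dg b n s : ℝ) / (b : ℝ) ^ s ≤ (b - 1) / (b : ℝ) ^ s := by gcongr
      have h3 : (b : ℝ) * (1 - ((b : ℝ) ^ (s + 1))⁻¹) =
          b * (1 - ((b : ℝ) ^ s)⁻¹) + (b - 1) / (b : ℝ) ^ s := by
        rw [pow_succ]; field_simp; ring
      rw [h3]; linarith
  have h4 : (0 : ℝ) < b * ((b : ℝ) ^ s)⁻¹ := by positivity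
  linarith

lemma yv_Zg_le (hb : 2 ≤ b) {z : ℕ} (hz : z ∈ Zg b L) : yv b L z ≤ b / 2 := by
  have hb' : (0 : ℝ) < b := by
    have : (2 : ℝ) ≤ b := by exact_mod_cast hb
    linarith
  have key : ∀ l ≤ L, ∑ i ∈ Finset.range l, (dg b z i : ℝ) / (b : ℝ) ^ i ≤
      b / 2 * (1 - ((b : ℝ) ^ l)⁻¹) := by
    intro l hl
    induction l with
    | zero => simp
    | succ l ih =>
      rw [Finset.sum_range_succ]
      have h0 := Finset.mem_range.1 (dg_mem (hZ b) hz (show l < L by omega))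
      have h1 : (dg b z l : ℝ) ≤ b / 2 - 1 := by
        have : 2 * (dg b z l + 1) ≤ b := by omega
        have : 2 * ((dg b z l : ℝ) + 1) ≤ b := by exact_mod_cast this
        linarith
      have h2 : (dg b z l : ℝ) / (b : ℝ) ^ l ≤ ((b - 1) / 2) / (b : ℝ) ^ l := by
        have : (dg b z l : ℝ) ≤ (b - 1) / 2 := by linarith
        gcongr
      have h3 : (b : ℝ) / 2 * (1 - ((b : ℝ) ^ (l + 1))⁻¹) =
          b / 2 * (1 - ((b : ℝ) ^ l)⁻¹) + ((b - 1) / 2) / (b : ℝ) ^ l := by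
        rw [pow_succ]; field_simp; ring
      rw [h3]
      have := ih (by omega)
      linarith
  have h1 := key L le_rfl
  have h4 : (0 : ℝ) < b / 2 * ((b : ℝ) ^ L)⁻¹ := by positivity
  unfold yv
  linarith

lemma yv_Dg (hB : Bas b p) (hs : 1 ≤ s) {n : ℕ} (h : n ∈ Dg b p s) :
    (p : ℝ) ≤ yv b s n ∧ yv b s n ≤ p + 1 / 2 := by
  have hb := hB.three
  have hb' : (0 : ℝ) < b := by
    have : (3 : ℝ) ≤ b := by exact_mod_cast hb
    linarith
  obtain ⟨L, rfl⟩ := Nat.exists_eq_add_of_le hs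
  obtain ⟨x, hx, z, hz, rfl⟩ := (mem_Dg_add le_rfl).1 h
  rw [Dg_one, Finset.mem_singleton] at hx
  subst hx
  have h0 : x < b ^ 1 := by simpa using hB.lt
  rw [yv_add h0]
  have h1 : yv b 1 x = x := by
    unfold yv; simp [dg_of_lt hB.lt]
  rw [h1, pow_one]
  have h2 := yv_Zg_le (by omega : 2 ≤ b) hz
  have h3 := yv_nonneg (b := b) (s := L) z
  constructor
  · have : 0 ≤ yv b L z / b := by positivity
    linarith
  · have : yv b L z / b ≤ 1 / 2 := by
      rw [div_le_iff₀ hb']; linarith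
    linarith

/-! ### inverses -/

lemma iv_mul {n : ℕ} (hb : 0 < b) (hn : n.Coprime b) : iv b m n * n ≡ 1 [MOD b ^ m] := by
  have : NeZero (b ^ m) := ⟨by positivity⟩
  rw [← ZMod.natCast_eq_natCast_iff, Nat.cast_mul, iv, ZMod.natCast_zmod_val, mul_comm, Nat.cast_one,
    ZMod.coe_mul_inv_eq_one _ (Nat.Coprime.pow_right m hn)]

lemma iv_congr {n n' : ℕ} (hb : 0 < b) (hn : n.Coprime b) (hn' : n'.Coprime b) (hl : l ≤ m)
    (h : n ≡ n' [MOD b ^ l]) : iv b m n ≡ iv b m n' [MOD b ^ l] := by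
  have h1 := (iv_mul (m := m) hb hn).of_dvd (pow_dvd_pow b hl)
  have h2 := (iv_mul (m := m) hb hn').of_dvd (pow_dvd_pow b hl)
  have h3 : iv b m n * n' ≡ 1 [MOD b ^ l] := ((Nat.ModEq.mul_left _ h).symm).trans h1
  calc iv b m n = iv b m n * 1 := (mul_one _).symm
    _ ≡ iv b m n * (iv b m n' * n') [MOD b ^ l] := Nat.ModEq.mul_left _ h2.symm
    _ = (iv b m n * n') * iv b m n' := by ring
    _ ≡ 1 * iv b m n' [MOD b ^ l] := Nat.ModEq.mul_right _ h3
    _ = iv b m n' := one_mul _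

lemma iv_coprime {n : ℕ} (hb : 0 < b) (hm : 1 ≤ m) (hn : n.Coprime b) : (iv b m n).Coprime b := by
  have h1 := (iv_mul (m := m) hb hn).of_dvd (dvd_pow_self b (by omega))
  have h2 : Nat.Coprime (iv b m n * n) b := by
    unfold Nat.Coprime
    rw [Nat.ModEq.gcd_eq h1]; simp
  exact Nat.Coprime.coprime_mul_right h2

end Pool.Agent.HPX
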