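import Pool.Agent.HPX.SNd

/-! # HPX/SCnt1 -/

namespace Pool.Agent.HPX

open Complex Pool.Agent.HPP

theorem sCnt1 : SCnt1Prop := by
  intro B x lam r hlam hr hx
  rcases Nat.eq_zero_or_pos B with hB | hB
  · subst hB
    simp
    positivity
  have hgap : ∀ d n, n + d < B → (d : ℝ) * lam ≤ x (n + d) - x n ∧
      x (n + d) - x n ≤ 4 * lam * d := by
    intro d
    induction d with
    | zero => intro n _; simp
    | succ d ih =>
      intro n hn
      obtain ⟨h1, h2⟩ := ih n (by omega)
      obtain ⟨h3, h4⟩ := hx (n + d) (by omega)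
      rw [show n + (d + 1) = n + d + 1 from rfl]
      push_cast
      constructor <;> nlinarith
  have hmono : ∀ n, n < B → x 0 ≤ x n ∧ x n ≤ x (B - 1) := by
    intro n hn
    constructor
    · have := (hgap n 0 (by omega)).1
      rw [zero_add] at this
      have h0 : 0 ≤ (n : ℝ) * lam := by positivity
      linarith
    · have := (hgap (B - 1 - n) n (by omega)).1
      rw [show n + (B - 1 - n) = B - 1 by omega] at this
      have h0 : 0 ≤ ((B - 1 - n : ℕ) : ℝ) * lam := by positivity
      linarith
  set F := (Finset.range B).filter (fun n => nd (x n) ≤ r) with hF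
  have hmaps : ∀ n ∈ F, round (x n) ∈ Finset.Icc (round (x 0)) (round (x (B - 1))) := by
    intro n hn
    rw [hF, Finset.mem_filter, Finset.mem_range] at hn
    obtain ⟨h1, h2⟩ := hmono n hn.1
    rw [Finset.mem_Icc]
    constructor
    · rw [round_eq, round_eq]; exact Int.floor_le_floor (by linarith)
    · rw [round_eq, round_eq]; exact Int.floor_le_floor (by linarith)
  have hcard := Finset.card_eq_sum_card_fiberwise hmaps
  have hfib : ∀ k ∈ Finset.Icc (round (x 0)) (round (x (B - 1))),
      ((F.filter (fun n => round (x n) = k)).card : ℝ) ≤ 2 * r / lam + 1 := by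
    intro k _
    set G := F.filter (fun n => round (x n) = k) with hG
    rcases G.eq_empty_or_nonempty with he | hne
    · rw [he]; simp; positivity
    have ha := G.min'_mem hne
    have hc := G.max'_mem hne
    set a := G.min' hne
    set c := G.max' hne
    have hac : a ≤ c := G.min'_le_max' hne
    have hsub : G ⊆ Finset.Icc a c := by
      intro n hn
      rw [Finset.mem_Icc]
      exact ⟨G.min'_le n hn, G.le_max' n hn⟩
    have hcd := Finset.card_le_card hsub
    rw [Nat.card_Icc] at hcd
    rw [hG, Finset.mem_filter, hF, Finset.mem_filter, Finset.mem_range] at ha hc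
    obtain ⟨⟨ha1, ha2⟩, ha3⟩ := ha
    obtain ⟨⟨hc1, hc2⟩, hc3⟩ := hc
    unfold nd at ha2 hc2
    rw [ha3] at ha2
    rw [hc3] at hc2
    have h5 := (hgap (c - a) a (by omega)).1
    rw [show a + (c - a) = c by omega] at h5
    have h6 := abs_le.mp ha2
    have h7 := abs_le.mp hc2
    have h8 : ((c - a : ℕ) : ℝ) * lam ≤ 2 * r := by linarith
    have h9 : ((c - a : ℕ) : ℝ) ≤ 2 * r / lam := by
      rw [le_div_iff₀ hlam]; exact h8
    have h10 : (G.card : ℝ) ≤ ((c + 1 - a : ℕ) : ℝ) := by exact_mod_cast hcd
    rw [show c + 1 - a = (c - a) + 1 by omega] at h10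
    push_cast at h10
    linarith
  have hI : ((Finset.Icc (round (x 0)) (round (x (B - 1)))).card : ℝ) ≤ 4 * lam * B + 2 := by
    rw [Int.card_Icc]
    have h1 := abs_le.mp (abs_sub_round (x 0))
    have h2 := abs_le.mp (abs_sub_round (x (B - 1)))
    have h3 := (hgap (B - 1) 0 (by omega)).2
    rw [zero_add] at h3
    have h4 : ((B - 1 : ℕ) : ℝ) = B - 1 := by
      rw [Nat.cast_sub hB]; simp
    rw [h4] at h3
    have h6 : round (x 0) ≤ round (x (B - 1)) := by
      rw [round_eq, round_eq]; exact Int.floor_le_floor (by linarith [(hmono 0 hB).2])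
    have h5 : (((round (x (B - 1)) + 1 - round (x 0)).toNat : ℕ) : ℝ) =
        (round (x (B - 1)) : ℝ) + 1 - round (x 0) := by
      have : (((round (x (B - 1)) + 1 - round (x 0)).toNat : ℕ) : ℤ) =
        round (x (B - 1)) + 1 - round (x 0) := Int.toNat_of_nonneg (by omega)
      exact_mod_cast this
    rw [h5]
    nlinarith
  rw [hcard]
  push_cast
  calc ∑ k ∈ Finset.Icc (round (x 0)) (round (x (B - 1))),
        ((F.filter (fun n => round (x n) = k)).card : ℝ)
      ≤ ∑ _k ∈ Finset.Icc (round (x 0)) (round (x (B - 1))), (2 * r / lam + 1) :=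
        Finset.sum_le_sum hfib
    _ = ((Finset.Icc (round (x 0)) (round (x (B - 1)))).card : ℝ) * (2 * r / lam + 1) := by
        rw [Finset.sum_const, nsmul_eq_mul]
    _ ≤ _ := by
        apply mul_le_mul_of_nonneg_right hI
        positivity

end Pool.Agent.HPX
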