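import Pool.Agent.HPX.Iface
import Pool.Agent.HPP.DChr
import Pool.Agent.HPP.DSpc

/-!
# HPX/SDefs: definitions for part S (note 1752)

Digit strings are represented by numbers: `Ds b D s` = the numbers `< b ^ s` with digit `i` in `D i`,
`Dg b p s` = the mirrored strings (digit `0` is `p`, the others `< b / 2`), `Zg b L` = all digits
`< b / 2`. `dg b n i` = digit `i`, `yv b s n = ∑_{i < s} dg b n i / b ^ i`, `iv b m n` = inverse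
modulo `b ^ m`, `nd x` = distance to the nearest integer, `gB b x = |∑_{z < B} e(z x)| / B`, `B = b / 2`.
-/

namespace Pool.Agent.HPX

open Complex Pool.Agent.HPP

/-- numbers `< b ^ s` whose digit `i` is in `D i` -/
def Ds (b : ℕ) (D : ℕ → Finset ℕ) : ℕ → Finset ℕ
  | 0 => {0}
  | s + 1 => (Ds b D s ×ˢ D s).image fun x => x.1 + b ^ s * x.2

/-- digit sets of the mirrored strings -/
def Dt (b p i : ℕ) : Finset ℕ := if i = 0 then {p} else Finset.range (b / 2)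

/-- mirrored strings of length `s` -/
def Dg (b p s : ℕ) : Finset ℕ := Ds b (Dt b p) s

/-- strings of length `L` with all digits `< b / 2` -/
def Zg (b L : ℕ) : Finset ℕ := Ds b (fun _ => Finset.range (b / 2)) L

/-- digit -/
def dg (b n i : ℕ) : ℕ := n / b ^ i % b

/-- the real number `d₀.d₁d₂…` -/
noncomputable def yv (b s n : ℕ) : ℝ := ∑ i ∈ Finset.range s, (dg b n i : ℝ) / (b : ℝ) ^ i

/-- inverse modulo `b ^ m` -/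
def iv (b m n : ℕ) : ℕ := ((n : ZMod (b ^ m))⁻¹).val

/-- distance to the nearest integer -/
noncomputable def nd (x : ℝ) : ℝ := |x - round x|

/-- normalised geometric sum -/
noncomputable def gB (b : ℕ) (x : ℝ) : ℝ :=
  ‖∑ z ∈ Finset.range (b / 2), Complex.exp (2 * Real.pi * I * ((z : ℝ) * x : ℝ))‖ / ((b / 2 : ℕ) : ℝ)

/-- the phases: `a u b^r / b^(m' - s) + t / (2 π y b^(s + r))` -/
noncomputable def th (b m m' s : ℕ) (a : ℕ) (t : ℝ) (r n : ℕ) : ℝ :=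
  (a : ℝ) * iv b m n * (b : ℝ) ^ r / (b : ℝ) ^ (m' - s) +
    t / (2 * Real.pi * yv b s n * (b : ℝ) ^ (s + r))

/-! ## statements of the parts -/

/-- (S1) linearisation -/
def SLinProp : Prop := ∀ (b p m m' s L : ℕ) (V : ℝ → ℝ) (K : ℝ), b.Prime → Bas b p →
  (∀ y, 0 ≤ V y ∧ V y ≤ 1) → 0 ≤ K → (∀ y z, |V y - V z| ≤ K * |y - z|) → 1 ≤ m' → m' ≤ m →
  1 ≤ s → m' ≤ 2 * s → s + L ≤ m →
  ∀ χ : DirichletCharacter ℂ (b ^ m), χ.FactorsThrough (b ^ m') →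
  (2 ≤ m' → ¬ χ.FactorsThrough (b ^ (m' - 1))) →
  ∃ a : ℕ, (s < m' → ¬ b ∣ a) ∧ ∀ t : ℝ,
    ‖cc b p ∅ V χ t‖ ≤ ((RR b p m ∅).card : ℝ) *
      (4 * |t| / (b : ℝ) ^ (2 * s) + K * b / (b : ℝ) ^ s +
        (∑ n ∈ Dg b p s, ∏ r ∈ Finset.range L, gB b (th b m m' s a t r n)) / (Dg b p s).card)

/-- (S4) case T -/
def STProp : Prop := ∃ C : ℝ, 1 ≤ C ∧ ∀ (b p m m' J : ℕ) (V : ℝ → ℝ) (K : ℝ), b.Prime → Bas b p →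
  (∀ y, 0 ≤ V y ∧ V y ≤ 1) → 0 ≤ K → (∀ y z, |V y - V z| ≤ K * |y - z|) → 1 ≤ m' → m' ≤ m →
  ∀ χ : DirichletCharacter ℂ (b ^ m), χ.FactorsThrough (b ^ m') →
  (2 ≤ m' → ¬ χ.FactorsThrough (b ^ (m' - 1))) → ∀ t : ℝ, |t| ≤ (b : ℝ) ^ (m + m / 8) →
  (b : ℝ) ^ ((m' : ℝ) + 1 / 20) ≤ |t| → (b : ℝ) ^ J ≤ |t| → |t| ≤ (b : ℝ) ^ (J + 1) → 1200 ≤ J →
  ‖cc b p ∅ V χ t‖ ≤
    C ^ J * (1 + K) * (b : ℝ) ^ (4 - (J : ℝ) / 600) * ((RR b p m ∅).card : ℝ)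

/-- (S5) case A -/
def SAProp : Prop := ∃ C : ℝ, 1 ≤ C ∧ ∀ (b p m m' : ℕ) (V : ℝ → ℝ) (K : ℝ), b.Prime → Bas b p →
  (∀ y, 0 ≤ V y ∧ V y ≤ 1) → 0 ≤ K → (∀ y z, |V y - V z| ≤ K * |y - z|) → 1200 ≤ m' → m' ≤ m →
  ∀ χ : DirichletCharacter ℂ (b ^ m), χ.FactorsThrough (b ^ m') →
  ¬ χ.FactorsThrough (b ^ (m' - 1)) → ∀ t : ℝ, |t| ≤ (b : ℝ) ^ ((m' : ℝ) + 1 / 20) →
  ‖cc b p ∅ V χ t‖ ≤
    C ^ m' * (1 + K) * (b : ℝ) ^ (4 - (m' : ℝ) / 600) * ((RR b p m ∅).card : ℝ)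

/-- (S2) sequential lemma -/
def SSeqProp : Prop := ∀ (b : ℕ) (D : ℕ → Finset ℕ) (s : ℕ) (f : ℕ → ℕ → ℝ) (ρ : ℕ → ℝ), 1 ≤ b →
  (∀ i, D i ⊆ Finset.range b) → (∀ l n, 0 ≤ f l n) → (∀ l, 0 ≤ ρ l) →
  (∀ l < s, ∀ n ∈ Ds b D l, ∑ z ∈ D l, f l (n + b ^ l * z) ≤ (D l).card * ρ l) →
  ∑ n ∈ Ds b D s, ∏ l ∈ Finset.range s, f l (n % b ^ (l + 1)) ≤
    (Ds b D s).card * ∏ l ∈ Finset.range s, ρ l

/-- (S3)(i) monotone sequences -/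
def SCnt1Prop : Prop := ∀ (B : ℕ) (x : ℕ → ℝ) (lam r : ℝ), 0 < lam → 0 ≤ r →
  (∀ n, n + 1 < B → lam ≤ x (n + 1) - x n ∧ x (n + 1) - x n ≤ 4 * lam) →
  (((Finset.range B).filter fun n => nd (x n) ≤ r).card : ℝ) ≤ (4 * lam * B + 2) * (2 * r / lam + 1)

/-- (S3)(ii) distinct residues -/
def SCnt2Prop : Prop := ∀ (b : ℕ) (W : ℤ) (c r : ℝ), b.Prime → ¬ (b : ℤ) ∣ W → 0 ≤ r →
  (((Finset.range b).filter fun n : ℕ => nd ((W : ℝ) * n / b + c) ≤ r).card : ℝ) ≤ 2 * r * b + 1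

/-- the coefficients `ψ_j(P)` -/
noncomputable def psi (b m m' h : ℕ) (a : ℕ) (t : ℝ) (P j : ℕ) : ℝ :=
  (a : ℝ) * (iv b m P : ℝ) ^ 2 / (b : ℝ) ^ (j + 1) +
    t * (b : ℝ) ^ (j + 1) / (2 * Real.pi * (yv b h P) ^ 2 * (b : ℝ) ^ m')

/-- the constant terms `Γ_r(P)` -/
noncomputable def gam (b m m' h : ℕ) (a : ℕ) (t : ℝ) (P r : ℕ) : ℝ :=
  (a : ℝ) * (iv b m P : ℝ) / (b : ℝ) ^ (h + r + 1) +
    t * (b : ℝ) ^ (h + r + 1) / (2 * Real.pi * yv b h P * (b : ℝ) ^ m')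

/-- (S5a) expansion; `N = m' - s = h + M`, `2 h ≥ N + 2`, `N ≤ s` -/
def SA1Prop : Prop := ∀ (b p m m' s h M a : ℕ) (t : ℝ), b.Prime → Bas b p → 100 ≤ b → m' ≤ m →
  s ≤ m → m' = s + (h + M) → h + M ≤ s → M + 2 ≤ h → |t| ≤ (b : ℝ) ^ ((m' : ℝ) + 1 / 20) →
  ∀ P ∈ Dg b p h, ∀ S ∈ Zg b M, ∀ R ∈ Zg b (s - (h + M)), ∀ r < M,
  nd (th b m m' s a t (M - 1 - r) (P + b ^ h * (S + b ^ M * R)) - gam b m m' h a t P r +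
    ∑ l ∈ Finset.range (r + 1), (dg b S l : ℝ) * psi b m m' h a t P (r - l)) ≤
    10 * (b : ℝ) ^ (-(19 : ℝ) / 20)

/-- (S5d) pigeonhole (abstract) -/
def SA2Prop : Prop := ∀ (b M K₀ L₂ : ℕ) (Γ ψ : ℕ → ℝ) (η : ℝ) (G : Finset ℕ), 2 ≤ b → 1 ≤ K₀ →
  L₂ < M → G ⊆ Finset.range M →
  ((b / 2 / K₀ + 1) ^ M * K₀ ^ (M - L₂) < ((Zg b M).filter fun S => ∀ r ∈ G,
    nd (Γ r - ∑ l ∈ Finset.range (r + 1), (dg b S l : ℝ) * ψ (r - l)) ≤ η).card) →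
  ∃ l₀ < L₂, ∃ e : ℕ → ℤ, e 0 ≠ 0 ∧ (∀ i, |e i| < K₀) ∧ (∀ i, M - L₂ ≤ i → e i = 0) ∧
    ∀ j < M - L₂, l₀ + j ∈ G →
      nd (∑ i ∈ Finset.range (j + 1), (e i : ℝ) * ψ (j - i)) ≤ 2 * η

/-- (S5e) count of `P`; `Λ = M - L₂ ≤ h` -/
def SA3Prop : Prop := ∃ b₁ : ℕ, ∀ (b p m m' h a K₀ Λ : ℕ) (t : ℝ) (e : ℕ → ℤ) (T : Finset ℕ),
  b.Prime → Bas b p → b₁ ≤ b → h ≤ m → Λ ≤ h → ¬ b ∣ a → (K₀ : ℝ) ≤ (b : ℝ) ^ (1 / 6 : ℝ) →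
  |t| ≤ (b : ℝ) ^ ((m' : ℝ) + 1 / 20) → e 0 ≠ 0 → (∀ i, |e i| < K₀) → T ⊆ Finset.Ico 1 Λ →
  (((Dg b p h).filter fun P => ∀ j ∈ T,
    nd (∑ i ∈ Finset.range (j + 1), (e i : ℝ) * psi b m m' h a t P (j - i)) ≤
      4 * (b : ℝ) ^ (-(3 : ℝ) / 4)).card : ℝ) ≤
    (51 * (b : ℝ) ^ (-(3 : ℝ) / 4)) ^ T.card * ((Dg b p h).card : ℝ)

/-- (S6) -/
def SFinProp : Prop := STProp → SAProp → SupAll

end Pool.Agent.HPX
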