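import Pool.Agent.HPX.SRR
import Pool.Agent.HPX.SNd
import Pool.Agent.HPP.DSm

/-! # HPX/SLin: linearisation -/

namespace Pool.Agent.HPX

open Complex Pool.Agent.HPP

variable {b p m m' s L : ℕ}

/-- the frequency `a` -/
lemma exists_freq (hb : 2 ≤ b) (hm' : 1 ≤ m') (hs : 1 ≤ s) (hms : m' ≤ 2 * s)
    {χ : DirichletCharacter ℂ (b ^ m)} (hχ : χ.FactorsThrough (b ^ m'))
    (hχ2 : 2 ≤ m' → ¬ χ.FactorsThrough (b ^ (m' - 1))) :
    ∃ a : ℕ, (s < m' → ¬ b ∣ a) ∧ χ ((1 + b ^ s : ℕ) : ZMod (b ^ m)) =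
      Complex.exp (I * ((2 * Real.pi * (a / (b : ℝ) ^ (m' - s)) : ℝ) : ℂ)) := by
  have hb0 : 0 < b := by omega
  have hN : 0 < b ^ (m' - s) := by positivity
  have hpow : χ ((1 + b ^ s : ℕ) : ZMod (b ^ m)) ^ (b ^ (m' - s)) = 1 := by
    refine zeta_pow hb hm' hχ hms ?_
    rw [← pow_add]
    exact pow_dvd_pow b (by omega)
  have hprim := Complex.isPrimitiveRoot_exp (b ^ (m' - s)) hN.ne'
  have : NeZero (b ^ (m' - s)) := ⟨hN.ne'⟩
  obtain ⟨a, -, ha⟩ := hprim.eq_pow_of_pow_eq_one hpow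
  have hae : χ ((1 + b ^ s : ℕ) : ZMod (b ^ m)) =
      Complex.exp (I * ((2 * Real.pi * (a / (b : ℝ) ^ (m' - s)) : ℝ) : ℂ)) := by
    rw [← ha, ← Complex.exp_nat_mul]
    congr 1
    push_cast
    ring
  refine ⟨a, ?_, hae⟩
  intro hsm hba
  have hm2 : 2 ≤ m' := by omega
  have h1 := zeta_ne (i₀ := m' - 1) hb hm2 hχ (by omega) (by omega) (hχ2 hm2)
  apply h1
  have h2 : (1 + b ^ (m' - 1) : ℕ) = 1 + b ^ s * b ^ (m' - 1 - s) := by
    rw [← pow_add]; congr 2; omega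
  rw [h2, chi_add hb hm' hχ hms, hae, ← Complex.exp_nat_mul]
  obtain ⟨c, rfl⟩ := hba
  rw [Complex.exp_eq_one_iff]
  refine ⟨c, ?_⟩
  have h3 : (b : ℂ) ^ (m' - s) = (b : ℂ) * (b : ℂ) ^ (m' - 1 - s) := by
    rw [← pow_succ']; congr 1; omega
  have hbC : (b : ℂ) ≠ 0 := by exact_mod_cast hb0.ne'
  push_cast
  rw [h3]
  field_simp

/-- first order approximation of the logarithm -/
lemma log_approx {y δ : ℝ} (hy : 0 < y) (hδ : 0 ≤ δ) :
    |Real.log (y + δ) - (Real.log y + δ / y)| ≤ δ ^ 2 / y ^ 2 := by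
  have hx : 0 ≤ δ / y := by positivity
  have e1 : Real.log (y + δ) = Real.log y + Real.log (1 + δ / y) := by
    rw [← Real.log_mul hy.ne' (by positivity)]
    congr 1
    field_simp
  rw [e1, add_sub_add_left_eq_sub, abs_sub_comm]
  have h1 : Real.log (1 + δ / y) ≤ δ / y := by
    have := Real.log_le_sub_one_of_pos (x := 1 + δ / y) (by positivity)
    linarith
  have h2 := Real.le_log_one_add_of_nonneg hx
  rw [abs_of_nonneg (by linarith)]
  have h3 : δ / y - 2 * (δ / y) / (δ / y + 2) ≤ (δ / y) ^ 2 := by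
    have h4 : δ / y - 2 * (δ / y) / (δ / y + 2) = (δ / y) ^ 2 / (δ / y + 2) := by
      field_simp; ring
    rw [h4]
    exact div_le_self (by positivity) (by linarith)
  rw [div_pow] at h3
  linarith

/-- replacing the summand by its linearisation -/
lemma lin_term {V : ℝ → ℝ} {K t : ℝ} (hV : ∀ y, 0 ≤ V y ∧ V y ≤ 1)
    (hVK : ∀ y z, |V y - V z| ≤ K * |y - z|) {y δ : ℝ} (hy : 0 < y) (hδ : 0 ≤ δ) :
    ‖(V (y + δ) : ℂ) * Complex.exp (I * ((-(t * Real.log (y + δ)) : ℝ) : ℂ)) -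
      (V y : ℂ) * Complex.exp (I * ((-(t * (Real.log y + δ / y)) : ℝ) : ℂ))‖ ≤
      K * δ + |t| * (δ ^ 2 / y ^ 2) := by
  set E1 := Complex.exp (I * ((-(t * Real.log (y + δ)) : ℝ) : ℂ)) with hE1
  set E2 := Complex.exp (I * ((-(t * (Real.log y + δ / y)) : ℝ) : ℂ)) with hE2
  have e : (V (y + δ) : ℂ) * E1 - (V y : ℂ) * E2 =
      ((V (y + δ) - V y : ℝ) : ℂ) * E1 + (V y : ℂ) * (E1 - E2) := by push_cast; ring
  rw [e]
  refine (norm_add_le _ _).trans ?_
  have n1 : ‖E1‖ = 1 := by rw [hE1, Complex.norm_exp_I_mul_ofReal]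
  have n2 : ‖E1 - E2‖ ≤ |t| * (δ ^ 2 / y ^ 2) := by
    refine (norm_exp_sub_le _ _).trans ?_
    have : -(t * Real.log (y + δ)) - -(t * (Real.log y + δ / y)) =
        -(t * (Real.log (y + δ) - (Real.log y + δ / y))) := by ring
    rw [this, abs_neg, abs_mul]
    exact mul_le_mul_of_nonneg_left (log_approx hy hδ) (abs_nonneg t)
  rw [norm_mul, norm_mul, Complex.norm_real, Complex.norm_real, Real.norm_eq_abs, Real.norm_eq_abs,
    n1, mul_one, abs_of_nonneg (hV y).1]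
  have h1 := hVK (y + δ) y
  rw [add_sub_cancel_left, abs_of_nonneg hδ] at h1
  have h2 : V y * ‖E1 - E2‖ ≤ 1 * (|t| * (δ ^ 2 / y ^ 2)) :=
    mul_le_mul (hV y).2 n2 (norm_nonneg _) zero_le_one
  linarith

/-- the inner sum -/
lemma inner_sum (hb : 2 ≤ b) {L' : ℕ} (hL : L ≤ L') (A T : ℝ) :
    ‖∑ z ∈ Zg b L', Complex.exp (I * ((2 * Real.pi * (A * z + T * yv b L' z) : ℝ) : ℂ))‖ ≤
      ((b / 2 : ℕ) : ℝ) ^ L' * ∏ r ∈ Finset.range L, gB b (A * (b : ℝ) ^ r + T / (b : ℝ) ^ r) := by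
  have hB : (0 : ℝ) < ((b / 2 : ℕ) : ℝ) := by
    have : 0 < b / 2 := by omega
    exact_mod_cast this
  have hb0 : (0 : ℝ) < b := by
    have : (2 : ℝ) ≤ b := by exact_mod_cast hb
    linarith
  set φ : ℕ → ℕ → ℂ := fun r w =>
    Complex.exp (2 * Real.pi * I * ((w : ℝ) * (A * (b : ℝ) ^ r + T / (b : ℝ) ^ r) : ℝ)) with hφ
  have e1 : ∑ z ∈ Zg b L', Complex.exp (I * ((2 * Real.pi * (A * z + T * yv b L' z) : ℝ) : ℂ)) =
      ∑ z ∈ Zg b L', ∏ r ∈ Finset.range L', φ r (dg b z r) := by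
    refine Finset.sum_congr rfl fun z hz => ?_
    simp only [hφ]
    rw [← Complex.exp_sum]
    congr 1
    have h1 : (z : ℝ) = ∑ i ∈ Finset.range L', (b : ℝ) ^ i * dg b z i := by
      have := sum_dg (hZ b) hz
      have := congrArg (Nat.cast : ℕ → ℝ) this
      push_cast at this
      exact this.symm
    have h2 : A * z + T * yv b L' z =
        ∑ r ∈ Finset.range L', ((dg b z r : ℝ) * (A * (b : ℝ) ^ r + T / (b : ℝ) ^ r)) := by
      unfold yv
      nth_rewrite 1 [h1]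
      rw [Finset.mul_sum, Finset.mul_sum, ← Finset.sum_add_distrib]
      refine Finset.sum_congr rfl fun r _ => ?_
      field_simp
    rw [h2, ← Finset.mul_sum, ← Complex.ofReal_sum]
    push_cast
    ring
  rw [e1, Zg, prod_Ds (hZ b) φ, norm_prod]
  have e2 : ∀ r, ‖∑ w ∈ Finset.range (b / 2), φ r w‖ =
      ((b / 2 : ℕ) : ℝ) * gB b (A * (b : ℝ) ^ r + T / (b : ℝ) ^ r) := by
    intro r
    unfold gB
    rw [mul_div_cancel₀ _ hB.ne']
  rw [Finset.prod_congr rfl fun r _ => e2 r, Finset.prod_mul_distrib, Finset.prod_const,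
    Finset.card_range]
  refine mul_le_mul_of_nonneg_left ?_ (by positivity)
  obtain ⟨c, rfl⟩ := Nat.exists_eq_add_of_le hL
  rw [Finset.prod_range_add]
  refine mul_le_of_le_one_right (Finset.prod_nonneg fun _ _ => gB_nonneg _ _) ?_
  exact Finset.prod_le_one (fun _ _ => gB_nonneg _ _) fun _ _ => gB_le_one _ _

theorem sLin : SLinProp := by
  intro b p m m' s L V K hbp hB hV hK hVK hm1 hmm hs hms hsL χ hχ hχ2
  have hb3 := hB.three
  have hb2 : 2 ≤ b := by omega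
  have hb0 : 0 < b := by omega
  have hbR : (3 : ℝ) ≤ b := by exact_mod_cast hb3
  have hbR0 : (0 : ℝ) < b := by linarith
  obtain ⟨a, ha1, ha2⟩ := exists_freq hb2 hm1 hs hms hχ hχ2
  refine ⟨a, ha1, fun t => ?_⟩
  obtain ⟨L', hmL⟩ : ∃ L', m = s + L' := ⟨m - s, by omega⟩
  have hLL : L ≤ L' := by omega
  have hm1' : 1 ≤ m := by omega
  have hp : (b : ℝ) / 2 ≤ p := by
    have := hB.gt
    have : (b : ℝ) < 2 * p := by exact_mod_cast this
    linarith
  -- `cc` as a sum over `Dg`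
  have hcc : cc b p ∅ V χ t = (((b : ℝ) ^ (m - 1) : ℝ) : ℂ) ^ (-(t * I)) *
      ∑ n ∈ Dg b p m, (starRingEnd ℂ) (χ (n : ZMod (b ^ m))) *
        ((V (yv b m n) : ℂ) * Complex.exp (I * ((-(t * Real.log (yv b m n)) : ℝ) : ℂ))) := by
    set F0 : ℕ → ℝ → ℂ := fun n y => (V y : ℂ) * (starRingEnd ℂ) (χ (n : ZMod (b ^ m))) *
          (((b : ℝ) ^ (m - 1) * y : ℝ) : ℂ) ^ (-(t * I)) with hF0
    have h1 : cc b p ∅ V χ t = ∑ ω ∈ RR b p m ∅, F0 (lowv b ω)
          ((topv b ω : ℝ) / (b : ℝ) ^ (m - 1)) := by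
      unfold cc wt
      refine Finset.sum_congr rfl fun ω _ => ?_
      simp only [hF0]
      have h2 : (b : ℝ) ^ (m - 1) * ((topv b ω : ℝ) / (b : ℝ) ^ (m - 1)) = topv b ω := by
        field_simp
      rw [h2]
      push_cast
      rfl
    rw [h1, sum_RR hB hm1' F0, Finset.mul_sum]
    refine Finset.sum_congr rfl fun n hn => ?_
    simp only [hF0]
    have hy := (yv_Dg hB hm1' hn).1
    have hy0 : 0 < yv b m n := by
      have : (0 : ℝ) < b / 2 := by positivity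
      linarith
    rw [Complex.ofReal_mul, Complex.mul_cpow_ofReal_nonneg (by positivity) hy0.le, HPP.cpow_neg hy0]
    ring
  have hnorm1 : ‖(((b : ℝ) ^ (m - 1) : ℝ) : ℂ) ^ (-(t * I))‖ = 1 := by
    rw [HPP.cpow_neg (by positivity), Complex.norm_exp_I_mul_ofReal]
  -- the linearised summand
  set G : ℕ → ℕ → ℂ := fun n z => (V (yv b s n) : ℂ) * Complex.exp (I * ((-(t * (Real.log
    (yv b s n) + yv b L' z / (b : ℝ) ^ s / yv b s n)) : ℝ) : ℂ)) with hG
  set ε := 4 * |t| / (b : ℝ) ^ (2 * s) + K * b / (b : ℝ) ^ s with hε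
  have hterm : ∀ n ∈ Dg b p s, ∀ z ∈ Zg b L',
      ‖(starRingEnd ℂ) (χ ((n + b ^ s * z : ℕ) : ZMod (b ^ m))) *
        ((V (yv b m (n + b ^ s * z)) : ℂ) * Complex.exp (I * ((-(t * Real.log
          (yv b m (n + b ^ s * z))) : ℝ) : ℂ))) -
        (starRingEnd ℂ) (χ ((n + b ^ s * z : ℕ) : ZMod (b ^ m))) * G n z‖ ≤ ε := by
    intro n hn z hz
    have hnl := Dg_lt hB.lt hn
    have hy1 := (yv_Dg hB hs hn).1
    have hy0 : 0 < yv b s n := by
      have : (0 : ℝ) < b / 2 := by positivity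
      linarith
    have hz1 := yv_Zg_le hb2 hz
    have hz0 := yv_nonneg (b := b) (s := L') z
    rw [← mul_sub, norm_mul, RCLike.norm_conj]
    have hχ1 : ‖χ ((n + b ^ s * z : ℕ) : ZMod (b ^ m))‖ ≤ 1 := DirichletCharacter.norm_le_one χ _
    have hyv : yv b m (n + b ^ s * z) = yv b s n + yv b L' z / (b : ℝ) ^ s := by
      rw [hmL]; exact yv_add hnl
    rw [hyv]
    have h1 := lin_term (t := t) hV hVK hy0 (by positivity : 0 ≤ yv b L' z / (b : ℝ) ^ s)
    have h2 : K * (yv b L' z / (b : ℝ) ^ s) ≤ K * b / (b : ℝ) ^ s := by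
      rw [mul_div_assoc]
      have : yv b L' z ≤ b := by linarith
      gcongr
    have h3 : |t| * ((yv b L' z / (b : ℝ) ^ s) ^ 2 / yv b s n ^ 2) ≤
        4 * |t| / (b : ℝ) ^ (2 * s) := by
      calc |t| * ((yv b L' z / (b : ℝ) ^ s) ^ 2 / yv b s n ^ 2) ≤
            |t| * ((b / 2 / (b : ℝ) ^ s) ^ 2 / (b / 2) ^ 2) := by
            have h5 := hp.trans hy1
            gcongr
        _ = 1 * |t| / (b : ℝ) ^ (2 * s) := by
            rw [mul_comm 2 s, pow_mul]; field_simp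
        _ ≤ 4 * |t| / (b : ℝ) ^ (2 * s) := by gcongr; norm_num
    calc ‖χ ((n + b ^ s * z : ℕ) : ZMod (b ^ m))‖ * _ ≤ 1 * (K * (yv b L' z / (b : ℝ) ^ s) +
          |t| * ((yv b L' z / (b : ℝ) ^ s) ^ 2 / yv b s n ^ 2)) := by
          refine mul_le_mul hχ1 h1 (norm_nonneg _) zero_le_one
      _ ≤ ε := by rw [one_mul, hε]; linarith
  -- the inner sum
  have hinner : ∀ n ∈ Dg b p s, ‖∑ z ∈ Zg b L',
      (starRingEnd ℂ) (χ ((n + b ^ s * z : ℕ) : ZMod (b ^ m))) * G n z‖ ≤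
      ((b / 2 : ℕ) : ℝ) ^ L' * ∏ r ∈ Finset.range L, gB b (th b m m' s a t r n) := by
    intro n hn
    have hy1 := (yv_Dg hB hs hn).1
    have hy0 : 0 < yv b s n := by
      have : (0 : ℝ) < b / 2 := by positivity
      linarith
    have hcop := Dg_coprime hB hs hn
    have hu : iv b m n * n ≡ 1 [MOD b ^ s] :=
      (iv_mul (m := m) hb0 hcop).of_dvd (pow_dvd_pow b (by omega))
    set A : ℝ := -((a : ℝ) * iv b m n / (b : ℝ) ^ (m' - s)) with hA
    set T : ℝ := -(t / (2 * Real.pi * yv b s n * (b : ℝ) ^ s)) with hT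
    have hpi := Real.pi_pos
    have e1 : ∀ z, (starRingEnd ℂ) (χ ((n + b ^ s * z : ℕ) : ZMod (b ^ m))) * G n z =
        ((starRingEnd ℂ) (χ (n : ZMod (b ^ m))) * ((V (yv b s n) : ℂ) *
          Complex.exp (I * ((-(t * Real.log (yv b s n)) : ℝ) : ℂ)))) *
          Complex.exp (I * ((2 * Real.pi * (A * z + T * yv b L' z) : ℝ) : ℂ)) := by
      intro z
      rw [chi_block hb2 hm1 hχ hms hu z, ha2, map_mul, map_pow, ← Complex.exp_conj, map_mul,
        Complex.conj_I, Complex.conj_ofReal, ← Complex.exp_nat_mul]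
      simp only [hG]
      have h1 : Complex.exp (I * ((-(t * (Real.log (yv b s n) + yv b L' z / (b : ℝ) ^ s /
          yv b s n)) : ℝ) : ℂ)) = Complex.exp (I * ((-(t * Real.log (yv b s n)) : ℝ) : ℂ)) *
          Complex.exp (I * ((-(t * (yv b L' z / (b : ℝ) ^ s / yv b s n)) : ℝ) : ℂ)) := by
        rw [← Complex.exp_add]; congr 1; push_cast; ring
      have h2 : Complex.exp (I * ((2 * Real.pi * (A * z + T * yv b L' z) : ℝ) : ℂ)) =
          Complex.exp (((iv b m n * z : ℕ) : ℂ) *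
            (-I * ((2 * Real.pi * (a / (b : ℝ) ^ (m' - s)) : ℝ) : ℂ))) *
          Complex.exp (I * ((-(t * (yv b L' z / (b : ℝ) ^ s / yv b s n)) : ℝ) : ℂ)) := by
        rw [← Complex.exp_add]
        congr 1
        have h3 : (2 * Real.pi * (A * z + T * yv b L' z) : ℝ) =
            ((iv b m n * z : ℕ) : ℝ) * -(2 * Real.pi * (a / (b : ℝ) ^ (m' - s))) +
              (-(t * (yv b L' z / (b : ℝ) ^ s / yv b s n))) := by
          rw [hA, hT]
          push_cast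
          field_simp
        rw [h3]
        push_cast
        ring
      rw [h1, h2]
      ring
    rw [Finset.sum_congr rfl fun z _ => e1 z, ← Finset.mul_sum, norm_mul, norm_mul, norm_mul,
      RCLike.norm_conj, Complex.norm_real, Real.norm_eq_abs, Complex.norm_exp_I_mul_ofReal,
      mul_one, abs_of_nonneg (hV _).1]
    have hχ1 : ‖χ (n : ZMod (b ^ m))‖ ≤ 1 := DirichletCharacter.norm_le_one χ _
    have h1 : ‖χ (n : ZMod (b ^ m))‖ * V (yv b s n) ≤ 1 * 1 :=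
      mul_le_mul hχ1 (hV _).2 (hV _).1 zero_le_one
    have h2 := inner_sum hb2 hLL A T
    have h3 : ∀ r, gB b (A * (b : ℝ) ^ r + T / (b : ℝ) ^ r) = gB b (th b m m' s a t r n) := by
      intro r
      have h4 : A * (b : ℝ) ^ r + T / (b : ℝ) ^ r = -(th b m m' s a t r n) := by
        unfold th
        rw [hA, hT, pow_add]
        field_simp
        ring
      rw [h4]
      unfold gB
      congr 1
      rw [← Complex.norm_conj, map_sum]
      congr 1
      refine Finset.sum_congr rfl fun z _ => ?_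
      rw [← Complex.exp_conj]
      congr 1
      simp only [map_mul, Complex.conj_I, Complex.conj_ofReal, map_ofNat]
      push_cast
      ring
    rw [Finset.prod_congr rfl fun r _ => h3 r] at h2
    calc _ ≤ 1 * 1 * (((b / 2 : ℕ) : ℝ) ^ L' * ∏ r ∈ Finset.range L, gB b (th b m m' s a t r n)) :=
          mul_le_mul h1 h2 (norm_nonneg _) (by norm_num)
      _ = _ := by ring
  -- put together
  have hcard : ((RR b p m ∅).card : ℝ) = ((Dg b p s).card : ℝ) * ((b / 2 : ℕ) : ℝ) ^ L' := by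
    rw [card_RR hB hm1', card_Dg hB.lt hm1', card_Dg hB.lt hs]
    push_cast
    rw [← pow_add]
    congr 1
    omega
  have hDpos : (0 : ℝ) < ((Dg b p s).card : ℝ) := by
    rw [card_Dg hB.lt hs]
    have : 0 < b / 2 := by omega
    positivity
  rw [hcc, norm_mul, hnorm1, one_mul]
  have hsplit : ∑ n ∈ Dg b p m, (starRingEnd ℂ) (χ (n : ZMod (b ^ m))) *
        ((V (yv b m n) : ℂ) * Complex.exp (I * ((-(t * Real.log (yv b m n)) : ℝ) : ℂ))) =
      ∑ n ∈ Dg b p s, ∑ z ∈ Zg b L',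
        (starRingEnd ℂ) (χ ((n + b ^ s * z : ℕ) : ZMod (b ^ m))) *
        ((V (yv b m (n + b ^ s * z)) : ℂ) * Complex.exp (I * ((-(t * Real.log
          (yv b m (n + b ^ s * z))) : ℝ) : ℂ))) := by
    have hD : ∀ F : ℕ → ℂ, ∑ n ∈ Dg b p m, F n =
        ∑ n ∈ Dg b p s, ∑ z ∈ Zg b L', F (n + b ^ s * z) := by
      intro F
      rw [hmL]
      exact sum_Dg_add hB.lt hs F
    exact hD _
  rw [hsplit]
  have hZc : ((Zg b L').card : ℝ) = ((b / 2 : ℕ) : ℝ) ^ L' := by rw [card_Zg, Nat.cast_pow]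
  have hpt : ∀ n ∈ Dg b p s, ‖∑ z ∈ Zg b L',
        (starRingEnd ℂ) (χ ((n + b ^ s * z : ℕ) : ZMod (b ^ m))) *
        ((V (yv b m (n + b ^ s * z)) : ℂ) * Complex.exp (I * ((-(t * Real.log
          (yv b m (n + b ^ s * z))) : ℝ) : ℂ)))‖ ≤
      ((b / 2 : ℕ) : ℝ) ^ L' * ε +
        ((b / 2 : ℕ) : ℝ) ^ L' * ∏ r ∈ Finset.range L, gB b (th b m m' s a t r n) := by
    intro n hn
    have h1 := norm_sum_le_of_le (Zg b L') (hterm n hn)
    rw [Finset.sum_const, nsmul_eq_mul, hZc, Finset.sum_sub_distrib] at h1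
    have h2 := hinner n hn
    have h3 := norm_le_norm_add_norm_sub'
      (∑ z ∈ Zg b L', (starRingEnd ℂ) (χ ((n + b ^ s * z : ℕ) : ZMod (b ^ m))) *
        ((V (yv b m (n + b ^ s * z)) : ℂ) * Complex.exp (I * ((-(t * Real.log
          (yv b m (n + b ^ s * z))) : ℝ) : ℂ))))
      (∑ z ∈ Zg b L', (starRingEnd ℂ) (χ ((n + b ^ s * z : ℕ) : ZMod (b ^ m))) * G n z)
    linarith
  refine (norm_sum_le_of_le _ hpt).trans ?_
  rw [Finset.sum_add_distrib, Finset.sum_const, nsmul_eq_mul, ← Finset.mul_sum, hcard]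
  apply le_of_eq
  field_simp

end Pool.Agent.HPX
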