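import Pool.Agent.HPX.SBas
import Pool.Agent.HPX.SNd
import Pool.Agent.HPX.SCnt1

/-! # HPX/STa: case T, one factor -/

namespace Pool.Agent.HPX

open Complex Pool.Agent.HPP

variable {b p m m' s l a r : ℕ} {t : ℝ}

/-- truncated phase -/
noncomputable def tT (b m m' s a : ℕ) (t : ℝ) (r l n : ℕ) : ℝ :=
  (a : ℝ) * iv b m n * (b : ℝ) ^ r / (b : ℝ) ^ (m' - s) +
    t / (2 * Real.pi * yv b l n * (b : ℝ) ^ (s + r))

lemma inv_sub_le {c y y' : ℝ} (hc : 0 < c) (hy : c ≤ y) (hy' : c ≤ y') :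
    |y⁻¹ - y'⁻¹| ≤ |y - y'| / c ^ 2 := by
  have h1 : 0 < y := hc.trans_le hy
  have h2 : 0 < y' := hc.trans_le hy'
  have e : y⁻¹ - y'⁻¹ = -(y - y') / (y * y') := by field_simp; ring
  rw [e, abs_div, abs_neg, abs_of_pos (mul_pos h1 h2)]
  gcongr
  rw [pow_two]
  gcongr

/-- integer part: `n ≡ n'` mod `b ^ l`, `m' - s ≤ l + r` -/
lemma int_part (hb : 0 < b) {n n' : ℕ} (hn : n.Coprime b) (hn' : n'.Coprime b) (hl : l ≤ m)
    (h : n ≡ n' [MOD b ^ l]) (hlr : m' - s ≤ l + r) (x : ℝ) :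
    nd ((a : ℝ) * iv b m n * (b : ℝ) ^ r / (b : ℝ) ^ (m' - s) + x) =
      nd ((a : ℝ) * iv b m n' * (b : ℝ) ^ r / (b : ℝ) ^ (m' - s) + x) := by
  have hb' : (0 : ℝ) < b := by exact_mod_cast hb
  have h1 := iv_congr hb hn' hn hl h.symm
  obtain ⟨c, hc⟩ := Nat.modEq_iff_dvd.1 h1
  have hcR : (iv b m n : ℝ) - iv b m n' = (b : ℝ) ^ l * c := by
    have := congrArg (Int.cast : ℤ → ℝ) hc
    push_cast at this
    exact this
  refine nd_eq_of_sub_eq_int (a * (c * (b : ℤ) ^ (l + r - (m' - s)))) ?_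
  have e1 : (a : ℝ) * iv b m n * (b : ℝ) ^ r / (b : ℝ) ^ (m' - s) + x -
      ((a : ℝ) * iv b m n' * (b : ℝ) ^ r / (b : ℝ) ^ (m' - s) + x) =
      (a : ℝ) * ((iv b m n : ℝ) - iv b m n') * (b : ℝ) ^ r / (b : ℝ) ^ (m' - s) := by ring
  rw [e1, hcR]
  push_cast
  have e2 : (b : ℝ) ^ l * (b : ℝ) ^ r = (b : ℝ) ^ (m' - s) * (b : ℝ) ^ (l + r - (m' - s)) := by
    rw [← pow_add, ← pow_add]; congr 1; omega
  have e3 : (a : ℝ) * ((b : ℝ) ^ l * c) * (b : ℝ) ^ r / (b : ℝ) ^ (m' - s) =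
      a * c * ((b : ℝ) ^ l * (b : ℝ) ^ r) / (b : ℝ) ^ (m' - s) := by ring
  rw [e3, e2]
  field_simp

/-- real part, digits behind `l` -/
lemma real_tail (hB : Bas b p) {n : ℕ} (hn : n ∈ Dg b p s) (hl1 : 1 ≤ l) (hl : l ≤ s) :
    |t / (2 * Real.pi * yv b l (n % b ^ l) * (b : ℝ) ^ (s + r)) -
      t / (2 * Real.pi * yv b s n * (b : ℝ) ^ (s + r))| ≤
      |t| / (3 * (b : ℝ) ^ (s + r + l + 1)) := by
  have hb2 : 2 ≤ b := by have := hB.three; omega
  have hb' : (2 : ℝ) ≤ b := by exact_mod_cast hb2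
  obtain ⟨L, rfl⟩ := Nat.exists_eq_add_of_le hl
  obtain ⟨x, hx, z, hz, rfl⟩ := (mem_Dg_add hl1).1 hn
  have hxl := Dg_lt hB.lt hx
  rw [Nat.add_mul_mod_self_left, Nat.mod_eq_of_lt hxl]
  have hy1 := (yv_Dg hB hl1 hx).1
  have hy2 := (yv_Dg hB (by omega : 1 ≤ l + L) hn).1
  have hp : (b : ℝ) / 2 ≤ p := by
    have := hB.gt
    have : (b : ℝ) < 2 * p := by exact_mod_cast this
    linarith
  have hI := inv_sub_le (by positivity : (0 : ℝ) < b / 2) (hp.trans hy1) (hp.trans hy2)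
  have hyd : |yv b l x - yv b (l + L) (x + b ^ l * z)| ≤ b / 2 / (b : ℝ) ^ l := by
    rw [yv_add hxl, sub_add_cancel_left, abs_neg, abs_of_nonneg]
    · gcongr
      exact yv_Zg_le hb2 hz
    · have := yv_nonneg (b := b) (s := L) z
      positivity
  have hpi := Real.pi_gt_three
  set y := yv b l x with hy
  set y' := yv b (l + L) (x + b ^ l * z) with hy'
  have hy0 : 0 < y := by have : (0 : ℝ) < b / 2 := by positivity
                         linarith
  have hy0' : 0 < y' := by have : (0 : ℝ) < b / 2 := by positivity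
                           linarith
  have e1 : t / (2 * Real.pi * y * (b : ℝ) ^ (l + L + r)) -
      t / (2 * Real.pi * y' * (b : ℝ) ^ (l + L + r)) =
      t / (2 * Real.pi * (b : ℝ) ^ (l + L + r)) * (y⁻¹ - y'⁻¹) := by
    field_simp
  rw [e1, abs_mul, abs_div, abs_of_pos (by positivity : (0 : ℝ) <
    2 * Real.pi * (b : ℝ) ^ (l + L + r))]
  calc |t| / (2 * Real.pi * (b : ℝ) ^ (l + L + r)) * |y⁻¹ - y'⁻¹| ≤
        |t| / (2 * 3 * (b : ℝ) ^ (l + L + r)) * ((b / 2 / (b : ℝ) ^ l) / (b / 2) ^ 2) := by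
        gcongr
        exact hI.trans (by gcongr)
    _ = |t| / (3 * (b : ℝ) ^ (l + L + r + l + 1)) := by
        rw [pow_add (b : ℝ) (l + L + r + l) 1, pow_add (b : ℝ) (l + L + r) l]
        field_simp

/-- pointwise bound of one factor by its truncation -/
lemma one_factor (hB : Bas b p) {n : ℕ} (hn : n ∈ Dg b p s) (hl : l + 1 ≤ s) (hsm : s ≤ m)
    (hlr : m' - s ≤ l + r) {η : ℝ} (hη : 0 < η)
    (hη2 : |t| / (3 * (b : ℝ) ^ (s + r + (l + 1) + 1)) ≤ η) :
    gB b (th b m m' s a t r n) ≤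
      (if nd (tT b m m' s a t r (l + 1) (n % b ^ (l + 1))) ≤ 2 * η then 1 else 0) +
        3 / (b * η) := by
  have hb3 := hB.three
  have hb0 : 0 < b := by omega
  refine (gB_le hb3 hη _).trans ?_
  gcongr
  by_cases h1 : nd (th b m m' s a t r n) ≤ η
  · have h2 : nd (tT b m m' s a t r (l + 1) (n % b ^ (l + 1))) ≤ 2 * η := by
      have hm1 : n % b ^ (l + 1) ∈ Dg b p (l + 1) := Ds_mod (hDt hB.lt) hn hl
      have hc1 := Dg_coprime hB (by omega) hm1
      have hc2 := Dg_coprime hB (by omega : 1 ≤ s) hn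
      unfold tT
      rw [int_part (l := l + 1) (r := r) hb0 hc1 hc2 (by omega) (Nat.mod_modEq _ _) (by omega)]
      have h3 := nd_le_add_abs ((a : ℝ) * iv b m n * (b : ℝ) ^ r / (b : ℝ) ^ (m' - s) +
        t / (2 * Real.pi * yv b (l + 1) (n % b ^ (l + 1)) * (b : ℝ) ^ (s + r)))
        (th b m m' s a t r n)
      refine h3.trans ?_
      have h4 : (a : ℝ) * iv b m n * (b : ℝ) ^ r / (b : ℝ) ^ (m' - s) +
        t / (2 * Real.pi * yv b (l + 1) (n % b ^ (l + 1)) * (b : ℝ) ^ (s + r)) -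
        th b m m' s a t r n = t / (2 * Real.pi * yv b (l + 1) (n % b ^ (l + 1)) *
          (b : ℝ) ^ (s + r)) - t / (2 * Real.pi * yv b s n * (b : ℝ) ^ (s + r)) := by
        unfold th; ring
      rw [h4]
      have h5 := (real_tail (t := t) (r := r) hB hn (by omega : 1 ≤ l + 1) hl).trans hη2
      linarith
    rw [if_pos h1, if_pos h2]
  · rw [if_neg h1]
    split_ifs <;> norm_num

/-- number of digits `d_l` with a small phase -/
lemma digit_T (hB : Bas b p) {n : ℕ} (hn : n ∈ Dg b p l) (hl1 : 1 ≤ l) (hlm : l ≤ m)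
    (hlr : m' - s ≤ l + r) (ht : t ≠ 0) {η : ℝ} (hη : 0 ≤ η) :
    (((Finset.range (b / 2)).filter fun z =>
      nd (tT b m m' s a t r (l + 1) (n + b ^ l * z)) ≤ 2 * η).card : ℝ) ≤
      (4 * (|t| / (2 * Real.pi * (b : ℝ) ^ (s + r + l + 2))) * ((b / 2 : ℕ) : ℝ) + 2) *
        (2 * (2 * η) / (|t| / (2 * Real.pi * (b : ℝ) ^ (s + r + l + 2))) + 1) := by
  have hb3 := hB.three
  have hb0 : 0 < b := by omega
  have hb' : (3 : ℝ) ≤ b := by exact_mod_cast hb3
  have hpi := Real.pi_gt_three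
  have hnl := Dg_lt hB.lt hn
  have htp : 0 < |t| := abs_pos.2 ht
  have hp : (b : ℝ) / 2 ≤ p := by
    have := hB.gt
    have : (b : ℝ) < 2 * p := by exact_mod_cast this
    linarith
  have hpb : (p : ℝ) + 1 ≤ b := by
    have := hB.lt
    exact_mod_cast this
  set lam := |t| / (2 * Real.pi * (b : ℝ) ^ (s + r + l + 2)) with hlam
  have hlam0 : 0 < lam := by positivity
  set c := (a : ℝ) * iv b m n * (b : ℝ) ^ r / (b : ℝ) ^ (m' - s) with hc
  set y := yv b l n with hy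
  have hyb := (yv_Dg hB hl1 hn)
  -- the phases
  have hph : ∀ z < b / 2, nd (tT b m m' s a t r (l + 1) (n + b ^ l * z)) =
      nd (c + t / (2 * Real.pi * (y + z / (b : ℝ) ^ l) * (b : ℝ) ^ (s + r))) := by
    intro z hz
    have hQm : n + b ^ l * z ∈ Dg b p (l + 1) := by
      refine mem_Ds_succ.2 ⟨n, hn, z, ?_, rfl⟩
      unfold Dt
      rw [if_neg (by omega)]
      exact Finset.mem_range.2 hz
    have hc1 := Dg_coprime hB (by omega) hQm
    have hc2 := Dg_coprime hB hl1 hn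
    unfold tT
    rw [int_part (l := l) (r := r) hb0 hc1 hc2 hlm (by simp [Nat.ModEq]) hlr, hc]
    have hz1 : yv b 1 z = z := by
      unfold yv; simp [dg_of_lt (by omega : z < b)]
    rw [yv_add hnl, hz1]
  -- the sign
  set x : ℕ → ℝ := fun z => if 0 < t then
    -(c + t / (2 * Real.pi * (y + z / (b : ℝ) ^ l) * (b : ℝ) ^ (s + r))) else
    c + t / (2 * Real.pi * (y + z / (b : ℝ) ^ l) * (b : ℝ) ^ (s + r)) with hx
  have hxnd : ∀ z < b / 2, nd (x z) = nd (tT b m m' s a t r (l + 1) (n + b ^ l * z)) := by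
    intro z hz
    rw [hph z hz]
    simp only [hx]
    split_ifs
    · rw [nd_neg]
    · rfl
  have hinc : ∀ z, z + 1 < b / 2 → lam ≤ x (z + 1) - x z ∧ x (z + 1) - x z ≤ 4 * lam := by
    intro z hz
    have hbl : (0 : ℝ) < (b : ℝ) ^ l := by positivity
    have hy0 : (b : ℝ) / 2 ≤ y := hp.trans hyb.1
    have hzb : ((z + 1 : ℕ) : ℝ) / (b : ℝ) ^ l ≤ 1 / 2 := by
      have h1 : ((z + 1 : ℕ) : ℝ) ≤ b / 2 := by
        have : 2 * (z + 1) ≤ b := by omega
        have : 2 * ((z + 1 : ℕ) : ℝ) ≤ b := by exact_mod_cast this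
        linarith
      rw [div_le_iff₀ hbl]
      have h2 : (b : ℝ) ≤ (b : ℝ) ^ l := by
        conv_lhs => rw [← pow_one (b : ℝ)]
        exact pow_le_pow_right₀ (by linarith) hl1
      linarith
    have hz1 : (z : ℝ) / (b : ℝ) ^ l + 1 / (b : ℝ) ^ l = ((z + 1 : ℕ) : ℝ) / (b : ℝ) ^ l := by
      push_cast; ring
    have hz0 : 0 ≤ (z : ℝ) / (b : ℝ) ^ l := by positivity
    have hl0 : 0 < 1 / (b : ℝ) ^ l := by positivity
    set u := y + z / (b : ℝ) ^ l with hu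
    set v := y + ((z + 1 : ℕ) : ℝ) / (b : ℝ) ^ l with hv
    have huv : v = u + 1 / (b : ℝ) ^ l := by rw [hu, hv, ← hz1]; ring
    have hu1 : (b : ℝ) / 2 ≤ u := by linarith
    have hv2 : v ≤ b := by linarith [hyb.2]
    have hv1 : (b : ℝ) / 2 ≤ v := by linarith
    have hu2 : u ≤ b := by linarith
    have hu0 : 0 < u := by linarith
    have hv0 : 0 < v := by linarith
    have hdiff : x (z + 1) - x z = |t| / (2 * Real.pi * (b : ℝ) ^ (s + r)) *
        (1 / (b : ℝ) ^ l / (u * v)) := by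
      have h1 : u⁻¹ - v⁻¹ = 1 / (b : ℝ) ^ l / (u * v) := by
        have : (1 : ℝ) / (b : ℝ) ^ l = v - u := by rw [huv]; ring
        rw [this]; field_simp
      rw [← h1]
      simp only [hx]
      rw [← hu, ← hv]
      split_ifs with h2
      · rw [abs_of_pos h2]; field_simp; ring
      · rw [abs_of_nonpos (not_lt.1 h2)]; field_simp; ring
    have hlam' : lam = |t| / (2 * Real.pi * (b : ℝ) ^ (s + r)) * (1 / (b : ℝ) ^ l / (b * b)) := by
      rw [hlam, pow_add (b : ℝ) (s + r + l) 2, pow_add (b : ℝ) (s + r) l]; field_simp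
    have hlam4 : 4 * lam =
        |t| / (2 * Real.pi * (b : ℝ) ^ (s + r)) * (1 / (b : ℝ) ^ l / (b / 2 * (b / 2))) := by
      rw [hlam']; field_simp; ring
    rw [hdiff]
    constructor
    · rw [hlam']; gcongr
    · rw [hlam4]; gcongr
  have hcnt := sCnt1 (b / 2) x lam (2 * η) hlam0 (by positivity) hinc
  refine le_trans (le_of_eq ?_) hcnt
  congr 2
  refine Finset.filter_congr fun z hz => ?_
  rw [hxnd z (Finset.mem_range.1 hz)]

end Pool.Agent.HPX
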