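import Mathlib

/-!
# HPX/WComp: logarithmic derivative near a compact piece of the line `Re s = 1`

`{s | Z s ≠ 0}` is open and contains the compact set `K = {1 ≤ Re s ≤ 2, |Im s| ≤ 2}`, so it contains a closed
thickening of `K` (`IsCompact.exists_cthickening_subset_open`), which is compact; `deriv Z / Z` is continuous on it,
hence bounded (`IsCompact.exists_bound_of_continuousOn`). `C = max`.
-/

namespace Pool.Agent.HPX

theorem comp_ld {Z : ℂ → ℂ} (hZ : Differentiable ℂ Z)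
    (h : ∀ s : ℂ, 1 ≤ s.re → s.re ≤ 2 → |s.im| ≤ 2 → Z s ≠ 0) :
    ∃ C : ℝ, 1 ≤ C ∧ ∀ s : ℂ, 1 - 1 / C ≤ s.re → s.re ≤ 2 → |s.im| ≤ 2 →
      Z s ≠ 0 ∧ ‖deriv Z s / Z s‖ ≤ C := by
  have hKc : IsCompact (Set.Icc (1 : ℝ) 2 ×ℂ Set.Icc (-2 : ℝ) 2) :=
    isCompact_Icc.reProdIm isCompact_Icc
  have hUo : IsOpen {s : ℂ | Z s ≠ 0} := isOpen_ne_fun hZ.continuous continuous_const
  have hKU : (Set.Icc (1 : ℝ) 2 ×ℂ Set.Icc (-2 : ℝ) 2) ⊆ {s : ℂ | Z s ≠ 0} := by
    intro s hs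
    rw [Complex.mem_reProdIm] at hs
    exact h s hs.1.1 hs.1.2 (abs_le.2 ⟨hs.2.1, hs.2.2⟩)
  obtain ⟨δ, hδ, hsub⟩ := hKc.exists_cthickening_subset_open hUo hKU
  have hdd : Differentiable ℂ (deriv Z) := by
    intro s
    exact ((hZ.analyticAt s).deriv).differentiableAt
  have hcont : ContinuousOn (fun s => deriv Z s / Z s)
      (Metric.cthickening δ (Set.Icc (1 : ℝ) 2 ×ℂ Set.Icc (-2 : ℝ) 2)) :=
    ContinuousOn.div hdd.continuous.continuousOn hZ.continuous.continuousOn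
      (fun s hs => hsub hs)
  obtain ⟨B, hB⟩ := (hKc.cthickening (r := δ)).exists_bound_of_continuousOn hcont
  refine ⟨max 1 (max (1 / δ) B), le_max_left _ _, ?_⟩
  intro s hs1 hs2 hs3
  set C : ℝ := max 1 (max (1 / δ) B) with hC
  have hC1 : (1 : ℝ) ≤ C := le_max_left _ _
  have hCδ : 1 / δ ≤ C := le_trans (le_max_left _ _) (le_max_right _ _)
  have hCB : B ≤ C := le_trans (le_max_right _ _) (le_max_right _ _)
  have hCinv : 1 / C ≤ δ := by
    rw [div_le_iff₀ (by linarith)]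
    rw [div_le_iff₀ hδ] at hCδ
    linarith
  have hmem : s ∈ Metric.cthickening δ (Set.Icc (1 : ℝ) 2 ×ℂ Set.Icc (-2 : ℝ) 2) := by
    refine Metric.mem_cthickening_of_dist_le s (⟨max s.re 1, s.im⟩ : ℂ) δ _ ?_ ?_
    · rw [Complex.mem_reProdIm]
      refine ⟨⟨le_max_right _ _, max_le hs2 (by norm_num)⟩, ?_⟩
      exact ⟨(abs_le.1 hs3).1, (abs_le.1 hs3).2⟩
    · have hd : dist s (⟨max s.re 1, s.im⟩ : ℂ) = |s.re - max s.re 1| := by
        exact Complex.dist_of_im_eq rfl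
      rw [hd]
      rcases le_total s.re 1 with h1 | h1
      · rw [max_eq_right h1, abs_sub_comm, abs_of_nonneg (by linarith)]
        linarith
      · rw [max_eq_left h1, sub_self, abs_zero]
        exact hδ.le
  exact ⟨hsub hmem, le_trans (hB s hmem) hCB⟩

end Pool.Agent.HPX
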