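import Pool.Agent.HPX.WUp

/-!
# HPX/WDer: bounds for the derivatives

Cauchy (`Complex.norm_deriv_le_of_forall_mem_sphere_norm_le`) on the circle of radius `r = 1 / (2 Λ) ≤ 1 / 4`,
`Λ = log (q Y) ≥ log 9 ≥ 2`, around `s`: its points `z` satisfy `Re z ≥ 1 - 1 / Λ`, `Re z ≤ 3`, `|Im z| ≤ Y`. Hence
`‖L'(s)‖ ≤ C Λ / r = 2 C Λ²`. For `ζ`: `‖z - 1‖ ≥ 1 / 2 - 1 / 4 = 1 / 4` on the circle, so
`‖ζ z‖ ≤ C (1 + ‖z - 1‖) / ‖z - 1‖ * Λ ≤ 5 C Λ`; `ζ` is differentiable on the closed disc (`1` is not in it).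
-/

namespace Pool.Agent.HPX

open Complex DirichletCharacter

private theorem two_le_log {x : ℝ} (hx : 9 ≤ x) : 2 ≤ Real.log x := by
  rw [Real.le_log_iff_exp_le (by linarith)]
  have h1 : Real.exp 2 = Real.exp 1 * Real.exp 1 := by rw [← Real.exp_add]; norm_num
  have h2 := Real.exp_one_lt_d9
  have h3 := Real.exp_pos 1
  nlinarith

theorem L_der : ∃ C : ℝ, 1 ≤ C ∧ ∀ (q : ℕ) [NeZero q] (χ : DirichletCharacter ℂ q), χ ≠ 1 →
    ∀ Y : ℝ, 9 ≤ Y → ∀ s : ℂ, 1 - 1 / (2 * Real.log (q * Y)) ≤ s.re → s.re ≤ 2 → |s.im| ≤ Y - 1 →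
    ‖deriv (LFunction χ) s‖ ≤ C * Real.log (q * Y) ^ 2 := by
  obtain ⟨C, hC1, hC⟩ := L_up
  refine ⟨2 * C, by linarith, fun q _ χ hχ Y hY s h1 h2 h3 => ?_⟩
  have hq : (1 : ℝ) ≤ q := by exact_mod_cast Nat.one_le_iff_ne_zero.mpr (NeZero.ne q)
  have hqY : 9 ≤ q * Y := by nlinarith
  set Λ := Real.log (q * Y) with hΛ
  have hΛ2 : 2 ≤ Λ := two_le_log hqY
  have hΛ0 : 0 < Λ := by linarith
  have hr0 : 0 < 1 / (2 * Λ) := by positivity
  have hr1 : 1 / (2 * Λ) ≤ 1 / 4 := by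
    apply one_div_le_one_div_of_le <;> linarith
  have hrr : 1 / Λ = 1 / (2 * Λ) + 1 / (2 * Λ) := by field_simp; norm_num
  have key := Complex.norm_deriv_le_of_forall_mem_sphere_norm_le (f := LFunction χ) (c := s) (C := C * Λ) hr0
    (differentiable_LFunction hχ).diffContOnCl (fun z hz => by
      rw [mem_sphere_iff_norm] at hz
      have hre := (Complex.abs_re_le_norm (z - s)).trans_eq hz
      have him := (Complex.abs_im_le_norm (z - s)).trans_eq hz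
      rw [Complex.sub_re, abs_le] at hre
      rw [Complex.sub_im, abs_le] at him
      rw [abs_le] at h3
      refine hC q χ hχ Y (by linarith) z ?_ ?_ ?_
      · linarith [hre.1]
      · linarith [hre.2]
      · rw [abs_le]; constructor <;> linarith [him.1, him.2, h3.1, h3.2])
  refine key.trans (le_of_eq ?_)
  field_simp

theorem zeta_up' : ∃ C : ℝ, 1 ≤ C ∧ ∀ Y : ℝ, 8 ≤ Y → ∀ s : ℂ, 1 - 1 / Real.log Y ≤ s.re → s.re ≤ 3 →
    |s.im| ≤ Y → 1 / 4 ≤ ‖s - 1‖ → ‖riemannZeta s‖ ≤ C * Real.log Y := by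
  obtain ⟨C, hC1, hC⟩ := zeta_up
  refine ⟨5 * C, by linarith, fun Y hY s h1 h2 h3 h4 => ?_⟩
  have h := hC Y hY s h1 h2 h3
  have hlog : 0 ≤ Real.log Y := Real.log_nonneg (by linarith)
  rw [norm_mul] at h
  have hpos : 0 < ‖s - 1‖ := by linarith
  have h5 : ‖s - 1‖ * ‖riemannZeta s‖ ≤ ‖s - 1‖ * (5 * C * Real.log Y) := by
    refine h.trans ?_
    have : (0 : ℝ) ≤ C * Real.log Y := by positivity
    nlinarith
  exact le_of_mul_le_mul_left h5 hpos

theorem zeta_der : ∃ C : ℝ, 1 ≤ C ∧ ∀ Y : ℝ, 9 ≤ Y → ∀ s : ℂ, 1 - 1 / (2 * Real.log Y) ≤ s.re →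
    s.re ≤ 2 → |s.im| ≤ Y - 1 → 1 / 2 ≤ ‖s - 1‖ → ‖deriv riemannZeta s‖ ≤ C * Real.log Y ^ 2 := by
  obtain ⟨C, hC1, hC⟩ := zeta_up'
  refine ⟨2 * C, by linarith, fun Y hY s h1 h2 h3 h4 => ?_⟩
  set Λ := Real.log Y with hΛ
  have hΛ2 : 2 ≤ Λ := two_le_log hY
  have hΛ0 : 0 < Λ := by linarith
  have hr0 : 0 < 1 / (2 * Λ) := by positivity
  have hr1 : 1 / (2 * Λ) ≤ 1 / 4 := by
    apply one_div_le_one_div_of_le <;> linarith
  have hrr : 1 / Λ = 1 / (2 * Λ) + 1 / (2 * Λ) := by field_simp; norm_num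
  have hball : ∀ z, ‖z - s‖ ≤ 1 / (2 * Λ) → 1 / 4 ≤ ‖z - 1‖ := by
    intro z hz
    have h5 : ‖s - 1‖ ≤ ‖z - 1‖ + ‖z - s‖ := by
      have : s - 1 = (z - 1) - (z - s) := by ring
      rw [this]
      exact norm_sub_le _ _
    linarith
  have hdiff : DiffContOnCl ℂ riemannZeta (Metric.ball s (1 / (2 * Λ))) := by
    refine DifferentiableOn.diffContOnCl_ball (U := {z | z ≠ 1}) (fun z hz => ?_) (fun z hz => ?_)
    · exact (differentiableAt_riemannZeta hz).differentiableWithinAt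
    · rw [mem_closedBall_iff_norm] at hz
      have := hball z hz
      intro h
      rw [h, sub_self, norm_zero] at this
      norm_num at this
  have key := Complex.norm_deriv_le_of_forall_mem_sphere_norm_le (f := riemannZeta) (c := s) (C := C * Λ) hr0
    hdiff (fun z hz => by
      rw [mem_sphere_iff_norm] at hz
      have hre := (Complex.abs_re_le_norm (z - s)).trans_eq hz
      have him := (Complex.abs_im_le_norm (z - s)).trans_eq hz
      rw [Complex.sub_re, abs_le] at hre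
      rw [Complex.sub_im, abs_le] at him
      rw [abs_le] at h3
      refine hC Y (by linarith) z ?_ ?_ ?_ (hball z hz.le)
      · linarith [hre.1]
      · linarith [hre.2]
      · rw [abs_le]; constructor <;> linarith [him.1, him.2, h3.1, h3.2])
  refine key.trans (le_of_eq ?_)
  field_simp

end Pool.Agent.HPX
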