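import Mathlib

/-!
# HPX/WTail: analytic continuation of the tail of a Dirichlet series with bounded coefficient sums

Let `S u = ∑ k ∈ Icc 1 ⌊u⌋₊, g k` (`0` for `u < N + 1`) and `D u = S u - c (u - N)` for `u ≥ N`: `‖D u‖ ≤ B + 1`.
`G s = s * ∫_N^∞ D u * u ^ (-s - 1) du`. For `Re s > 1`: `LSeries g s = s ∫_1^∞ S u u ^ (-s - 1) du`
(`LSeries_eq_mul_integral`, as in `HPP/LOne.lo_tail` and `FZ/BLBound`), and
`s ∫_N^∞ (u - N) u ^ (-s - 1) du = N ^ (1 - s) / (s - 1)`. Analyticity in `Re s > 0` as in `FZ/BLBound`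
(`differentiableAt_HH`: the integral is the Mellin transform at `-s` of the indicator of `Ioi N` times `D`,
`mellin_differentiableAt_of_isBigO_rpow`). Bound: `∫_N^∞ u ^ (-σ - 1) du = N ^ (-σ) / σ`.
-/

namespace Pool.Agent.HPX

open Complex MeasureTheory

open Set Filter Topology Asymptotics in
theorem tail_cont (g : ℕ → ℂ) (c : ℂ) (hc : ‖c‖ ≤ 1) {N : ℕ} (hN : 1 ≤ N) {B : ℝ} (hB : 0 ≤ B)
    (hg : ∀ n, ‖g n‖ ≤ 1) (h0 : ∀ n ≤ N, g n = 0)
    (hS : ∀ n : ℕ, N ≤ n → ‖∑ k ∈ Finset.Icc 1 n, g k - c * (n - N)‖ ≤ B) :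
    ∃ G : ℂ → ℂ, DifferentiableOn ℂ G {s | 0 < s.re} ∧
      (∀ s : ℂ, 1 < s.re → (s - 1) * LSeries g s = c * (N : ℂ) ^ (1 - s) + (s - 1) * G s) ∧
      ∀ s : ℂ, 0 < s.re → ‖G s‖ ≤ ‖s‖ * (B + 1) * (N : ℝ) ^ (-s.re) / s.re := by
  have hN1 : (1 : ℝ) ≤ N := by exact_mod_cast hN
  have hN0 : (0 : ℝ) < N := by linarith
  have hN0' : (N : ℂ) ≠ 0 := by exact_mod_cast (by omega : N ≠ 0)
  -- partial sums
  have hP0 : ∀ n : ℕ, n ≤ N → ∑ k ∈ Finset.Icc 1 n, g k = 0 := by
    intro n hn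
    apply Finset.sum_eq_zero
    intro k hk
    rw [Finset.mem_Icc] at hk
    exact h0 k (by omega)
  -- the error
  obtain ⟨E, hE⟩ : ∃ E : ℝ → ℂ, E = fun t : ℝ => (∑ k ∈ Finset.Icc 1 ⌊t⌋₊, g k) - c * (t - N) :=
    ⟨_, rfl⟩
  have hEm : Measurable E := by
    rw [hE]
    apply Measurable.sub
    · exact (measurable_from_nat (f := fun n : ℕ => ∑ k ∈ Finset.Icc 1 n, g k)).comp
        Nat.measurable_floor
    · exact ((Complex.measurable_ofReal).sub_const _).const_mul _
  have hEb : ∀ t ∈ Ioi (N : ℝ), ‖E t‖ ≤ B + 1 := by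
    intro t ht
    have ht' : (N : ℝ) < t := ht
    have ht0 : 0 ≤ t := by linarith
    have hfl : N ≤ ⌊t⌋₊ := Nat.le_floor ht'.le
    have e : E t = (∑ k ∈ Finset.Icc 1 ⌊t⌋₊, g k - c * (⌊t⌋₊ - N)) + c * (⌊t⌋₊ - t) := by
      rw [congrFun hE t]
      ring
    rw [e]
    refine (norm_add_le _ _).trans (add_le_add (hS _ hfl) ?_)
    rw [norm_mul]
    have h3 : ((⌊t⌋₊ : ℂ) - (t : ℂ)) = (((⌊t⌋₊ : ℝ) - t : ℝ) : ℂ) := by push_cast; ring
    rw [h3, Complex.norm_real]
    have h4 : ‖((⌊t⌋₊ : ℝ) - t)‖ ≤ 1 := by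
      rw [Real.norm_eq_abs, abs_le]
      have h2 := Nat.floor_le ht0
      have h3 := Nat.lt_floor_add_one t
      constructor <;> linarith
    calc ‖c‖ * ‖((⌊t⌋₊ : ℝ) - t)‖ ≤ 1 * 1 := mul_le_mul hc h4 (norm_nonneg _) zero_le_one
      _ = 1 := one_mul 1
  -- the integral
  obtain ⟨HH, hHH⟩ : ∃ HH : ℂ → ℂ, HH = fun s => ∫ t in Ioi (N : ℝ), E t * (t : ℂ) ^ (-(s + 1)) :=
    ⟨_, rfl⟩
  have hre : ∀ s : ℂ, (-(s + 1)).re = -s.re - 1 := by intro s; simp; ring
  have hb : ∀ s : ℂ, ∀ t ∈ Ioi (N : ℝ), ‖E t * (t : ℂ) ^ (-(s + 1))‖ ≤ (B + 1) * t ^ (-s.re - 1) := by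
    intro s t ht
    have ht0 : 0 < t := by have := mem_Ioi.1 ht; linarith
    rw [norm_mul, Complex.norm_cpow_eq_rpow_re_of_pos ht0, hre]
    exact mul_le_mul_of_nonneg_right (hEb t ht) (Real.rpow_nonneg ht0.le _)
  have hintr : ∀ s : ℂ, 0 < s.re → IntegrableOn (fun t : ℝ => (B + 1) * t ^ (-s.re - 1)) (Ioi (N : ℝ)) := by
    intro s hs
    exact (integrableOn_Ioi_rpow_of_lt (by linarith) hN0).const_mul _
  have hHHb : ∀ s : ℂ, 0 < s.re → ‖HH s‖ ≤ (B + 1) * (N : ℝ) ^ (-s.re) / s.re := by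
    intro s hs
    rw [hHH]
    refine (norm_integral_le_of_norm_le (hintr s hs)
      ((ae_restrict_mem measurableSet_Ioi).mono (hb s))).trans ?_
    rw [integral_const_mul, integral_Ioi_rpow_of_lt (by linarith) hN0]
    rw [show -s.re - 1 + 1 = -s.re by ring]
    rw [neg_div_neg_eq]
    rw [mul_div_assoc]
  -- mellin
  obtain ⟨W, hW⟩ : ∃ W : ℝ → ℂ, W = indicator (Ioi (N : ℝ)) E := ⟨_, rfl⟩
  have hWb : ∀ t, ‖W t‖ ≤ B + 1 := by
    intro t
    rw [hW]
    by_cases ht : t ∈ Ioi (N : ℝ)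
    · rw [indicator_of_mem ht]
      exact hEb t ht
    · rw [indicator_of_notMem ht, norm_zero]
      positivity
  have hmel : ∀ s : ℂ, HH s = mellin W (-s) := by
    intro s
    rw [hHH, hW]
    unfold mellin
    have h1 : ∀ t : ℝ, (t : ℂ) ^ (-s - 1) • indicator (Ioi (N : ℝ)) E t =
        indicator (Ioi (N : ℝ)) (fun t => E t * (t : ℂ) ^ (-(s + 1))) t := by
      intro t
      by_cases ht : t ∈ Ioi (N : ℝ)
      · rw [indicator_of_mem ht, indicator_of_mem ht, smul_eq_mul, mul_comm]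
        congr 2
        ring
      · rw [indicator_of_notMem ht, indicator_of_notMem ht, smul_zero]
    simp_rw [h1]
    rw [setIntegral_indicator measurableSet_Ioi]
    congr 2
    ext t
    simp only [mem_inter_iff, mem_Ioi]
    constructor
    · intro h; exact ⟨by linarith, h⟩
    · exact fun h => h.2
  have hdiff : ∀ s : ℂ, 0 < s.re → DifferentiableAt ℂ HH s := by
    intro s hs
    have h1 : HH = fun s => mellin W (-s) := funext hmel
    rw [h1]
    have h2 : DifferentiableAt ℂ (mellin W) (-s) := by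
      apply mellin_differentiableAt_of_isBigO_rpow (a := 0) (b := (-s).re - 1)
      · have hm : Measurable W := by
          rw [hW]
          exact hEm.indicator measurableSet_Ioi
        have : LocallyIntegrable W := by
          rw [locallyIntegrable_iff]
          intro k hk
          refine Measure.integrableOn_of_bounded (M := B + 1) hk.measure_lt_top.ne
            hm.aestronglyMeasurable ?_
          exact Eventually.of_forall fun t => hWb t
        exact this.locallyIntegrableOn _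
      · apply IsBigO.of_bound (B + 1)
        filter_upwards with t
        rw [neg_zero, Real.rpow_zero, norm_one, mul_one]
        exact hWb t
      · rw [neg_re]; linarith
      · apply IsBigO.of_bound 0
        have : ∀ᶠ t in 𝓝[>] (0 : ℝ), t < 1 :=
          nhdsWithin_le_nhds (gt_mem_nhds one_pos)
        filter_upwards [this] with t ht
        rw [hW, indicator_of_notMem (by simp; linarith), norm_zero, zero_mul]
      · linarith
    exact h2.comp s (differentiable_neg s)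
  refine ⟨fun s => s * HH s, ?_, ?_, ?_⟩
  · intro s hs
    exact (differentiableAt_id.mul (hdiff s hs)).differentiableWithinAt
  · intro s h1
    have hs0' : 0 < s.re := by linarith
    have hs1 : s - 1 ≠ 0 := by
      intro h
      have : s = 1 := by linear_combination h
      rw [this] at h1
      simp at h1
    have hs0 : s ≠ 0 := by
      intro h
      rw [h] at h1
      simp at h1
      linarith
    have hsum' : LSeriesSummable g s :=
      LSeriesSummable_of_bounded_of_one_lt_re (m := 1) (fun n _ => hg n) h1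
    have hO : (fun n : ℕ => ∑ k ∈ Finset.Icc 1 n, g k) =O[atTop] fun n : ℕ => (n : ℝ) ^ (1 : ℝ) := by
      apply IsBigO.of_bound (‖c‖ + B)
      filter_upwards [eventually_ge_atTop N] with n hn
      have hn1 : (1 : ℝ) ≤ n := by exact_mod_cast hN.trans hn
      rw [Real.rpow_one, Real.norm_of_nonneg (by positivity)]
      have e : ∑ k ∈ Finset.Icc 1 n, g k =
          (∑ k ∈ Finset.Icc 1 n, g k - c * (n - N)) + c * (n - N) := by ring
      rw [e]
      have h3 : ‖c * ((n : ℂ) - N)‖ ≤ ‖c‖ * n := by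
        rw [norm_mul]
        apply mul_le_mul_of_nonneg_left _ (norm_nonneg _)
        have : ((n : ℂ) - N) = (((n : ℝ) - N : ℝ) : ℂ) := by push_cast; ring
        rw [this, Complex.norm_real, Real.norm_of_nonneg (by
          have : (N : ℝ) ≤ n := by exact_mod_cast hn
          linarith)]
        linarith
      refine (norm_add_le _ _).trans ?_
      have h4 := hS n hn
      nlinarith [norm_nonneg c]
    rw [LSeries_eq_mul_integral g zero_le_one h1 hsum' hO]
    have hint0 : IntegrableOn (fun t : ℝ => (t : ℂ) ^ (-s)) (Ioi (N : ℝ)) :=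
      integrableOn_Ioi_cpow_of_lt (by rw [neg_re]; linarith) hN0
    have hint1 : IntegrableOn (fun t : ℝ => (t : ℂ) ^ (-(s + 1))) (Ioi (N : ℝ)) :=
      integrableOn_Ioi_cpow_of_lt (by rw [hre]; linarith) hN0
    have hint2 : IntegrableOn (fun t : ℝ => E t * (t : ℂ) ^ (-(s + 1))) (Ioi (N : ℝ)) := by
      refine Integrable.mono' (hintr s hs0') ?_ ?_
      · apply Measurable.aestronglyMeasurable
        apply hEm.mul
        fun_prop
      · exact (ae_restrict_mem measurableSet_Ioi).mono fun t ht => hb s t ht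
    have hsub : ∫ t in Ioi (1 : ℝ), (∑ k ∈ Finset.Icc 1 ⌊t⌋₊, g k) * (t : ℂ) ^ (-(s + 1)) =
        ∫ t in Ioi (N : ℝ), (∑ k ∈ Finset.Icc 1 ⌊t⌋₊, g k) * (t : ℂ) ^ (-(s + 1)) := by
      apply setIntegral_eq_of_subset_of_forall_sdiff_eq_zero measurableSet_Ioi
        (Ioi_subset_Ioi hN1)
      intro t ht
      have h3 : t ≤ N := not_lt.1 ht.2
      rw [hP0 _ (by
        have := Nat.floor_le_floor h3
        rwa [Nat.floor_natCast] at this), zero_mul]
    have hsplit : ∫ t in Ioi (N : ℝ), (∑ k ∈ Finset.Icc 1 ⌊t⌋₊, g k) * (t : ℂ) ^ (-(s + 1)) =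
        ∫ t in Ioi (N : ℝ), ((c * (t : ℂ) ^ (-s) - c * N * (t : ℂ) ^ (-(s + 1))) +
          E t * (t : ℂ) ^ (-(s + 1))) := by
      apply setIntegral_congr_fun measurableSet_Ioi
      intro t ht
      have ht0 : (t : ℂ) ≠ 0 := by
        have := mem_Ioi.1 ht
        exact_mod_cast (by linarith : t ≠ 0)
      have e1 : (t : ℂ) ^ (-s) = t * (t : ℂ) ^ (-(s + 1)) := by
        rw [show -s = 1 + (-(s + 1)) by ring, cpow_add _ _ ht0, cpow_one]
      simp only
      rw [e1, congrFun hE t]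
      ring
    have hI0 : Integrable (fun t : ℝ => c * (t : ℂ) ^ (-s)) (volume.restrict (Ioi (N : ℝ))) :=
      hint0.const_mul c
    have hI1 : Integrable (fun t : ℝ => c * N * (t : ℂ) ^ (-(s + 1)))
        (volume.restrict (Ioi (N : ℝ))) := hint1.const_mul (c * N)
    have hI2 : Integrable (fun t : ℝ => c * (t : ℂ) ^ (-s) - c * N * (t : ℂ) ^ (-(s + 1)))
        (volume.restrict (Ioi (N : ℝ))) := hI0.sub hI1
    rw [hsub, hsplit, integral_add hI2 hint2, integral_sub hI0 hI1, integral_const_mul,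
      integral_const_mul, integral_Ioi_cpow_of_lt (by rw [neg_re]; linarith) hN0,
      integral_Ioi_cpow_of_lt (by rw [hre]; linarith) hN0]
    have hHs : ∫ t in Ioi (N : ℝ), E t * (t : ℂ) ^ (-(s + 1)) = HH s := by rw [hHH]
    rw [hHs]
    have e6 : ((N : ℝ) : ℂ) ^ (-s + 1) = N * ((N : ℂ) ^ (-s)) := by
      rw [ofReal_natCast, add_comm, cpow_add _ _ hN0', cpow_one]
    have e7 : ((N : ℝ) : ℂ) ^ (-(s + 1) + 1) = (N : ℂ) ^ (-s) := by
      rw [ofReal_natCast]; congr 1; ring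
    have e8 : (N : ℂ) ^ (1 - s) = N * ((N : ℂ) ^ (-s)) := by
      rw [sub_eq_add_neg, cpow_add _ _ hN0', cpow_one]
    rw [e6, e7, e8]
    rw [show -(s + 1) + 1 = -s by ring, show -s + 1 = -(s - 1) by ring]
    field_simp
    ring
  · intro s hs
    rw [norm_mul]
    have := mul_le_mul_of_nonneg_left (hHHb s hs) (norm_nonneg s)
    refine this.trans (le_of_eq ?_)
    ring

end Pool.Agent.HPX
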