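import Pool.Agent.HPX.WTail

/-!
# HPX/WUp: upper bounds to the left of the line `Re s = 1`

`Λ = log (q Y) ≥ log 8 ≥ 2`, `σ = Re s ≥ 1 - 1 / Λ ≥ 1 / 2`, `N = ⌈q Y⌉`, `N ≤ 2 q Y = 2 e ^ Λ`. For `n ≤ N`:
`n ^ (-σ) = n⁻¹ n ^ (1 - σ) ≤ n⁻¹ (2 e ^ Λ) ^ (1 / Λ) ≤ 6 / n`.
* `L_up`: `g n = χ n` for `n > N`, `0` for `n ≤ N`; `tail_cont` with `c = 0`, `B = 2 q` (partial sums of `χ` are bounded
  by `q`). On `Re s > 0`: `LFunction χ s = ∑ n ∈ Icc 1 N, χ n * n ^ (-s) + G s`: true for `Re s > 1`, both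
  sides are differentiable on the half plane, identity theorem. Sum: `≤ 6 (1 + log N) ≤ 6 (2 + Λ)`;
  `‖G s‖ ≤ (3 + Y) (2 q + 1) N⁻¹ N ^ (1 - σ) / σ ≤ 2 Y * 3 q / (q Y) * 6 * 2`.
* `zeta_up`: the same with `g n = 1` for `n > N = ⌈Y⌉`, `c = 1`, `B = 0`: on `Re s > 0`, `s ≠ 1`,
  `(s - 1) ζ(s) = (s - 1) ∑ n ∈ Icc 1 N, n ^ (-s) + N ^ (1 - s) + (s - 1) G s`. For the identity theorem use the
  function `LFunctionTrivChar₁ 1` (entire; `= (s - 1) ζ(s)` for `s ≠ 1`) on the left. `‖N ^ (1 - s)‖ ≤ 6`.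
-/

namespace Pool.Agent.HPX

open Complex DirichletCharacter

/-! ### partial sums of a nonprincipal character -/

private theorem wu_period {M : ℕ} [NeZero M] {χ : DirichletCharacter ℂ M} (hχ : χ ≠ 1) :
    ∑ k ∈ Finset.range M, χ (k : ZMod M) = 0 := by
  rw [← MulChar.sum_eq_zero_of_ne_one hχ]
  refine Finset.sum_bij (fun k _ => (k : ZMod M)) (fun _ _ => Finset.mem_univ _) ?_ ?_
    (fun _ _ => rfl)
  · intro a ha b hb hab
    rw [Finset.mem_range] at ha hb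
    rw [ZMod.natCast_eq_natCast_iff'] at hab
    rwa [Nat.mod_eq_of_lt ha, Nat.mod_eq_of_lt hb] at hab
  · intro b _
    exact ⟨b.val, Finset.mem_range.2 (ZMod.val_lt b), ZMod.natCast_zmod_val b⟩

private theorem wu_block {M : ℕ} [NeZero M] {χ : DirichletCharacter ℂ M} (hχ : χ ≠ 1) (q : ℕ) :
    ∑ k ∈ Finset.range (q * M), χ (k : ZMod M) = 0 := by
  induction q with
  | zero => simp
  | succ q ih =>
    rw [add_mul, one_mul, Finset.sum_range_add, ih, zero_add]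
    rw [← wu_period hχ]
    apply Finset.sum_congr rfl
    intro k _
    congr 1
    push_cast
    simp

private theorem wu_range_le {M : ℕ} [NeZero M] {χ : DirichletCharacter ℂ M} (hχ : χ ≠ 1) (n : ℕ) :
    ‖∑ k ∈ Finset.range n, χ (k : ZMod M)‖ ≤ M := by
  have h1 : n = (n / M) * M + n % M := (Nat.div_add_mod' n M).symm
  rw [h1, Finset.sum_range_add, wu_block hχ, zero_add]
  refine (norm_sum_le _ _).trans ?_
  calc ∑ k ∈ Finset.range (n % M), ‖χ (((n / M) * M + k : ℕ) : ZMod M)‖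
      ≤ ∑ k ∈ Finset.range (n % M), (1 : ℝ) := Finset.sum_le_sum fun k _ => χ.norm_le_one _
    _ = (n % M : ℕ) := by simp
    _ ≤ M := by exact_mod_cast (Nat.mod_lt n (NeZero.pos M)).le

private theorem wu_Icc_le {M : ℕ} [NeZero M] {χ : DirichletCharacter ℂ M} (hχ : χ ≠ 1) (n : ℕ) :
    ‖∑ k ∈ Finset.Icc 1 n, χ (k : ZMod M)‖ ≤ M := by
  have hM : M ≠ 1 := fun h => hχ (level_one' χ h)
  have h0 : χ (0 : ZMod M) = 0 := χ.map_zero' hM
  have h1 : ∀ n : ℕ, ∑ k ∈ Finset.Icc 1 n, χ (k : ZMod M) =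
      ∑ k ∈ Finset.range (n + 1), χ (k : ZMod M) := by
    intro n
    induction n with
    | zero => simp [h0]
    | succ n ih => rw [Finset.sum_Icc_succ_top (by omega), ih, Finset.sum_range_succ _ (n + 1)]
  rw [h1]
  exact wu_range_le hχ _

/-- `∑_{N < k ≤ n} f k` -/
private theorem wu_tail_sum (f : ℕ → ℂ) {N n : ℕ} (h : N ≤ n) :
    ∑ k ∈ Finset.Icc 1 n, (if N < k then f k else 0) =
      ∑ k ∈ Finset.Icc 1 n, f k - ∑ k ∈ Finset.Icc 1 N, f k := by
  rw [eq_sub_iff_add_eq]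
  induction n, h using Nat.le_induction with
  | base =>
    have : ∑ k ∈ Finset.Icc 1 N, (if N < k then f k else 0) = 0 := by
      apply Finset.sum_eq_zero
      intro k hk
      rw [if_neg (by have := (Finset.mem_Icc.1 hk).2; omega)]
    rw [this, zero_add]
  | succ n hn ih =>
    rw [Finset.sum_Icc_succ_top (by omega), Finset.sum_Icc_succ_top (by omega), if_pos (by omega), ← ih]
    ring

/-- splitting a Dirichlet series -/
private theorem wu_split {f : ℕ → ℂ} {s : ℂ} (hf : LSeriesSummable f s) (N : ℕ) :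
    LSeries f s = ∑ n ∈ Finset.Icc 1 N, f n * (n : ℂ) ^ (-s) +
      LSeries (fun n => if N < n then f n else 0) s := by
  have h1 : HasSum (fun n => if n ∈ Finset.Icc 1 N then LSeries.term f s n else 0)
      (∑ n ∈ Finset.Icc 1 N, LSeries.term f s n) := by
    have : HasSum (fun n => if n ∈ Finset.Icc 1 N then LSeries.term f s n else 0)
        (∑ n ∈ Finset.Icc 1 N, if n ∈ Finset.Icc 1 N then LSeries.term f s n else 0) :=
      hasSum_sum_of_ne_finset_zero (fun n hn => if_neg hn)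
    rwa [Finset.sum_congr rfl (fun n hn => if_pos hn)] at this
  have h2 := (show Summable (LSeries.term f s) from hf).hasSum.sub h1
  have h3 : (fun n => LSeries.term f s n - if n ∈ Finset.Icc 1 N then LSeries.term f s n else 0) =
      LSeries.term (fun n => if N < n then f n else 0) s := by
    funext n
    rcases Nat.eq_zero_or_pos n with h | h
    · subst h; simp
    · by_cases hn : N < n
      · rw [if_neg (by simp; omega), sub_zero, LSeries.term_of_ne_zero h.ne',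
          LSeries.term_of_ne_zero h.ne', if_pos hn]
      · rw [if_pos (by simp; omega), sub_self, LSeries.term_of_ne_zero h.ne', if_neg hn, zero_div]
  rw [h3] at h2
  have h4 : LSeries (fun n => if N < n then f n else 0) s =
      LSeries f s - ∑ n ∈ Finset.Icc 1 N, LSeries.term f s n := h2.tsum_eq
  have h5 : ∑ n ∈ Finset.Icc 1 N, f n * (n : ℂ) ^ (-s) = ∑ n ∈ Finset.Icc 1 N, LSeries.term f s n := by
    apply Finset.sum_congr rfl
    intro n hn
    rw [LSeries.term_of_ne_zero (by have := (Finset.mem_Icc.1 hn).1; omega), cpow_neg, div_eq_mul_inv]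
  rw [h4, h5]
  ring

/-- identity theorem on the half plane -/
private theorem wu_ident {F G : ℂ → ℂ} (hF : DifferentiableOn ℂ F {s | 0 < s.re})
    (hG : DifferentiableOn ℂ G {s | 0 < s.re}) (h : ∀ s : ℂ, 1 < s.re → F s = G s) :
    ∀ s : ℂ, 0 < s.re → F s = G s := by
  have hopen : IsOpen {s : ℂ | 0 < s.re} := isOpen_lt continuous_const continuous_re
  have h1 : AnalyticOnNhd ℂ F {s : ℂ | 0 < s.re} := hF.analyticOnNhd hopen
  have h2 : AnalyticOnNhd ℂ G {s : ℂ | 0 < s.re} := hG.analyticOnNhd hopen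
  have hpre : IsPreconnected {s : ℂ | 0 < s.re} := (convex_halfSpace_re_gt 0).isPreconnected
  have h3 := h1.eqOn_of_preconnected_of_eventuallyEq h2 hpre (z₀ := 2) (by simp) (by
    have : ∀ᶠ z : ℂ in nhds 2, 1 < z.re :=
      (isOpen_lt continuous_const continuous_re).mem_nhds (by simp)
    filter_upwards [this] with z hz using h z hz)
  exact fun s hs => h3 hs

private theorem wu_pow' {Λ : ℝ} (hΛ : 2 ≤ Λ) {u : ℝ} (hu : 1 ≤ u) (hu2 : u ≤ 2 * Real.exp Λ) {σ : ℝ}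
    (hσ : 1 - 1 / Λ ≤ σ) : u ^ (1 - σ) ≤ 6 := by
  have hu0 : 0 < u := by linarith
  have h1 : u ^ (1 - σ) ≤ u ^ (1 / Λ) := Real.rpow_le_rpow_of_exponent_le hu (by linarith)
  have h2 : u ^ (1 / Λ) ≤ (2 * Real.exp Λ) ^ (1 / Λ) :=
    Real.rpow_le_rpow hu0.le hu2 (by positivity)
  have h3 : (2 * Real.exp Λ) ^ (1 / Λ) = Real.exp (1 + Real.log 2 / Λ) := by
    rw [Real.rpow_def_of_pos (by positivity), Real.log_mul (by norm_num) (Real.exp_pos _).ne',
      Real.log_exp]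
    congr 1
    field_simp
    ring
  have h4 : Real.log 2 / Λ ≤ Real.log 2 := by
    rw [div_le_iff₀ (by linarith)]
    have := Real.log_pos (show (1 : ℝ) < 2 by norm_num)
    nlinarith
  have h5 : Real.exp (1 + Real.log 2 / Λ) ≤ Real.exp 1 * 2 := by
    rw [Real.exp_add]
    apply mul_le_mul_of_nonneg_left _ (Real.exp_pos _).le
    calc Real.exp (Real.log 2 / Λ) ≤ Real.exp (Real.log 2) := Real.exp_le_exp.2 h4
      _ = 2 := Real.exp_log (by norm_num)
  have h6 := Real.exp_one_lt_d9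
  rw [h3] at h2
  linarith

private theorem wu_pow {Λ : ℝ} (hΛ : 2 ≤ Λ) {u : ℝ} (hu : 1 ≤ u) (hu2 : u ≤ 2 * Real.exp Λ) {σ : ℝ}
    (hσ : 1 - 1 / Λ ≤ σ) : u ^ (-σ) ≤ 6 / u := by
  have hu0 : 0 < u := by linarith
  have h1 : u ^ (-σ) = u ^ (1 - σ) / u := by
    rw [show 1 - σ = -σ + 1 by ring, Real.rpow_add hu0, Real.rpow_one]
    field_simp
  rw [h1]
  exact div_le_div_of_nonneg_right (wu_pow' hΛ hu hu2 hσ) hu0.le

/-- the finite sum -/
private theorem wu_fin {Λ : ℝ} (hΛ : 2 ≤ Λ) {N : ℕ} (hN : 1 ≤ N) (hN2 : (N : ℝ) ≤ 2 * Real.exp Λ)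
    {f : ℕ → ℂ} (hf : ∀ n, ‖f n‖ ≤ 1) {s : ℂ} (hs : 1 - 1 / Λ ≤ s.re) :
    ‖∑ n ∈ Finset.Icc 1 N, f n * (n : ℂ) ^ (-s)‖ ≤ 12 * Λ := by
  have h1 : ∀ n ∈ Finset.Icc 1 N, ‖f n * (n : ℂ) ^ (-s)‖ ≤ 6 * ((n : ℝ))⁻¹ := by
    intro n hn
    obtain ⟨hn1, hn2⟩ := Finset.mem_Icc.1 hn
    have hn0 : (0 : ℝ) < n := by exact_mod_cast hn1
    have hn1' : (1 : ℝ) ≤ n := by exact_mod_cast hn1
    have hn2' : (n : ℝ) ≤ N := by exact_mod_cast hn2
    rw [norm_mul, norm_natCast_cpow_of_pos hn1, neg_re]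
    calc ‖f n‖ * (n : ℝ) ^ (-s.re) ≤ 1 * (6 / n) := by
          apply mul_le_mul (hf n) (wu_pow hΛ hn1' (hn2'.trans hN2) hs) (Real.rpow_nonneg hn0.le _)
            zero_le_one
      _ = 6 * ((n : ℝ))⁻¹ := by rw [one_mul, div_eq_mul_inv]
  refine (norm_sum_le_of_le _ h1).trans ?_
  rw [← Finset.mul_sum]
  have h2 : ∑ n ∈ Finset.Icc 1 N, ((n : ℝ))⁻¹ ≤ 1 + Real.log N := by
    have := harmonic_le_one_add_log N
    rw [harmonic_eq_sum_Icc] at this
    push_cast at this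
    exact this
  have h3 : Real.log N ≤ 1 + Λ := by
    have hN0 : (0 : ℝ) < N := by exact_mod_cast hN
    have := Real.log_le_log hN0 hN2
    rw [Real.log_mul (by norm_num) (Real.exp_pos _).ne', Real.log_exp] at this
    have := Real.log_two_lt_d9
    linarith
  linarith

private theorem wu_log8 : 2 ≤ Real.log 8 := by
  rw [show (8 : ℝ) = 2 ^ 3 by norm_num, Real.log_pow]
  have := Real.log_two_gt_d9
  push_cast
  linarith

/-- the tail -/
private theorem wu_G {X Y : ℝ} (hY : 8 ≤ Y) (hX : Y ≤ X) {s : ℂ} (hs : 1 - 1 / Real.log X ≤ s.re)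
    (hs3 : s.re ≤ 3) (him : |s.im| ≤ Y) {B : ℝ} (hB : 0 ≤ B) {g : ℝ}
    (hg : g ≤ ‖s‖ * (B + 1) * ((⌈X⌉₊ : ℕ) : ℝ) ^ (-s.re) / s.re) : g ≤ 24 * Y * (B + 1) / X := by
  have hX8 : 8 ≤ X := hY.trans hX
  have hX0 : 0 < X := by linarith
  have hΛ : 2 ≤ Real.log X := wu_log8.trans (Real.log_le_log (by norm_num) hX8)
  have hre : 1 / 2 ≤ s.re := by
    have : 1 / Real.log X ≤ 1 / 2 := one_div_le_one_div_of_le (by norm_num) hΛ
    linarith
  have hN1 : X ≤ (⌈X⌉₊ : ℝ) := Nat.le_ceil X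
  have hN2 : (⌈X⌉₊ : ℝ) ≤ 2 * Real.exp (Real.log X) := by
    rw [Real.exp_log hX0]
    have := Nat.ceil_lt_add_one hX0.le
    linarith
  have h1 := wu_pow hΛ (by linarith : (1 : ℝ) ≤ (⌈X⌉₊ : ℝ)) hN2 hs
  have h2 : ((⌈X⌉₊ : ℕ) : ℝ) ^ (-s.re) ≤ 6 / X :=
    h1.trans (div_le_div_of_nonneg_left (by norm_num) hX0 hN1)
  have h3 : ‖s‖ ≤ 2 * Y := by
    have := norm_le_abs_re_add_abs_im s
    rw [abs_of_nonneg (by linarith : (0 : ℝ) ≤ s.re)] at this
    linarith
  have h4 : (s.re)⁻¹ ≤ 2 := by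
    rw [inv_le_comm₀ (by linarith) (by norm_num)]
    linarith
  refine hg.trans ?_
  rw [div_eq_mul_inv]
  calc ‖s‖ * (B + 1) * ((⌈X⌉₊ : ℕ) : ℝ) ^ (-s.re) * (s.re)⁻¹
      ≤ (2 * Y) * (B + 1) * (6 / X) * 2 := by
        have : 0 ≤ ((⌈X⌉₊ : ℕ) : ℝ) ^ (-s.re) := Real.rpow_nonneg (by positivity) _
        have : 0 ≤ (s.re)⁻¹ := inv_nonneg.2 (by linarith)
        gcongr
    _ = 24 * Y * (B + 1) / X := by ring

theorem L_up : ∃ C : ℝ, 1 ≤ C ∧ ∀ (q : ℕ) [NeZero q] (χ : DirichletCharacter ℂ q), χ ≠ 1 →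
    ∀ Y : ℝ, 8 ≤ Y → ∀ s : ℂ, 1 - 1 / Real.log (q * Y) ≤ s.re → s.re ≤ 3 → |s.im| ≤ Y →
    ‖LFunction χ s‖ ≤ C * Real.log (q * Y) := by
  refine ⟨48, by norm_num, fun q _ χ hχ Y hY s hs hs3 him => ?_⟩
  have hq1 : (1 : ℝ) ≤ q := by exact_mod_cast NeZero.pos q
  have hX : Y ≤ q * Y := by nlinarith
  have hX0 : (0 : ℝ) < q * Y := by nlinarith
  set X : ℝ := q * Y with hXd
  set Λ := Real.log X with hΛd
  have hΛ : 2 ≤ Λ := wu_log8.trans (Real.log_le_log (by norm_num) (hY.trans hX))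
  set N : ℕ := ⌈X⌉₊ with hN
  have hN1 : X ≤ (N : ℝ) := Nat.le_ceil X
  have hN1' : 1 ≤ N := by
    have : (1 : ℝ) ≤ N := by linarith
    exact_mod_cast this
  have hN2 : (N : ℝ) ≤ 2 * Real.exp Λ := by
    rw [hΛd, Real.exp_log hX0]
    have := Nat.ceil_lt_add_one hX0.le
    rw [← hN] at this
    linarith
  have hnorm : ∀ n : ℕ, ‖χ (n : ZMod q)‖ ≤ 1 := fun n => χ.norm_le_one _
  obtain ⟨G, hG1, hG2, hG3⟩ := tail_cont (fun n : ℕ => if N < n then χ (n : ZMod q) else 0) 0 (by simp)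
    hN1' (B := 2 * q) (by positivity)
    (fun n => by
      by_cases h : N < n
      · simp only [if_pos h]; exact hnorm n
      · simp only [if_neg h]; simp)
    (fun n hn => if_neg (by omega))
    (fun n hn => by
      rw [zero_mul, sub_zero, wu_tail_sum (fun n : ℕ => χ (n : ZMod q)) hn]
      calc _ ≤ ‖∑ k ∈ Finset.Icc 1 n, χ (k : ZMod q)‖ + ‖∑ k ∈ Finset.Icc 1 N, χ (k : ZMod q)‖ :=
            norm_sub_le _ _
        _ ≤ q + q := add_le_add (wu_Icc_le hχ n) (wu_Icc_le hχ N)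
        _ = 2 * q := by ring)
  have hre : 0 < s.re := by
    have : 1 / Λ ≤ 1 / 2 := one_div_le_one_div_of_le (by norm_num) hΛ
    linarith
  have hid : LFunction χ s = ∑ n ∈ Finset.Icc 1 N, χ (n : ZMod q) * (n : ℂ) ^ (-s) + G s := by
    refine wu_ident (F := LFunction χ)
      (G := fun s => ∑ n ∈ Finset.Icc 1 N, χ (n : ZMod q) * (n : ℂ) ^ (-s) + G s)
      (differentiable_LFunction hχ).differentiableOn ?_ ?_ s hre
    · apply DifferentiableOn.add _ hG1
      apply Differentiable.differentiableOn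
      apply Differentiable.fun_sum
      intro n hn
      apply Differentiable.const_mul
      have hn0 : (n : ℂ) ≠ 0 := by
        have := (Finset.mem_Icc.1 hn).1
        exact_mod_cast (by omega : n ≠ 0)
      intro z
      exact (differentiableAt_id.neg).const_cpow (Or.inl hn0)
    · intro z hz
      have hz1 : z - 1 ≠ 0 := by
        intro h
        have : z = 1 := by linear_combination h
        rw [this] at hz
        simp at hz
      rw [LFunction_eq_LSeries χ hz, wu_split (LSeriesSummable_of_one_lt_re χ hz) N]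
      have := hG2 z hz
      rw [zero_mul, zero_add] at this
      rw [mul_left_cancel₀ hz1 this]
  rw [hid]
  have h1 := wu_fin hΛ hN1' hN2 hnorm hs
  have h2 := wu_G hY hX hs hs3 him (B := 2 * q) (by positivity) (hG3 s hre)
  have h3 : 24 * Y * (2 * (q : ℝ) + 1) / X ≤ 72 := by
    rw [div_le_iff₀ hX0, hXd]
    nlinarith
  calc _ ≤ ‖∑ n ∈ Finset.Icc 1 N, χ (n : ZMod q) * (n : ℂ) ^ (-s)‖ + ‖G s‖ := norm_add_le _ _
    _ ≤ 12 * Λ + 72 := by linarith
    _ ≤ 48 * Λ := by linarith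

theorem zeta_up : ∃ C : ℝ, 1 ≤ C ∧ ∀ Y : ℝ, 8 ≤ Y → ∀ s : ℂ, 1 - 1 / Real.log Y ≤ s.re → s.re ≤ 3 →
    |s.im| ≤ Y → ‖(s - 1) * riemannZeta s‖ ≤ C * (1 + ‖s - 1‖) * Real.log Y := by
  refine ⟨24, by norm_num, fun Y hY s hs hs3 him => ?_⟩
  have hX0 : (0 : ℝ) < Y := by linarith
  set Λ := Real.log Y with hΛd
  have hΛ : 2 ≤ Λ := wu_log8.trans (Real.log_le_log (by norm_num) hY)
  by_cases hs1 : s = 1
  · rw [hs1]; simp; positivity
  set N : ℕ := ⌈Y⌉₊ with hN
  have hN1 : Y ≤ (N : ℝ) := Nat.le_ceil Y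
  have hN1' : 1 ≤ N := by
    have : (1 : ℝ) ≤ N := by linarith
    exact_mod_cast this
  have hN2 : (N : ℝ) ≤ 2 * Real.exp Λ := by
    rw [hΛd, Real.exp_log hX0]
    have := Nat.ceil_lt_add_one hX0.le
    rw [← hN] at this
    linarith
  obtain ⟨G, hG1, hG2, hG3⟩ := tail_cont (fun n : ℕ => if N < n then (1 : ℂ) else 0) 1 (by simp)
    hN1' (B := 0) le_rfl
    (fun n => by
      by_cases h : N < n
      · simp only [if_pos h]; simp
      · simp only [if_neg h]; simp)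
    (fun n hn => if_neg (by omega))
    (fun n hn => by
      rw [wu_tail_sum (fun _ : ℕ => (1 : ℂ)) hn]
      simp)
  have hre : 0 < s.re := by
    have : 1 / Λ ≤ 1 / 2 := one_div_le_one_div_of_le (by norm_num) hΛ
    linarith
  have hN0 : (N : ℂ) ≠ 0 := by exact_mod_cast (by omega : N ≠ 0)
  have hid : LFunctionTrivChar₁ 1 s = (s - 1) * ∑ n ∈ Finset.Icc 1 N, (1 : ℂ) * (n : ℂ) ^ (-s) +
      (N : ℂ) ^ (1 - s) + (s - 1) * G s := by
    refine wu_ident (F := LFunctionTrivChar₁ 1)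
      (G := fun s => (s - 1) * ∑ n ∈ Finset.Icc 1 N, (1 : ℂ) * (n : ℂ) ^ (-s) +
      (N : ℂ) ^ (1 - s) + (s - 1) * G s)
      (differentiable_LFunctionTrivChar₁ 1).differentiableOn ?_ ?_ s hre
    · have hd : Differentiable ℂ fun s : ℂ => s - 1 := differentiable_id.sub_const 1
      apply DifferentiableOn.add
      · apply Differentiable.differentiableOn
        apply Differentiable.add
        · apply hd.mul
          apply Differentiable.fun_sum
          intro n hn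
          apply Differentiable.const_mul
          have hn0 : (n : ℂ) ≠ 0 := by
            have := (Finset.mem_Icc.1 hn).1
            exact_mod_cast (by omega : n ≠ 0)
          intro z
          exact (differentiableAt_id.neg).const_cpow (Or.inl hn0)
        · intro z
          exact (differentiableAt_id.const_sub 1).const_cpow (Or.inl hN0)
      · exact hd.differentiableOn.mul hG1
    · intro z hz
      have hz1 : z ≠ 1 := by
        intro h
        rw [h] at hz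
        simp at hz
      have e1 : LFunctionTrivChar₁ 1 z = (z - 1) * riemannZeta z := by
        rw [LFunctionTrivChar₁, Function.update_of_ne hz1]
        congr 1
        rw [LFunctionTrivChar_eq_mul_riemannZeta hz1]
        simp
      rw [e1, ← LSeries_one_eq_riemannZeta hz, wu_split (LSeriesSummable_one_iff.mpr hz) N, mul_add]
      have := hG2 z hz
      rw [one_mul] at this
      simp only [Pi.one_apply]
      rw [this]
      ring
  have e1 : LFunctionTrivChar₁ 1 s = (s - 1) * riemannZeta s := by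
    rw [LFunctionTrivChar₁, Function.update_of_ne hs1]
    congr 1
    rw [LFunctionTrivChar_eq_mul_riemannZeta hs1]
    simp
  rw [← e1, hid]
  have h1 := wu_fin hΛ hN1' hN2 (f := fun _ => (1 : ℂ)) (by simp) hs
  have h2 := wu_G hY le_rfl hs hs3 him (B := 0) le_rfl (hG3 s hre)
  have h3 : 24 * Y * ((0 : ℝ) + 1) / Y = 24 := by
    rw [zero_add, mul_one]
    field_simp
  rw [h3] at h2
  have h4 : ‖(N : ℂ) ^ (1 - s)‖ ≤ 6 := by
    rw [norm_natCast_cpow_of_pos (by omega), sub_re, one_re]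
    exact wu_pow' hΛ (by linarith) hN2 hs
  have h5 : 0 ≤ ‖s - 1‖ := norm_nonneg _
  calc _ ≤ ‖(s - 1) * ∑ n ∈ Finset.Icc 1 N, (1 : ℂ) * (n : ℂ) ^ (-s)‖ + ‖(N : ℂ) ^ (1 - s)‖ +
        ‖(s - 1) * G s‖ := norm_add₃_le
    _ ≤ ‖s - 1‖ * (12 * Λ) + 6 + ‖s - 1‖ * 24 := by
      rw [norm_mul, norm_mul]
      gcongr
    _ ≤ 24 * (1 + ‖s - 1‖) * Λ := by nlinarith

end Pool.Agent.HPX
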